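import Pool.Agent.Work.MP_e25190_gt.Sweep

-- merged part: Pool.Agent.Work.MP_e25190_gt.Lots
section
-- merged part: Pool.Agent.Work.MP_e25190_gt.Clock
section
/-! A combinatorial map from a fine grid to a coarse grid with whiskers. -/

open Set

namespace Pool.Agent.Work.MP_e25190_gt

variable {m : ℕ}

/-- nearest multiple of `2 b` -/
def rr (b z : ℤ) : ℤ := (z + b) / (2 * b)

/-- offset to the nearest multiple of `2 b` -/
def yy (b z : ℤ) : ℤ := (z + b) % (2 * b) - b

open Classical in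
/-- the column after or before the jump -/
noncomputable def colf (b z : ℤ) (J : Prop) : ℤ :=
  if J then 2 * rr b z else 2 * rr b z + if 0 ≤ yy b z then 1 else -1

theorem ry {b : ℤ} (hb : 0 < b) (z : ℤ) :
    z = 2 * b * rr b z + yy b z ∧ -b ≤ yy b z ∧ yy b z < b := by
  have h1 := Int.mul_ediv_add_emod (z + b) (2 * b)
  have h2 := Int.emod_nonneg (z + b) (by omega : 2 * b ≠ 0)
  have h3 := Int.emod_lt_of_pos (z + b) (by omega : 0 < 2 * b)
  unfold rr yy
  omega

theorem ry_near {b z z' : ℤ} (hb : 2 ≤ b) (h : |z - z'| ≤ 2) :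
    (rr b z' = rr b z ∧ yy b z' = yy b z + z' - z) ∨
    (rr b z' = rr b z + 1 ∧ yy b z' = yy b z + z' - z - 2 * b) ∨
    (rr b z' = rr b z - 1 ∧ yy b z' = yy b z + z' - z + 2 * b) := by
  obtain ⟨a1, a2, a3⟩ := ry (by omega : 0 < b) z
  obtain ⟨b1, b2, b3⟩ := ry (by omega : 0 < b) z'
  rw [abs_le] at h
  generalize rr b z = r at *
  generalize rr b z' = r' at *
  have c1 : r' < r + 2 := by
    by_contra hc
    have : 2 * b * (r + 2) ≤ 2 * b * r' := mul_le_mul_of_nonneg_left (by omega) (by omega)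
    rw [mul_add] at this
    omega
  have c2 : r < r' + 2 := by
    by_contra hc
    have : 2 * b * (r' + 2) ≤ 2 * b * r := mul_le_mul_of_nonneg_left (by omega) (by omega)
    rw [mul_add] at this
    omega
  obtain rfl | rfl | rfl : r' = r ∨ r' = r + 1 ∨ r' = r - 1 := by omega
  · left; omega
  · right; left; rw [mul_add] at b1; omega
  · right; right; rw [mul_sub] at b1; omega

theorem yy_near {b z z' : ℤ} (hb : 2 ≤ b) (h : |z - z'| ≤ 2) : |(|yy b z| - |yy b z'|)| ≤ 2 := by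
  have a := ry (by omega : 0 < b) z
  have a' := ry (by omega : 0 < b) z'
  have := ry_near hb h
  rw [abs_le] at h ⊢
  rcases abs_cases (yy b z) with h1 | h1 <;> rcases abs_cases (yy b z') with h2 | h2 <;> omega

theorem colf_near {b z z' : ℤ} {J J' : Prop} (hb : 2 ≤ b) (h : |z - z'| ≤ 2)
    (h1 : J → |yy b z| ≤ b - 3) (h2 : ¬ J → 3 ≤ |yy b z|) (h1' : J' → |yy b z'| ≤ b - 3)
    (h2' : ¬ J' → 3 ≤ |yy b z'|) :
    |colf b z J - colf b z' J'| ≤ 1 ∧ ((J ↔ J') → colf b z J = colf b z' J') := by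
  have a := (ry (by omega : 0 < b) z).2
  have a' := (ry (by omega : 0 < b) z').2
  have := ry_near hb h
  rw [abs_le] at h ⊢
  unfold colf
  by_cases hJ : J <;> by_cases hJ' : J' <;> simp only [hJ, hJ', if_true, if_false, true_imp_iff,
    not_true, not_false_iff, false_imp_iff, iff_true, iff_false, iff_self, and_true]
      at h1 h2 h1' h2' ⊢ <;>
    rcases abs_cases (yy b z) with h3 | h3 <;> rcases abs_cases (yy b z') with h4 | h4 <;>
    (try split_ifs) <;> omega

theorem colf_le {b : ℤ} (hb : 0 < b) (z : ℤ) (J : Prop) : |z - b * colf b z J| ≤ b := by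
  obtain ⟨a1, a2, a3⟩ := ry hb z
  have e : b * (2 * rr b z) = 2 * b * rr b z := by ring
  rw [abs_le]
  unfold colf
  split_ifs <;> simp only [mul_add, e] <;> omega

theorem colf_mul {b a : ℤ} {J : Prop} (hb : 0 < b) (h1 : J → |yy b (b * a)| ≤ b - 3)
    (h2 : ¬ J → 3 ≤ |yy b (b * a)|) : colf b (b * a) J = a := by
  obtain ⟨a1, a2, a3⟩ := ry hb (b * a)
  have e : yy b (b * a) = b * (a - 2 * rr b (b * a)) := by linarith only [a1]
  have c1 : a - 2 * rr b (b * a) < 1 := lt_of_mul_lt_mul_left (a := b) (by linarith) hb.le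
  have c2 : -1 ≤ a - 2 * rr b (b * a) := le_of_mul_le_mul_left (a := b) (by linarith) hb
  unfold colf
  obtain h | h : a - 2 * rr b (b * a) = 0 ∨ a - 2 * rr b (b * a) = -1 := by omega
  · rw [h, mul_zero] at e
    rw [e] at h2
    rw [if_pos (by by_contra hc; simpa using h2 hc)]; omega
  · rw [h, mul_neg, mul_one] at e
    rw [e, abs_neg, abs_of_pos hb] at h1
    rw [if_neg (fun hc => by have := h1 hc; omega), if_neg (by omega)]; omega

/-- one window of the clock -/
noncomputable def c1 (x : ℝ) : ℝ := max 0 (min (x + 1) 2)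

/-- the clock runs near the times `0`, `n`, `t i` -/
noncomputable def ck (t : Fin m → ℝ) (n τ : ℝ) : ℝ := c1 τ + c1 (τ - n) + ∑ i, c1 (τ - t i)

/-- clamp to `[0, n]` -/
noncomputable def cn (n τ : ℝ) : ℝ := max 0 (min τ n)

/-- far from all jumps -/
def Far (ρ : ℝ) (t : Fin m → ℝ) (n τ : ℝ) : Prop := ρ ≤ τ ∧ τ ≤ n - ρ ∧ ∀ i, ρ ≤ |τ - t i|

theorem c1_mono {x y : ℝ} (h : x ≤ y) : c1 x ≤ c1 y :=
  max_le_max le_rfl (min_le_min_right _ (by linarith))
theorem c1_nonneg (x : ℝ) : 0 ≤ c1 x := le_max_left _ _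
theorem c1_le (x : ℝ) : c1 x ≤ 2 := max_le zero_le_two (min_le_right _ _)
theorem c1_eq {x : ℝ} (h : -1 ≤ x) (h' : x ≤ 1) : c1 x = x + 1 := by
  rw [c1, min_eq_left (by linarith), max_eq_right (by linarith)]
theorem c1_lo {x : ℝ} (h : x ≤ -1) : c1 x = 0 :=
  max_eq_left ((min_le_left _ _).trans (by linarith))
theorem c1_hi {x : ℝ} (h : 1 ≤ x) : c1 x = 2 := by
  rw [c1, min_eq_right (by linarith), max_eq_right zero_le_two]

theorem ck_mono (t : Fin m → ℝ) (n : ℝ) {τ τ' : ℝ} (h : τ ≤ τ') : ck t n τ ≤ ck t n τ' :=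
  add_le_add (add_le_add (c1_mono h) (c1_mono (by linarith)))
    (Finset.sum_le_sum fun _ _ => c1_mono (by linarith))

theorem ck_win {t : Fin m → ℝ} {n τ τ' s : ℝ} (h : τ ≤ τ') (h1 : s - 1 ≤ τ) (h2 : τ' ≤ s + 1)
    (hs : s = 0 ∨ s = n ∨ ∃ i, s = t i) : ck t n τ + (τ' - τ) ≤ ck t n τ' := by
  have a1 : ∑ i, c1 (τ - t i) ≤ ∑ i, c1 (τ' - t i) :=
    Finset.sum_le_sum fun i _ => c1_mono (by linarith)
  have a2 := c1_mono h
  have a3 : c1 (τ - n) ≤ c1 (τ' - n) := c1_mono (by linarith)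
  have e1 := c1_eq (x := τ - s) (by linarith) (by linarith)
  have e2 := c1_eq (x := τ' - s) (by linarith) (by linarith)
  rw [ck, ck]
  rcases hs with rfl | rfl | ⟨i, rfl⟩
  · rw [sub_zero] at e1 e2
    linarith only [a1, a3, e1, e2]
  · linarith
  · have := Finset.single_le_sum (f := fun i => c1 (τ' - t i) - c1 (τ - t i))
      (fun j _ => sub_nonneg.2 (c1_mono (by linarith))) (Finset.mem_univ i)
    rw [Finset.sum_sub_distrib] at this
    simp only [e1, e2] at this
    linarith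

theorem ck_par {t t' : Fin m → ℝ} {δ : ℝ} (h : ∀ i, |t i - t' i| ≤ δ) (n τ : ℝ) :
    |ck t n τ - ck t' n τ| ≤ m * δ := by
  rw [ck, ck, add_sub_add_left_eq_sub, ← Finset.sum_sub_distrib]
  refine (Finset.abs_sum_le_sum_abs _ _).trans ((Finset.sum_le_sum (g := fun _ => δ)
    fun i _ => ?_).trans (by simp))
  have h0 : 0 ≤ δ := (abs_nonneg _).trans (h i)
  refine d_max (d_const h0) (d_min ?_ (d_const h0))
  simpa [abs_sub_comm] using h i

theorem ck_surj {t : Fin m → ℝ} {n T y : ℝ} (hn : 0 ≤ n) (hT : 0 ≤ T) (h1 : ∀ i, -1 ≤ t i)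
    (h2 : ∀ i, t i ≤ T) (hy : y ∈ Icc (0 : ℝ) (2 * (m + 2))) : ∃ τ, ck t n τ = y := by
  have hc : Continuous (ck t n) := by unfold ck c1; fun_prop
  have a1 : ck t n (-2) = 0 := by
    rw [ck, c1_lo (by norm_num), c1_lo (by linarith),
      Finset.sum_eq_zero fun i _ => c1_lo (by linarith [h1 i])]; simp
  have a2 : ck t n (T + n + 1) = 2 * (m + 2) := by
    rw [ck, c1_hi (by linarith), c1_hi (by linarith),
      Finset.sum_congr rfl fun i _ => c1_hi (x := T + n + 1 - t i) (by linarith [h2 i])]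
    simp; ring
  obtain ⟨τ, -, h⟩ := intermediate_value_Icc (by linarith : -2 ≤ T + n + 1) hc.continuousOn
    (show y ∈ Icc (ck t n (-2)) (ck t n (T + n + 1)) by rwa [a1, a2])
  exact ⟨τ, h⟩

theorem cn_mem {n : ℝ} (hn : 0 ≤ n) (τ : ℝ) : 0 ≤ cn n τ ∧ cn n τ ≤ n :=
  ⟨le_max_left _ _, max_le hn (min_le_right _ _)⟩

theorem cn_cases {n : ℝ} (hn : 0 ≤ n) (τ : ℝ) : (τ ≤ 0 ∧ cn n τ = 0) ∨ (n ≤ τ ∧ cn n τ = n) ∨
    (0 ≤ τ ∧ τ ≤ n ∧ cn n τ = τ) := by
  rcases le_total τ 0 with h | h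
  · exact Or.inl ⟨h, max_eq_left ((min_le_left _ _).trans h)⟩
  rcases le_total n τ with h' | h'
  · exact Or.inr (Or.inl ⟨h', by rw [cn, min_eq_right h', max_eq_right hn]⟩)
  · exact Or.inr (Or.inr ⟨h, h', by rw [cn, min_eq_left h', max_eq_right h]⟩)

theorem ck_close {t t' : Fin m → ℝ} {n τ τ' δ : ℝ} (hn : 0 ≤ n) (h : ∀ i, |t i - t' i| ≤ δ)
    (hc : |ck t n τ - ck t' n τ'| ≤ δ) (hδ : (m + 1) * δ ≤ 1 / 8) (hf : ¬ Far (3 / 4) t n τ) :
    |cn n τ - cn n τ'| ≤ 1 / 8 := by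
  have m1 := cn_mem hn τ
  have m2 := cn_mem hn τ'
  have k1 := cn_cases hn τ
  have k2 := cn_cases hn τ'
  obtain ⟨s, hs, s1, s2⟩ : ∃ s, (s = 0 ∨ s = n ∨ ∃ i, s = t i) ∧ s - 3 / 4 ≤ cn n τ ∧
      cn n τ ≤ s + 3 / 4 := by
    clear * - n m t τ hf k1 m1
    by_cases a1 : 3 / 4 ≤ τ
    · by_cases a2 : τ ≤ n - 3 / 4
      · simp only [Far, a1, a2, true_and, not_forall, not_le, abs_lt] at hf
        obtain ⟨i, b1, b2⟩ := hf
        refine ⟨t i, Or.inr (Or.inr ⟨i, rfl⟩), ?_⟩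
        rcases k1 with k | k | k <;> constructor <;> linarith only [a1, k, a2, b1, b2, k.1, k.2]
      · refine ⟨n, Or.inr (Or.inl rfl), ?_⟩
        rcases k1 with k | k | k <;> constructor <;> linarith only [a1, k, m1, a2, k.1, k.2]
    · refine ⟨0, Or.inl rfl, ?_⟩
      rcases k1 with k | k | k <;> constructor <;> linarith only [m1, k, a1, k.1, k.2]
  have p := abs_le.1 (ck_par h n τ')
  rw [abs_le] at hc ⊢
  constructor
  · by_contra hlt
    set D := min (cn n τ' - cn n τ) (1 / 4) with hD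
    have d1 : D ≤ cn n τ' - cn n τ := min_le_left _ _
    have d2 : D ≤ 1 / 4 := min_le_right _ _
    have d3 : 1 / 8 < D := lt_min (by linarith only [hlt]) (by norm_num)
    have w := ck_win (τ := cn n τ) (τ' := cn n τ + D) (by linarith only [d3]) (by linarith only [s1]) (by linarith only [s2, d2]) hs
    have w1 := ck_mono t n (τ := τ) (τ' := cn n τ)
      (by clear * - τ n k1 m1 τ' m2 hlt; rcases k1 with ⟨_, _⟩ | ⟨_, _⟩ | ⟨_, _, _⟩ <;> linarith)
    have w2 := ck_mono t n (τ := cn n τ + D) (τ' := τ')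
      (by clear * - τ' n τ D k2 m1 hlt m2 d1; rcases k2 with ⟨_, _⟩ | ⟨_, _⟩ | ⟨_, _, _⟩ <;> linarith)
    linarith only [hc, hδ, p, d3, w, w1, w2, p.2, hc.1]
  · by_contra hlt
    set D := min (cn n τ - cn n τ') (1 / 4) with hD
    have d1 : D ≤ cn n τ - cn n τ' := min_le_left _ _
    have d2 : D ≤ 1 / 4 := min_le_right _ _
    have d3 : 1 / 8 < D := lt_min (by linarith only [hlt]) (by norm_num)
    have w := ck_win (τ := cn n τ - D) (τ' := cn n τ) (by clear * - n τ D d3 hs τ'; linarith) (by clear * - s n τ D s1 d2 hs τ'; linarith only [s1, d2]) (by clear * - n τ s s2 D hs τ'; linarith) hs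
    have w1 := ck_mono t n (τ := cn n τ) (τ' := τ)
      (by clear * - τ n k1 τ' m2 hlt m1; rcases k1 with ⟨_, _⟩ | ⟨_, _⟩ | ⟨_, _, _⟩ <;> linarith)
    have w2 := ck_mono t n (τ := τ') (τ' := cn n τ - D)
      (by clear * - τ' n τ D k2 m2 d1 m1 hlt; rcases k2 with ⟨_, _⟩ | ⟨_, _⟩ | ⟨_, _, _⟩ <;> linarith)
    clear * - m t n τ t' τ' δ D hc hδ p d3 w w1 w2
    linarith only [hc, hδ, p, d3, w, w1, w2, p.1, hc.2]

theorem ck_iff {t t' : Fin m → ℝ} {n τ τ' δ : ℝ} (hn : 0 ≤ n) (h : ∀ i, |t i - t' i| ≤ δ)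
    (hc : |ck t n τ - ck t' n τ'| ≤ δ) (hδ : (m + 1) * δ ≤ 1 / 8) (hf : Far (1 / 2) t n τ)
    (i : Fin m) : t i ≤ cn n τ ↔ t' i ≤ cn n τ' := by
  have h0 : 0 ≤ δ := (abs_nonneg _).trans hc
  have hm : 0 ≤ (m : ℝ) * δ := by positivity
  have hi := abs_le.1 (h i)
  have e : cn n τ = τ := by rw [cn, min_eq_left (by linarith only [hf, hf.2.1]), max_eq_right (by linarith only [hf, hf.1])]
  have C : |cn n τ - cn n τ'| ≤ 1 / 8 → (t i ≤ cn n τ ↔ t' i ≤ cn n τ') := by
    intro hcl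
    rw [e, abs_le] at hcl
    rw [e]
    rcases le_abs.1 (hf.2.2 i) with k | k
    · exact iff_of_true (by linarith only [k]) (by linarith only [hδ, hm, hi, hcl, k])
    · exact iff_of_false (by linarith only [k]) (by linarith only [hδ, hm, hi, hcl, k])
  by_cases f1 : Far (3 / 4) t n τ
  swap
  · exact C (ck_close hn h hc hδ f1)
  by_cases f2 : Far (3 / 4) t' n τ'
  swap
  · refine C ?_
    rw [abs_sub_comm] at hc ⊢
    exact ck_close hn (fun i => by rw [abs_sub_comm]; exact h i) hc hδ f2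
  have e' : cn n τ' = τ' := by
    clear * - n τ' m t' f2
    rw [cn, min_eq_left (by linarith only [f2, f2.2.1]), max_eq_right (by linarith only [f2, f2.1])]
  have p := abs_le.1 (ck_par h n τ')
  rw [abs_le] at hc
  rw [e, e']
  rcases le_abs.1 (f1.2.2 i) with k | k <;> rcases le_abs.1 (f2.2.2 i) with k' | k'
  · exact iff_of_true (by linarith only [k]) (by linarith only [k'])
  · exfalso
    have w := ck_win (n := n) (s := t i) (τ := t i - 1 / 2) (τ' := t i + 3 / 4) (by linarith only [])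
      (by linarith only []) (by linarith only []) (Or.inr (Or.inr ⟨i, rfl⟩))
    have w1 := ck_mono t n (τ := t i + 3 / 4) (τ' := τ) (by linarith only [k])
    have w2 := ck_mono t n (τ := τ') (τ' := t i - 1 / 2) (by clear * - τ' t i m δ t' hδ hm hi k' n τ; linarith only [hδ, hm, hi, k'])
    clear * - m t n τ t' τ' δ i hc hδ p w w1 w2
    linarith only [hc, hδ, p, w, w1, w2]
  · exfalso
    have w := ck_win (n := n) (s := t i) (τ := t i - 3 / 4) (τ' := t i + 1 / 2) (by linarith only [])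
      (by linarith only []) (by linarith only []) (Or.inr (Or.inr ⟨i, rfl⟩))
    have w1 := ck_mono t n (τ := τ) (τ' := t i - 3 / 4) (by linarith only [k])
    have w2 := ck_mono t n (τ := t i + 1 / 2) (τ' := τ') (by linarith only [hδ, hm, hi, k'])
    linarith only [hc, hδ, p, w, w1, w2]
  · exact iff_of_false (by linarith only [k]) (by linarith only [k'])

/-- vertices of the grid -/
abbrev V (m : ℕ) : Type := (Fin m → ℤ) × ℕ

/-- vertices at distance at most `D` -/
def Nr (D : ℤ) (u v : V m) : Prop := (∀ i, |u.1 i - v.1 i| ≤ D) ∧ |(u.2 : ℤ) - v.2| ≤ D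

theorem exists_phi (m : ℕ) : ∃ n₀ : ℕ, ∀ n : ℕ, ∃ B : ℕ, 1 ≤ B ∧
    ∃ (col : V m → Fin m → ℤ) (lev : V m → ℕ) (wh : V m → Prop),
      (∀ u v, Nr 2 u v → ∀ i, |col u i - col v i| ≤ 1) ∧
      (∀ u v, Nr 2 u v → ¬ wh u → |(lev u : ℤ) - lev v| ≤ 1) ∧
      (∀ u v, Nr 2 u v → wh u → col u = col v) ∧
      (∀ z σ, σ ≤ 1 → ¬ wh (z, σ) ∧ lev (z, σ) = 0 ∧ col (z, σ) = col (z, 0)) ∧
      (∀ z i, |z i - 2 * B * col (z, 0) i| ≤ 2 * B) ∧
      (∀ z σ, n₀ ≤ σ → ¬ wh (z, σ) ∧ lev (z, σ) = n) ∧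
      ∀ a σ, col (fun i => 2 * B * a i, σ) = a := by
  set κ : ℕ := 16 * (m + 1) with hκ
  have hm : (0 : ℝ) ≤ m := Nat.cast_nonneg m
  have κ1 : (κ : ℝ) = 16 * (m + 1) := by rw [hκ]; push_cast; ring
  have κ0 : (0 : ℝ) < κ := by rw [κ1]; positivity
  refine ⟨2 * (m + 2) * κ, fun n => ⟨κ * (n + 1) + 3, by omega, ?_⟩⟩
  set b : ℤ := 2 * (κ * (n + 1) + 3 : ℕ) with hb
  have b1 : 2 ≤ b := by omega
  have hn : (0 : ℝ) ≤ n := Nat.cast_nonneg n
  let t : (Fin m → ℤ) → Fin m → ℝ := fun z i => (|yy b (z i)| : ℤ) / κ - 1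
  let y : ℕ → ℝ := fun σ => min (σ / κ) (2 * (m + 2))
  have ex : ∀ u : V m, ∃ τ, ck (t u.1) n τ = y u.2 := fun u =>
    ck_surj (T := b / κ) hn (by positivity) (fun i => by
      have : (0 : ℝ) ≤ (|yy b (u.1 i)| : ℤ) / κ := by positivity
      simp only [t]; linarith only [this]) (fun i => by
      clear * - b m u i n κ t
      have a1 : |yy b (u.1 i)| ≤ b := by
        have := ry (by omega : 0 < b) (u.1 i)
        rw [abs_le]; omega
      have a2 : ((|yy b (u.1 i)| : ℤ) : ℝ) / κ ≤ b / κ := by gcongr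
      simp only [t]; linarith only [a2]) ⟨le_min (by positivity) (by positivity), min_le_right _ _⟩
  choose τ hτ using ex
  have J1 : ∀ (u : V m) i, t u.1 i ≤ cn n (τ u) → |yy b (u.1 i)| ≤ b - 3 := fun u i h => by
    clear * - t m u i n τ h hn b κ κ0 hb
    have a1 := h.trans (cn_mem hn _).2
    simp only [t] at a1
    rw [sub_le_iff_le_add, div_le_iff₀ κ0] at a1
    have a2 : |yy b (u.1 i)| ≤ (n + 1) * κ := by exact_mod_cast a1
    have a3 : b = 2 * (κ * (n + 1) + 3) := by rw [hb]; push_cast; ring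
    have a4 : (0 : ℤ) ≤ κ * (n + 1) := by positivity
    linarith only [a2, a3, a4]
  have J2 : ∀ (u : V m) i, ¬ t u.1 i ≤ cn n (τ u) → 3 ≤ |yy b (u.1 i)| := fun u i h => by
    have a1 := (cn_mem hn (τ u)).1.trans_lt (not_le.1 h)
    simp only [t] at a1
    rw [sub_pos, lt_div_iff₀ κ0, one_mul] at a1
    have a2 : (κ : ℤ) < |yy b (u.1 i)| := by exact_mod_cast a1
    omega
  have hδ : ((m : ℝ) + 1) * (2 / κ) ≤ 1 / 8 := le_of_eq (by rw [κ1]; field_simp; norm_num)
  have N1 : ∀ u v : V m, Nr 2 u v → ∀ i, |t u.1 i - t v.1 i| ≤ 2 / κ := fun u v h i => by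
    simp only [t]
    rw [sub_sub_sub_cancel_right, ← sub_div, abs_div, abs_of_pos κ0]
    gcongr
    exact_mod_cast yy_near b1 (h.1 i)
  have N2 : ∀ u v : V m, Nr 2 u v → |ck (t u.1) n (τ u) - ck (t v.1) n (τ v)| ≤ 2 / κ := by
    clear * - m t n τ κ y hτ κ0
    intro u v h
    rw [hτ, hτ]
    refine d_min ?_ (d_const (by positivity))
    rw [← sub_div, abs_div, abs_of_pos κ0]
    gcongr
    exact_mod_cast h.2
  have lo : ∀ z σ, σ ≤ 1 → τ (z, σ) ≤ 0 := fun z σ hσ => by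
    clear * - τ m z σ t n y hτ κ hσ κ0 κ1
    by_contra hc
    have a1 := hτ (z, σ)
    have a2 : y σ ≤ 1 / κ := (min_le_left _ _).trans (by gcongr; exact_mod_cast hσ)
    have a3 : 1 / (κ : ℝ) < 1 := by rw [div_lt_one κ0, κ1]; linarith only []
    have a4 := c1_mono (not_le.1 hc).le
    rw [c1_eq (by norm_num) (by norm_num)] at a4
    have a5 := c1_nonneg (τ (z, σ) - n)
    have a6 := Finset.sum_nonneg (s := Finset.univ) fun i _ => c1_nonneg (τ (z, σ) - t z i)
    simp only [ck] at a1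
    linarith only [a2, a3, a4, a5, a6, a1]
  have lo' : ∀ z σ, σ ≤ 1 → cn n (τ (z, σ)) = 0 := fun z σ hσ =>
    max_eq_left ((min_le_left _ _).trans (lo z σ hσ))
  refine ⟨fun u i => colf b (u.1 i) (t u.1 i ≤ cn n (τ u)), fun u => ⌊cn n (τ u)⌋₊,
    fun u => Far (1 / 2) (t u.1) n (τ u),
    fun u v h i => (colf_near b1 (h.1 i) (J1 u i) (J2 u i) (J1 v i) (J2 v i)).1,
    fun u v h hu => ?_, fun u v h hu => funext fun i => (colf_near b1 (h.1 i) (J1 u i) (J2 u i)
      (J1 v i) (J2 v i)).2 (ck_iff hn (N1 u v h) (N2 u v h) hδ hu i),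
    fun z σ hσ => ⟨fun hf => by linarith only [hf, lo, hσ, hf.1, lo z σ hσ], by simp [lo' z σ hσ], ?_⟩,
    fun z i => colf_le (by omega) _ _, fun z σ hσ => ?_,
    fun a σ => funext fun i => colf_mul (by omega) (J1 (_, σ) i) (J2 (_, σ) i)⟩
  · have a1 := abs_le.1 (ck_close hn (N1 u v h) (N2 u v h) hδ fun hf => hu
      ⟨by linarith only [hf, hf.1], by linarith only [hf, hf.2.1], fun i => by linarith only [hf, hf.2.2 i]⟩)
    have a2 := Nat.floor_le_floor (show cn n (τ u) ≤ cn n (τ v) + 1 by linarith only [a1])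
    have a3 := Nat.floor_le_floor (show cn n (τ v) ≤ cn n (τ u) + 1 by linarith only [a1])
    rw [Nat.floor_add_one (cn_mem hn _).1] at a2 a3
    simp only [abs_le]; omega
  · simp only [lo' z σ hσ, lo' z 0 zero_le_one]
  · have a1 := hτ (z, σ)
    have a2 : y σ = 2 * (m + 2) := min_eq_right (by rw [le_div_iff₀ κ0]; exact_mod_cast hσ)
    have a3 := c1_le (τ (z, σ))
    have a4 : ∑ i, c1 (τ (z, σ) - t z i) ≤ m * 2 :=
      (Finset.sum_le_sum fun i _ => c1_le _).trans (by simp)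
    have a5 : (n : ℝ) ≤ τ (z, σ) := by
      clear * - n τ m z σ y t a2 a3 a4 a1
      by_contra hc
      have := c1_mono (show τ (z, σ) - n ≤ 0 by linarith)
      rw [c1_eq (x := 0) (by norm_num) (by norm_num)] at this
      simp only [ck] at a1
      linarith only [a2, a3, a4, this, a1]
    refine ⟨fun hf => by linarith only [a5, hf, hf.2.1], ?_⟩
    simp only [cn]
    rw [min_eq_right a5, max_eq_right hn, Nat.floor_natCast]

end Pool.Agent.Work.MP_e25190_gt
end

-- merged part: Pool.Agent.Work.MP_e25190_gt.Fam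
section
/-! Families of paths on a grid all of whose squares are cheaply null-homotopic. -/

open Set

namespace Pool.Agent.Work.MP_e25190_gt

variable {S : Type*} [MetricSpace S] {m : ℕ}

theorem Nr.symm {D : ℤ} {u v : V m} (h : Nr D u v) : Nr D v u :=
  ⟨fun i => by rw [abs_sub_comm]; exact h.1 i, by rw [abs_sub_comm]; exact h.2⟩

theorem Nr.add {u v w : V m} (h : Nr 1 u v) (h' : Nr 1 v w) : Nr 2 u w :=
  ⟨fun i => (abs_sub_le _ _ _).trans (add_le_add (h.1 i) (h'.1 i)),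
    (abs_sub_le _ _ _).trans (add_le_add h.2 h'.2)⟩

theorem Nr.refl (u : V m) : Nr 1 u u := ⟨fun _ => by simp, by simp⟩

theorem Nr.two {u v : V m} (h : Nr 1 u v) : Nr 2 u v := h.add (Nr.refl v)

theorem Nr.up (a : Fin m → ℤ) (σ : ℕ) : Nr 1 ((a, σ) : V m) (a, σ + 1) := ⟨fun _ => by simp, by simp⟩

/-- the path of a walk -/
noncomputable def wk (E : ℕ → ℝ → S) : ℕ → ℕ → ℝ → S
  | σ, 0 => fun _ => E σ 0
  | σ, k + 1 => cat (E σ) (wk E (σ + 1) k)

omit [MetricSpace S] in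
theorem wk_zero (E : ℕ → ℝ → S) (σ k : ℕ) : wk E σ k 0 = E σ 0 := by
  cases k <;> simp [wk]

omit [MetricSpace S] in
theorem wk_one (E : ℕ → ℝ → S) (σ k : ℕ) : wk E σ k 1 = E (σ + k) 0 := by
  induction k generalizing σ with
  | zero => rfl
  | succ k ih => rw [wk, cat_one, ih, add_assoc, add_comm 1]

omit [MetricSpace S] in
theorem wk_shift (E : ℕ → ℝ → S) (σ k : ℕ) : wk E (σ + 1) k = wk (fun j => E (j + 1)) σ k := by
  induction k generalizing σ with
  | zero => rfl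
  | succ k ih => rw [wk, wk, ih]

theorem le_mul_pow {K c : ℝ} (hK : 0 ≤ K) (hc : 1 ≤ c) (k : ℕ) : K ≤ K * c ^ k :=
  le_mul_of_one_le_right hK (one_le_pow₀ hc)

theorem wk_lp {E : ℕ → ℝ → S} {K : ℝ} (h : ∀ j, Lp K (E j)) (h' : ∀ j, E j 1 = E (j + 1) 0)
    (σ k : ℕ) : Lp (K * 2 ^ k) (wk E σ k) := by
  induction k generalizing σ with
  | zero => exact Lp.const (by simpa using (h 0).nonneg) _
  | succ k ih =>
    rw [pow_succ, ← mul_assoc]
    exact ((h σ).mono (le_mul_pow (h 0).nonneg one_le_two k)).cat (ih _) (by rw [wk_zero, h'])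

theorem wk_fan {E ρ : ℕ → ℝ → S} {K : ℝ} (h : ∀ j, Lp K (E j)) (hρ : ∀ j, Lp K (ρ j))
    (h0 : ∀ j, E j 0 = ρ j 0) (h1 : ∀ j, E j 1 = ρ (j + 1) 0) (h2 : ∀ j j', ρ j 1 = ρ j' 1)
    (hT : ∀ j, W K (cat (E j) (ρ (j + 1))) (ρ j)) (σ k : ℕ) :
    W (K * 4 * 20 ^ k) (wk E σ k) (cat (ρ σ) (rv (ρ (σ + k)))) := by
  induction k generalizing σ with
  | zero => simpa [wk, h0] using (W.cancel (hρ σ)).symm
  | succ k ih =>
    have n := (h 0).nonneg
    have le : K ≤ K * 4 * 20 ^ k := le_trans (by linarith) (le_mul_pow (by linarith) (by norm_num) k)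
    rw [pow_succ, ← mul_assoc, show σ + (k + 1) = σ + 1 + k by ring]
    exact W.step ((h σ).mono le) ((hρ _).mono le) ((hρ _).mono le) (h1 σ) (h2 _ _)
      ((hT σ).mono le) (ih _)

/-- a family on the grid -/
structure Fam (ℓ N : ℝ) (n d : ℕ) (q : S) (s₀ : (Fin m → ℤ) → (Fin m → ℤ) → ℝ → S)
    (M : V m → S) (e : V m → V m → ℝ → S) : Prop where
  lip : ∀ u v, Nr 1 u v → Lp ℓ (e u v)
  e0 : ∀ u v, Nr 1 u v → e u v 0 = M u
  rev : ∀ u v, Nr 1 u v → e v u = rv (e u v)
  diag : ∀ u, e u u = fun _ => M u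
  quad : ∀ u v w t, Nr 1 u v → Nr 1 v w → Nr 1 u t → Nr 1 t w →
    W N (cat (e u v) (e v w)) (cat (e u t) (e t w))
  base : ∀ u v : V m, u.2 ≤ d → v.2 ≤ d → e u v = s₀ u.1 v.1
  top : ∀ u v : V m, n ≤ u.2 → n ≤ v.2 → e u v = fun _ => q

/-- the path along a column -/
noncomputable def colp (e : V m → V m → ℝ → S) (a : Fin m → ℤ) : ℕ → ℕ → ℝ → S :=
  wk fun j => e (a, j) (a, j + 1)

namespace Fam
variable {ℓ N K : ℝ} {n d : ℕ} {q : S} {s₀ : (Fin m → ℤ) → (Fin m → ℤ) → ℝ → S}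
  {M : V m → S} {e : V m → V m → ℝ → S}

theorem e1 (F : Fam ℓ N n d q s₀ M e) (u v : V m) (h : Nr 1 u v) : e u v 1 = M v := by
  rw [← F.e0 v u h.symm, F.rev u v h, rv_zero]

theorem M_top (F : Fam ℓ N n d q s₀ M e) (u : V m) (h : n ≤ u.2) : M u = q :=
  congrFun ((F.diag u).symm.trans (F.top u u h h)) 0

theorem col0 (F : Fam ℓ N n d q s₀ M e) (a : Fin m → ℤ) (σ k : ℕ) : colp e a σ k 0 = M (a, σ) := by
  rw [colp, wk_zero, F.e0 _ _ (Nr.up a σ)]

theorem col1 (F : Fam ℓ N n d q s₀ M e) (a : Fin m → ℤ) : colp e a 0 n 1 = q := by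
  rw [colp, wk_one, F.e0 _ _ (Nr.up a _), F.M_top _ (by simp)]

theorem col_lp (F : Fam ℓ N n d q s₀ M e) (a : Fin m → ℤ) (σ k : ℕ) :
    Lp (ℓ * 2 ^ k) (colp e a σ k) :=
  wk_lp (fun j => F.lip _ _ (Nr.up a j))
    (fun j => by rw [F.e1 _ _ (Nr.up a j), F.e0 _ _ (Nr.up a _)]) σ k

theorem ladder (F : Fam ℓ N n d q s₀ M e) (h1 : ℓ ≤ K) (h2 : N ≤ K) {a a' : Fin m → ℤ}
    (h : ∀ i, |a i - a' i| ≤ 1) (σ k : ℕ) (hk : n ≤ σ + k) :
    W (K * 4 * 36 ^ k) (cat (e (a, σ) (a', σ)) (colp e a' σ k)) (colp e a σ k) := by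
  have n0 : 0 ≤ ℓ := (F.lip _ _ (Nr.up a 0)).nonneg
  have nr : ∀ j : ℕ, Nr 1 ((a, j) : V m) (a', j) := fun j => ⟨h, by simp⟩
  induction k generalizing σ with
  | zero =>
    simp only [colp, wk]
    rw [F.top (a, σ) (a', σ) hk hk, F.top (a, σ) (a, σ + 1) hk (hk.trans (Nat.le_succ _)),
      F.top (a', σ) (a', σ + 1) hk (hk.trans (Nat.le_succ _)), cat_const]
    exact W.refl (Lp.const (by simp only [pow_zero]; linarith only [h1, n0]) _)
  | succ k ih =>
    have le : K ≤ K * 4 * 36 ^ k := le_trans (by linarith only [h1, n0]) (le_mul_pow (by linarith only [h1, n0]) (by norm_num) k)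
    have le' : ℓ * 2 ^ k ≤ K * 4 * 36 ^ k := by
      have : (2 : ℝ) ^ k ≤ 36 ^ k := by gcongr; norm_num
      exact mul_le_mul (by linarith only [h1, n0]) this (by positivity) (by linarith only [h1, n0])
    have L : ∀ u v, Nr 1 u v → Lp (K * 4 * 36 ^ k) (e u v) := fun u v h =>
      (F.lip u v h).mono (h1.trans le)
    rw [pow_succ, ← mul_assoc]
    exact W.rung (L _ _ (nr σ)) (L _ _ (nr (σ + 1))) (L _ _ (Nr.up a σ)) (L _ _ (Nr.up a' σ))
      ((F.col_lp a' _ k).mono le') (by rw [F.e1 _ _ (nr σ), F.e0 _ _ (Nr.up a' σ)])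
      ((F.e1 _ _ (Nr.up a' σ)).trans (F.col0 _ _ _).symm)
      (by rw [F.e1 _ _ (Nr.up a σ), F.e0 _ _ (nr _)]) ((F.e1 _ _ (nr _)).trans (F.col0 _ _ _).symm)
      ((F.quad _ _ _ _ (nr σ) (Nr.up a' σ) (Nr.up a σ) (nr _)).mono (h2.trans le))
      (ih _ (by omega))

theorem exists_fan (F : Fam ℓ N n d q s₀ M e) (hK : ℓ ≤ K)
    (hS : ∀ α : ℝ → S, Lp (ℓ * 2) α → ∃ β, Lp ℓ β ∧ W K α β) (a : Fin m → ℤ) :
    ∃ p : ℕ → ℝ → S, (∀ j, Lp ℓ (p j) ∧ p j 0 = M (a, j) ∧ p j 1 = M (a, 0)) ∧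
      ∀ j j' : ℕ, |(j : ℤ) - j'| ≤ 1 → W (K * 30) (cat (e (a, j) (a, j')) (p j')) (p j) := by
  have n0 : 0 ≤ ℓ := (F.lip _ _ (Nr.up a 0)).nonneg
  choose! sh h1 h2 using hS
  let p : ℕ → ℝ → S := fun j => Nat.rec (fun _ => M (a, 0))
    (fun j p => sh (cat (e (a, j + 1) (a, j)) p)) j
  have key : ∀ j, Lp ℓ (p j) ∧ p j 0 = M (a, j) →
      Lp (ℓ * 2) (cat (e (a, j + 1) (a, j)) (p j)) := fun j h =>
    (F.lip _ _ (Nr.up a j).symm).cat h.1 (by rw [h.2, F.e1 _ _ (Nr.up a j).symm])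
  have inv : ∀ j, Lp ℓ (p j) ∧ p j 0 = M (a, j) ∧ p j 1 = M (a, 0) := by
    intro j
    induction j with
    | zero => exact ⟨Lp.const n0 _, rfl, rfl⟩
    | succ j ih =>
      have k := key j ⟨ih.1, ih.2.1⟩
      exact ⟨h1 _ k, (h2 _ k).ends.1.trans (by rw [cat_zero, F.e0 _ _ (Nr.up a j).symm]),
        (h2 _ k).ends.2.trans (by rw [cat_one, ih.2.2])⟩
  have dn : ∀ j, W K (cat (e (a, j + 1) (a, j)) (p j)) (p (j + 1)) := fun j =>
    h2 _ (key j ⟨(inv j).1, (inv j).2.1⟩)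
  refine ⟨p, inv, fun j j' h => ?_⟩
  obtain rfl | rfl | rfl : j = j' ∨ j = j' + 1 ∨ j' = j + 1 := by rw [abs_le] at h; omega
  · rw [F.diag]
    exact (W.unit_l ((inv j).1.mono hK) (inv j).2.1.symm).mono (by linarith only [hK, n0])
  · exact (dn j').mono (by linarith)
  · refine W.back ((F.lip _ _ (Nr.up a j)).mono hK) ((inv j).1.mono hK)
      (by rw [F.e0 _ _ (Nr.up a j), (inv j).2.1]) ?_
    rw [← F.rev _ _ (Nr.up a j)]
    exact dn j

theorem refine (F : Fam ℓ N n 0 q s₀ M e) (hK : ℓ ≤ K) (hN : K * 36000 ≤ N)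
    (hS : ∀ α : ℝ → S, Lp (ℓ * 2) α → ∃ β, Lp ℓ β ∧ W K α β) {n₀ : ℕ} {b : ℤ}
    {col : V m → Fin m → ℤ} {lev : V m → ℕ} {wh : V m → Prop}
    (c1 : ∀ u v, Nr 2 u v → ∀ i, |col u i - col v i| ≤ 1)
    (c2 : ∀ u v, Nr 2 u v → ¬ wh u → |(lev u : ℤ) - lev v| ≤ 1)
    (c3 : ∀ u v, Nr 2 u v → wh u → col u = col v)
    (c4 : ∀ z σ, σ ≤ 1 → ¬ wh (z, σ) ∧ lev (z, σ) = 0 ∧ col (z, σ) = col (z, 0))
    (c5 : ∀ z σ, n₀ ≤ σ → ¬ wh (z, σ) ∧ lev (z, σ) = n)
    (c6 : ∀ a σ, col (fun i => b * a i, σ) = a) :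
    ∃ M' e', Fam ℓ N n₀ 1 q (fun z z' => s₀ (col (z, 0)) (col (z', 0))) M' e' ∧
      ∀ a, W (K * 30 * 4 * 20 ^ n₀ + K * 30 * 4 * 20 ^ n) (colp e' (fun i => b * a i) 0 n₀)
        (colp e a 0 n) := by
  classical
  have n0 : 0 ≤ ℓ := (F.lip _ _ (Nr.up 0 0)).nonneg
  choose p p1 p2 using F.exists_fan hK hS
  let φ : V m → V m := fun u => (col u, lev u)
  let M' : V m → S := fun u => if wh u then M (col u, 0) else M (φ u)
  let ρ : V m → ℝ → S := fun u => if wh u then fun _ => M (col u, 0) else p (col u) (lev u)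
  let e' : V m → V m → ℝ → S := fun u v =>
    if wh u then rv (ρ v) else if wh v then ρ u else e (φ u) (φ v)
  have nr : ∀ u v, Nr 1 u v → ¬ wh u → Nr 1 (φ u) (φ v) := fun u v h hu =>
    ⟨c1 u v h.two, c2 u v h.two hu⟩
  have ρl : ∀ u, Lp ℓ (ρ u) := fun u => by
    simp only [ρ]; split_ifs
    · exact Lp.const n0 _
    · exact (p1 _ _).1
  have ρ0 : ∀ u, ρ u 0 = M' u := fun u => by
    simp only [ρ, M']; split_ifs
    · rfl
    · exact (p1 _ _).2.1
  have ρ1 : ∀ u, ρ u 1 = M (col u, 0) := fun u => by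
    simp only [ρ]; split_ifs
    · rfl
    · exact (p1 _ _).2.2
  have lip : ∀ u v, Nr 1 u v → Lp ℓ (e' u v) := fun u v h => by
    simp only [e']; split_ifs with h1 h2
    · exact (ρl v).rv
    · exact ρl u
    · exact F.lip _ _ (nr u v h h1)
  have e0 : ∀ u v, Nr 1 u v → e' u v 0 = M' u := fun u v h => by
    simp only [e']; split_ifs with h1 h2
    · rw [rv_zero, ρ1, ← c3 u v h.two h1]; simp [M', h1]
    · exact ρ0 u
    · rw [F.e0 _ _ (nr u v h h1)]; simp [M', h1]
  have rev : ∀ u v, Nr 1 u v → e' v u = rv (e' u v) := fun u v h => by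
    by_cases h1 : wh u <;> by_cases h2 : wh v <;> simp only [e', h1, h2, if_true, if_false, rv_rv]
    · simp only [ρ, h1, h2, if_true, c3 u v h.two h1]; rfl
    · exact F.rev _ _ (nr u v h h1)
  have e1 : ∀ u v, Nr 1 u v → e' u v 1 = M' v := fun u v h => by
    rw [← e0 v u h.symm, rev u v h, rv_zero]
  have T : ∀ u v, Nr 1 u v → col u = col v → W (K * 30) (cat (e' u v) (ρ v)) (ρ u) := by
    intro u v h hc
    simp only [e']; split_ifs with h1 h2
    · have := W.cancel ((ρl v).mono hK).rv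
      rw [rv_rv, rv_zero, ρ1, ← hc] at this
      simpa only [ρ, h1, if_true] using this.mono (by linarith only [hK, n0])
    · have := W.unit_r ((ρl u).mono hK) (ρ1 u)
      rw [hc] at this
      simpa only [ρ, h2, if_true] using this.mono (by linarith)
    · simp only [ρ, h1, h2, if_false, φ, ← hc]
      exact p2 _ _ _ (c2 u v h.two h1)
  have lK : ℓ ≤ K * 30 := by linarith
  have fan : ∀ u v w, Nr 1 u v → Nr 1 v w → col u = col v → col v = col w →
      W (K * 30 * 30 * 20) (cat (e' u v) (e' v w)) (cat (ρ u) (rv (ρ w))) := by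
    intro u v w h h' k k'
    have lK' : ℓ ≤ K * 30 * 30 := by linarith
    exact W.step ((lip u v h).mono lK') ((ρl v).mono lK') ((ρl w).mono lK') (by rw [e1 u v h, ρ0])
      (by rw [ρ1, ρ1, k']) ((T u v h k).mono (by linarith))
      (W.edge ((lip v w h').mono lK) ((ρl w).mono lK) (by rw [e1 v w h', ρ0]) (T v w h' k'))
  refine ⟨M', e', ⟨lip, e0, rev, fun u => ?_, fun u v w t h1 h2 h3 h4 => ?_,
    fun u v hu hv => ?_, fun u v hu hv => ?_⟩, fun a => ?_⟩
  · by_cases h : wh u <;> simp only [e', M', ρ, h, if_true, if_false]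
    · rfl
    · exact F.diag _
  · by_cases h : wh u ∨ wh v ∨ wh w ∨ wh t
    · obtain ⟨x, hx, k1, k2, k3, k4⟩ : ∃ x, wh x ∧ Nr 2 x u ∧ Nr 2 x v ∧ Nr 2 x w ∧ Nr 2 x t := by
        rcases h with h | h | h | h
        · exact ⟨u, h, (Nr.refl u).two, h1.two, h1.add h2, h3.two⟩
        · exact ⟨v, h, h1.symm.two, (Nr.refl v).two, h2.two, h1.symm.add h3⟩
        · exact ⟨w, h, h2.symm.add h1.symm, h2.symm.two, (Nr.refl w).two, h4.symm.two⟩
        · exact ⟨t, h, h3.symm.two, h3.symm.add h1, h4.two, (Nr.refl t).two⟩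
      have j1 := c3 x u k1 hx
      have j2 := c3 x v k2 hx
      have j3 := c3 x w k3 hx
      have j4 := c3 x t k4 hx
      exact ((fan u v w h1 h2 (j1.symm.trans j2) (j2.symm.trans j3)).trans
        (fan u t w h3 h4 (j1.symm.trans j4) (j4.symm.trans j3)).symm).mono (by linarith)
    · simp only [not_or] at h
      simp only [e', h.1, h.2.1, h.2.2.1, h.2.2.2, if_false]
      exact F.quad _ _ _ _ (nr u v h1 h.1) (nr v w h2 h.2.1) (nr u t h3 h.1) (nr t w h4 h.2.2.2)
  · obtain ⟨a1, a2, a3⟩ := c4 u.1 u.2 hu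
    obtain ⟨b1, b2, b3⟩ := c4 v.1 v.2 hv
    simp only [e', a1, b1, if_false]
    rw [F.base _ _ a2.le b2.le, ← a3, ← b3]
  · obtain ⟨a1, a2⟩ := c5 u.1 u.2 hu
    obtain ⟨b1, b2⟩ := c5 v.1 v.2 hv
    simp only [e', a1, b1, if_false]
    exact F.top _ _ a2.ge b2.ge
  · have w1 := wk_fan (E := fun j => e' (fun i => b * a i, j) (fun i => b * a i, j + 1))
      (ρ := fun j => ρ (fun i => b * a i, j)) (fun j => (lip _ _ (Nr.up _ j)).mono lK)
      (fun j => (ρl _).mono lK) (fun j => by rw [e0 _ _ (Nr.up _ j), ρ0])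
      (fun j => by rw [e1 _ _ (Nr.up _ j), ρ0]) (fun j j' => by rw [ρ1, ρ1, c6, c6])
      (fun j => T _ _ (Nr.up _ j) (by rw [c6, c6])) 0 n₀
    have w2 := wk_fan (E := fun j => e (a, j) (a, j + 1)) (ρ := p a)
      (fun j => (F.lip _ _ (Nr.up _ j)).mono lK) (fun j => (p1 a j).1.mono lK)
      (fun j => by rw [F.e0 _ _ (Nr.up _ j), (p1 a j).2.1])
      (fun j => by rw [F.e1 _ _ (Nr.up _ j), (p1 a _).2.1])
      (fun j j' => by rw [(p1 a j).2.2, (p1 a j').2.2]) (fun j => p2 a _ _ (by simp)) 0 n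
    obtain ⟨a1, a2, -⟩ := c4 (fun i => b * a i) 0 zero_le_one
    obtain ⟨b1, b2⟩ := c5 (fun i => b * a i) n₀ le_rfl
    simp only [ρ, zero_add, a1, a2, b1, b2, c6, if_false] at w1 w2
    exact w1.trans w2.symm

/-- adding a layer -/
theorem prepend {P : Type*} {g : P → S} {sg : P → P → ℝ → S} {Q Q' : (Fin m → ℤ) → P}
    (F : Fam ℓ N n 1 q (fun z z' => sg (Q z) (Q z')) M e) (hn : 1 ≤ n)
    (s1 : ∀ x y, sg x y 0 = g x) (s2 : ∀ x y, sg y x = rv (sg x y))
    (s3 : ∀ x, sg x x = fun _ => g x) (pos : V m → P) (h0 : ∀ z, pos (z, 0) = Q' z)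
    (h1 : ∀ z σ, pos (z, σ + 1) = Q z) (hl : ∀ u v, Nr 1 u v → Lp ℓ (sg (pos u) (pos v)))
    (hq : ∀ u v w t, Nr 1 u v → Nr 1 v w → Nr 1 u t → Nr 1 t w →
      W N (cat (sg (pos u) (pos v)) (sg (pos v) (pos w)))
        (cat (sg (pos u) (pos t)) (sg (pos t) (pos w)))) :
    ∃ M' e', Fam ℓ N (n + 1) 0 q (fun z z' => sg (Q' z) (Q' z')) M' e' ∧
      ∀ z, colp e' z 0 (n + 1) = cat (sg (Q' z) (Q z)) (colp e z 0 n) := by
  let dn : V m → V m := fun u => (u.1, u.2 - 1)
  let e' : V m → V m → ℝ → S := fun u v =>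
    if u.2 = 0 ∨ v.2 = 0 then sg (pos u) (pos v) else e (dn u) (dn v)
  have lo : ∀ u v : V m, u.2 ≤ 2 → v.2 ≤ 2 → e' u v = sg (pos u) (pos v) := by
    rintro ⟨z, σ⟩ ⟨z', σ'⟩ hu hv
    simp only [e']; split_ifs with h
    · rfl
    · obtain ⟨σ, rfl⟩ := Nat.exists_eq_succ_of_ne_zero (not_or.1 h).1
      obtain ⟨σ', rfl⟩ := Nat.exists_eq_succ_of_ne_zero (not_or.1 h).2
      rw [F.base _ _ (by simp only [dn]; omega) (by simp only [dn]; omega), h1, h1]
  have hi : ∀ u v : V m, u.2 ≠ 0 → v.2 ≠ 0 → e' u v = e (dn u) (dn v) := fun u v hu hv =>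
    if_neg (not_or.2 ⟨hu, hv⟩)
  have nr : ∀ u v : V m, Nr 1 u v → u.2 ≠ 0 → v.2 ≠ 0 → Nr 1 (dn u) (dn v) := fun u v h hu hv =>
    ⟨h.1, by have := h.2; simp only [dn, abs_le] at this ⊢; omega⟩
  have cs : ∀ u v : V m, Nr 1 u v → (u.2 ≤ 2 ∧ v.2 ≤ 2) ∨ (u.2 ≠ 0 ∧ v.2 ≠ 0) := fun u v h => by
    have := abs_le.1 h.2; omega
  refine ⟨fun u => e' u u 0, e', ⟨fun u v h => ?_, fun u v h => ?_, fun u v h => ?_, fun u => ?_,
    fun u v w t k1 k2 k3 k4 => ?_, fun u v hu hv => ?_, fun u v hu hv => ?_⟩, fun z => ?_⟩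
  · rcases cs u v h with k | k
    · rw [lo u v k.1 k.2]; exact hl u v h
    · rw [hi u v k.1 k.2]; exact F.lip _ _ (nr u v h k.1 k.2)
  · rcases cs u v h with k | k
    · rw [lo u v k.1 k.2, lo u u k.1 k.1, s1, s1]
    · rw [hi u v k.1 k.2, hi u u k.1 k.1, F.e0 _ _ (nr u v h k.1 k.2), F.diag]
  · rcases cs u v h with k | k
    · rw [lo u v k.1 k.2, lo v u k.2 k.1, s2]
    · rw [hi u v k.1 k.2, hi v u k.2 k.1, F.rev _ _ (nr u v h k.1 k.2)]
  · rcases cs u u (Nr.refl u) with k | k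
    · rw [lo u u k.1 k.1, s3]
    · rw [hi u u k.1 k.1, F.diag]
  · have j1 := abs_le.1 k1.2
    have j2 := abs_le.1 k2.2
    have j3 := abs_le.1 k3.2
    have j4 := abs_le.1 k4.2
    obtain k | k : (u.2 ≤ 2 ∧ v.2 ≤ 2 ∧ w.2 ≤ 2 ∧ t.2 ≤ 2) ∨
        (u.2 ≠ 0 ∧ v.2 ≠ 0 ∧ w.2 ≠ 0 ∧ t.2 ≠ 0) := by omega
    · obtain ⟨a, b, c, d⟩ := k
      rw [lo u v a b, lo v w b c, lo u t a d, lo t w d c]
      exact hq u v w t k1 k2 k3 k4
    · obtain ⟨a, b, c, d⟩ := k
      rw [hi u v a b, hi v w b c, hi u t a d, hi t w d c]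
      exact F.quad _ _ _ _ (nr _ _ k1 a b) (nr _ _ k2 b c) (nr _ _ k3 a d) (nr _ _ k4 d c)
  · obtain ⟨z, σ⟩ := u
    obtain ⟨z', σ'⟩ := v
    obtain rfl : σ = 0 := by simpa using hu
    obtain rfl : σ' = 0 := by simpa using hv
    rw [lo _ _ (by simp) (by simp), h0, h0]
  · rw [hi u v (by omega) (by omega)]
    exact F.top _ _ (by simp only [dn]; omega) (by simp only [dn]; omega)
  · rw [colp, wk, wk_shift, lo _ _ (by simp) (by simp), h0, h1, colp]
    congr 2

end Fam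

end Pool.Agent.Work.MP_e25190_gt
end

-- merged part: Pool.Agent.Work.MP_e25190_gt.Comb
section
/-! Short paths from the vertices of a hyperbolic grid to a base point, cheaply compatible. -/

open Set Real

namespace Pool.Agent.Work.MP_e25190_gt

open Hyp

variable {S : Type*} [MetricSpace S] {m : ℕ}

/-- image of the coordinate segment -/
noncomputable def seg (g : Hyp m → S) (P Q : Hyp m) (t : ℝ) : S :=
  g (pt (P.x + cl t • (Q.x - P.x)) (ht P + cl t * (ht Q - ht P)))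

omit [MetricSpace S] in
theorem seg_zero (g : Hyp m → S) (P Q : Hyp m) : seg g P Q 0 = g P := by simp [seg]

omit [MetricSpace S] in
theorem seg_rev (g : Hyp m → S) (P Q : Hyp m) : seg g Q P = rv (seg g P Q) := by
  funext t
  rw [rv, seg, seg, cl_one_sub]
  congr 2
  · module
  · ring

omit [MetricSpace S] in
theorem seg_one (g : Hyp m → S) (P Q : Hyp m) : seg g P Q 1 = g Q := by
  rw [seg_rev, rv_one, seg_zero]

omit [MetricSpace S] in
theorem seg_self (g : Hyp m → S) (P : Hyp m) : seg g P P = fun _ => g P := by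
  funext t; simp [seg]

/-- close points above the level `h` -/
def Cl (h D : ℝ) (P Q : Hyp m) : Prop :=
  h ≤ ht P ∧ h ≤ ht Q ∧ ‖P.x - Q.x‖ ≤ D * exp h ∧ |ht P - ht Q| ≤ D

/-- chart adapted to the level `h` -/
noncomputable def cht (g : Hyp m → S) (h : ℝ) (y : EuclideanSpace ℝ (Fin m) × ℝ) : S :=
  g (pt (exp h • y.1) (max y.2 h))

/-- segment in the chart -/
noncomputable def lin (h : ℝ) (P Q : Hyp m) (t : ℝ) : EuclideanSpace ℝ (Fin m) × ℝ :=
  (exp (-h) • (P.x + cl t • (Q.x - P.x)), ht P + cl t * (ht Q - ht P))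

theorem dist_pt_le (x x' : EuclideanSpace ℝ (Fin m)) {h k k' : ℝ} (hk : h ≤ k) :
    dist (pt x k) (pt x' k') ≤ exp (-h) * ‖x - x'‖ + |k - k'| := by
  have a1 := dist_triangle (pt x k) (pt x' k) (pt x' k')
  have a2 := dist_horiz x x' k
  have a3 : exp (-k) * ‖x - x'‖ ≤ exp (-h) * ‖x - x'‖ := by gcongr
  rw [dist_vert] at a1
  linarith

theorem cht_lip {g : Hyp m → S} (hg : ∀ p p', dist (g p) (g p') ≤ dist p p') (h : ℝ)
    (y y' : EuclideanSpace ℝ (Fin m) × ℝ) : dist (cht g h y) (cht g h y') ≤ 2 * dist y y' := by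
  refine (hg _ _).trans ((dist_pt_le _ _ (le_max_right _ _)).trans ?_)
  rw [← smul_sub, norm_smul, Real.norm_of_nonneg (exp_pos h).le, ← mul_assoc, ← exp_add,
    neg_add_cancel, exp_zero, one_mul, ← dist_eq_norm, Prod.dist_eq, two_mul]
  exact add_le_add (le_max_left _ _) (d_max (le_max_right _ _) (d_const (by positivity)))

theorem lin_lp {h D : ℝ} {P Q : Hyp m} (c : Cl h D P Q) : Lp D (lin h P Q) := by
  intro s t
  have hD : 0 ≤ D := (abs_nonneg _).trans c.2.2.2
  have a := d_cl (le_refl |s - t|)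
  rw [Prod.dist_eq, mul_comm]
  refine max_le ?_ ?_
  · simp only [lin]
    rw [dist_eq_norm, ← smul_sub, add_sub_add_left_eq_sub, ← sub_smul, smul_comm, norm_smul,
      norm_smul, Real.norm_of_nonneg (exp_pos _).le, Real.norm_eq_abs, norm_sub_rev]
    refine mul_le_mul a ?_ (by positivity) (abs_nonneg _)
    rw [exp_neg, inv_mul_le_iff₀ (exp_pos _), mul_comm]
    exact c.2.2.1
  · simp only [lin]
    rw [Real.dist_eq, add_sub_add_left_eq_sub, ← sub_mul, abs_mul, abs_sub_comm (ht Q)]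
    exact mul_le_mul a c.2.2.2 (abs_nonneg _) (abs_nonneg _)

omit [MetricSpace S] in
theorem seg_eq (g : Hyp m → S) {h D : ℝ} {P Q : Hyp m} (c : Cl h D P Q) :
    seg g P Q = fun t => cht g h (lin h P Q t) := by
  funext t
  simp only [seg, cht, lin]
  rw [smul_smul, ← exp_add, add_neg_cancel, exp_zero, one_smul, max_eq_left]
  have := cl_mem t
  linarith only [this, c, this.1, this.2, c.1, c.2.1, mul_nonneg_of_nonpos_of_nonpos (Mathlib.Tactic.Linarith.sub_nonpos_of_le this.left) (Mathlib.Tactic.Linarith.sub_nonpos_of_le c.right.left), mul_nonneg_of_nonpos_of_nonpos (Mathlib.Tactic.Linarith.sub_nonpos_of_le this.right) (Mathlib.Tactic.Linarith.sub_nonpos_of_le c.left)]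

theorem lin_zero (h : ℝ) (P Q : Hyp m) : lin h P Q 0 = (exp (-h) • P.x, ht P) := by simp [lin]
theorem lin_one (h : ℝ) (P Q : Hyp m) : lin h P Q 1 = (exp (-h) • Q.x, ht Q) := by simp [lin]

theorem cat_comp {Y Z : Type*} (c : Y → Z) (α β : ℝ → Y) (t : ℝ) :
    cat (fun t => c (α t)) (fun t => c (β t)) t = c (cat α β t) := by
  unfold cat; split_ifs <;> rfl

variable {g : Hyp m → S} {h D : ℝ} {P Q R T : Hyp m}

theorem seg_lp (hg : ∀ p p', dist (g p) (g p') ≤ dist p p') (c : Cl h D P Q) :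
    Lp (D * 2) (seg g P Q) := fun s t => by
  rw [seg_eq g c]
  exact (cht_lip hg h _ _).trans (by linarith only [c, lin_lp c s t])

theorem seg_quad (hg : ∀ p p', dist (g p) (g p') ≤ dist p p') (c1 : Cl h D P Q) (c2 : Cl h D Q R)
    (c3 : Cl h D P T) (c4 : Cl h D T R) :
    W (D * 8) (cat (seg g P Q) (seg g Q R)) (cat (seg g P T) (seg g T R)) :=
  (W.coord zero_le_two (cht_lip hg h) ((lin_lp c1).cat (lin_lp c2) (by rw [lin_zero, lin_one]))
    ((lin_lp c3).cat (lin_lp c4) (by rw [lin_zero, lin_one])) (by simp [lin_zero])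
    (by simp [lin_one]) (fun σ _ => by rw [seg_eq g c1, seg_eq g c2, cat_comp])
    (fun σ _ => by rw [seg_eq g c3, seg_eq g c4, cat_comp])).mono (le_of_eq (by ring))

theorem seg_tri (hg : ∀ p p', dist (g p) (g p') ≤ dist p p') (c1 : Cl h D P Q) (c2 : Cl h D Q R)
    (c3 : Cl h D P R) : W (D * 8) (cat (seg g P Q) (seg g Q R)) (seg g P R) :=
  (W.coord zero_le_two (cht_lip hg h) ((lin_lp c1).cat (lin_lp c2) (by rw [lin_zero, lin_one]))
    ((lin_lp c3).mono (by linarith [(lin_lp c3).nonneg])) (by simp [lin_zero])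
    (by simp [lin_one]) (fun σ _ => by rw [seg_eq g c1, seg_eq g c2, cat_comp])
    (fun σ _ => by rw [seg_eq g c3])).mono (le_of_eq (by ring))

/-- lattice vector -/
noncomputable def lat (c : ℝ) (a : Fin m → ℤ) : EuclideanSpace ℝ (Fin m) :=
  WithLp.toLp 2 fun i => c * a i

/-- vertex of the grid of level `h` -/
noncomputable def gp (h : ℝ) (a : Fin m → ℤ) : Hyp m := pt (lat (exp h) a) h

theorem norm_le_of_coord {x : EuclideanSpace ℝ (Fin m)} {c : ℝ} (hc : 0 ≤ c) (h : ∀ i, |x i| ≤ c) :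
    ‖x‖ ≤ (m + 1) * c :=
  (norm_toLp_le x.ofLp).trans (mul_le_mul_of_nonneg_left
    ((pi_norm_le_iff_of_nonneg hc).2 h) (by positivity))

theorem cl_lat {a a' : Fin m → ℤ} {c : ℕ} (ha : ∀ i, |a i - a' i| ≤ c) {k k' : ℝ} (hk : h ≤ k)
    (hk' : h ≤ k') (h1 : |k - k'| ≤ D) (h2 : (m + 1) * c ≤ D) :
    Cl h D (pt (lat (exp h) a) k) (pt (lat (exp h) a') k') := by
  refine ⟨by simpa, by simpa, (norm_le_of_coord (c := c * exp h) (by positivity) fun i => ?_).trans ?_,
    by simpa⟩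
  · simp only [pt_x, lat, PiLp.sub_apply]
    rw [← mul_sub, abs_mul, abs_of_pos (exp_pos h), mul_comm]
    gcongr
    exact_mod_cast ha i
  · rw [← mul_assoc]; gcongr

theorem gp_succ {b : ℕ} (hb : 0 < b) (h : ℝ) (a : Fin m → ℤ) :
    gp (h + log b) a = pt (lat (exp h) fun i => b * a i) (h + log b) := by
  rw [gp, exp_add, exp_log (by exact_mod_cast hb)]
  congr 1
  ext i
  simp [lat, mul_assoc]

theorem comb_step {L : ℝ} (hS : WShort S L) (m : ℕ) : ∃ (B n : ℕ) (ℓ N K : ℝ), 1 ≤ B ∧ 0 ≤ ℓ ∧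
    0 ≤ N ∧ ∀ (g : Hyp m → S) (q : S) (h : ℝ), (∀ p p', dist (g p) (g p') ≤ dist p p') →
      ∀ M e, Fam ℓ N n 0 q (fun a a' => seg g (gp (h + log (2 * B : ℕ)) a)
        (gp (h + log (2 * B : ℕ)) a')) M e →
      ∃ M' e', Fam ℓ N n 0 q (fun a a' => seg g (gp h a) (gp h a')) M' e' ∧
        ∀ u U : Fin m → ℤ, (∀ i, |u i - 2 * B * U i| ≤ 2 * B) →
          W K (cat (seg g (gp (h + log (2 * B : ℕ)) U) (gp h u)) (colp e' u 0 n)) (colp e U 0 n) := by
  obtain ⟨n₀, hφ⟩ := exists_phi m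
  obtain ⟨B, hB, col, lev, wh, c1, c2, c3, c4, c5, c6, c7⟩ := hφ (n₀ + 1)
  have hn₀ : 1 ≤ n₀ := by
    by_contra hc
    have := (c6 0 0 (by omega)).2.symm.trans (c4 0 0 zero_le_one).2.1
    omega
  set b := 2 * B with hb
  have hb' : (b : ℤ) = 2 * B := by rw [hb]; push_cast; ring
  have hA : 0 ≤ log (b : ℝ) := log_natCast_nonneg b
  set D : ℝ := (m + 1) * (2 * b + 1 : ℕ) + log b with hD
  have D1 : ((m : ℝ) + 1) * (2 * b + 1 : ℕ) ≤ D := by linarith only [hA]
  have D2 : log (b : ℝ) ≤ D := by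
    have : 0 ≤ ((m : ℝ) + 1) * (2 * b + 1 : ℕ) := by positivity
    linarith only [this]
  set ℓ := max L (D * 8) with hℓ
  have l1 : D * 8 ≤ ℓ := le_max_right _ _
  obtain ⟨K₀, hK₀⟩ := hS (ℓ * 2)
  set K := max K₀ ℓ with hK
  have k1 : ℓ ≤ K := le_max_right _ _
  have k0 : 0 ≤ K := by linarith only [hA, D2, l1, k1]
  obtain ⟨C, C1, C2, C3⟩ : ∃ C : ℝ, K * 36000 * 4 * 36 ^ (n₀ + 1) ≤ C ∧ K * 2 ^ (n₀ + 1) ≤ C ∧
      K * 2 ^ (n₀ + 1) * 30 + (K * 30 * 4 * 20 ^ n₀ + K * 30 * 4 * 20 ^ (n₀ + 1)) ≤ C :=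
    ⟨max _ (max _ _), le_max_left _ _, le_max_of_le_right (le_max_left _ _),
      le_max_of_le_right (le_max_right _ _)⟩
  have k2 : K ≤ K * 2 ^ (n₀ + 1) := le_mul_pow k0 one_le_two _
  refine ⟨B, n₀ + 1, ℓ, K * 36000, C * 21 ^ b, hB, by linarith only [hA, D2, l1], by linarith only [hA, D2, l1, k1],
    fun g q h hg M e F => ?_⟩
  obtain ⟨M₁, e₁, F₁, r₁⟩ := F.refine k1 le_rfl (fun α hα => by
    obtain ⟨β, h1, h2⟩ := hK₀ α hα
    exact ⟨β, h1.mono (le_max_left _ _), h2.mono (le_max_left _ _)⟩) c1 c2 c3 c4 c6 c7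
  let pos : V m → Hyp m := fun u => if u.2 = 0 then gp h u.1 else gp (h + log b) (col (u.1, 0))
  have form : ∀ u : V m, ∃ (X : Fin m → ℤ) (k : ℝ), pos u = pt (lat (exp h) X) k ∧
      (∀ i, |X i - u.1 i| ≤ b) ∧ h ≤ k ∧ k ≤ h + log b := fun u => by
    clear * - m pos u h b col hA n₀ B hB hb' c5
    simp only [pos]; split_ifs
    · exact ⟨u.1, h, rfl, fun i => by simp, le_rfl, by linarith only [hA]⟩
    · exact ⟨_, _, gp_succ (by omega) h _, fun i => by rw [abs_sub_comm, hb']; exact c5 _ i,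
        by linarith only [hA], le_rfl⟩
  have cl : ∀ u v, Nr 1 u v → Cl h D (pos u) (pos v) := fun u v huv => by
    clear * - m pos u h b D v form huv n₀ B D2 D1
    obtain ⟨X, k, a1, a2, a3, a4⟩ := form u
    obtain ⟨X', k', b1, b2, b3, b4⟩ := form v
    rw [a1, b1]
    refine cl_lat (fun i => ?_) a3 b3 (abs_le.2 ⟨by linarith only [D2, a3, b4], by linarith⟩) D1
    have j1 := a2 i
    have j2 := b2 i
    have j3 := huv.1 i
    rw [abs_le] at *
    push_cast; omega
  obtain ⟨M', e', F', r'⟩ := F₁.prepend (Q' := gp h) hn₀ (seg_zero g) (fun x y => seg_rev g x y)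
    (seg_self g) pos (fun z => rfl) (fun z σ => rfl)
    (fun u v huv => (seg_lp hg (cl u v huv)).mono (by linarith only [hA, D2, l1]))
    (fun u v w t h1 h2 h3 h4 => (seg_quad hg (cl _ _ h1) (cl _ _ h2) (cl _ _ h3) (cl _ _ h4)).mono
      (by linarith only [hA, D2, l1, k1]))
  refine ⟨M', e', F', fun u U hu => ?_⟩
  have cU : ∀ u : Fin m → ℤ, (∀ i, |u i - 2 * B * U i| ≤ b) → Cl h D (gp (h + log b) U) (gp h u) := by
    clear * - m B U b h D n₀ hB hb' hA D2 D1 hu u
    intro u hu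
    rw [gp_succ (by omega)]
    refine cl_lat (fun i => ?_) (by linarith) le_rfl (by simpa [abs_of_nonneg hA] using D2) D1
    have := hu i
    rw [hb', abs_le] at *
    push_cast; omega
  have M0 : ∀ u, M' (u, 0) = g (gp h u) := fun u => by
    have := congrFun ((F'.diag (u, 0)).symm.trans (F'.base (u, 0) (u, 0) le_rfl le_rfl)) 0
    simpa [seg_zero] using this
  have ind : ∀ j : ℕ, j ≤ b → ∀ u : Fin m → ℤ, (∀ i, |u i - 2 * B * U i| ≤ j) → W (C * 21 ^ j)
      (cat (seg g (gp (h + log b) U) (gp h u)) (colp e' u 0 (n₀ + 1))) (colp e U 0 (n₀ + 1)) := by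
    clear * - b m B U S C g h e' n₀ e D hg cU K ℓ hA D2 l1 k1 k2 e₁ q col M₁ F₁ K₀ L hB c7 k0 r'
      r₁ C3 C2 cl M' F' M0 C1 hu u
    intro j
    induction j with
    | zero =>
      intro _ u hu
      obtain rfl : u = fun i => 2 * B * U i := funext fun i => by simpa [sub_eq_zero] using hu i
      have a0 := seg_lp hg (cU (fun i => 2 * B * U i) fun i => by simp)
      have a1 := a0.mono (show D * 2 ≤ K * 2 ^ (n₀ + 1) by linarith only [hA, D2, l1, k1, k2])
      have a2 : Lp (K * 2 ^ n₀) _ := (F₁.col_lp (fun i => 2 * B * U i) 0 n₀).mono (by gcongr)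
      have a3 : K * 2 ^ n₀ ≤ K * 2 ^ (n₀ + 1) := by gcongr <;> norm_num
      have a4 : seg g (gp (h + log b) U) (gp h fun i => 2 * B * U i) 0 =
          colp e₁ (fun i => 2 * B * U i) 0 n₀ 0 := by
        rw [F₁.col0, ← congrFun (F₁.diag _) 0, F₁.base _ _ zero_le_one zero_le_one, c7, seg_zero,
          seg_zero]
      have a5 := W.back a1 (a2.mono a3) a4 (W.refl (by
        rw [pow_succ, ← mul_assoc]
        exact (a0.mono (show D * 2 ≤ K * 2 ^ n₀ by
          linarith only [hA, D2, l1, k1, k0, le_mul_pow k0 one_le_two n₀])).rv.cat a2 (by simpa using a4)))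
      rw [r', c7, seg_rev g (gp (h + log b) U), pow_zero, mul_one]
      exact (a5.trans (r₁ U)).mono C3
    | succ j ih =>
      intro hj u hu
      let u' : Fin m → ℤ := fun i => max (2 * B * U i - j) (min (u i) (2 * B * U i + j))
      have a1 : ∀ i, |u' i - 2 * B * U i| ≤ j ∧ |u' i - u i| ≤ 1 := fun i => by
        have := hu i
        simp only [u', abs_le] at this ⊢
        push_cast at this
        omega
      have a2 : C ≤ C * 21 ^ j := le_mul_pow (by linarith only [hA, D2, l1, k1, C2, k2]) (by norm_num) j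
      have hj' : (j : ℤ) + 1 ≤ b := by exact_mod_cast hj
      have b1 := cU u' fun i => (a1 i).1.trans (by omega)
      have b2 : Cl h D (gp h u') (gp h u) := cl (u', 0) (u, 0) ⟨fun i => (a1 i).2, by simp⟩
      have b3 := cU u fun i => (hu i).trans (by exact_mod_cast hj)
      have b4 := F'.ladder (K := K * 36000) (by linarith only [hA, D2, l1, k1]) le_rfl (fun i => (a1 i).2) 0 (n₀ + 1)
        (by omega)
      rw [F'.base _ _ le_rfl le_rfl] at b4
      rw [pow_succ, ← mul_assoc]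
      exact W.lasso ((seg_lp hg b1).mono (by linarith only [hA, D2, l1, k1, C2, k2, a2])) ((seg_lp hg b2).mono (by linarith only [hA, D2, l1, k1, C2, k2, a2]))
        ((F'.col_lp u 0 _).mono (le_trans (by gcongr) (C2.trans a2))) (by rw [seg_one, seg_zero])
        (by rw [seg_one, F'.col0, M0]) ((seg_tri hg b1 b2 b3).mono (by linarith only [l1, k1, C2, k2, a2]))
        (b4.mono (C1.trans a2)) (ih (by omega) u' fun i => (a1 i).1)
  exact ind b le_rfl u fun i => by rw [hb']; exact hu i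

theorem WShort.comb {L : ℝ} (hS : WShort S L) (m : ℕ) : ∃ (B : ℕ) (K : ℝ), 1 ≤ B ∧ 1 ≤ K ∧
    ∀ (g : Hyp m → S) (q : S) (H : ℕ → ℝ) (J : ℕ), (∀ p p', dist (g p) (g p') ≤ dist p p') →
      (∀ k, H (k + 1) = H k + log (2 * B : ℕ)) → (∀ p, H J ≤ ht p → g p = q) →
      ∃ τ : ℕ → (Fin m → ℤ) → ℝ → S,
        (∀ k ≤ J, ∀ a, Lp K (τ k a) ∧ τ k a 0 = g (gp (H k) a) ∧ τ k a 1 = q) ∧
        ∀ k < J, ∀ u U : Fin m → ℤ, (∀ i, |u i - 2 * B * U i| ≤ 2 * B) →
          W K (cat (seg g (gp (H (k + 1)) U) (gp (H k) u)) (τ k u)) (τ (k + 1) U) := by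
  obtain ⟨B, n, ℓ, N, K, hB, hℓ, hN, hstep⟩ := comb_step hS m
  refine ⟨B, max 1 (max K (ℓ * 2 ^ n)), hB, le_max_left _ _, fun g q H J hg hH htop => ?_⟩
  let Good : ℕ → (V m → S) × (V m → V m → ℝ → S) → Prop := fun k x =>
    Fam ℓ N n 0 q (fun a a' => seg g (gp (H k) a) (gp (H k) a')) x.1 x.2
  have step : ∀ k x, Good (k + 1) x → ∃ y, Good k y ∧ ∀ u U : Fin m → ℤ,
      (∀ i, |u i - 2 * B * U i| ≤ 2 * B) → W K (cat (seg g (gp (H (k + 1)) U) (gp (H k) u))
        (colp y.2 u 0 n)) (colp x.2 U 0 n) := by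
    intro k x hx
    simp only [Good, hH k] at hx ⊢
    obtain ⟨M', e', h1, h2⟩ := hstep g q (H k) hg _ _ hx
    exact ⟨(M', e'), h1, h2⟩
  choose! nx h1 h2 using step
  let sq : ℕ → (V m → S) × (V m → V m → ℝ → S) := fun j =>
    Nat.rec (fun _ => q, fun _ _ _ => q) (fun j x => nx (J - (j + 1)) x) j
  have good : ∀ j ≤ J, Good (J - j) (sq j) := by
    intro j
    induction j with
    | zero =>
      refine fun _ => ⟨fun _ _ _ => Lp.const hℓ _, fun _ _ _ => rfl, fun _ _ _ => rfl, fun _ => rfl,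
        fun _ _ _ _ _ _ _ _ => W.refl ?_, fun u v _ _ => funext fun t => (htop _ ?_).symm,
        fun _ _ _ _ => rfl⟩
      · simp only [sq, Nat.rec_zero, cat_const]
        exact Lp.const hN _
      · simp [gp]
    | succ j ih =>
      intro hj
      exact h1 _ _ (by rw [show J - (j + 1) + 1 = J - j by omega]; exact ih (by omega))
  refine ⟨fun k a => colp (sq (J - k)).2 a 0 n, fun k hk a => ?_, fun k hk u U hu => ?_⟩
  · have F := good (J - k) (by omega)
    rw [show J - (J - k) = k by omega] at F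
    refine ⟨(F.col_lp a 0 n).mono (le_max_of_le_right (le_max_right _ _)), ?_, F.col1 a⟩
    refine (F.col0 a 0 n).trans ?_
    rw [← congrFun (F.diag _) 0, F.base _ _ le_rfl le_rfl, seg_zero]
  · have F := good (J - (k + 1)) (by omega)
    rw [show J - (J - (k + 1)) = k + 1 by omega] at F
    have e : sq (J - k) = nx k (sq (J - (k + 1))) := by
      rw [show J - k = J - (k + 1) + 1 by omega]
      simp only [sq]
      rw [show J - (J - (k + 1) + 1) = k by omega]
    simp only [e]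
    exact (h2 k _ F u U hu).mono (le_max_of_le_right (le_max_left _ _))

end Pool.Agent.Work.MP_e25190_gt
end

-- merged part: Pool.Agent.Work.MP_e25190_gt.Lots
section
/-! Walls and lots below a horosphere; maps with whiskers. -/

open Set Metric Real

namespace Pool.Agent.Work.MP_e25190_gt

open Hyp

variable {S : Type*} [MetricSpace S] {m : ℕ}

theorem lip_of_local {Φ : Hyp m → S}
    (h : ∀ p q, dist p q ≤ 1 → dist (Φ p) (Φ q) ≤ dist p q) (p q : Hyp m) :
    dist (Φ p) (Φ q) ≤ dist p q := by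
  have ind : ∀ n : ℕ, ∀ p q : Hyp m, dist p q ≤ n → dist (Φ p) (Φ q) ≤ dist p q := by
    intro n
    induction n with
    | zero => exact fun p q hd => h p q (hd.trans (by simp))
    | succ n ih =>
      intro p q hd
      rcases le_total (dist p q) 1 with h1 | h1
      · exact h p q h1
      have a1 := dist_geo_left p q zero_le_one
      have a2 := dist_geo_le p q 1 (dist p q)
      rw [geo_of_le p q le_rfl, abs_of_nonpos (by linarith)] at a2
      push_cast at hd
      linarith only [a1, a2, h, ih, hd, dist_triangle (Φ p) (Φ (geo p q 1)) (Φ q), h _ _ a1, ih (geo p q 1) q (by linarith)]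
  obtain ⟨n, hn⟩ := exists_nat_ge (dist p q)
  exact ind n p q hn

theorem norm_sq_le (p q : Hyp m) :
    ‖p.x - q.x‖ ^ 2 ≤ (cosh (dist p q) - 1) * (2 * exp (ht p + ht q)) := by
  have h1 := cosh_dist_pt p.x q.x (ht p) (ht q)
  rw [pt_ht, pt_ht] at h1
  rw [← div_le_iff₀ (by positivity)]
  linarith only [h1, one_le_cosh (ht p - ht q)]

theorem norm_le_close {p q : Hyp m} {h : ℝ} (hp : ht p ≤ h) (hq : ht q ≤ h) (hd : dist p q ≤ 1) :
    ‖p.x - q.x‖ ≤ 2 * exp h * dist p q := by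
  have d0 := dist_nonneg (x := p) (y := q)
  have a1 := cosh_le_exp_half_sq (dist p q)
  have a0 : dist p q ^ 2 ≤ 1 := by linarith only [hd, d0, mul_nonneg_of_nonpos_of_nonpos (Mathlib.Tactic.Linarith.sub_nonpos_of_le hd) (Mathlib.Tactic.Linarith.sub_nonpos_of_le d0)]
  have a2 := exp_bound_div_one_sub_of_interval (x := dist p q ^ 2 / 2) (by positivity) (by linarith only [a0])
  have a3 : 1 / (1 - dist p q ^ 2 / 2) ≤ 1 + dist p q ^ 2 := by
    clear * - m p q a0
    rw [div_le_iff₀ (by linarith only [a0])]; linarith only [a0, sq_nonneg (dist p q), mul_nonneg_of_nonpos_of_nonpos (Mathlib.Tactic.Linarith.sub_nonpos_of_le (sq_nonneg (dist p q))) (Mathlib.Tactic.Linarith.sub_nonpos_of_le a0)]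
  have a4 : exp (ht p + ht q) ≤ exp h ^ 2 := by
    rw [sq, ← exp_add]; gcongr
  refine (pow_le_pow_iff_left₀ (norm_nonneg _) (by positivity) two_ne_zero).1
    ((norm_sq_le p q).trans ?_)
  calc _ ≤ dist p q ^ 2 * (2 * exp h ^ 2) :=
        mul_le_mul (by linarith only [a1, a2, a3]) (by linarith only [a4]) (by positivity) (by positivity)
    _ ≤ _ := by clear * - m p q h; nlinarith [sq_nonneg (exp h * dist p q)]

/-- the walls of level `h` and the region above them -/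
def Cs (A h : ℝ) : Set (Hyp m) :=
  {p | h - A ≤ ht p ∨ ∃ (i : Fin m) (j : ℤ), p.x i = exp h * (j + 1 / 2)}

/-- distance to the walls -/
noncomputable def rho (A h : ℝ) (p : Hyp m) : ℝ := infDist p (Cs A h)

/-- nearest vertex -/
noncomputable def nb (h : ℝ) (p : Hyp m) : Fin m → ℤ := fun i => round (p.x i / exp h)

/-- displacement towards the nearest vertex -/
noncomputable def Dp (A h : ℝ) (p : Hyp m) : EuclideanSpace ℝ (Fin m) :=
  cl (rho A h p) • (lat (exp h) (nb h p) - p.x)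

/-- position on the whisker -/
noncomputable def rk (M A h : ℝ) (p : Hyp m) : ℝ := cl ((rho A h p - 1) / M)

variable {A h M : ℝ} {p q : Hyp m}

theorem rho_lip (p q : Hyp m) : |rho A h p - rho A h q| ≤ dist p q := by
  simpa [Real.dist_eq, rho] using (lipschitz_infDist_pt (Cs A h)).dist_le_mul p q

theorem rho_top (hp : h - A ≤ ht p) : rho A h p = 0 := infDist_zero_of_mem (Or.inl hp)

theorem rho_nonneg : 0 ≤ rho A h p := infDist_nonneg

theorem nb_near (h : ℝ) (p : Hyp m) (i : Fin m) : |exp h * nb h p i - p.x i| ≤ exp h / 2 := by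
  have a := abs_sub_round (p.x i / exp h)
  have e : exp h * nb h p i - p.x i = exp h * (round (p.x i / exp h) - p.x i / exp h) := by
    rw [nb]; field_simp
  rw [e, abs_mul, abs_of_pos (exp_pos h), abs_sub_comm]
  linarith only [a, exp_pos h, mul_nonneg_of_nonpos_of_nonpos (Mathlib.Tactic.Linarith.sub_nonpos_of_le a) (le_of_lt (Mathlib.Tactic.Linarith.sub_neg_of_lt (exp_pos h)))]

theorem norm_nb (h : ℝ) (p : Hyp m) : ‖lat (exp h) (nb h p) - p.x‖ ≤ (m + 1) * (exp h / 2) :=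
  norm_le_of_coord (by positivity) fun i => nb_near h p i

theorem rho_sep (hne : nb h p ≠ nb h q) : rho A h p ≤ dist p q := by
  obtain ⟨i, hi⟩ := Function.ne_iff.1 hne
  have a1 := abs_le.1 (nb_near h p i)
  have a2 := abs_le.1 (nb_near h q i)
  have he := exp_pos h
  obtain ⟨j, hj⟩ : ∃ j : ℤ, |p.x i - exp h * (j + 1 / 2)| ≤ |p.x i - q.x i| := by
    rcases lt_or_gt_of_ne hi with k | k
    · have : exp h * (nb h p i + 1) ≤ exp h * nb h q i := by gcongr; exact_mod_cast k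
      refine ⟨nb h p i, ?_⟩
      rw [abs_of_nonpos (by linarith only [a1]), abs_of_nonpos (by linarith only [a1, a2, this])]; linarith only [a2, this]
    · have : exp h * (nb h q i + 1) ≤ exp h * nb h p i := by gcongr; exact_mod_cast k
      refine ⟨nb h q i, ?_⟩
      rw [abs_of_nonneg (by linarith only [a1, this]), abs_of_nonneg (by linarith only [a1, a2, this])]; linarith only [a2]
  let x : EuclideanSpace ℝ (Fin m) := WithLp.toLp 2 (Function.update q.x.ofLp i (exp h * (j + 1 / 2)))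
  refine (infDist_le_dist_of_mem (y := pt x (ht q)) (Or.inr ⟨i, j, by simp [x]⟩)).trans ?_
  have hx : ‖p.x - x‖ ≤ ‖p.x - q.x‖ := by
    rw [EuclideanSpace.norm_eq, EuclideanSpace.norm_eq]
    refine sqrt_le_sqrt (Finset.sum_le_sum fun k _ => pow_le_pow_left₀ (norm_nonneg _) ?_ 2)
    by_cases hk : k = i
    · subst hk; simpa [x] using hj
    · simp [x, hk]
  simpa using dist_shift (h := ht p) (h' := ht q) hx le_rfl le_rfl le_rfl

theorem rho_lt (hr : rho A h p < M) : h - A - M < ht p ∨ ∃ (i : Fin m) (j : ℤ),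
    |p.x i - exp h * (j + 1 / 2)| ≤ √(cosh M * (2 * exp M)) * exp (ht p) := by
  obtain ⟨c, hc, hd⟩ := (infDist_lt_iff (s := Cs A h) ⟨pt 0 (h - A), Or.inl (by simp)⟩).1 hr
  have a1 := abs_le.1 (abs_ht_le p c)
  rcases hc with hc | ⟨i, j, hc⟩
  · left; linarith
  · refine Or.inr ⟨i, j, ?_⟩
    rw [← hc]
    refine (PiLp.norm_apply_le (p.x - c.x) i).trans ((pow_le_pow_iff_left₀ (norm_nonneg _)
      (by positivity) two_ne_zero).1 ((norm_sq_le p c).trans ?_))
    have a2 : cosh (dist p c) ≤ cosh M := by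
      rw [cosh_le_cosh, abs_of_nonneg dist_nonneg]; exact hd.le.trans (le_abs_self M)
    have a3 : exp (ht p + ht c) ≤ exp M * exp (ht p) ^ 2 := by
      rw [sq, ← exp_add, ← exp_add]; exact exp_le_exp.2 (by linarith only [hd, a1])
    have a4 := cosh_pos M
    rw [mul_pow, sq_sqrt (by positivity)]
    calc _ ≤ cosh M * (2 * (exp M * exp (ht p) ^ 2)) :=
          mul_le_mul (by linarith only [a2]) (by linarith only [a3]) (by positivity) a4.le
      _ = _ := by ring

theorem cl_le_self {x : ℝ} (hx : 0 ≤ x) : cl x ≤ x := max_le hx (min_le_left _ _)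

theorem norm_Dp (A h : ℝ) (p : Hyp m) : ‖Dp A h p‖ ≤ (m + 1) * (exp h / 2) := by
  rw [Dp, norm_smul]
  exact (mul_le_of_le_one_left (norm_nonneg _) (abs_cl_le _)).trans (norm_nb h p)

theorem Dp_top (hp : h - A ≤ ht p) : Dp A h p = 0 := by simp [Dp, rho_top hp]

theorem Dp_lip (A h : ℝ) (p q : Hyp m) :
    ‖Dp A h p - Dp A h q‖ ≤ ‖p.x - q.x‖ + (m + 1) * exp h * dist p q := by
  have d0 := dist_nonneg (x := p) (y := q)
  have c0 : 0 ≤ ((m : ℝ) + 1) * exp h * dist p q := by positivity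
  by_cases hne : nb h p = nb h q
  · have e : Dp A h p - Dp A h q = (cl (rho A h p) - cl (rho A h q)) • (lat (exp h) (nb h p) - p.x) -
        cl (rho A h q) • (p.x - q.x) := by rw [Dp, Dp, hne]; module
    rw [e]
    refine (norm_sub_le _ _).trans ?_
    rw [norm_smul, norm_smul]
    have a1 := mul_le_mul (d_cl (rho_lip (A := A) (h := h) p q)) (norm_nb h p) (norm_nonneg _) d0
    have a2 := mul_le_of_le_one_left (norm_nonneg (p.x - q.x)) (abs_cl_le (rho A h q))
    simp only [Real.norm_eq_abs]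
    linarith only [c0, a1, a2]
  · have k : ∀ p q : Hyp m, nb h p ≠ nb h q → ‖Dp A h p‖ ≤ dist p q * ((m + 1) * (exp h / 2)) := by
      intro p q hne
      rw [Dp, norm_smul, Real.norm_of_nonneg (cl_nonneg _)]
      exact mul_le_mul ((cl_le_self rho_nonneg).trans (rho_sep hne)) (norm_nb h p) (norm_nonneg _)
        dist_nonneg
    have a1 := k p q hne
    have a2 := k q p (Ne.symm hne)
    rw [dist_comm] at a2
    linarith only [a1, a2, norm_sub_le (Dp A h p) (Dp A h q), norm_nonneg (p.x - q.x)]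

theorem rk_pos (hM : 0 < M) (hr : 0 < rk M A h p) :
    Dp A h p = lat (exp h) (nb h p) - p.x ∧ ht p < h - A := by
  have a : 1 < rho A h p := by
    by_contra hc
    rw [rk, cl_of_nonpos (div_nonpos_of_nonpos_of_nonneg (by linarith) hM.le)] at hr
    exact lt_irrefl _ hr
  refine ⟨by rw [Dp, cl_of_one_le a.le, one_smul], ?_⟩
  by_contra hc
  linarith [rho_top (A := A) (not_lt.1 hc)]

theorem rk_lt (hM : 0 < M) (hr : rk M A h p < 1) : rho A h p < 1 + M := by
  by_contra hc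
  rw [rk, cl_of_one_le (by rw [le_div_iff₀ hM]; linarith)] at hr
  exact lt_irrefl _ hr

open Classical in
/-- a map with whiskers -/
noncomputable def Gl {ι : Type*} (a : Hyp m → S) (r : Hyp m → ℝ) (Q : Hyp m → ι) (w : ι → ℝ → S)
    (p : Hyp m) : S := if 0 < r p then w (Q p) (r p) else a p

/-- admissible whisker parameter -/
def Rok {ι : Type*} (K l : ℝ) (r : Hyp m → ℝ) (Q : Hyp m → ι) : Prop :=
  (∀ p, 0 ≤ r p ∧ r p ≤ 1) ∧ (∀ p, l ≤ ht p → r p = 0) ∧
    (∀ p q, K * |r p - r q| ≤ dist p q / 4) ∧ ∀ p q, Q p ≠ Q q → K * r p ≤ dist p q / 4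

/-- admissible base map -/
def Aok (l : ℝ) (a : Hyp m → S) : Prop :=
  (∀ p q, l ≤ ht p → l ≤ ht q → dist (a p) (a q) ≤ dist p q) ∧
    ∀ p q, ht p ≤ l → ht q ≤ l → dist p q ≤ 1 → dist (a p) (a q) ≤ dist p q / 2

theorem gl_lip {ι : Type*} {a : Hyp m → S} {r : Hyp m → ℝ} {Q : Hyp m → ι} {w : ι → ℝ → S}
    {K l : ℝ} (ha : Aok l a) (hr : Rok K l r Q) (hw : ∀ p, Lp K (w (Q p)))
    (h0 : ∀ p, 0 < r p → w (Q p) 0 = a p) (p q : Hyp m) :
    dist (Gl a r Q w p) (Gl a r Q w q) ≤ dist p q := by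
  obtain ⟨r1, r2, r3, r4⟩ := hr
  have up : ∀ p q, l ≤ ht p → l ≤ ht q → dist (Gl a r Q w p) (Gl a r Q w q) ≤ dist p q := by
    intro p q hp hq
    rw [Gl, Gl, if_neg (r2 p hp).not_gt, if_neg (r2 q hq).not_gt]
    exact ha.1 p q hp hq
  have key : ∀ p, dist (Gl a r Q w p) (a p) ≤ K * r p := fun p => by
    unfold Gl; split_ifs with h
    · rw [← h0 p h]; exact (hw p).le (by rw [sub_zero, abs_of_pos h])
    · rw [dist_self]; exact mul_nonneg (hw p).nonneg (r1 p).1
  have dn : ∀ p q, ht p ≤ l → ht q ≤ l → dist p q ≤ 1 →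
      dist (Gl a r Q w p) (Gl a r Q w q) ≤ dist p q := by
    intro p q hp hq hd
    have a1 := ha.2 p q hp hq hd
    have a2 := dist_triangle4_right (Gl a r Q w p) (Gl a r Q w q) (a p) (a q)
    have a3 := key p
    have a4 := key q
    have a5 := r3 p q
    have d0 := dist_nonneg (x := p) (y := q)
    by_cases hQ : Q p = Q q
    · rcases (r1 p).1.eq_or_lt with k | k
      · rw [← k, zero_sub, abs_neg, abs_of_nonneg (r1 q).1] at a5
        rw [← k] at a3; linarith only [a1, a2, a3, a4, a5, d0]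
      rcases (r1 q).1.eq_or_lt with k' | k'
      · rw [← k', sub_zero, abs_of_nonneg (r1 p).1] at a5
        rw [← k'] at a4; linarith only [a1, a2, a3, a4, a5, d0]
      rw [Gl, Gl, if_pos k, if_pos k', hQ]
      linarith only [a5, d0, hw, hw q (r p) (r q)]
    · have b1 := r4 p q hQ
      have b2 := r4 q p (Ne.symm hQ)
      rw [dist_comm] at b2
      linarith only [a1, a2, a3, a4, b1, b2]
  have mix : ∀ p q, ht p ≤ l → l ≤ ht q → dist p q ≤ 1 →
      dist (Gl a r Q w p) (Gl a r Q w q) ≤ dist p q := by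
    intro p q hp hq hd
    obtain ⟨z, hz, hd'⟩ := exists_mid p q hp hq
    linarith only [hd', up, hz, hq, dn, hp, hd, dist_triangle (Gl a r Q w p) (Gl a r Q w z) (Gl a r Q w q), up z q hz.ge hq,
      dn p z hp hz.le (by linarith [dist_nonneg (x := z) (y := q)])]
  refine lip_of_local (fun p q hd => ?_) p q
  rcases le_total (ht p) l with hp | hp <;> rcases le_total (ht q) l with hq | hq
  · exact dn p q hp hq hd
  · exact mix p q hp hq hd
  · rw [dist_comm, dist_comm p]; exact mix q p hq hp (by rwa [dist_comm])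
  · exact up p q hp hq

theorem rok_rk {K l : ℝ} (hK : 0 < K) (hl : h - A ≤ l) :
    Rok K l (rk (K * 4) A h) (nb h : Hyp m → _) := by
  have hM : 0 < K * 4 := by positivity
  refine ⟨fun p => cl_mem _, fun p hp => ?_, fun p q => ?_, fun p q hne => ?_⟩
  · rw [rk, rho_top (hl.trans hp), cl_of_nonpos (div_nonpos_of_nonpos_of_nonneg (by norm_num) hM.le)]
  · have : |rk (K * 4) A h p - rk (K * 4) A h q| ≤ dist p q / (K * 4) := by
      refine d_cl ?_
      rw [← sub_div, abs_div, abs_of_pos hM, sub_sub_sub_cancel_right]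
      gcongr
      exact rho_lip p q
    exact (mul_le_mul_of_nonneg_left this hK.le).trans (le_of_eq (by field_simp))
  · have : rk (K * 4) A h p ≤ dist p q / (K * 4) := by
      refine (cl_mono (y := dist p q / (K * 4)) ?_).trans (cl_le_self (by positivity))
      gcongr
      linarith [rho_sep (A := A) hne]
    exact (mul_le_mul_of_nonneg_left this hK.le).trans (le_of_eq (by field_simp))

theorem Rok.min {ι ι' : Type*} {K l : ℝ} {r r' : Hyp m → ℝ} {Q : Hyp m → ι} {Q' : Hyp m → ι'}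
    (hK : 0 < K) (h1 : Rok K l r Q) (h2 : Rok K l r' Q') :
    Rok K l (fun p => min (r p) (r' p)) (fun p => (Q p, Q' p)) := by
  refine ⟨fun p => ⟨le_min (h1.1 p).1 (h2.1 p).1, min_le_of_left_le (h1.1 p).2⟩,
    fun p hp => by simp only [h1.2.1 p hp, h2.2.1 p hp, min_self], fun p q => ?_, fun p q hne => ?_⟩
  · rw [← le_div_iff₀' hK]
    exact d_min ((le_div_iff₀' hK).2 (h1.2.2.1 p q)) ((le_div_iff₀' hK).2 (h2.2.2.1 p q))
  · by_cases h : Q p = Q q
    · exact (mul_le_mul_of_nonneg_left (min_le_right _ _) hK.le).trans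
        (h2.2.2.2 p q fun h' => hne (by simp only [h, h']))
    · exact (mul_le_mul_of_nonneg_left (min_le_left _ _) hK.le).trans (h1.2.2.2 p q h)

/-- retreating along the whiskers -/
theorem rel_retreat {ι ι' : Type*} {a : Hyp m → S} {r r' : Hyp m → ℝ} {Q : Hyp m → ι}
    {Q' : Hyp m → ι'} {w : ι → ℝ → S} {K l : ℝ} (ha : Aok l a) (hr : Rok K l r Q)
    (hr' : Rok K l r' Q') (hle : ∀ p, r' p ≤ r p) (hw : ∀ p, Lp K (w (Q p)))
    (h0 : ∀ p, 0 < r p → w (Q p) 0 = a p) :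
    Rel (Gl a r Q w) (Gl a r' Q w) (fun p => K * (r p - r' p)) := by
  have hK : 0 ≤ K := (hw (pt 0 0)).nonneg
  have le : ∀ t ∈ Icc (0 : ℝ) 1, ∀ p, r' p ≤ r p - t * (r p - r' p) ∧
      r p - t * (r p - r' p) ≤ r p := fun t ht p => by
    constructor <;> linarith only [hle, ht, hle p, ht.1, ht.2, mul_nonneg_of_nonpos_of_nonpos (Mathlib.Tactic.Linarith.sub_nonpos_of_le (hle p)) (Mathlib.Tactic.Linarith.sub_nonpos_of_le ht.right), mul_nonneg_of_nonpos_of_nonpos (Mathlib.Tactic.Linarith.sub_nonpos_of_le (hle p)) (Mathlib.Tactic.Linarith.sub_nonpos_of_le ht.left)]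
  refine Rel.of_lip (fun t => Gl a (fun p => r p - t * (r p - r' p)) Q w) (fun p s hs t ht => ?_)
    (fun t ht => gl_lip ha ⟨fun p => ⟨(hr'.1 p).1.trans (le t ht p).1, (le t ht p).2.trans (hr.1 p).2⟩,
      fun p hp => by simp [hr.2.1 p hp, hr'.2.1 p hp], fun p q => ?_, fun p q hne =>
        (mul_le_mul_of_nonneg_left (le t ht p).2 hK).trans (hr.2.2.2 p q hne)⟩ hw
      fun p hp => h0 p (hp.trans_le (le t ht p).2)) (by simp) (by simp)
  · rcases (hr.1 p).1.eq_or_lt with k | k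
    · have k' : r' p = 0 := le_antisymm (k ▸ hle p) (hr'.1 p).1
      simp [Gl, ← k, k']
    · have e : ∀ t ∈ Icc (0 : ℝ) 1, Gl a (fun p => r p - t * (r p - r' p)) Q w p =
          w (Q p) (r p - t * (r p - r' p)) := fun t ht => by
        simp only [Gl]; split_ifs with h
        · rfl
        · rw [le_antisymm (not_lt.1 h) ((hr'.1 p).1.trans (le t ht p).1), h0 p k]
      rw [e s hs, e t ht, mul_assoc]
      refine (hw p).le (le_of_eq ?_)
      rw [sub_sub_sub_cancel_left, ← sub_mul, abs_mul, abs_sub_comm,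
        abs_of_nonneg (sub_nonneg.2 (hle p)), mul_comm]
  · have e : r p - t * (r p - r' p) - (r q - t * (r q - r' q)) =
        (1 - t) * (r p - r q) + t * (r' p - r' q) := by ring
    have a1 := abs_add_le ((1 - t) * (r p - r q)) (t * (r' p - r' q))
    rw [abs_mul, abs_mul, abs_of_nonneg ht.1, abs_of_nonneg (sub_nonneg.2 ht.2)] at a1
    have a2 := mul_le_mul_of_nonneg_left (hr.2.2.1 p q) (sub_nonneg.2 ht.2)
    have a3 := mul_le_mul_of_nonneg_left (hr'.2.2.1 p q) ht.1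
    simp only [e]
    clear * - K t r p q r' m a2 a3 a1 hK
    linarith only [a2, a3, a1, hK, mul_le_mul_of_nonneg_left a1 hK]

/-- deforming all whiskers at the same time -/
theorem rel_weak {ι : Type*} {a : Hyp m → S} {r : Hyp m → ℝ} {Q : Hyp m → ι} {w w' : ι → ℝ → S}
    {K l : ℝ} (ha : Aok l a) (hr : Rok K l r Q) (hw : ∀ p, W K (w (Q p)) (w' (Q p)))
    (h0 : ∀ p, 0 < r p → w (Q p) 0 = a p) :
    Rel (Gl a r Q w) (Gl a r Q w') (fun p => if 0 < r p ∧ r p < 1 then K else 0) := by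
  have hK : 0 ≤ K := (hw (pt 0 0)).nonneg
  have hw' : ∀ i, (∃ p, Q p = i) → W K (w i) (w' i) := by
    rintro i ⟨p, rfl⟩; exact hw p
  have : Nonempty S := ⟨a (pt 0 0)⟩
  choose! G g1 g2 g3 g4 g5 using hw'
  refine ⟨fun s => Gl a r Q fun i => G i s, fun p => ?_, fun s _ => gl_lip ha hr
    (fun p => g2 _ ⟨p, rfl⟩ s) fun p hp => (g4 _ ⟨p, rfl⟩ s).1.trans (h0 p hp), funext fun p => ?_,
    funext fun p => ?_, fun p => ⟨by positivity, ?_⟩⟩
  · simp only [Gl]; split_ifs
    · exact g1 _ ⟨p, rfl⟩ _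
    · exact continuous_const
  · simp only [Gl, (g3 _ ⟨p, rfl⟩ _ (hr.1 p)).1]
  · simp only [Gl, (g3 _ ⟨p, rfl⟩ _ (hr.1 p)).2]
  · by_cases k : 0 < r p
    · rcases (hr.1 p).2.eq_or_lt with k' | k'
      · simp only [Gl, k', zero_lt_one, if_true, (g4 _ ⟨p, rfl⟩ _).2, lt_irrefl, and_false, if_false]
        exact (Lp.const le_rfl _).var
      · simp only [Gl, k, k', if_true, and_self]
        exact g5 _ ⟨p, rfl⟩ _
    · simp only [Gl, k, if_false, false_and]
      exact (Lp.const le_rfl _).var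

end Pool.Agent.Work.MP_e25190_gt
end
end

-- merged part: Pool.Agent.Work.MP_e25190_gt.Up
section
/-! Sweeping hyperbolic space upwards. -/

open Set Metric Real

namespace Pool.Agent.Work.MP_e25190_gt

open Hyp

variable {S : Type*} [MetricSpace S] {m : ℕ}

/-- the base map between two levels -/
noncomputable def am (g : Hyp m → S) (A h t : ℝ) (p : Hyp m) : S :=
  g (pt (p.x + (1 - t) • Dp A h p + t • Dp A (h + A) p) (max (ht p) (h + t * A)))

/-- the standard map of level `h` -/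
noncomputable def Fm (g : Hyp m → S) (M A h : ℝ) (τ : (Fin m → ℤ) → ℝ → S) : Hyp m → S :=
  Gl (am g A h 0) (rk M A h) (nb h) fun u => cat (fun _ => τ u 0) (τ u)

/-- the points which move between two levels -/
def Act (M A h : ℝ) (p : Hyp m) : Prop :=
  ht p < h + A ∧ min (rk M A h p) (rk M A (h + A) p) < 1

variable {g : Hyp m → S} {A h ε b : ℝ}

theorem aok_am (hg : ∀ p p', dist (g p) (g p') ≤ dist p p')
    (hε : ∀ x x' k, dist (g (pt x k)) (g (pt x' k)) ≤ ε * exp (-k) * ‖x - x'‖) (hε0 : 0 ≤ ε)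
    (hA : 0 ≤ A) (hb : exp A = b) (hε1 : ε * (4 + (m + 1) * b) ≤ 1 / 2) {t : ℝ}
    (ht' : t ∈ Icc (0 : ℝ) 1) : Aok h (am g A h t) := by
  have tA : 0 ≤ t * A := mul_nonneg ht'.1 hA
  refine ⟨fun p q hp hq => ?_, fun p q hp hq hd => ?_⟩
  · simp only [am]
    rw [Dp_top (p := p) (by linarith only [hA, hp]), Dp_top (p := p) (by linarith only [hp]), Dp_top (p := q) (by linarith only [hA, hq]),
      Dp_top (p := q) (by linarith only [hq])]
    refine (hg _ _).trans ?_
    conv_rhs => rw [← pt_ht p, ← pt_ht q]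
    exact dist_shift (by simp) (le_max_left _ _) (le_max_left _ _)
      (d_max le_rfl (d_const (abs_nonneg _)))
  · simp only [am]
    rw [max_eq_right (by linarith only [tA, hp]), max_eq_right (by linarith only [tA, hq])]
    refine (hε _ _ _).trans ?_
    have d0 := dist_nonneg (x := p) (y := q)
    have e : p.x + (1 - t) • Dp A h p + t • Dp A (h + A) p -
        (q.x + (1 - t) • Dp A h q + t • Dp A (h + A) q) = (p.x - q.x) +
        (1 - t) • (Dp A h p - Dp A h q) + t • (Dp A (h + A) p - Dp A (h + A) q) := by clear * - m p t A h q; module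
    have a1 := norm_add₃_le (a := p.x - q.x) (b := (1 - t) • (Dp A h p - Dp A h q))
      (c := t • (Dp A (h + A) p - Dp A (h + A) q))
    rw [norm_smul, norm_smul, Real.norm_of_nonneg ht'.1, Real.norm_of_nonneg (sub_nonneg.2 ht'.2),
      ← e] at a1
    have b1 : 1 ≤ b := hb ▸ one_le_exp hA
    have a2 : ‖Dp A h p - Dp A h q‖ ≤ ‖p.x - q.x‖ + (m + 1) * (exp h * b) * dist p q :=
      (Dp_lip A h p q).trans (by clear * - m p q h b b1 A; gcongr; exact le_mul_of_one_le_right (exp_pos h).le b1)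
    have a3 := Dp_lip A (h + A) p q
    rw [exp_add, hb] at a3
    have a4 := norm_le_close hp hq hd
    have a5 := mul_le_mul_of_nonneg_left a2 (sub_nonneg.2 ht'.2)
    have a6 := mul_le_mul_of_nonneg_left a3 ht'.1
    have a7 : exp (-(h + t * A)) ≤ exp (-h) := by clear * - h t A tA; gcongr; linarith
    calc _ ≤ ε * exp (-h) * ((4 + (m + 1) * b) * exp h * dist p q) := by
          clear * - ε h t A m p q b a7 hε0 a1 a4 a5 a6
          gcongr; linarith only [a1, a4, a5, a6]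
      _ = ε * (4 + (m + 1) * b) * dist p q * (exp (-h) * exp h) := by ring
      _ ≤ _ := by
          rw [← exp_add, neg_add_cancel, exp_zero, mul_one]
          linarith only [hε1, d0, mul_le_mul_of_nonneg_right hε1 d0]

theorem am_track (hg : ∀ p p', dist (g p) (g p') ≤ dist p p') (hA : 0 ≤ A) (hb : exp A = b)
    (p : Hyp m) {s : ℝ} (hs : s ∈ Icc (0 : ℝ) 1) (t : ℝ) :
    dist (am g A h s p) (am g A h t p) ≤ ((m + 1) * b + A) * |s - t| := by
  refine (hg _ _).trans ((dist_pt_le (h := h) _ _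
    (le_max_of_le_right (by linarith only [hA, hs, hs.1, mul_nonneg_of_nonpos_of_nonpos (Mathlib.Tactic.Linarith.sub_nonpos_of_le hA) (Mathlib.Tactic.Linarith.sub_nonpos_of_le hs.left)]))).trans ?_)
  have e : p.x + (1 - s) • Dp A h p + s • Dp A (h + A) p -
      (p.x + (1 - t) • Dp A h p + t • Dp A (h + A) p) = (s - t) • (Dp A (h + A) p - Dp A h p) := by
    module
  have b1 : 1 ≤ b := hb ▸ one_le_exp hA
  have a1 := norm_Dp A (h + A) p
  rw [exp_add, hb] at a1
  have a2 : ‖Dp A h p‖ ≤ (m + 1) * (exp h * b / 2) :=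
    (norm_Dp A h p).trans (by gcongr; exact le_mul_of_one_le_right (exp_pos h).le b1)
  have a3 := norm_sub_le (Dp A (h + A) p) (Dp A h p)
  rw [e, norm_smul, Real.norm_eq_abs, add_mul]
  refine add_le_add ?_ (d_max (d_const (by positivity)) ?_)
  · calc _ ≤ exp (-h) * (|s - t| * ((m + 1) * (exp h * b))) := by clear * - h s t m A p b a1 a2 a3; gcongr; linarith only [a1, a2, a3]
      _ = (m + 1) * b * |s - t| * (exp (-h) * exp h) := by ring
      _ = _ := by rw [← exp_add, neg_add_cancel, exp_zero, mul_one]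
  · rw [add_sub_add_left_eq_sub, ← sub_mul, abs_mul, abs_of_nonneg hA, mul_comm]

theorem nb_close {B : ℕ} (hB : 1 ≤ B) (h : ℝ) (p : Hyp m) (i : Fin m) :
    |nb h p i - 2 * B * nb (h + log (2 * B : ℕ)) p i| ≤ 2 * B := by
  have a1 := abs_le.1 (nb_near h p i)
  have a2 := abs_le.1 (nb_near (h + log (2 * B : ℕ)) p i)
  have hB' : (1 : ℝ) ≤ B := by exact_mod_cast hB
  rw [exp_add, exp_log (by positivity)] at a2
  push_cast at a2
  have he := exp_pos h
  have a3 : exp h * 1 ≤ exp h * B := by gcongr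
  have : |(nb h p i : ℝ) - 2 * B * nb (h + log (2 * B : ℕ)) p i| ≤ 2 * B := by
    rw [abs_le]
    constructor <;> refine le_of_mul_le_mul_left ?_ he <;> push_cast <;> linarith only [a1, a2, he, a3, a1.1, a1.2, a2.1, a2.2]
  exact_mod_cast this

open Classical in
theorem rel_step {B : ℕ} (hB : 1 ≤ B) (hA : A = log (2 * B : ℕ)) {K K' : ℝ} (hK : 1 ≤ K)
    (hK1 : K * 5 ≤ K') (hK2 : ((m + 1) * (2 * B : ℕ) + A) * 4 ≤ K')
    (hg : ∀ p p', dist (g p) (g p') ≤ dist p p')
    (hε : ∀ x x' k, dist (g (pt x k)) (g (pt x' k)) ≤ ε * exp (-k) * ‖x - x'‖) (hε0 : 0 ≤ ε)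
    (hε1 : ε * (4 + (m + 1) * (2 * B : ℕ)) ≤ 1 / 2) {q : S} {τ τ' : (Fin m → ℤ) → ℝ → S}
    (h1 : ∀ a, Lp K (τ a) ∧ τ a 0 = g (gp h a) ∧ τ a 1 = q)
    (h2 : ∀ a, Lp K (τ' a) ∧ τ' a 0 = g (gp (h + A) a) ∧ τ' a 1 = q)
    (h3 : ∀ u U : Fin m → ℤ, (∀ i, |u i - 2 * B * U i| ≤ 2 * B) →
      W K (cat (seg g (gp (h + A) U) (gp h u)) (τ u)) (τ' U)) :
    Rel (Fm g (K' * 4) A h τ) (Fm g (K' * 4) A (h + A) τ')
      (fun p => if Act (K' * 4) A h p then K' * 4 else 0) := by
  have A0 : 0 ≤ A := hA ▸ log_natCast_nonneg _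
  have hb : exp A = (2 * B : ℕ) := by rw [hA, exp_log (by positivity)]
  have K0 : 0 < K' := by linarith only [hK, hK1]
  have M0 : 0 < K' * 4 := by linarith only [hK, hK1]
  set D : ℝ := (m + 1) * (2 * B : ℕ) + A with hD
  have D0 : 0 ≤ ((m : ℝ) + 1) * (2 * B : ℕ) := by positivity
  have aok := fun t => aok_am (h := h) hg hε hε0 A0 hb hε1 (t := t)
  have r1 : Rok K' h (rk (K' * 4) A h) (nb h : Hyp m → _) := rok_rk K0 (by linarith only [A0])
  have r2 : Rok K' h (rk (K' * 4) A (h + A)) (nb (h + A) : Hyp m → _) := rok_rk K0 (by linarith only [])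
  have r3 := r1.min K0 r2
  set r : Hyp m → ℝ := fun p => min (rk (K' * 4) A h p) (rk (K' * 4) A (h + A) p) with hr
  have cl' : ∀ p : Hyp m, Cl h D (gp h (nb h p)) (gp (h + A) (nb (h + A) p)) := fun p => by
    clear * - m h D p A B hA hB A0 D0
    rw [hA, gp_succ (by omega), ← hA]
    refine cl_lat (c := 2 * B) (fun i => ?_) le_rfl (by linarith)
      (by simpa [abs_of_nonneg A0] using (by linarith : A ≤ D)) (by linarith)
    push_cast
    exact hA ▸ nb_close hB h p i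
  have sl := fun p => seg_lp hg (cl' p)
  have lc : ∀ {τ : ℝ → S}, Lp K τ → Lp K' (cat (fun _ => τ 0) τ) := fun hτ =>
    ((Lp.const (by linarith only [hK]) _).cat hτ rfl).mono (by linarith only [hK, hK1])
  have R1 := rel_retreat (w := fun u => cat (fun _ => τ u 0) (τ u)) (aok 0 mem0) r1 r3
    (fun p => min_le_left _ _) (fun p => lc (h1 _).1) (fun p hp => by
      clear * - m A h p S τ g K' M0 hp q K h1 A0
      obtain ⟨a1, a2⟩ := rk_pos M0 hp
      simp only [cat_zero, am, (h1 _).2.1, a1, gp, sub_zero, one_smul, zero_smul, add_zero, zero_mul,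
        add_sub_cancel]
      rw [max_eq_right (by linarith)])
  have R4 := rel_retreat (w := fun u => cat (fun _ => τ' u 0) (τ' u)) (aok 1 mem1) r2 r3
    (fun p => min_le_right _ _) (fun p => lc (h2 _).1) (fun p hp => by
      obtain ⟨a1, a2⟩ := rk_pos M0 hp
      simp only [cat_zero, am, (h2 _).2.1, a1, gp, sub_self, one_smul, zero_smul, add_zero, one_mul,
        add_sub_cancel]
      rw [max_eq_right (by linarith only [A0, a2])])
  let w : ℝ → (Fin m → ℤ) × (Fin m → ℤ) → ℝ → S := fun t Q =>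
    cat (fun σ => seg g (gp h Q.1) (gp (h + A) Q.2) (t * (1 - σ))) (τ Q.1)
  have w0 : ∀ t ∈ Icc (0 : ℝ) 1, ∀ p, 0 < r p → w t (nb h p, nb (h + A) p) 0 = am g A h t p := by
    clear * - m r A h S w g K' M0 τ A0
    intro t ht' p hp
    obtain ⟨a1, a2⟩ := rk_pos M0 (hp.trans_le (min_le_left _ _))
    obtain ⟨a3, -⟩ := rk_pos M0 (hp.trans_le (min_le_right _ _))
    simp only [w, cat_zero, am, seg, a1, a3, gp, sub_zero, mul_one, pt_x, ht_pt,
      cl_of_mem ht'.1 ht'.2, add_sub_cancel_left]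
    rw [max_eq_right (by linarith only [A0, a2, ht', ht'.1, mul_nonneg_of_nonpos_of_nonpos (Mathlib.Tactic.Linarith.sub_nonpos_of_le A0) (Mathlib.Tactic.Linarith.sub_nonpos_of_le ht'.left)])]
    congr 2
    module
  have R2 : Rel (Gl (am g A h 0) r (fun p => (nb h p, nb (h + A) p)) (w 0))
      (Gl (am g A h 1) r (fun p => (nb h p, nb (h + A) p)) (w 1))
      (fun p => if Act (K' * 4) A h p then K' else 0) := by
    clear * - S m g A h r w K' τ D sl K B hK hK1 hK2 K0 hg A0 hb r3 aok q h1 w0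
    refine Rel.of_lip (fun t => Gl (am g A h t) r (fun p => (nb h p, nb (h + A) p)) (w t))
      (fun p s hs t ht' => ?_) (fun t ht' => gl_lip (aok t ht') r3 (fun p => ?_) (w0 t ht')) rfl rfl
    · have a0 := abs_nonneg (s - t)
      split_ifs with ha
      · simp only [Gl, w, cat]
        split_ifs with k k'
        · refine ((sl p).le (x := |s - t|) ?_).trans (by clear * - s t D K' K r p m B A hK hK1 hK2 k k' a0 sl; gcongr; linarith only [hK, hK1, hK2, k, k'])
          rw [← sub_mul, abs_mul]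
          exact mul_le_of_le_one_right a0 (abs_le.2 ⟨by linarith only [k, k'], by linarith only [k]⟩)
        · rw [dist_self]; positivity
        · exact (am_track hg A0 hb p hs t).trans (by gcongr; linarith only [hK, hK1, hK2])
      · rw [zero_mul]
        rcases not_and_or.1 ha with k | k
        · have k1 : r p = 0 := r3.2.1 p (by linarith)
          have k2 : ∀ t ∈ Icc (0 : ℝ) 1, am g A h t p = g p := fun t ht' => by
            clear * - S m g A h t p A0 k ht'
            rw [am, Dp_top (by linarith), Dp_top (by linarith), max_eq_left (by linarith only [k, A0, ht', ht'.2, mul_nonneg_of_nonpos_of_nonpos (Mathlib.Tactic.Linarith.sub_nonpos_of_le A0) (Mathlib.Tactic.Linarith.sub_nonpos_of_le ht'.right)])]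
            simp
          simp [Gl, k1, k2 s hs, k2 t ht']
        · have k1 : r p = 1 := le_antisymm (r3.1 p).2 (not_lt.1 k)
          simp [Gl, k1, w]
    · refine (Lp.cat (K := K' / 2) (((sl p).comp (M := 1) fun σ σ' => ?_).mono (by linarith only [hK2]))
        ((h1 _).1.mono (by linarith only [hK, hK1])) (by simp [seg_zero, (h1 _).2.1])).mono (by linarith only [])
      rw [← mul_sub, abs_mul, abs_of_nonneg ht'.1, sub_sub_sub_cancel_left, abs_sub_comm]
      exact mul_le_mul_of_nonneg_right ht'.2 (abs_nonneg _)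
  have R3 := rel_weak (w := w 1) (w' := fun Q => cat (fun _ => τ' Q.2 0) (τ' Q.2)) (aok 1 mem1) r3
    (fun p => by
      have a1 := (h3 _ _ (hA ▸ nb_close hB h p)).trans (W.unit_l (h2 _).1 rfl).symm
      rw [seg_rev] at a1
      simp only [w, one_mul]
      exact a1.mono (by linarith only [hK1])) (w0 1 mem1)
  have e1 : Gl (am g A h 0) r (fun p => (nb h p, nb (h + A) p)) (w 0) =
      Gl (am g A h 0) r (nb h) fun u => cat (fun _ => τ u 0) (τ u) := by
    funext p
    simp only [Gl, w, zero_mul, seg_zero, (h1 _).2.1]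
  have e2 : am g A h 1 = am g A (h + A) 0 := by
    clear * - m S g A h
    funext p; simp [am]
  rw [e1] at R2
  have R := ((R1.trans R2).trans R3).trans R4.symm
  rw [e2] at R
  refine R.mono fun p => ?_
  have b1 := r1.1 p
  have b2 := r2.1 p
  have b3 := r3.1 p
  by_cases ha : Act (K' * 4) A h p
  · have c1 : K' * (rk (K' * 4) A h p - r p) ≤ K' := mul_le_of_le_one_right K0.le (by linarith only [b1, b3])
    have c2 : K' * (rk (K' * 4) A (h + A) p - r p) ≤ K' :=
      mul_le_of_le_one_right K0.le (by linarith only [b2, b3])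
    simp only [ha, if_true]
    split_ifs <;> linarith only [c1, c2, hK, hK1]
  · simp only [ha, if_false]
    rcases not_and_or.1 ha with k | k
    · simp [r1.2.1 p (by linarith only [A0, k]), r2.2.1 p (by linarith only [A0, k]), r3.2.1 p (by linarith only [A0, k])]
    · have k1 : r p = 1 := le_antisymm b3.2 (not_lt.1 k)
      have k2 : rk (K' * 4) A h p = 1 := le_antisymm b1.2 (k1 ▸ min_le_left _ _)
      have k3 : rk (K' * 4) A (h + A) p = 1 := le_antisymm b2.2 (k1 ▸ min_le_right _ _)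
      simp [k1, k2, k3]

theorem wall_unique {B : ℕ} (hB : 1 ≤ B) {H : ℕ → ℝ} (hH : ∀ k, H (k + 1) = H k + log (2 * B : ℕ))
    {x c : ℝ} {k k' : ℕ} (hk : k < k') (hc : 4 * c < exp (H k)) {j j' : ℤ}
    (h1 : |x - exp (H k) * (j + 1 / 2)| ≤ c) (h2 : |x - exp (H k') * (j' + 1 / 2)| ≤ c) : False := by
  have ex : ∀ d : ℕ, ∃ n : ℤ, exp (H (k + d + 1)) = exp (H k) * (2 * n) := by
    intro d
    induction d with
    | zero => exact ⟨B, by rw [hH, exp_add, exp_log (by positivity)]; simp⟩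
    | succ d ih =>
      obtain ⟨n, hn⟩ := ih
      exact ⟨n * (2 * B), by
        rw [← add_assoc, hH, exp_add, exp_log (by positivity), hn]; push_cast; ring⟩
  obtain ⟨d, rfl⟩ := Nat.exists_eq_add_of_lt hk
  obtain ⟨n, hn⟩ := ex d
  rw [hn, abs_le] at h2
  rw [abs_le] at h1
  have he := exp_pos (H k)
  have a1 : (j : ℝ) < n * (2 * j' + 1) := lt_of_mul_lt_mul_left (a := exp (H k)) (by clear * - H k j n j' c x hc h1 h2 he; linarith only [hc, h1, h2]) he.le
  have a2 : (n : ℝ) * (2 * j' + 1) < j + 1 :=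
    lt_of_mul_lt_mul_left (a := exp (H k)) (by clear * - H k n j' j c x hc h1 h2 he; linarith only [hc, h1, h2]) he.le
  have a3 : j < n * (2 * j' + 1) := by exact_mod_cast a1
  have a4 : n * (2 * j' + 1) < j + 1 := by exact_mod_cast a2
  omega

open Classical in
theorem card_act {B : ℕ} (hB : 1 ≤ B) (hA : A = log (2 * B : ℕ)) {M : ℝ} (hM : 0 < M) (m : ℕ) :
    ∃ c : ℕ, ∀ (H₀ : ℝ) (p : Hyp m) (J : ℕ),
      ((Finset.range J).filter fun k : ℕ => Act M A (H₀ + k * A) p).card ≤ c := by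
  have hB' : (1 : ℝ) ≤ B := by exact_mod_cast hB
  have A0 : 0 < A := hA ▸ log_pos (by push_cast; linarith only [hB'])
  set C := √(cosh (1 + M) * (2 * exp (1 + M))) with hC
  have C0 : 0 ≤ C := sqrt_nonneg _
  obtain ⟨J₀, hJ₀⟩ := exists_nat_ge ((2 * A + (A + 1 + M + 4 * C)) / A)
  rw [div_le_iff₀ A0] at hJ₀
  refine ⟨J₀ + 1 + m + m, fun H₀ p J => ?_⟩
  let Big : Fin m → ℕ → Prop := fun i k => ht p + (A + 1 + M + 4 * C) < H₀ + k * A ∧
    ∃ j : ℤ, |p.x i - exp (H₀ + k * A) * (j + 1 / 2)| ≤ C * exp (ht p)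
  have un : ∀ i k k', k < k' → Big i k → Big i k' → False := by
    clear * - m Big p A M C H₀ B hB hA hM A0
    rintro i k k' hk ⟨a1, j, a2⟩ ⟨-, j', a3⟩
    refine wall_unique hB (H := fun k : ℕ => H₀ + k * A) (fun k => by rw [← hA]; push_cast; ring)
      hk ?_ a2 a3
    have b1 : exp (ht p + 4 * C) ≤ exp (H₀ + k * A) := exp_le_exp.2 (by clear * - m p C H₀ k A M hM A0 a1; linarith)
    have b2 := add_one_le_exp (4 * C)
    rw [exp_add] at b1
    clear * - C m p H₀ k A b1 b2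
    linarith only [b1, b2, exp_pos (ht p), mul_nonneg_of_nonpos_of_nonpos (Mathlib.Tactic.Linarith.sub_nonpos_of_le b2) (le_of_lt (Mathlib.Tactic.Linarith.sub_neg_of_lt (exp_pos p.ht)))]
  have ex : ∀ i, ∃ κ, ∀ k, Big i k → k = κ := fun i => by
    by_cases h : ∃ k, Big i k
    · obtain ⟨κ, hκ⟩ := h
      refine ⟨κ, fun k hk => ?_⟩
      rcases lt_trichotomy k κ with a | a | a
      · exact (un i _ _ a hk hκ).elim
      · exact a
      · exact (un i _ _ a hκ hk).elim
    · exact ⟨0, fun k hk => (h ⟨k, hk⟩).elim⟩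
  choose κ hκ using ex
  set k₀ := ⌊(ht p - A - H₀) / A⌋₊ with hk₀
  refine (Finset.card_le_card (t := Finset.Icc k₀ (k₀ + J₀) ∪ Finset.univ.image κ ∪
    Finset.univ.image fun i => κ i - 1) fun k hk => ?_).trans ?_
  · obtain ⟨a1, a2⟩ := (Finset.mem_filter.1 hk).2
    simp only [Finset.mem_union, Finset.mem_Icc, Finset.mem_image, Finset.mem_univ, true_and]
    by_cases hs : H₀ + k * A ≤ ht p + (A + 1 + M + 4 * C)
    · refine Or.inl (Or.inl ⟨Nat.floor_le_of_le (by rw [div_le_iff₀ A0]; linarith only [a1]), ?_⟩)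
      have b1 := Nat.lt_floor_add_one ((ht p - A - H₀) / A)
      rw [div_lt_iff₀ A0, ← hk₀] at b1
      have b2 : (k : ℝ) ≤ k₀ + J₀ := le_of_mul_le_mul_right (by linarith only [hJ₀, hs, b1]) A0
      exact_mod_cast b2
    · rcases min_lt_iff.1 a2 with a | a
      · rcases rho_lt (rk_lt hM a) with b | ⟨i, b⟩
        · linarith only [C0, hs, b]
        · exact Or.inl (Or.inr ⟨i, (hκ i k ⟨not_le.1 hs, b⟩).symm⟩)
      · rcases rho_lt (rk_lt hM a) with b | ⟨i, b⟩
        · linarith only [A0, C0, hs, b]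
        · have e : H₀ + k * A + A = H₀ + (k + 1 : ℕ) * A := by push_cast; ring
          have := hκ i (k + 1) ⟨by rw [← e]; linarith only [A0, hs], by rwa [← e]⟩
          exact Or.inr ⟨i, by omega⟩
  · refine (Finset.card_union_le _ _).trans (add_le_add ((Finset.card_union_le _ _).trans
      (add_le_add (by rw [Nat.card_Icc]; omega) ?_)) ?_) <;> exact Finset.card_image_le.trans (by clear * - m; simp)

theorem WShort.up {L : ℝ} (hS : WShort S L) (m : ℕ) : ∃ ε C : ℝ, 0 < ε ∧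
    ∀ (g : Hyp m → S) (q : S) (h₁ : ℝ), (∀ p p', dist (g p) (g p') ≤ dist p p') →
      (∀ x x' k, dist (g (pt x k)) (g (pt x' k)) ≤ ε * exp (-k) * ‖x - x'‖) →
      (∀ p, h₁ ≤ ht p → g p = q) → ∀ (o : Hyp m) (R : ℝ),
        Rel (fun p : closedBall o R => g p) (fun _ => q) (fun _ => C) := by
  classical
  obtain ⟨B, K, hB, hK, hc⟩ := hS.comb m
  set A := log (2 * B : ℕ) with hA
  have hB' : (1 : ℝ) ≤ B := by exact_mod_cast hB
  have A0 : 0 < A := log_pos (by push_cast; linarith only [hB'])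
  set K' := max (K * 5) (((m + 1) * (2 * B : ℕ) + A) * 4) with hK'
  have K0 : 0 < K' * 4 := by linarith only [hK, le_max_left (K * 5) (((m + 1) * (2 * B : ℕ) + A) * 4)]
  obtain ⟨c, hc'⟩ := card_act hB hA K0 m
  set ε : ℝ := 1 / 2 / (4 + (m + 1) * (2 * B : ℕ)) with hε
  have ε0 : 0 < ε := by positivity
  have ε1 : ε * (4 + (m + 1) * (2 * B : ℕ)) ≤ 1 / 2 := (div_mul_cancel₀ _ (by positivity)).le
  refine ⟨ε, c * (K' * 4), ε0, fun g q h₁ hg hg' htop o R => ?_⟩
  obtain ⟨ρ, hρ, hρ'⟩ := exists_bound o R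
  set C := √(cosh (1 + K' * 4) * (2 * exp (1 + K' * 4))) with hC
  have C0 : 0 ≤ C := sqrt_nonneg _
  obtain ⟨J, hJ⟩ := exists_nat_ge ((max h₁ (max (ht o + R + A + (1 + K' * 4))
    (2 * (ρ + C * exp (ht o + R)))) - (ht o - R)) / A)
  rw [div_le_iff₀ A0, sub_le_iff_le_add', max_le_iff, max_le_iff] at hJ
  obtain ⟨J1, J2, J3⟩ := hJ
  let H : ℕ → ℝ := fun k => ht o - R + k * A
  have hH : ∀ k, H (k + 1) = H k + A := fun k => by simp only [H]; push_cast; ring
  obtain ⟨τ, t1, t2⟩ := hc g q H J hg hH fun p hp => htop p (J1.trans hp)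
  have ind : ∀ j ≤ J, Rel (Fm g (K' * 4) A (H 0) (τ 0)) (Fm g (K' * 4) A (H j) (τ j)) fun p =>
      ((Finset.range j).filter fun k : ℕ => Act (K' * 4) A (H k) p).card * (K' * 4) := by
    clear * - J S m g K' A H τ ε B hg hg' ε0 A0 hB ε1 K0 o R K hK q t1 hA hH t2
    intro j
    induction j with
    | zero =>
      refine fun _ => Rel.of_lip (fun _ => Fm g (K' * 4) A (H 0) (τ 0)) (by simp) (fun _ _ => ?_)
        rfl rfl
      refine gl_lip (aok_am hg hg' ε0.le A0.le (exp_log (by positivity)) ε1 mem0)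
        (rok_rk (by linarith only [K0]) (by linarith only [A0])) (fun p => ((Lp.const (by linarith only [hK]) _).cat
          (t1 0 J.zero_le _).1 rfl).mono (le_max_of_le_left (by linarith only [hK]))) fun p hp => ?_
      obtain ⟨a1, a2⟩ := rk_pos K0 hp
      simp only [cat_zero, am, (t1 0 J.zero_le _).2.1, a1, gp, sub_zero, one_smul, zero_smul,
        add_zero, zero_mul, add_sub_cancel]
      rw [max_eq_right (by linarith only [A0, a2])]
    | succ j ih =>
      intro hj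
      have R := rel_step (h := H j) (K' := K') hB hA hK (le_max_left _ _) (le_max_right _ _) hg hg'
        ε0.le ε1 (t1 j (by omega)) (hH j ▸ t1 (j + 1) hj) (hH j ▸ t2 j hj)
      rw [← hH] at R
      refine ((ih (by omega)).trans R).mono fun p => le_of_eq ?_
      rw [Finset.range_add_one, Finset.filter_insert]
      split_ifs
      · rw [Finset.card_insert_of_notMem (by simp)]; push_cast; ring
      · simp
  have hb' : ∀ p : closedBall o R, ht o - R ≤ ht p.1 ∧ ht p.1 ≤ ht o + R := fun p => by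
    clear * - R m o p
    have := abs_le.1 ((abs_ht_le p.1 o).trans p.2)
    constructor <;> linarith only [this, this.1, this.2]
  have R' := ((ind J le_rfl).mono (ℓ' := fun _ => c * (K' * 4)) fun p => by
    gcongr; exact hc' _ p J).comp (fun p : closedBall o R => p.1) fun _ _ => le_rfl
  have e1 : (fun p : closedBall o R => Fm g (K' * 4) A (H 0) (τ 0) p.1) = fun p => g p.1 := by
    clear * - m o R S g K' A H τ hb' A0 K0
    funext p
    have a1 : H 0 ≤ ht p.1 := by simpa [H] using (hb' p).1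
    rw [Fm, Gl, if_neg fun hp => by linarith [(rk_pos K0 hp).2], am, Dp_top (by linarith)]
    simp [a1]
  have e2 : (fun p : closedBall o R => Fm g (K' * 4) A (H J) (τ J) p.1) = fun _ => q := by
    clear * - m o R S g K' A H J τ q K0 J2 hb' ρ hρ' C J3 hC B K t1
    funext p
    have a1 : rk (K' * 4) A (H J) p.1 = 1 := by
      clear * - m K' A H J o R p K0 J2 hb' ρ hρ' C J3 hC
      refine le_antisymm (cl_le_one _) (not_lt.1 fun hlt => ?_)
      rcases rho_lt (rk_lt K0 hlt) with b | ⟨i, j, b⟩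
      · simp only [H] at b; linarith only [J2, b, hb', (hb' p).2]
      · have b1 := (PiLp.norm_apply_le p.1.x i).trans (hρ' _ p.2)
        have b2 : C * exp (ht p.1) ≤ C * exp (ht o + R) := by gcongr; exact (hb' p).2
        have b3 := add_one_le_exp (H J)
        have he := exp_pos (H J)
        rw [Real.norm_eq_abs, abs_le] at b1
        rw [← hC, abs_le] at b
        have b0 : 2 * (ρ + C * exp (ht o + R)) ≤ H J := J3
        have b4 : (j : ℝ) < 0 := lt_of_mul_lt_mul_left (a := exp (H J)) (by linarith only [J3, b, b1, b2, b3]) he.le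
        have b5 : (-1 : ℝ) < j := lt_of_mul_lt_mul_left (a := exp (H J)) (by linarith only [J3, b, b1, b2, b3]) he.le
        have b6 : j < 0 := by exact_mod_cast b4
        have b7 : -1 < j := by exact_mod_cast b5
        omega
    simp [Fm, Gl, a1, (t1 J le_rfl _).2.2]
  rwa [e1, e2] at R'

end Pool.Agent.Work.MP_e25190_gt
end

-- merged part: Pool.Agent.Work.MP_e25190_gt.All
section
-- merged part: Pool.Agent.Work.MP_e25190_gt.Main
section
/-! The bounded / linear dichotomy. -/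

open Set Metric Real
open scoped ENNReal NNReal

namespace Pool.Agent.Work.MP_e25190_gt

open Hyp

variable {S : Type*} [MetricSpace S] {m : ℕ}

theorem rel_const (hL : IsLengthSpace S) {X : Type*} [PseudoMetricSpace X] (a b : S) {ε : ℝ}
    (hε : 0 < ε) : Rel (fun _ : X => a) (fun _ => b) (fun _ => dist a b + ε) := by
  obtain ⟨σ, h1, h2, h3⟩ := hL.exists_lp a b hε
  exact Rel.of_lip (fun t _ => σ t) (fun _ s _ t _ => h1 s t) (fun _ _ _ _ => by simp)
    (by simp [h2]) (by simp [h3])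

theorem lipDiam_le [CompactSpace S] (hL : IsLengthSpace S) {X : Type*} [PseudoMetricSpace X]
    {C : ℝ} (hC : 0 ≤ C) (h : ∀ f : X → S, LipschitzWith 1 f → ∃ q, Rel f (fun _ => q) (fun _ => C))
    {c : ℝ≥0} (hc : 1 ≤ c) : lipDiam X S c ≤ ENNReal.ofReal (2 * C + diam (univ : Set S)) := by
  refine iSup_le fun f => iSup_le fun g => iSup_le fun hf => iSup_le fun hg => ?_
  obtain ⟨a, ha⟩ := h f hf
  obtain ⟨b, hb⟩ := h g hg
  refine ENNReal.le_of_forall_pos_le_add fun ε hε _ => ?_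
  have hd := dist_le_diam_of_mem (isBounded_of_compactSpace (s := (univ : Set S))) (mem_univ a)
    (mem_univ b)
  refine ((ha.trans (rel_const hL a b (ε := ε) hε)).trans hb.symm).lipDist_le hc |>.trans ?_
  rw [← ENNReal.ofReal_coe_nnreal, ← ENNReal.ofReal_add (by positivity) (by positivity)]
  exact ENNReal.ofReal_le_ofReal (by linarith)

theorem rel_center (o : Hyp m) {R : ℝ} (hR : 0 ≤ R) (f : closedBall o R → S)
    (hf : LipschitzWith 1 f) : ∃ q, Rel f (fun _ => q) (fun _ => R) := by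
  refine ⟨ext o hR f o, Rel.of_lip (fun t p => ext o hR f (geo o p.1 (R * (1 - t))))
    (fun p s _ t _ => (ext_lip o hR hf _ _).trans ((dist_geo_le _ _ _ _).trans ?_))
    (fun t _ p p' => (ext_lip o hR hf _ _).trans (dist_retr _ _ _ _)) ?_ ?_⟩
  · exact d_cmul R hR (by simpa using d_sub (d_const (a := 1) le_rfl) (le_refl |s - t|))
  · funext p
    have := geo_of_le o p.1 (mem_closedBall'.1 p.2)
    rw [sub_zero, mul_one, this, ext]
    congr 1
    exact Subtype.ext this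
  · funext p
    rw [sub_self, mul_zero, geo_zero]

theorem sq_boundary {Y : Type*} (G : ℝ → ℝ → Y) {z : ℝ} (hz : z ∈ Icc (0 : ℝ) 1) :
    G (min (cl (2 * z)) (cl (4 - 4 * z))) (cl (4 * z - 2)) =
      cat (fun s => G s 0) (cat (G 1) fun s => G (1 - s) 1) z := by
  have e1 : G 1 1 = (fun s => G (1 - s) 1) 0 := by simp
  have e2 : (fun s => G s 0) 1 = cat (G 1) (fun s => G (1 - s) 1) 0 := by simp
  rcases le_total z (1 / 2) with h | h
  · rw [cat_left _ _ h, cl_of_nonpos (x := 4 * z - 2) (by linarith only [h]),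
      cl_of_one_le (x := 4 - 4 * z) (by linarith only [h]), min_eq_left (cl_le_one _),
      cl_of_mem (by linarith only [hz, hz.1]) (by linarith)]
  rw [cat_right e2 h, cl_of_one_le (x := 2 * z) (by linarith), min_eq_right (cl_le_one _)]
  rcases le_total z (3 / 4) with h' | h'
  · rw [cat_left _ _ (by linarith only [h']), cl_of_one_le (x := 4 - 4 * z) (by linarith only [h']),
      cl_of_mem (by linarith only [h]) (by linarith only [h'])]
    congr 1; ring
  · rw [cat_right e1 (by linarith only [h']), cl_of_one_le (x := 4 * z - 2) (by linarith only [h']),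
      cl_of_mem (by linarith only [hz, hz.2]) (by linarith only [h'])]
    congr 1; ring

theorem shorten_of_lt (o : Hyp m) {R D : ℝ} (hR : 0 < R) (hD : 0 ≤ D) {c : ℝ≥0}
    (h : lipDiam (closedBall o R) S c < ENNReal.ofReal D) (x y : S) (γ : Path x y)
    (hγ : Lp (2 * R) γ.extend) : ∃ γ' : Path x y,
      eVariationOn γ'.extend (Icc 0 1) ≤ ENNReal.ofReal (2 * D) ∧ γ.Homotopic γ' := by
  let f : closedBall o R → S := fun p => γ.extend ((ht p.1 - ht o + R) / (2 * R))
  have hf : LipschitzWith 1 f := LipschitzWith.of_dist_le_mul fun p q => by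
    refine (hγ.le (x := dist p q / (2 * R)) ?_).trans (le_of_eq (by
      rw [NNReal.coe_one]; field_simp))
    rw [← sub_div, abs_div, abs_of_pos (by positivity : 0 < 2 * R)]
    gcongr
    simpa [Subtype.dist_eq] using abs_ht_le p.1 q.1
  have h1 : lipDist c f (fun _ => x) < ENNReal.ofReal D := by
    refine lt_of_le_of_lt ?_ h
    unfold lipDiam
    refine le_iSup_of_le f ?_
    refine le_iSup_of_le (fun _ => x) ?_
    refine le_iSup_of_le hf ?_
    exact le_iSup_of_le ((LipschitzWith.const x).weaken zero_le_one) le_rfl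
  simp only [lipDist, iInf_lt_iff] at h1
  obtain ⟨F, hF, -, F0, F1, hv⟩ := h1
  have mem : ∀ τ, pt o.x (ht o + R * (2 * cl τ - 1)) ∈ closedBall o R := fun τ => by
    rw [mem_closedBall]
    conv_lhs => rw [← pt_ht o]
    simp only [pt_x, ht_pt]
    rw [dist_vert, add_sub_cancel_left, abs_mul, abs_of_pos hR]
    refine mul_le_of_le_one_right hR.le (abs_le.2 ⟨?_, ?_⟩) <;> linarith only [cl_nonneg τ, cl_le_one τ]
  let v : ℝ → closedBall o R := fun τ => ⟨_, mem τ⟩
  have hv' : Lp (R * 2) v := fun s t => by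
    rw [Subtype.dist_eq, dist_vert, add_sub_add_left_eq_sub, mul_assoc]
    exact d_cmul R hR.le (by simpa using d_cmul 2 zero_le_two (d_cl (le_refl |s - t|)))
  let G : ℝ → ℝ → S := fun s τ => F (cl s) (v τ)
  have hG : Continuous fun z : ℝ × ℝ => G z.1 z.2 :=
    hF.comp_continuous (f := fun z : ℝ × ℝ => (cl z.1, v z.2))
      ((continuous_cl.comp continuous_fst).prodMk (hv'.continuous.comp continuous_snd))
      fun z => ⟨cl_mem _, mem_univ _⟩
  have G0 : ∀ τ, G 0 τ = γ.extend τ := fun τ => by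
    simp only [G, cl_zero, F0, f, v, ht_pt]
    rw [← extend_cl γ τ]
    congr 1
    field_simp
    ring
  have G1 : G 1 = fun _ => x := funext fun τ => by simp [G, F1]
  have cc := continuous_cl
  obtain ⟨β, hβ⟩ := exists_path' (f := fun z => G (min (cl (2 * z)) (cl (4 - 4 * z)))
    (cl (4 * z - 2))) (x := x) (y := y) (hG.comp (f := fun z : ℝ =>
      (min (cl (2 * z)) (cl (4 - 4 * z)), cl (4 * z - 2))) (by fun_prop))
    (by simp [cl_of_nonpos (x := -2) (by norm_num), cl_nonneg, G0])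
    (by norm_num [cl_of_one_le (x := 2) (by norm_num), G0])
  refine ⟨β, ?_, homotopic_of_fun (fun s z => G (s * min (cl (2 * z)) (cl (4 - 4 * z)))
    ((1 - s) * z + s * cl (4 * z - 2))) (hG.comp (f := fun w : ℝ × ℝ =>
      (w.1 * min (cl (2 * w.2)) (cl (4 - 4 * w.2)), (1 - w.1) * w.2 + w.1 * cl (4 * w.2 - 2)))
      (by fun_prop)) (fun z hz => ⟨by simp [G0], by simp [hβ, cl_of_mem hz.1 hz.2]⟩)
      fun s _ => ⟨by simp [cl_of_nonpos (x := -2) (by norm_num), cl_nonneg, G0], by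
        norm_num [cl_of_one_le (x := 2) (by norm_num), G0]⟩⟩
  have track : ∀ τ, eVariationOn (fun s => G s τ) (Icc 0 1) ≤ ENNReal.ofReal D := fun τ => by
    rw [eVariationOn.congr (g := fun s => F s (v τ)) fun s hs => by
      simp only [G, cl_of_mem hs.1 hs.2]]
    exact (le_iSup (fun p => eVariationOn (fun t => F t p) (Icc 0 1)) (v τ)).trans hv.le
  rw [eVariationOn.congr (g := cat (fun s => G s 0) (cat (G 1) fun s => G (1 - s) 1))
    fun z hz => by rw [hβ, cl_of_mem hz.1 hz.2, sq_boundary G hz]]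
  refine (var_cat (by simp)).trans ((add_le_add (track 0) ((var_cat (by simp)).trans
    (add_le_add (b := 0) ?_ ((var_rev fun s => G s 1).trans (track 1))))).trans ?_)
  · rw [G1]
    simpa using (Lp.const le_rfl x).var
  · rw [zero_add, ← ENNReal.ofReal_add hD hD, two_mul]

theorem dichotomy [CompactSpace S] (hL : IsLengthSpace S) (hC : LocLipContractible S) (s₀ : S)
    (m : ℕ) :
    (Finite (FundamentalGroup S s₀) → ∃ C : ℝ, ∀ c : ℝ≥0, 1 ≤ c → ∀ (o : Hyp m) (R : ℝ), 0 ≤ R →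
      lipDiam (closedBall o R) S c ≤ ENNReal.ofReal C) ∧
    (Infinite (FundamentalGroup S s₀) → ∀ c : ℝ≥0, 1 ≤ c → ∀ (o : Hyp m) (R : ℝ), 0 ≤ R →
      ENNReal.ofReal R ≤ lipDiam (closedBall o R) S c ∧
      lipDiam (closedBall o R) S c ≤ ENNReal.ofReal (2 * R + diam (univ : Set S))) := by
  constructor
  · intro hfin
    obtain ⟨L, hS⟩ := short_of_finite hL hC s₀
    obtain ⟨C, hC'⟩ := hS.sweep m
    refine ⟨2 * max C 0 + diam (univ : Set S), fun c hc o R hR => lipDiam_le hL (le_max_right _ _)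
      (fun f hf => ?_) hc⟩
    obtain ⟨q, hq⟩ := hC' o R hR f hf
    exact ⟨q, hq.mono fun _ => le_max_left _ _⟩
  · intro hinf c hc o R hR
    refine ⟨?_, lipDiam_le hL hR (rel_center o hR) hc⟩
    by_contra hlt
    obtain ⟨D, hD, h1, h2⟩ := ENNReal.lt_iff_exists_real_btwn.1 (not_le.1 hlt)
    have h3 : D < R := (ENNReal.ofReal_lt_ofReal_iff_of_nonneg hD).1 h2
    have := finite_of_shorten hL hC s₀ (ℓ := 2 * R) (η := 2 * R - 2 * D) (by linarith only [h3])
      (by linarith) fun x y γ hγ => by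
        rw [sub_sub_cancel]
        exact shorten_of_lt o (hD.trans_lt h3) hD h1 x y γ hγ
    exact not_finite (FundamentalGroup S s₀)

end Pool.Agent.Work.MP_e25190_gt
end

-- merged part: Pool.Agent.Work.MP_e25190_gt.All
section
/-! The bounded / linear dichotomy for all compact length spaces. -/

open Set Metric Real
open scoped ENNReal NNReal

namespace Pool.Agent.Work.MP_e25190_gt

open Hyp

variable {S : Type*} [MetricSpace S] {m : ℕ}

theorem WShort.sweep {L : ℝ} (hS : WShort S L) (m : ℕ) : ∃ C : ℝ, ∀ (o : Hyp m) (R : ℝ), 0 ≤ R →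
    ∀ f : closedBall o R → S, LipschitzWith 1 f → ∃ q, Rel f (fun _ => q) (fun _ => C) := by
  obtain ⟨ε, C, hε, hup⟩ := hS.up m
  obtain ⟨s, hs0, hs1, hs2⟩ : ∃ s : ℝ, 0 ≤ s ∧ exp (-s) * exp 2 ≤ ε ∧ exp (-s) * exp 2 ≤ 1 / 4 := by
    have a0 : 0 < min ε (1 / 4) := lt_min hε (by norm_num)
    have a1 : log (min ε (1 / 4)) ≤ 0 := log_nonpos a0.le ((min_le_right _ _).trans (by norm_num))
    have a2 : exp (-(2 - log (min ε (1 / 4)))) * exp 2 = min ε (1 / 4) := by
      rw [← exp_add, neg_sub, sub_add_cancel, exp_log a0]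
    exact ⟨2 - log (min ε (1 / 4)), by linarith only [a1], a2.le.trans (min_le_left _ _),
      a2.le.trans (min_le_right _ _)⟩
  refine ⟨s + C, fun o R hR f hf => ?_⟩
  obtain ⟨ρ, hρ, hρ'⟩ := exists_bound o R
  have g1 : ∀ p p', dist (ext o hR f p) (ext o hR f p') ≤ dist p p' := ext_lip o hR hf
  have g2 : ∀ t, 0 ≤ t → ∀ p p' : Hyp m, dist (ext o hR f (pt (box ρ p.x) (ht p + t)))
      (ext o hR f (pt (box ρ p'.x) (ht p' + t))) ≤ dist p p' := fun t ht' p p' =>
    (g1 _ _).trans (by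
      conv_rhs => rw [← pt_ht p, ← pt_ht p']
      exact dist_shift (box_lip _ _ _) (by linarith) (by linarith) (by simp))
  set g : Hyp m → S := fun p => ext o hR f (pt (box ρ p.x) (ht p + s)) with hg
  have g4 : ∀ p p', dist (g p) (g p') ≤ dist p p' := g2 s hs0
  have R1 : Rel (fun p : Hyp m => ext o hR f (pt (box ρ p.x) (ht p))) g (fun _ => s) := by
    refine Rel.of_lip (fun t p => ext o hR f (pt (box ρ p.x) (ht p + s * t)))
      (fun p a _ b _ => (g1 _ _).trans ?_) (fun t ht' => g2 _ (mul_nonneg hs0 ht'.1)) (by simp)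
      (by simp [hg])
    rw [dist_vert, add_sub_add_left_eq_sub]
    exact d_cmul s hs0 le_rfl
  have g3 : ∀ x x' k, dist (g (pt x k)) (g (pt x' k)) ≤ exp (-s) * exp (-k) * ‖x - x'‖ := by
    intro x x' k
    refine (g1 _ _).trans ?_
    simp only [pt_x, ht_pt]
    refine (dist_horiz _ _ _).trans ?_
    rw [← exp_add, show -s + -k = -(k + s) by ring]
    gcongr
    exact box_lip _ _ _
  set h₀ := max (ht o + R) ((m + 1) * ρ) with hh₀
  set q := ext o hR f (pt 0 (h₀ + s))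
  let H₀ : EuclideanSpace ℝ (Fin m) → ℝ → S := fun x σ =>
    ext o hR f (pt ((1 - cl σ) • box ρ x) (h₀ + s))
  have a1 : ∀ x, H₀ x 0 = g (pt x h₀) := fun x => by simp [H₀, hg]
  have a2 : ∀ x, H₀ x 1 = q := fun x => by simp [H₀, q]
  have a3 : ∀ x, Lp 1 (H₀ x) := fun x σ σ' => (g1 _ _).trans ((dist_horiz _ _ _).trans (by
    rw [← sub_smul, norm_smul, Real.norm_eq_abs, ← mul_assoc, mul_right_comm]
    refine mul_le_mul ?_ (by simpa using d_sub (d_const (a := 1) le_rfl) (d_cl le_rfl))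
      (abs_nonneg _) zero_le_one
    rw [exp_neg, inv_mul_le_iff₀ (exp_pos _), mul_one]
    linarith only [hs0, hρ, norm_box hρ x, add_one_le_exp (h₀ + s), le_max_right (ht o + R) ((m + 1) * ρ)]))
  have a4 : ∀ x x', ∀ σ ∈ Icc (0 : ℝ) 1, dist (H₀ x σ) (H₀ x' σ) ≤
      exp (-s) * exp (-h₀) * ‖x - x'‖ := fun x x' σ _ =>
    (g1 _ _).trans ((dist_horiz _ _ _).trans (by
      rw [← exp_add, show -s + -h₀ = -(h₀ + s) by ring, ← smul_sub, norm_smul, ← cl_one_sub]
      gcongr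
      exact (mul_le_of_le_one_left (norm_nonneg _) (abs_cl_le _)).trans (box_lip _ _ _)))
  have a5 := lay_lip (N := 2) g4 two_pos a1 a2 (fun x σ _ σ' _ => by simpa using a3 x σ σ') a4
    (by positivity) (by rwa [mul_assoc, ← exp_add (-h₀), neg_add_cancel_left])
  have a6 : ∀ k k', k ≤ k' + 2 → exp (-s) * exp (-k') ≤ ε * exp (-k) := fun k k' hk => by
    refine le_trans ?_ (mul_le_mul_of_nonneg_right hs1 (exp_pos _).le)
    rw [mul_assoc, ← exp_add 2]
    exact mul_le_mul_of_nonneg_left (exp_le_exp.2 (by linarith only [hk])) (exp_pos _).le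
  have R2 := hup (Lay g h₀ 2 H₀) q (h₀ + 2) a5 (fun x x' k => by
    rcases le_total k h₀ with hk | hk
    · rw [lay_low (by simpa), lay_low (by simpa)]
      exact (g3 x x' k).trans (mul_le_mul_of_nonneg_right (a6 _ _ (by linarith only [])) (norm_nonneg _))
    rcases le_total k (h₀ + 2) with hk' | hk'
    · rw [lay_up a1 (by simpa), lay_up a1 (by simpa)]
      exact (a4 x x' _ (cl_mem _)).trans (mul_le_mul_of_nonneg_right (a6 _ _ hk') (norm_nonneg _))
    · rw [lay_top two_pos a2 (by simpa), lay_top two_pos a2 (by simpa), dist_self]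
      positivity) (fun p hp => lay_top two_pos a2 hp) o R
  have R4 := R1.comp (fun p : closedBall o R => p.1) fun _ _ => le_rfl
  have e1 : (fun p : closedBall o R => ext o hR f (pt (box ρ p.1.x) (ht p.1))) = f := by
    funext p
    rw [box_eq (hρ' _ p.2), pt_ht, ext]
    congr 1
    exact Subtype.ext (geo_of_le o p.1 (mem_closedBall'.1 p.2))
  have e2 : (fun p : closedBall o R => Lay g h₀ 2 H₀ p.1) = fun p => g p.1 := funext fun p =>
    lay_low (le_max_of_le_left (by linarith only [(abs_le.1 ((abs_ht_le p.1 o).trans p.2)).2]))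
  rw [e1] at R4
  rw [e2] at R2
  exact ⟨q, R4.trans R2⟩

theorem var_prod (a b : ℝ → S) (s : Set ℝ) :
    eVariationOn (fun t => (a t, b t)) s ≤ eVariationOn a s + eVariationOn b s := by
  refine iSup_le ?_
  rintro ⟨n, u, hu, us⟩
  refine le_trans (Finset.sum_le_sum fun i _ => ?_) (Finset.sum_add_distrib.le.trans
    (add_le_add (eVariationOn.sum_le (f := a) hu us) (eVariationOn.sum_le (f := b) hu us)))
  rw [Prod.edist_eq]
  exact max_le le_self_add le_add_self

theorem var_mono (a : ℝ → S) {ψ : ℝ → ℝ} (h : Monotone ψ) (h' : ∀ t, ψ t ∈ Icc (0 : ℝ) 1) :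
    eVariationOn (fun t => a (ψ t)) (Icc 0 1) ≤ eVariationOn a (Icc 0 1) :=
  eVariationOn.comp_le_of_monotoneOn a ψ (h.monotoneOn _) fun t _ => h' t

/-- a free contraction of a path with short tracks gives a shortening with fixed end points -/
theorem W.of_free {D K ε : ℝ} (hD : 0 ≤ D) (hε : 0 < ε) : ∃ K', ∀ (γ : ℝ → S) (G : ℝ → ℝ → S),
    (∀ σ, Continuous fun s => G s σ) → (∀ s, Lp K (G s)) → (∀ σ ∈ Icc (0 : ℝ) 1, G 0 σ = γ σ) →
    (∀ σ, G 1 σ = G 1 0) → (∀ σ, eVariationOn (fun s => G s σ) (Icc 0 1) ≤ ENNReal.ofReal D) →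
    ∃ β, Lp (2 * D + ε) β ∧ W K' γ β := by
  set E := max K (2 * D + ε) with hE
  have E1 : K ≤ E := le_max_left _ _
  have E2 : 2 * D + ε ≤ E := le_max_right _ _
  refine ⟨E * 2 * 4 + E * 4 * 2 + E * 2 * 2 + E * 2 * 2 * max 1 (ε⁻¹ * (2 * D + ε)) * 2,
    fun γ G h1 h2 h3 h4 h5 => ?_⟩
  obtain ⟨ψ, p1, p2, p3, p4, p5, p6⟩ := exists_reparam' (γ := fun s => (G s 0, G s 1))
    ((h1 0).prodMk (h1 1)) (V := 2 * D) (by linarith) hε ((var_prod _ _ _).trans
      ((add_le_add (h5 0) (h5 1)).trans (by rw [← ENNReal.ofReal_add hD hD, two_mul])))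
  have la : Lp E fun t => G (ψ t) 0 := fun s t => (max_le_iff.1 (p6.mono E2 s t)).1
  have lb : Lp E fun t => G (ψ t) 1 := fun s t => (max_le_iff.1 (p6.mono E2 s t)).2
  let F : ℝ → ℝ → S := fun u => cat (fun σ => G (ψ (u * σ)) 0)
    (cat (G (ψ u)) fun σ => G (ψ (u * (1 - σ))) 1)
  have lF : ∀ u ∈ Icc (0 : ℝ) 1, Lp (E * 2 * 2) (F u) := fun u hu => by
    have k : ∀ s t : ℝ, |u * s - u * t| ≤ 1 * |s - t| := fun s t =>
      (d_cmul u hu.1 le_rfl).trans (mul_le_mul_of_nonneg_right hu.2 (abs_nonneg _))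
    exact ((la.comp k).mono (by linarith)).cat (((h2 _).mono E1).cat
      (((lb.comp k).mono (by linarith)).rev) (by simp)) (by simp)
  have tr : ∀ (c : ℝ → S) (σ : ℝ), Lp E c → σ ∈ Icc (0 : ℝ) 1 → Lp (E * 2 * 2) fun u => c (u * σ) :=
    fun c σ hc hσ => (hc.comp (M := 1) fun s t => by
      rw [← sub_mul, abs_mul, abs_of_nonneg hσ.1, one_mul]
      exact mul_le_of_le_one_right (abs_nonneg _) hσ.2).mono (by linarith)
  have w2 : W (E * 2 * 2) (F 0) (F 1) := by
    refine W.mk' F (fun σ hσ => Continuous.continuousOn ?_) (fun u hu σ _ σ' _ => lF u hu σ σ')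
      (fun _ _ => ⟨rfl, rfl⟩) (fun u _ => by simp [F]) (fun σ hσ => ?_)
    · simp only [F, cat]
      split_ifs
      · exact la.continuous.comp (continuous_id.mul continuous_const)
      · exact (h1 _).comp p2.continuous
      · exact lb.continuous.comp (continuous_id.mul continuous_const)
    · simp only [F, cat]
      split_ifs with k k'
      · exact (tr _ _ la ⟨by linarith only [hσ, hσ.1], by linarith only [k]⟩).var
      · exact (var_mono (fun s => G s _) p1 p5).trans ((h5 _).trans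
          (ENNReal.ofReal_le_ofReal (by linarith only [hD, hε, E2])))
      · exact (tr _ _ lb ⟨by linarith only [hσ, hσ.2], by linarith only [k']⟩).var
  have l0 : Lp E (G 0) := (h2 0).mono E1
  have w1 : W (E * 2 * 4 + E * 4 * 2) (G 0) (F 0) := by
    have a1 := (W.unit_l (x := G 0 0) (l0.mono (by linarith : E ≤ E * 2)) rfl).symm
    have a2 := (W.refl (Lp.const (by linarith only [hD, hε, E2] : 0 ≤ E * 4) (G 0 0))).cat
      (W.unit_r (x := G 0 1) l0 rfl).symm rfl
    simpa only [F, zero_mul, p3] using a1.trans a2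
  have vF : eVariationOn (F 1) (Icc 0 1) ≤ ENNReal.ofReal (2 * D) := by
    refine (var_cat (by simp)).trans ((add_le_add (b := ENNReal.ofReal D) ?_ ((var_cat (by simp)).trans
      (add_le_add (b := 0) (d := ENNReal.ofReal D) ?_ ?_))).trans ?_)
    · simp only [one_mul]
      exact (var_mono (fun s => G s 0) p1 p5).trans (h5 0)
    · rw [p4, eVariationOn.congr (g := fun _ => G 1 0) fun σ _ => h4 σ]
      simpa using (Lp.const le_rfl (G 1 0)).var
    · simp only [one_mul]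
      exact (var_rev fun s => G (ψ s) 1).trans ((var_mono (fun s => G s 1) p1 p5).trans (h5 1))
    · rw [zero_add, ← ENNReal.ofReal_add hD hD, two_mul]
  obtain ⟨χ, -, q2, q3, q4, -, q6⟩ := exists_reparam' (lF 1 mem1).continuous (by linarith) hε vF
  have w3 := W.reparam (α := F 1) (β := fun t => F 1 (χ t)) (lF 1 mem1)
    (M := max 1 (ε⁻¹ * (2 * D + ε))) (φ := id) (ψ := χ)
    (fun s t => le_mul_of_one_le_left (abs_nonneg _) (le_max_left _ _))
    (q2.mono (le_max_right _ _)) q3.symm q4.symm (fun _ _ => rfl) (fun _ _ => rfl)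
  exact ⟨_, q6, ((w1.trans w2).trans w3).congr (fun σ hσ => (h3 σ hσ).symm) fun _ _ => rfl⟩

theorem shortenable_of_lt (o : Hyp m) {R D : ℝ} (hD : 0 ≤ D) (hR : D < R) {c : ℝ≥0}
    (h : lipDiam (closedBall o R) S c < ENNReal.ofReal D) : Shortenable S := by
  have hR0 : 0 < R := hD.trans_lt hR
  obtain ⟨K, hK⟩ := W.of_free (S := S) (K := c * (R * 2)) hD (sub_pos.2 hR)
  refine ⟨(2 * R).toNNReal, (2 * D + (R - D)).toNNReal, K.toNNReal,
    (toNNReal_lt_toNNReal_iff (by linarith only [hD, hR])).2 (by linarith), fun γ hγ => ?_⟩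
  have hγ' : Lp (2 * R) fun t => γ (cl t) := fun s t =>
    (hγ.dist_le_mul _ (cl_mem s) _ (cl_mem t)).trans (by
      rw [coe_toNNReal _ (by linarith)]
      exact mul_le_mul_of_nonneg_left (d_cl le_rfl) (by linarith))
  let f : closedBall o R → S := fun p => γ (cl ((ht p.1 - ht o + R) / (2 * R)))
  have hf : LipschitzWith 1 f := LipschitzWith.of_dist_le_mul fun p q => by
    refine (hγ'.le (x := dist p q / (2 * R)) ?_).trans (le_of_eq (by
      rw [NNReal.coe_one]; field_simp))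
    rw [← sub_div, abs_div, abs_of_pos (by positivity : 0 < 2 * R)]
    gcongr
    simpa [Subtype.dist_eq] using abs_ht_le p.1 q.1
  have h1 : lipDist c f (fun _ => γ 0) < ENNReal.ofReal D := by
    refine lt_of_le_of_lt ?_ h
    unfold lipDiam
    refine le_iSup_of_le f ?_
    refine le_iSup_of_le (fun _ => γ 0) ?_
    refine le_iSup_of_le hf ?_
    exact le_iSup_of_le ((LipschitzWith.const _).weaken zero_le_one) le_rfl
  simp only [lipDist, iInf_lt_iff] at h1
  obtain ⟨F, hF, hF', F0, F1, hv⟩ := h1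
  have mem : ∀ τ, pt o.x (ht o + R * (2 * cl τ - 1)) ∈ closedBall o R := fun τ => by
    rw [mem_closedBall]
    conv_lhs => rw [← pt_ht o]
    simp only [pt_x, ht_pt]
    rw [dist_vert, add_sub_cancel_left, abs_mul, abs_of_pos hR0]
    refine mul_le_of_le_one_right hR0.le (abs_le.2 ⟨?_, ?_⟩) <;> linarith only [cl_nonneg τ, cl_le_one τ]
  let v : ℝ → closedBall o R := fun τ => ⟨_, mem τ⟩
  have hv' : Lp (R * 2) v := fun s t => by
    rw [Subtype.dist_eq, dist_vert, add_sub_add_left_eq_sub, mul_assoc]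
    exact d_cmul R hR0.le (by simpa using d_cmul 2 zero_le_two (d_cl (le_refl |s - t|)))
  obtain ⟨β, b1, G, g1, g2, g3, g4, g5⟩ := hK γ (fun s τ => F (cl s) (v τ))
    (fun τ => hF.comp_continuous (f := fun s : ℝ => (cl s, v τ))
      (continuous_cl.prodMk continuous_const) fun s => ⟨cl_mem _, mem_univ _⟩)
    (fun s τ τ' => ((hF' _ (cl_mem s)).dist_le_mul _ _).trans (by
      rw [mul_assoc]; exact mul_le_mul_of_nonneg_left (hv' τ τ') c.2))
    (fun τ hτ => by
      simp only [cl_zero, F0, f, v, ht_pt, cl_of_mem hτ.1 hτ.2]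
      rw [show (ht o + R * (2 * τ - 1) - ht o + R) / (2 * R) = τ by field_simp; ring,
        cl_of_mem hτ.1 hτ.2])
    (fun τ => by simp [F1]) (fun τ => by
      rw [eVariationOn.congr (g := fun s => F s (v τ)) fun s hs => by
        simp only [cl_of_mem hs.1 hs.2]]
      exact (le_iSup (fun p => eVariationOn (fun t => F t p) (Icc 0 1)) (v τ)).trans hv.le)
  refine ⟨G, continuousOn_prod_of_continuousOn_lipschitzOnWith' _ K.toNNReal
    (fun s _ => (g2 s).lipschitzWith.lipschitzOnWith) (fun σ _ => (g1 σ).continuousOn),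
    fun σ hσ => (g3 σ hσ).1, fun σ hσ σ' hσ' => ?_,
    fun s _ => ⟨(g2 s).lipschitzWith.lipschitzOnWith, g4 s⟩, fun σ _ => g5 σ⟩
  rw [(g3 σ hσ).2, (g3 σ' hσ').2]
  exact b1.lipschitzWith σ σ'

theorem dichotomy_all [CompactSpace S] (hL : IsLengthSpace S) :
    (Shortenable S → ∀ m : ℕ, ∃ C : ℝ, ∀ c : ℝ≥0, 1 ≤ c → ∀ (o : Hyp m) (R : ℝ), 0 ≤ R →
      lipDiam (closedBall o R) S c ≤ ENNReal.ofReal C) ∧
    (¬ Shortenable S → ∀ (m : ℕ) (c : ℝ≥0), 1 ≤ c → ∀ (o : Hyp m) (R : ℝ), 0 ≤ R →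
      ENNReal.ofReal R ≤ lipDiam (closedBall o R) S c ∧
      lipDiam (closedBall o R) S c ≤ ENNReal.ofReal (2 * R + diam (univ : Set S))) ∧
    (LocLipContractible S → ∀ s₀ : S, Shortenable S ↔ Finite (FundamentalGroup S s₀)) := by
  have A : Shortenable S → ∀ m : ℕ, ∃ C : ℝ, ∀ c : ℝ≥0, 1 ≤ c → ∀ (o : Hyp m) (R : ℝ), 0 ≤ R →
      lipDiam (closedBall o R) S c ≤ ENNReal.ofReal C := fun h m => by
    obtain ⟨L, hS⟩ := h.wshort
    obtain ⟨C, hC'⟩ := hS.sweep m
    refine ⟨2 * max C 0 + diam (univ : Set S), fun c hc o R hR => lipDiam_le hL (le_max_right _ _)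
      (fun f hf => ?_) hc⟩
    obtain ⟨q, hq⟩ := hC' o R hR f hf
    exact ⟨q, hq.mono fun _ => le_max_left _ _⟩
  have B : ¬ Shortenable S → ∀ (m : ℕ) (c : ℝ≥0), 1 ≤ c → ∀ (o : Hyp m) (R : ℝ), 0 ≤ R →
      ENNReal.ofReal R ≤ lipDiam (closedBall o R) S c ∧
      lipDiam (closedBall o R) S c ≤ ENNReal.ofReal (2 * R + diam (univ : Set S)) := by
    intro hn m c hc o R hR
    refine ⟨?_, lipDiam_le hL hR (rel_center o hR) hc⟩
    by_contra hlt
    obtain ⟨D, hD, h1, h2⟩ := ENNReal.lt_iff_exists_real_btwn.1 (not_le.1 hlt)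
    exact hn (shortenable_of_lt o hD ((ENNReal.ofReal_lt_ofReal_iff_of_nonneg hD).1 h2) h1)
  have no : ∀ C : ℝ, (∀ R : ℝ, 0 ≤ R → ENNReal.ofReal R ≤ ENNReal.ofReal C) → False := fun C h => by
    have := (ENNReal.ofReal_le_ofReal_iff' ).1 (h (|C| + 1) (by positivity))
    rcases this with k | k <;> linarith only [k, le_abs_self C, abs_nonneg C]
  refine ⟨A, B, fun hC s₀ => ⟨fun h => ?_, fun h => ?_⟩⟩
  · by_contra hf
    obtain ⟨C, hC'⟩ := A h 0
    exact no C fun R hR => ((dichotomy hL hC s₀ 0).2 (not_finite_iff_infinite.1 hf) 1 le_rfl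
      (pt 0 0) R hR).1.trans (hC' 1 le_rfl _ R hR)
  · by_contra hn
    obtain ⟨C, hC'⟩ := (dichotomy hL hC s₀ 0).1 h
    exact no C fun R hR => (B hn 0 1 le_rfl (pt 0 0) R hR).1.trans (hC' 1 le_rfl _ R hR)

end Pool.Agent.Work.MP_e25190_gt
end
end
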