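import Mathlib

/-! Definitions used in the statements about `diam_c (Lip_1 (B_H^n(R) → S))`. -/

open Set
open scoped ENNReal NNReal

namespace Pool.Agent.Work.MP_e25190_gt

/-- Hyperbolic space of dimension `m + 1`, upper half-space model: points `(x, y)` with
`x ∈ ℝ^m` and `y > 0`. -/
@[ext] structure Hyp (m : ℕ) where
  /-- horizontal coordinate -/
  x : EuclideanSpace ℝ (Fin m)
  /-- height -/
  y : ℝ
  y_pos : 0 < y

namespace Hyp

variable {m : ℕ}

/-- The hyperbolic distance (curvature `-1`) of the upper half-space model: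
`2 arsinh (|p - q| / (2 √(y_p y_q)))`, where `|p - q|` is the Euclidean distance. -/
noncomputable def hdist (p q : Hyp m) : ℝ :=
  2 * Real.arsinh (√(‖p.x - q.x‖ ^ 2 + (p.y - q.y) ^ 2) / (2 * √(p.y * q.y)))

theorem hdist_triangle (a b c : Hyp m) : hdist a c ≤ hdist a b + hdist b c := by
  have ha := a.y_pos
  have hb := b.y_pos
  have hc := c.y_pos
  let V := WithLp 2 (EuclideanSpace ℝ (Fin m) × ℝ)
  have hd : ∀ (x x' : EuclideanSpace ℝ (Fin m)) (y y' : ℝ),
      dist (WithLp.toLp 2 (x, y) : V) (WithLp.toLp 2 (x', y')) =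
        √(‖x - x'‖ ^ 2 + (y - y') ^ 2) := by
    intro x x' y y'
    rw [WithLp.prod_dist_eq_of_L2]
    simp [dist_eq_norm]
  have hs : ∀ p q : Hyp m, Real.sinh (hdist p q / 2) =
      √(‖p.x - q.x‖ ^ 2 + (p.y - q.y) ^ 2) / (2 * √(p.y * q.y)) := by
    intro p q
    rw [hdist, mul_div_cancel_left₀ _ two_ne_zero, Real.sinh_arsinh]
  have hco : ∀ p q : Hyp m, Real.cosh (hdist p q / 2) =
      √(‖p.x - q.x‖ ^ 2 + (p.y + q.y) ^ 2) / (2 * √(p.y * q.y)) := by
    intro p q
    have hp := p.y_pos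
    have hq := q.y_pos
    rw [← sq_eq_sq₀ (by positivity) (by positivity), Real.cosh_sq', hs, div_pow, div_pow,
      mul_pow, Real.sq_sqrt (by positivity), Real.sq_sqrt (by positivity),
      Real.sq_sqrt (by positivity)]
    field_simp
    ring
  have key := EuclideanGeometry.mul_dist_le_mul_dist_add_mul_dist
    (WithLp.toLp 2 (a.x, a.y) : V) (WithLp.toLp 2 (b.x, b.y)) (WithLp.toLp 2 (c.x, c.y))
    (WithLp.toLp 2 (b.x, -b.y))
  rw [hd, hd, hd, hd, hd, hd] at key
  have e1 : √(‖b.x - b.x‖ ^ 2 + (b.y - -b.y) ^ 2) = 2 * b.y := by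
    rw [sub_self, norm_zero, ← Real.sqrt_sq (x := 2 * b.y) (by positivity)]
    congr 1
    ring
  rw [e1, sub_neg_eq_add, sub_neg_eq_add, norm_sub_rev c.x b.x, add_comm c.y b.y] at key
  rw [← div_le_div_iff_of_pos_right (zero_lt_two' ℝ), ← Real.sinh_le_sinh, add_div,
    Real.sinh_add, hs, hs, hs, hco, hco]
  rw [Real.sqrt_mul ha.le, Real.sqrt_mul ha.le, Real.sqrt_mul hb.le]
  have h2 : √b.y * √b.y = b.y := Real.mul_self_sqrt hb.le
  have h3 : 0 < √a.y := by positivity
  have h4 : 0 < √b.y := by positivity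
  have h5 : 0 < √c.y := by positivity
  rw [div_mul_div_comm, div_mul_div_comm, ← add_div, div_le_div_iff₀ (by positivity)
    (by positivity)]
  have h6 : 2 * (√a.y * √b.y) * (2 * (√b.y * √c.y)) = (2 * b.y) * (2 * (√a.y * √c.y)) := by
    linear_combination (4 * √a.y * √c.y) * h2
  rw [h6, ← mul_assoc]
  refine mul_le_mul_of_nonneg_right ?_ (by positivity)
  linarith

/-- Hyperbolic space as a metric space. -/
noncomputable instance : MetricSpace (Hyp m) where
  dist := hdist
  dist_self p := by simp [hdist]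
  dist_comm p q := by
    simp only [hdist]
    rw [norm_sub_rev p.x, mul_comm p.y, ← neg_sub p.y, neg_sq]
  dist_triangle := hdist_triangle
  eq_of_dist_eq_zero {p q} h := by
    have hp := p.y_pos
    have hq := q.y_pos
    have h1 : √(‖p.x - q.x‖ ^ 2 + (p.y - q.y) ^ 2) = 0 := by
      have h2 : 0 < 2 * √(p.y * q.y) := by positivity
      simpa [hdist, h2.ne', hp.ne', hq.ne', Real.sqrt_eq_zero', (mul_pos hp hq).not_ge] using h
    rw [Real.sqrt_eq_zero (by positivity)] at h1
    have h3 : ‖p.x - q.x‖ = 0 := by nlinarith [sq_nonneg ‖p.x - q.x‖, sq_nonneg (p.y - q.y)]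
    have h4 : p.y - q.y = 0 := by nlinarith [sq_nonneg ‖p.x - q.x‖, sq_nonneg (p.y - q.y)]
    exact Hyp.ext (sub_eq_zero.1 (norm_eq_zero.1 h3)) (sub_eq_zero.1 h4)

end Hyp

/-- `dist_c (f, g)`: the infimum, over the curves `F t` (`0 ≤ t ≤ 1`) of `c`-Lipschitz maps
`X → S` from `f` to `g`, continuous in `(t, x)`, of the supremum over `x` of the length
(total variation) of the track `t ↦ F t x`. -/
noncomputable def lipDist {X S : Type*} [PseudoMetricSpace X] [PseudoMetricSpace S]
    (c : ℝ≥0) (f g : X → S) : ℝ≥0∞ :=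
  ⨅ (F : ℝ → X → S) (_ : ContinuousOn (fun z : ℝ × X => F z.1 z.2) (Icc 0 1 ×ˢ univ))
    (_ : ∀ t ∈ Icc (0 : ℝ) 1, LipschitzWith c (F t)) (_ : F 0 = f) (_ : F 1 = g),
    ⨆ x, eVariationOn (fun t => F t x) (Icc 0 1)

/-- `diam_c (Lip_1 (X → S))`: the supremum of `dist_c (f, g)` over `1`-Lipschitz `f, g`. -/
noncomputable def lipDiam (X S : Type*) [PseudoMetricSpace X] [PseudoMetricSpace S]
    (c : ℝ≥0) : ℝ≥0∞ :=
  ⨆ (f : X → S) (g : X → S) (_ : LipschitzWith 1 f) (_ : LipschitzWith 1 g), lipDist c f g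

/-- A length space: any two points are joined by paths whose length (total variation) is
arbitrarily close to their distance. -/
def IsLengthSpace (S : Type*) [PseudoMetricSpace S] : Prop :=
  ∀ (p q : S) (ε : ℝ), 0 < ε →
    ∃ γ : Path p q, eVariationOn γ univ ≤ ENNReal.ofReal (dist p q + ε)

/-- Locally Lipschitz contractible: every point has a neighbourhood `U` that is contracted to a
point inside `S` by a homotopy `H : [0,1] × U → S` which is a Lipschitz map. -/
def LocLipContractible (S : Type*) [PseudoMetricSpace S] : Prop :=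
  ∀ p : S, ∃ U ∈ nhds p, ∃ (q : S) (K : ℝ≥0) (H : ℝ × S → S),
    LipschitzOnWith K H (Icc 0 1 ×ˢ U) ∧ ∀ x ∈ U, H (0, x) = x ∧ H (1, x) = q

end Pool.Agent.Work.MP_e25190_gt
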