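import Mathlib

/-! The path-shortening property of a metric space. -/

open Set
open scoped ENNReal NNReal

namespace Pool.Agent.Work.MP_e25190_gt

/-- Uniform shortening of paths: there are constants `L' < L` and `K` such that every
`L`-Lipschitz path `γ : [0,1] → S` is deformed, with fixed end points, to an `L'`-Lipschitz path by
a continuous homotopy `G s σ` (`s` the time) through `K`-Lipschitz paths, during which every point
moves along a curve `s ↦ G s σ` of length (total variation) at most `K`. -/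
def Shortenable (S : Type*) [PseudoMetricSpace S] : Prop :=
  ∃ L L' K : ℝ≥0, L' < L ∧ ∀ γ : ℝ → S, LipschitzOnWith L γ (Icc 0 1) →
    ∃ G : ℝ → ℝ → S, ContinuousOn (fun z : ℝ × ℝ => G z.1 z.2) (Icc 0 1 ×ˢ Icc 0 1) ∧
      (∀ σ ∈ Icc (0 : ℝ) 1, G 0 σ = γ σ) ∧ LipschitzOnWith L' (G 1) (Icc 0 1) ∧
      (∀ s ∈ Icc (0 : ℝ) 1, LipschitzOnWith K (G s) (Icc 0 1) ∧ G s 0 = γ 0 ∧ G s 1 = γ 1) ∧
      ∀ σ ∈ Icc (0 : ℝ) 1, eVariationOn (fun s => G s σ) (Icc 0 1) ≤ K

end Pool.Agent.Work.MP_e25190_gt
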