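import Pool.Agent.Work.MP_e25190_gt.Defs
import Pool.Agent.Work.MP_e25190_gt.Defs2

-- merged part: Pool.Agent.Work.MP_e25190_gt.Local
section
-- merged part: Pool.Agent.Work.MP_e25190_gt.Tools
section
/-! Lipschitz paths, Lipschitz squares, deformations of maps. -/

open Set
open scoped ENNReal NNReal

namespace Pool.Agent.Work.MP_e25190_gt

/-- clamp to `[0,1]` -/
noncomputable def cl (x : ℝ) : ℝ := max 0 (min x 1)

theorem cl_nonneg (x : ℝ) : 0 ≤ cl x := le_max_left _ _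
theorem cl_le_one (x : ℝ) : cl x ≤ 1 := max_le zero_le_one (min_le_right _ _)
theorem cl_mem (x : ℝ) : cl x ∈ Icc (0 : ℝ) 1 := ⟨cl_nonneg x, cl_le_one x⟩
theorem cl_of_nonpos {x : ℝ} (h : x ≤ 0) : cl x = 0 := max_eq_left ((min_le_left _ _).trans h)
theorem cl_of_one_le {x : ℝ} (h : 1 ≤ x) : cl x = 1 := by simp [cl, h]
theorem cl_of_mem {x : ℝ} (h0 : 0 ≤ x) (h1 : x ≤ 1) : cl x = x := by simp [cl, h0, h1]
@[simp] theorem cl_zero : cl 0 = 0 := cl_of_nonpos le_rfl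
@[simp] theorem cl_one : cl 1 = 1 := cl_of_one_le le_rfl
theorem cl_mono {x y : ℝ} (h : x ≤ y) : cl x ≤ cl y := max_le_max le_rfl (min_le_min_right _ h)
theorem abs_cl_le (x : ℝ) : |cl x| ≤ 1 := by rw [abs_of_nonneg (cl_nonneg x)]; exact cl_le_one x
theorem cl_one_sub (x : ℝ) : cl (1 - x) = 1 - cl x := by
  rcases le_total x 0 with h | h
  · rw [cl_of_nonpos h, cl_of_one_le (by linarith), sub_zero]
  rcases le_total x 1 with h' | h'
  · rw [cl_of_mem h h', cl_of_mem (by linarith) (by linarith)]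
  · rw [cl_of_one_le h', cl_of_nonpos (by linarith), sub_self]

theorem d_max {a a' b b' x : ℝ} (h1 : |a - a'| ≤ x) (h2 : |b - b'| ≤ x) :
    |max a b - max a' b'| ≤ x := (abs_max_sub_max_le_max _ _ _ _).trans (max_le h1 h2)
theorem d_min {a a' b b' x : ℝ} (h1 : |a - a'| ≤ x) (h2 : |b - b'| ≤ x) :
    |min a b - min a' b'| ≤ x := (abs_min_sub_min_le_max _ _ _ _).trans (max_le h1 h2)
theorem d_const {a x : ℝ} (h : 0 ≤ x) : |a - a| ≤ x := by simpa using h
theorem d_cl {a a' x : ℝ} (h : |a - a'| ≤ x) : |cl a - cl a'| ≤ x :=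
  have h0 : 0 ≤ x := (abs_nonneg _).trans h
  d_max (d_const h0) (d_min h (d_const h0))
theorem d_add {a a' b b' x y : ℝ} (h1 : |a - a'| ≤ x) (h2 : |b - b'| ≤ y) :
    |(a + b) - (a' + b')| ≤ x + y := by
  rw [abs_le] at *; constructor <;> linarith only [h1, h2, h1.1, h1.2, h2.1, h2.2]
theorem d_sub {a a' b b' x y : ℝ} (h1 : |a - a'| ≤ x) (h2 : |b - b'| ≤ y) :
    |(a - b) - (a' - b')| ≤ x + y := by
  rw [abs_le] at *; constructor <;> linarith only [h1, h2, h1.1, h1.2, h2.1, h2.2]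
theorem d_mul {a a' b b' x y A B : ℝ} (hA : |a| ≤ A) (hB : |b'| ≤ B) (h1 : |a - a'| ≤ x)
    (h2 : |b - b'| ≤ y) : |a * b - a' * b'| ≤ A * y + B * x := by
  have : a * b - a' * b' = a * (b - b') + b' * (a - a') := by ring
  rw [this]
  refine (abs_add_le _ _).trans ?_
  rw [abs_mul, abs_mul]
  have hA0 : 0 ≤ A := (abs_nonneg _).trans hA
  have hB0 : 0 ≤ B := (abs_nonneg _).trans hB
  gcongr
theorem d_cmul {a a' x : ℝ} (c : ℝ) (hc : 0 ≤ c) (h : |a - a'| ≤ x) :
    |c * a - c * a'| ≤ c * x := by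
  rw [← mul_sub, abs_mul, abs_of_nonneg hc]; gcongr
theorem d_abs {a a' x : ℝ} (h : |a - a'| ≤ x) : |(|a|) - (|a'|)| ≤ x :=
  (abs_abs_sub_abs_le_abs_sub _ _).trans h

theorem continuous_cl : Continuous cl := by unfold cl; fun_prop

variable {S : Type*} [MetricSpace S]

/-- `K`-Lipschitz curve -/
def Lp (K : ℝ) (f : ℝ → S) : Prop := ∀ s t, dist (f s) (f t) ≤ K * |s - t|

theorem Lp.nonneg {K : ℝ} {f : ℝ → S} (h : Lp K f) : 0 ≤ K := by
  simpa using dist_nonneg.trans (h 1 0)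

theorem Lp.mono {K K' : ℝ} {f : ℝ → S} (h : Lp K f) (hK : K ≤ K') : Lp K' f := fun s t =>
  (h s t).trans (mul_le_mul_of_nonneg_right hK (abs_nonneg _))

theorem Lp.const {K : ℝ} (hK : 0 ≤ K) (x : S) : Lp K (fun _ => x) := fun s t => by
  rw [dist_self]; positivity

theorem Lp.le {K : ℝ} {f : ℝ → S} (h : Lp K f) {s t x : ℝ} (hx : |s - t| ≤ x) :
    dist (f s) (f t) ≤ K * x := (h s t).trans (mul_le_mul_of_nonneg_left hx h.nonneg)

theorem Lp.comp {K M : ℝ} {f : ℝ → S} (h : Lp K f) {φ : ℝ → ℝ}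
    (hφ : ∀ s t, |φ s - φ t| ≤ M * |s - t|) : Lp (K * M) (fun t => f (φ t)) := fun s t => by
  rw [mul_assoc]; exact h.le (hφ s t)

theorem Lp.comp_cl {K : ℝ} {f : ℝ → S} (h : Lp K f) : Lp K (fun t => f (cl t)) := fun _ _ =>
  h.le (d_cl le_rfl)

theorem Lp.lipschitzWith {K : ℝ} {f : ℝ → S} (h : Lp K f) : LipschitzWith K.toNNReal f :=
  LipschitzWith.of_dist_le_mul fun s t => by
    rw [Real.coe_toNNReal _ h.nonneg, Real.dist_eq]; exact h s t

theorem Lp.continuous {K : ℝ} {f : ℝ → S} (h : Lp K f) : Continuous f := h.lipschitzWith.continuous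

theorem Lp.glue {K : ℝ} {f : ℝ → S} (c : ℝ)
    (h1 : ∀ s t, s ≤ c → t ≤ c → dist (f s) (f t) ≤ K * |s - t|)
    (h2 : ∀ s t, c ≤ s → c ≤ t → dist (f s) (f t) ≤ K * |s - t|) : Lp K f := by
  have key : ∀ s t, s ≤ c → c ≤ t → dist (f s) (f t) ≤ K * |s - t| := by
    intro s t hs ht
    have a1 := h1 s c hs le_rfl
    have a2 := h2 c t le_rfl ht
    rw [abs_of_nonpos (by linarith only [hs, ht])] at a1 a2 ⊢
    have := dist_triangle (f s) (f c) (f t)
    linarith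
  intro s t
  rcases le_total s c with hs | hs <;> rcases le_total t c with ht | ht
  · exact h1 s t hs ht
  · exact key s t hs ht
  · rw [dist_comm, abs_sub_comm]; exact key t s ht hs
  · exact h2 s t hs ht

theorem Lp.ite {K : ℝ} {f g : ℝ → S} {c : ℝ} (hf : Lp K f) (hg : Lp K g) (h : f c = g c) :
    Lp K (fun t => if t ≤ c then f t else g t) := by
  have e : ∀ t, c ≤ t → (if t ≤ c then f t else g t) = g t := by
    intro t ht
    split_ifs with h'
    · rw [le_antisymm h' ht, h]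
    · rfl
  refine Lp.glue c (fun s t hs ht => ?_) (fun s t hs ht => ?_)
  · simp only [hs, ht, if_true]; exact hf s t
  · rw [e s hs, e t ht]; exact hg s t

theorem Lp.ite' {K : ℝ} {f g : ℝ → S} {c : ℝ} (hf : Lp K f) (hg : Lp K g) (h : f c = g c) :
    Lp K (fun t => if c ≤ t then f t else g t) := by
  have e : ∀ t, t ≤ c → (if c ≤ t then f t else g t) = g t := by
    intro t ht
    split_ifs with h'
    · rw [le_antisymm ht h', h]
    · rfl
  refine Lp.glue c (fun s t hs ht => ?_) (fun s t hs ht => ?_)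
  · rw [e s hs, e t ht]; exact hg s t
  · simp only [hs, ht, if_true]; exact hf s t

/-- concatenation -/
noncomputable def cat {Y : Type*} (α β : ℝ → Y) (t : ℝ) : Y :=
  if t ≤ 1 / 2 then α (2 * t) else β (2 * t - 1)

theorem cat_left {Y : Type*} (α β : ℝ → Y) {t : ℝ} (h : t ≤ 1 / 2) : cat α β t = α (2 * t) :=
  if_pos h

theorem cat_right {Y : Type*} {α β : ℝ → Y} (hαβ : α 1 = β 0) {t : ℝ} (h : 1 / 2 ≤ t) :
    cat α β t = β (2 * t - 1) := by
  unfold cat
  split_ifs with h'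
  · rw [le_antisymm h' h]; norm_num [hαβ]
  · rfl

@[simp] theorem cat_zero {Y : Type*} (α β : ℝ → Y) : cat α β 0 = α 0 := by
  rw [cat_left _ _ (by norm_num), mul_zero]

@[simp] theorem cat_one {Y : Type*} (α β : ℝ → Y) : cat α β 1 = β 1 := by
  unfold cat; norm_num

theorem Lp.cat {K : ℝ} {α β : ℝ → S} (hα : Lp K α) (hβ : Lp K β) (h : α 1 = β 0) :
    Lp (K * 2) (cat α β) := by
  refine Lp.ite (hα.comp fun s t => d_cmul 2 zero_le_two le_rfl) (hβ.comp fun s t => ?_) ?_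
  · simpa using d_cmul 2 zero_le_two (le_refl |s - t|)
  · norm_num [h]

theorem Lp.rev {K : ℝ} {α : ℝ → S} (hα : Lp K α) : Lp K (fun t => α (1 - t)) := fun s t =>
  hα.le (by rw [abs_sub_comm]; apply le_of_eq; congr 1; ring)

theorem continuous_cat {α β : ℝ → S} (hα : Continuous α) (hβ : Continuous β) (h : α 1 = β 0) :
    Continuous (cat α β) := by
  refine Continuous.if_le (by fun_prop) (by fun_prop) continuous_id continuous_const ?_
  intro t ht
  have ht' : t = 1 / 2 := ht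
  rw [ht']; norm_num [h]

theorem var_cat {α β : ℝ → S} (h : α 1 = β 0) : eVariationOn (cat α β) (Icc 0 1) ≤
    eVariationOn α (Icc 0 1) + eVariationOn β (Icc 0 1) := by
  have := eVariationOn.Icc_add_Icc (cat α β) (s := univ) (a := 0) (b := 1 / 2) (c := 1)
    (by norm_num) (by norm_num) (mem_univ _)
  simp only [univ_inter] at this
  rw [← this]
  refine add_le_add ?_ ?_
  · rw [eVariationOn.congr (g := α ∘ fun t => 2 * t) (fun t ht => cat_left α β ht.2)]
    refine eVariationOn.comp_le_of_monotoneOn _ _ (fun s _ t _ hst => by linarith only [hst]) ?_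
    intro t ht
    exact ⟨by linarith [ht.1], by linarith only [ht, ht.2]⟩
  · rw [eVariationOn.congr (g := β ∘ fun t => 2 * t - 1) (fun t ht => cat_right h ht.1)]
    refine eVariationOn.comp_le_of_monotoneOn _ _ (fun s _ t _ hst => by linarith) ?_
    intro t ht
    exact ⟨by linarith only [ht, ht.1], by linarith [ht.2]⟩

theorem var_rev (α : ℝ → S) :
    eVariationOn (fun t => α (1 - t)) (Icc 0 1) ≤ eVariationOn α (Icc 0 1) := by
  refine eVariationOn.comp_le_of_antitoneOn α (fun t => 1 - t) (fun s _ t _ hst => by linarith) ?_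
  intro t ht
  exact ⟨by linarith [ht.2], by linarith [ht.1]⟩

theorem Lp.var {K : ℝ} {α : ℝ → S} (h : Lp K α) :
    eVariationOn α (Icc 0 1) ≤ ENNReal.ofReal K := by
  have := (h.lipschitzWith.lipschitzOnWith (s := univ)).comp_eVariationOn_le (g := id)
    (s := Icc (0 : ℝ) 1) (mapsTo_univ _ _)
  simpa [ENNReal.ofReal] using this

theorem lp_comp2 {K : ℝ} {G : ℝ → ℝ → S} (h1 : ∀ s, Lp K (G s)) (h2 : ∀ τ, Lp K (fun s => G s τ))
    {a a' b b' x y : ℝ} (ha : |a - a'| ≤ x) (hb : |b - b'| ≤ y) :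
    dist (G a b) (G a' b') ≤ K * (x + y) := by
  have := dist_triangle (G a b) (G a' b) (G a' b')
  have := (h2 b).le ha
  have := (h1 a').le hb
  linarith

/-- A `K`-Lipschitz rectangle `[0,1] × [0,h]` with left, right, bottom and top sides. -/
def Sq (K h : ℝ) (l r b t : ℝ → S) : Prop :=
  ∃ G : ℝ → ℝ → S, (∀ s, Lp K (G s)) ∧ (∀ τ, Lp K (fun s => G s τ)) ∧
    (∀ τ ∈ Icc 0 h, G 0 τ = l τ ∧ G 1 τ = r τ) ∧ ∀ s ∈ Icc (0 : ℝ) 1, G s 0 = b s ∧ G s h = t s

theorem Sq.mono {K K' h : ℝ} {l r b t : ℝ → S} (H : Sq K h l r b t) (hK : K ≤ K') :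
    Sq K' h l r b t := by
  obtain ⟨G, h1, h2, h3⟩ := H
  exact ⟨G, fun s => (h1 s).mono hK, fun s => (h2 s).mono hK, h3⟩

theorem Sq.nonneg {K h : ℝ} {l r b t : ℝ → S} (H : Sq K h l r b t) : 0 ≤ K := by
  obtain ⟨G, h1, -⟩ := H
  exact (h1 0).nonneg

theorem Sq.congr {K h : ℝ} {l r b t l' r' b' t' : ℝ → S} (H : Sq K h l r b t)
    (hl : ∀ τ ∈ Icc 0 h, l τ = l' τ) (hr : ∀ τ ∈ Icc 0 h, r τ = r' τ)
    (hb : ∀ s ∈ Icc (0 : ℝ) 1, b s = b' s) (ht : ∀ s ∈ Icc (0 : ℝ) 1, t s = t' s) :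
    Sq K h l' r' b' t' := by
  obtain ⟨G, h1, h2, h3, h4⟩ := H
  exact ⟨G, h1, h2, fun τ hτ => ⟨(h3 τ hτ).1.trans (hl τ hτ), (h3 τ hτ).2.trans (hr τ hτ)⟩,
    fun τ hτ => ⟨(h4 τ hτ).1.trans (hb τ hτ), (h4 τ hτ).2.trans (ht τ hτ)⟩⟩

theorem Sq.flip {K : ℝ} {l r b t : ℝ → S} (H : Sq K 1 l r b t) : Sq K 1 b t l r := by
  obtain ⟨G, h1, h2, h3, h4⟩ := H
  exact ⟨fun s τ => G τ s, h2, h1, h4, h3⟩

theorem Sq.zero {K : ℝ} {l r b : ℝ → S} (hb : Lp K b) (hl : l 0 = b 0) (hr : r 0 = b 1) :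
    Sq K 0 l r b b := by
  refine ⟨fun s _ => b s, fun s => Lp.const hb.nonneg _, fun _ => hb, fun τ hτ => ?_,
    fun s _ => ⟨rfl, rfl⟩⟩
  rw [le_antisymm hτ.2 hτ.1]
  exact ⟨hl.symm, hr.symm⟩

theorem Sq.stack {K h h' : ℝ} {l r b t t' : ℝ → S} (hh : 0 ≤ h) (hh' : 0 ≤ h')
    (H : Sq K h l r b t) (H' : Sq K h' (fun τ => l (h + τ)) (fun τ => r (h + τ)) t t') :
    Sq K (h + h') l r b t' := by
  obtain ⟨G, h1, h2, h3, h4⟩ := H
  obtain ⟨G', h1', h2', h3', h4'⟩ := H'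
  refine ⟨fun s τ => if τ ≤ h then G (cl s) τ else G' (cl s) (τ - h), fun s => ?_, fun τ => ?_,
    fun τ hτ => ?_, fun s hs => ?_⟩
  · refine Lp.ite (h1 _) (fun a b => (h1' _).le (by simp)) ?_
    rw [sub_self, (h4 _ (cl_mem s)).2, (h4' _ (cl_mem s)).1]
  · by_cases hτ : τ ≤ h
    · simpa only [hτ, if_true] using (h2 τ).comp_cl
    · simpa only [hτ, if_false] using (h2' (τ - h)).comp_cl
  · simp only [cl_zero, cl_one]
    split_ifs with h'
    · exact h3 τ ⟨hτ.1, h'⟩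
    · simpa using h3' (τ - h) ⟨by linarith, by linarith [hτ.2]⟩
  · simp only [cl_of_mem hs.1 hs.2, hh, if_true]
    refine ⟨(h4 s hs).1, ?_⟩
    split_ifs with h''
    · have : h' = 0 := by linarith
      subst this
      rw [add_zero, (h4 s hs).2, ← (h4' s hs).1, (h4' s hs).2]
    · rw [add_sub_cancel_left, (h4' s hs).2]

theorem Sq.scale {K h : ℝ} {l r b t : ℝ → S} (hh : 1 ≤ h) (H : Sq K h l r b t) :
    Sq (K * h) 1 (fun τ => l (h * τ)) (fun τ => r (h * τ)) b t := by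
  have hK := H.nonneg
  obtain ⟨G, h1, h2, h3, h4⟩ := H
  refine ⟨fun s τ => G s (h * τ), fun s => (h1 s).comp fun a b => d_cmul h (by linarith) le_rfl,
    fun τ => (h2 _).mono (by linarith only [hh, hK, mul_nonneg_of_nonpos_of_nonpos (Mathlib.Tactic.Linarith.sub_nonpos_of_le hh) (Mathlib.Tactic.Linarith.sub_nonpos_of_le hK)]), fun τ hτ => h3 _ ⟨by nlinarith [hτ.1], by nlinarith [hτ.2]⟩,
    fun s hs => by simpa using h4 s hs⟩

/-- horizontal composition -/
theorem Sq.trans {K : ℝ} {l m r b t b' t' : ℝ → S} (H : Sq K 1 l m b t) (H' : Sq K 1 m r b' t') :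
    Sq (K * 2) 1 l r (cat b b') (cat t t') := by
  have hb : b 1 = b' 0 := by
    obtain ⟨G, -, -, h3, h4⟩ := H
    obtain ⟨G', -, -, h3', h4'⟩ := H'
    rw [← (h4 1 ⟨zero_le_one, le_rfl⟩).1, (h3 0 ⟨le_rfl, zero_le_one⟩).2,
      ← (h3' 0 ⟨le_rfl, zero_le_one⟩).1, (h4' 0 ⟨le_rfl, zero_le_one⟩).1]
  have ht : t 1 = t' 0 := by
    obtain ⟨G, -, -, h3, h4⟩ := H
    obtain ⟨G', -, -, h3', h4'⟩ := H'
    rw [← (h4 1 ⟨zero_le_one, le_rfl⟩).2, (h3 1 ⟨zero_le_one, le_rfl⟩).2,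
      ← (h3' 1 ⟨zero_le_one, le_rfl⟩).1, (h4' 0 ⟨le_rfl, zero_le_one⟩).2]
  have A : Sq K 1 (fun τ => cat b b' (τ / 2)) (fun τ => cat t t' (τ / 2)) l m :=
    H.flip.congr (fun τ hτ => by rw [cat_left _ _ (by linarith only [hτ, hτ.2])]; congr 1; ring)
      (fun τ hτ => by rw [cat_left _ _ (by linarith [hτ.2])]; congr 1; ring)
      (fun _ _ => rfl) (fun _ _ => rfl)
  have B := A.stack zero_le_one zero_le_one (t' := r)
    (H'.flip.congr (fun τ hτ => by rw [cat_right hb (by linarith only [hτ, hτ.1])]; congr 1; ring)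
      (fun τ hτ => by rw [cat_right ht (by linarith [hτ.1])]; congr 1; ring)
      (fun _ _ => rfl) (fun _ _ => rfl))
  rw [one_add_one_eq_two] at B
  exact (B.scale one_le_two).flip.congr (fun _ _ => rfl) (fun _ _ => rfl)
    (fun _ _ => by congr 1; ring) (fun _ _ => by congr 1; ring)

theorem cat_const {Y : Type*} (x : Y) : cat (fun _ => x) (fun _ => x) = fun _ => x := by
  funext t; simp [cat]

/-- A deformation of `f` to `g` through `1`-Lipschitz maps, the track of `x` having length at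
most `ℓ x`. -/
def Rel {X : Type*} [PseudoMetricSpace X] (f g : X → S) (ℓ : X → ℝ) : Prop :=
  ∃ F : ℝ → X → S, (∀ x, Continuous fun t => F t x) ∧
    (∀ t ∈ Icc (0 : ℝ) 1, ∀ x y, dist (F t x) (F t y) ≤ dist x y) ∧ F 0 = f ∧ F 1 = g ∧
    ∀ x, 0 ≤ ℓ x ∧ eVariationOn (fun t => F t x) (Icc 0 1) ≤ ENNReal.ofReal (ℓ x)

variable {X : Type*} [PseudoMetricSpace X]

theorem Rel.of_lip {f g : X → S} {ℓ : X → ℝ} (F : ℝ → X → S)
    (h1 : ∀ x, ∀ s ∈ Icc (0 : ℝ) 1, ∀ t ∈ Icc (0 : ℝ) 1, dist (F s x) (F t x) ≤ ℓ x * |s - t|)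
    (h2 : ∀ t ∈ Icc (0 : ℝ) 1, ∀ x y, dist (F t x) (F t y) ≤ dist x y)
    (h0 : F 0 = f) (h3 : F 1 = g) : Rel f g ℓ := by
  have hl : ∀ x, Lp (ℓ x) (fun t => F (cl t) x) := by
    intro x s t
    have h4 : 0 ≤ ℓ x := by
      simpa using dist_nonneg.trans (h1 x 1 ⟨zero_le_one, le_rfl⟩ 0 ⟨le_rfl, zero_le_one⟩)
    exact (h1 x _ (cl_mem s) _ (cl_mem t)).trans (mul_le_mul_of_nonneg_left (d_cl le_rfl) h4)
  exact ⟨fun t => F (cl t), fun x => (hl x).continuous, fun t _ => h2 _ (cl_mem t),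
    by simpa using h0, by simpa using h3, fun x => ⟨(hl x).nonneg, (hl x).var⟩⟩

theorem Rel.mono {f g : X → S} {ℓ ℓ' : X → ℝ} (h : Rel f g ℓ) (hl : ∀ x, ℓ x ≤ ℓ' x) :
    Rel f g ℓ' := by
  obtain ⟨F, h1, h2, h3, h4, h5⟩ := h
  exact ⟨F, h1, h2, h3, h4, fun x =>
    ⟨(h5 x).1.trans (hl x), (h5 x).2.trans (ENNReal.ofReal_le_ofReal (hl x))⟩⟩

theorem Rel.trans {f g k : X → S} {ℓ ℓ' : X → ℝ} (h : Rel f g ℓ) (h' : Rel g k ℓ') :
    Rel f k (fun x => ℓ x + ℓ' x) := by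
  obtain ⟨F, h1, h2, h3, h4, h5⟩ := h
  obtain ⟨F', h1', h2', h3', h4', h5'⟩ := h'
  have e : ∀ x, F 1 x = F' 0 x := fun x => by rw [h4, h3']
  refine ⟨fun t x => cat (fun t => F t x) (fun t => F' t x) t,
    fun x => continuous_cat (h1 x) (h1' x) (e x), fun t ht x y => ?_, ?_, ?_, fun x => ?_⟩
  · beta_reduce
    rcases le_total t (1 / 2) with h | h
    · rw [cat_left _ _ h, cat_left _ _ h]
      exact h2 _ ⟨by linarith only [ht, ht.1], by linarith⟩ x y
    · rw [cat_right (α := fun t => F t x) (β := fun t => F' t x) (e x) h,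
        cat_right (α := fun t => F t y) (β := fun t => F' t y) (e y) h]
      exact h2' _ ⟨by linarith, by linarith [ht.2]⟩ x y
  · funext x; simp [h3]
  · funext x; simp [h4']
  · refine ⟨add_nonneg (h5 x).1 (h5' x).1, (var_cat (e x)).trans ?_⟩
    rw [ENNReal.ofReal_add (h5 x).1 (h5' x).1]
    exact add_le_add (h5 x).2 (h5' x).2

theorem Rel.symm {f g : X → S} {ℓ : X → ℝ} (h : Rel f g ℓ) : Rel g f ℓ := by
  obtain ⟨F, h1, h2, h3, h4, h5⟩ := h
  refine ⟨fun t => F (1 - t), fun x => (h1 x).comp (by fun_prop),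
    fun t ht => h2 _ ⟨by linarith [ht.2], by linarith [ht.1]⟩, by simpa using h4,
    by simpa using h3, fun x => ⟨(h5 x).1, (var_rev fun t => F t x).trans (h5 x).2⟩⟩

theorem Rel.comp {Y : Type*} [PseudoMetricSpace Y] {f g : X → S} {ℓ : X → ℝ} (h : Rel f g ℓ)
    (i : Y → X) (hi : ∀ a b, dist (i a) (i b) ≤ dist a b) :
    Rel (fun y => f (i y)) (fun y => g (i y)) (fun y => ℓ (i y)) := by
  obtain ⟨F, h1, h2, h3, h4, h5⟩ := h
  exact ⟨fun t y => F t (i y), fun y => h1 _, fun t ht a b => (h2 t ht _ _).trans (hi a b),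
    by rw [← h3], by rw [← h4], fun y => h5 _⟩

theorem Rel.lipDist_le {f g : X → S} {C : ℝ} (h : Rel f g fun _ => C) {c : ℝ≥0} (hc : 1 ≤ c) :
    lipDist c f g ≤ ENNReal.ofReal C := by
  obtain ⟨F, h1, h2, h3, h4, h5⟩ := h
  have hl : ∀ t ∈ Icc (0 : ℝ) 1, LipschitzWith c (F t) := fun t ht =>
    (LipschitzWith.of_dist_le_mul (K := 1) fun x y => by simpa using h2 t ht x y).weaken hc
  have hcont : ContinuousOn (fun z : ℝ × X => F z.1 z.2) (Icc 0 1 ×ˢ univ) :=
    continuousOn_prod_of_continuousOn_lipschitzOnWith' _ c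
      (fun t ht => (hl t ht).lipschitzOnWith) (fun x _ => (h1 x).continuousOn)
  refine iInf_le_of_le F (iInf_le_of_le hcont (iInf_le_of_le hl (iInf_le_of_le h3
    (iInf_le_of_le h4 (iSup_le fun x => (h5 x).2)))))

end Pool.Agent.Work.MP_e25190_gt
end

-- merged part: Pool.Agent.Work.MP_e25190_gt.Weak
section
/-! Homotopies of paths with Lipschitz slices and short tracks. -/

open Set Metric
open scoped NNReal

namespace Pool.Agent.Work.MP_e25190_gt

variable {S : Type*} [MetricSpace S]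

theorem mem0 : (0 : ℝ) ∈ Icc (0 : ℝ) 1 := ⟨le_rfl, zero_le_one⟩
theorem mem1 : (1 : ℝ) ∈ Icc (0 : ℝ) 1 := ⟨zero_le_one, le_rfl⟩

/-- homotopy relative to the end points, `K`-Lipschitz slices, tracks of length at most `K` -/
def W (K : ℝ) (α β : ℝ → S) : Prop :=
  ∃ G : ℝ → ℝ → S, (∀ σ, Continuous fun s => G s σ) ∧ (∀ s, Lp K (G s)) ∧
    (∀ σ ∈ Icc (0 : ℝ) 1, G 0 σ = α σ ∧ G 1 σ = β σ) ∧ (∀ s, G s 0 = α 0 ∧ G s 1 = α 1) ∧
    ∀ σ, eVariationOn (fun s => G s σ) (Icc 0 1) ≤ ENNReal.ofReal K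

/-- reversed path -/
def rv {Y : Type*} (α : ℝ → Y) : ℝ → Y := fun t => α (1 - t)

@[simp] theorem rv_zero {Y : Type*} (α : ℝ → Y) : rv α 0 = α 1 := by simp [rv]
@[simp] theorem rv_one {Y : Type*} (α : ℝ → Y) : rv α 1 = α 0 := by simp [rv]
@[simp] theorem rv_rv {Y : Type*} (α : ℝ → Y) : rv (rv α) = α := by funext t; simp [rv]
theorem Lp.rv {K : ℝ} {α : ℝ → S} (h : Lp K α) : Lp K (rv α) := h.rev

theorem W.mk' {K : ℝ} {α β : ℝ → S} (G : ℝ → ℝ → S)
    (h1 : ∀ σ ∈ Icc (0 : ℝ) 1, ContinuousOn (fun s => G s σ) (Icc 0 1))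
    (h2 : ∀ s ∈ Icc (0 : ℝ) 1, ∀ σ ∈ Icc (0 : ℝ) 1, ∀ σ' ∈ Icc (0 : ℝ) 1,
      dist (G s σ) (G s σ') ≤ K * |σ - σ'|)
    (h3 : ∀ σ ∈ Icc (0 : ℝ) 1, G 0 σ = α σ ∧ G 1 σ = β σ)
    (h4 : ∀ s ∈ Icc (0 : ℝ) 1, G s 0 = α 0 ∧ G s 1 = α 1)
    (h5 : ∀ σ ∈ Icc (0 : ℝ) 1, eVariationOn (fun s => G s σ) (Icc 0 1) ≤ ENNReal.ofReal K) :
    W K α β := by
  have hK : 0 ≤ K := by simpa using dist_nonneg.trans (h2 0 mem0 1 mem1 0 mem0)
  refine ⟨fun s σ => G (cl s) (cl σ),
    fun σ => (h1 _ (cl_mem σ)).comp_continuous continuous_cl cl_mem, fun s σ σ' =>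
      (h2 _ (cl_mem s) _ (cl_mem σ) _ (cl_mem σ')).trans (mul_le_mul_of_nonneg_left (d_cl le_rfl) hK),
    fun σ hσ => by simpa [cl_of_mem hσ.1 hσ.2] using h3 σ hσ,
    fun s => by simpa using h4 _ (cl_mem s), fun σ => ?_⟩
  rw [eVariationOn.congr (g := fun s => G s (cl σ)) fun s hs => by simp only [cl_of_mem hs.1 hs.2]]
  exact h5 _ (cl_mem σ)

namespace W
variable {K K' : ℝ} {α β γ α' β' : ℝ → S}

theorem nonneg (h : W K α β) : 0 ≤ K := by
  obtain ⟨G, -, h2, -⟩ := h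
  exact (h2 0).nonneg

theorem mono (h : W K α β) (hK : K ≤ K') : W K' α β := by
  obtain ⟨G, h1, h2, h3, h4, h5⟩ := h
  exact ⟨G, h1, fun s => (h2 s).mono hK, h3, h4,
    fun σ => (h5 σ).trans (ENNReal.ofReal_le_ofReal hK)⟩

theorem ends (h : W K α β) : β 0 = α 0 ∧ β 1 = α 1 := by
  obtain ⟨G, -, -, h3, h4, -⟩ := h
  exact ⟨(h3 0 mem0).2.symm.trans (h4 1).1, (h3 1 mem1).2.symm.trans (h4 1).2⟩

theorem congr (h : W K α β) (h1 : ∀ σ ∈ Icc (0 : ℝ) 1, α' σ = α σ)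
    (h2 : ∀ σ ∈ Icc (0 : ℝ) 1, β' σ = β σ) : W K α' β' := by
  obtain ⟨G, a1, a2, a3, a4, a5⟩ := h
  exact ⟨G, a1, a2, fun σ hσ => by rw [h1 σ hσ, h2 σ hσ]; exact a3 σ hσ,
    fun s => by rw [h1 0 mem0, h1 1 mem1]; exact a4 s, a5⟩

theorem symm (h : W K α β) : W K β α := by
  obtain ⟨e1, e2⟩ := h.ends
  obtain ⟨G, h1, h2, h3, h4, h5⟩ := h
  exact ⟨fun s => G (1 - s), fun σ => (h1 σ).comp (by fun_prop), fun s => h2 _,
    fun σ hσ => by simpa using (h3 σ hσ).symm, fun s => by rw [e1, e2]; exact h4 _,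
    fun σ => (var_rev fun s => G s σ).trans (h5 σ)⟩

theorem trans (h : W K α β) (h' : W K' β γ) : W (K + K') α γ := by
  obtain ⟨e1, e2⟩ := h.ends
  have n1 := h.nonneg
  have n2 := h'.nonneg
  obtain ⟨G, h1, h2, h3, h4, h5⟩ := h
  obtain ⟨G', h1', h2', h3', h4', h5'⟩ := h'
  have e : ∀ σ ∈ Icc (0 : ℝ) 1, G 1 σ = G' 0 σ := fun σ hσ => by rw [(h3 σ hσ).2, (h3' σ hσ).1]
  refine W.mk' (fun s σ => cat (fun s => G s σ) (fun s => G' s σ) s)
    (fun σ hσ => (continuous_cat (h1 σ) (h1' σ) (e σ hσ)).continuousOn)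
    (fun s _ σ _ σ' _ => ?_) (fun σ hσ => by simpa using ⟨(h3 σ hσ).1, (h3' σ hσ).2⟩)
    (fun s _ => ?_) (fun σ hσ => (var_cat (e σ hσ)).trans ?_)
  · unfold cat
    split_ifs
    · exact (h2 _).mono (by linarith only [n2]) σ σ'
    · exact (h2' _).mono (by linarith) σ σ'
  · unfold cat
    split_ifs
    · exact h4 _
    · rw [← e1, ← e2]; exact h4' _
  · rw [ENNReal.ofReal_add n1 n2]
    exact add_le_add (h5 σ) (h5' σ)

theorem cat_congr {Y : Type*} {α β α' β' : ℝ → Y} (h1 : ∀ σ ∈ Icc (0 : ℝ) 1, α σ = α' σ)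
    (h2 : ∀ σ ∈ Icc (0 : ℝ) 1, β σ = β' σ) : ∀ σ ∈ Icc (0 : ℝ) 1, cat α β σ = cat α' β' σ := by
  intro σ hσ
  unfold cat
  split_ifs with h
  · exact h1 _ ⟨by linarith only [hσ, hσ.1], by linarith⟩
  · exact h2 _ ⟨by linarith, by linarith [hσ.2]⟩

protected theorem cat (h : W K α α') (h' : W K β β') (e : α 1 = β 0) :
    W (K * 2) (cat α β) (cat α' β') := by
  have n1 := h.nonneg
  obtain ⟨G, h1, h2, h3, h4, h5⟩ := h
  obtain ⟨G', h1', h2', h3', h4', h5'⟩ := h'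
  have le : ENNReal.ofReal K ≤ ENNReal.ofReal (K * 2) := ENNReal.ofReal_le_ofReal (by linarith)
  refine ⟨fun s => cat (G s) (G' s), fun σ => ?_, fun s => (h2 s).cat (h2' s)
    (by rw [(h4 s).2, (h4' s).1, e]), fun σ hσ =>
      ⟨cat_congr (fun σ hσ => (h3 σ hσ).1) (fun σ hσ => (h3' σ hσ).1) σ hσ,
        cat_congr (fun σ hσ => (h3 σ hσ).2) (fun σ hσ => (h3' σ hσ).2) σ hσ⟩,
    fun s => by simpa using ⟨(h4 s).1, (h4' s).2⟩, fun σ => ?_⟩
  · simp only [cat]
    split_ifs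
    · exact h1 _
    · exact h1' _
  · simp only [cat]
    split_ifs
    · exact (h5 _).trans le
    · exact (h5' _).trans le

/-- straight-line homotopies pushed forward by a Lipschitz map -/
theorem coord {Y : Type*} [NormedAddCommGroup Y] [NormedSpace ℝ Y] {c : Y → S} {M : ℝ}
    (hK : 0 ≤ K) (hc : ∀ y y', dist (c y) (c y') ≤ K * dist y y') {φ ψ : ℝ → Y} (hφ : Lp M φ)
    (hψ : Lp M ψ) (h0 : φ 0 = ψ 0) (h1 : φ 1 = ψ 1) (hα : ∀ σ ∈ Icc (0 : ℝ) 1, α σ = c (φ σ))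
    (hβ : ∀ σ ∈ Icc (0 : ℝ) 1, β σ = c (ψ σ)) : W (K * M * 2) α β := by
  have hM := hφ.nonneg
  have tr : ∀ σ ∈ Icc (0 : ℝ) 1, Lp (K * M * 2) fun s => c (φ σ + s • (ψ σ - φ σ)) := by
    intro σ hσ s s'
    refine (hc _ _).trans ?_
    rw [dist_add_left, dist_eq_norm, ← sub_smul, norm_smul, Real.norm_eq_abs, ← dist_eq_norm]
    have a1 := hφ.le (s := 0) (t := σ) (x := 1) (by rw [abs_le]; constructor <;> linarith only [hσ, hσ.1, hσ.2])
    have a2 := hψ.le (s := σ) (t := 0) (x := 1) (by rw [abs_le]; constructor <;> linarith [hσ.1, hσ.2])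
    have a3 := dist_triangle (ψ σ) (ψ 0) (φ σ)
    rw [← h0] at a2 a3
    have a4 : dist (ψ σ) (φ σ) ≤ M * 2 := by linarith
    calc K * (|s - s'| * dist (ψ σ) (φ σ)) ≤ K * (|s - s'| * (M * 2)) := by gcongr
      _ = _ := by ring
  refine W.mk' (fun s σ => c (φ σ + s • (ψ σ - φ σ)))
    (fun σ hσ => (tr σ hσ).continuous.continuousOn) (fun s hs σ _ σ' _ => (hc _ _).trans ?_)
    (fun σ hσ => by simp [hα σ hσ, hβ σ hσ]) (fun s _ => by simp [hα 0 mem0, hα 1 mem1, h0, h1])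
    (fun σ hσ => (tr σ hσ).var)
  have e : φ σ + s • (ψ σ - φ σ) - (φ σ' + s • (ψ σ' - φ σ')) =
      (1 - s) • (φ σ - φ σ') + s • (ψ σ - ψ σ') := by module
  rw [dist_eq_norm, e]
  have a1 := norm_add_le ((1 - s) • (φ σ - φ σ')) (s • (ψ σ - ψ σ'))
  rw [norm_smul, norm_smul, Real.norm_of_nonneg hs.1, Real.norm_of_nonneg (by linarith [hs.2]),
    ← dist_eq_norm, ← dist_eq_norm] at a1
  have a2 := mul_le_mul_of_nonneg_left (hφ σ σ') (sub_nonneg.2 hs.2)
  have a3 := mul_le_mul_of_nonneg_left (hψ σ σ') hs.1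
  have a4 : 0 ≤ M * |σ - σ'| := by positivity
  calc _ ≤ K * (M * |σ - σ'| * 2) := by gcongr; linarith only [a1, a2, a3, a4]
    _ = _ := by ring

theorem reparam {δ : ℝ → S} {M : ℝ} (hδ : Lp K δ) {φ ψ : ℝ → ℝ}
    (hφ : ∀ s t, |φ s - φ t| ≤ M * |s - t|) (hψ : ∀ s t, |ψ s - ψ t| ≤ M * |s - t|)
    (h0 : φ 0 = ψ 0) (h1 : φ 1 = ψ 1) (hα : ∀ σ ∈ Icc (0 : ℝ) 1, α σ = δ (φ σ))
    (hβ : ∀ σ ∈ Icc (0 : ℝ) 1, β σ = δ (ψ σ)) : W (K * M * 2) α β :=
  coord hδ.nonneg hδ hφ hψ h0 h1 hα hβ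

theorem refl (h : Lp K α) : W K α α :=
  ⟨fun _ => α, fun _ => continuous_const, fun _ => h, fun _ _ => ⟨rfl, rfl⟩, fun _ => ⟨rfl, rfl⟩,
    fun σ => (Lp.const h.nonneg (α σ)).var⟩

theorem assoc (hα : Lp K α) (hβ : Lp K β) (hγ : Lp K γ) (e1 : α 1 = β 0) (e2 : β 1 = γ 0) :
    W (K * 16) (cat (cat α β) γ) (cat α (cat β γ)) := by
  have n := hα.nonneg
  have e3 : α 1 = cat β γ 0 := by simpa using e1
  have e4 : cat α β 1 = γ 0 := by simpa using e2
  have hδ : Lp (K * 2 * 2) (cat α (cat β γ)) := (hα.mono (by linarith)).cat (hβ.cat hγ e2) e3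
  refine (reparam (M := 2) hδ (φ := fun σ => min (2 * σ) (min (σ + 1 / 4) (1 / 2 * σ + 1 / 2)))
    (ψ := id) (fun s t => ?_) (fun s t => ?_) (by norm_num) (by norm_num) (fun σ hσ => ?_)
    (fun _ _ => rfl)).mono (le_of_eq (by ring))
  · have := abs_nonneg (s - t)
    refine d_min (d_cmul 2 zero_le_two le_rfl) (d_min ?_ ?_)
    · rw [add_sub_add_right_eq_sub]; linarith
    · rw [add_sub_add_right_eq_sub]
      linarith only [this, d_cmul (1 / 2) (by norm_num) (le_refl |s - t|)]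
  · have := abs_nonneg (s - t)
    simp only [id]; linarith
  · rcases le_total σ (1 / 4) with h | h
    · rw [min_eq_left (le_min (by linarith only [h]) (by linarith only [h])), cat_left _ _ (by linarith only [h]),
        cat_left _ _ (by linarith only [h]), cat_left _ _ (by linarith only [h])]
    rcases le_total σ (1 / 2) with h' | h'
    · rw [min_eq_left (a := σ + 1 / 4) (by linarith only [h']), min_eq_right (by linarith only [h]),
        cat_left _ _ h', cat_right e1 (by linarith only [h]), cat_right e3 (by linarith only [h]),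
        cat_left _ _ (by linarith only [h'])]
      congr 1; ring
    · rw [min_eq_right (a := σ + 1 / 4) (by linarith only [h']), min_eq_right (by linarith only [h']),
        cat_right e4 h', cat_right e3 (by linarith only [h']), cat_right e2 (by linarith only [h'])]
      congr 1; ring

theorem cancel (hα : Lp K α) : W (K * 4) (cat α (rv α)) (fun _ => α 0) := by
  refine (reparam (M := 2) hα (φ := fun σ => min (2 * σ) (2 - 2 * σ)) (ψ := fun _ => 0)
    (fun s t => ?_) (fun s t => d_const (by positivity)) (by norm_num) (by norm_num)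
    (fun σ hσ => ?_) (fun _ _ => rfl)).mono (le_of_eq (by ring))
  · refine d_min (d_cmul 2 zero_le_two le_rfl) ?_
    simpa using d_sub (d_const (a := 2) le_rfl) (d_cmul 2 zero_le_two (le_refl |s - t|))
  · rcases le_total σ (1 / 2) with h | h
    · rw [min_eq_left (by linarith only [h]), cat_left _ _ h]
    · rw [min_eq_right (by linarith only [h]), cat_right (by simp) h, rv]
      congr 1; ring

theorem unit_l (hα : Lp K α) {x : S} (e : x = α 0) : W (K * 4) (cat (fun _ => x) α) α := by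
  refine (reparam (M := 2) hα (φ := fun σ => max (2 * σ - 1) 0) (ψ := id)
    (fun s t => ?_) (fun s t => ?_) (by norm_num) (by norm_num)
    (fun σ hσ => ?_) (fun _ _ => rfl)).mono (le_of_eq (by ring))
  · refine d_max ?_ (d_const (by positivity))
    simpa using d_cmul 2 zero_le_two (le_refl |s - t|)
  · have := abs_nonneg (s - t)
    simp only [id]; linarith
  · rcases le_total σ (1 / 2) with h | h
    · rw [max_eq_right (by linarith only [h]), cat_left _ _ h, e]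
    · rw [max_eq_left (by linarith), cat_right e h]

theorem unit_r (hα : Lp K α) {x : S} (e : α 1 = x) : W (K * 4) (cat α (fun _ => x)) α := by
  refine (reparam (M := 2) hα (φ := fun σ => min (2 * σ) 1) (ψ := id)
    (fun s t => ?_) (fun s t => ?_) (by norm_num) (by norm_num)
    (fun σ hσ => ?_) (fun _ _ => rfl)).mono (le_of_eq (by ring))
  · exact d_min (d_cmul 2 zero_le_two le_rfl) (d_const (by positivity))
  · have := abs_nonneg (s - t)
    simp only [id]; linarith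
  · rcases le_total σ (1 / 2) with h | h
    · rw [min_eq_left (by linarith only [h]), cat_left _ _ h]
    · rw [min_eq_right (by linarith), cat_right e h, e]

theorem split (hα : Lp K α) {θ : ℝ} (hθ : θ ∈ Icc (0 : ℝ) 1) :
    W (K * 4) α (cat (fun t => α (θ * t)) fun t => α (θ + (1 - θ) * t)) := by
  have a1 : Lp 1 fun t : ℝ => θ * t := fun s t =>
    (d_cmul θ hθ.1 le_rfl).trans (mul_le_mul_of_nonneg_right hθ.2 (abs_nonneg _))
  have a2 : Lp 1 fun t : ℝ => θ + (1 - θ) * t := fun s t => by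
    rw [Real.dist_eq, add_sub_add_left_eq_sub]
    exact (d_cmul (1 - θ) (by linarith [hθ.2]) le_rfl).trans
      (mul_le_mul_of_nonneg_right (by linarith [hθ.1]) (abs_nonneg _))
  refine (reparam (M := 1 * 2) hα (φ := id) (fun s t => ?_) (a1.cat a2 (by simp)) (by simp) (by simp)
    (fun _ _ => rfl) (fun σ _ => ?_)).mono (le_of_eq (by ring))
  · have := abs_nonneg (s - t)
    simp only [id]; linarith
  · unfold cat; split_ifs <;> rfl

/-- an edge in a fan -/
theorem edge {ρ ρ' : ℝ → S} (hβ : Lp K β) (hρ' : Lp K ρ') (e : β 1 = ρ' 0)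
    (h : W K (cat β ρ') ρ) : W (K * 30) β (cat ρ (rv ρ')) := by
  have n := hβ.nonneg
  have a1 := (unit_r hβ e).symm
  have a2 := ((refl hβ).mono (by linarith only [n] : K ≤ K * 4)).cat (cancel hρ').symm e
  have a3 := (assoc hβ hρ' hρ'.rv e (by simp)).symm
  have a4 := h.cat (refl hρ'.rv) (by simp)
  exact (((a1.trans a2).trans a3).trans a4).mono (by linarith)

/-- one more edge in a fan -/
theorem step {ρ ρ' ρ'' : ℝ → S} (hα : Lp K α) (hρ' : Lp K ρ') (hρ'' : Lp K ρ'') (e : α 1 = ρ' 0)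
    (e' : ρ' 1 = ρ'' 1) (h : W K (cat α ρ') ρ) (h' : W K β (cat ρ' (rv ρ''))) :
    W (K * 20) (cat α β) (cat ρ (rv ρ'')) := by
  have a1 := (refl hα).cat h' (by rw [← h'.ends.1]; simpa using e)
  have a3 := (assoc hα hρ' hρ''.rv e (by simpa using e')).symm
  have a4 := h.cat (refl hρ''.rv) (by simpa using e')
  exact ((a1.trans a3).trans a4).mono (by linarith)

/-- one rung of a ladder -/
theorem rung {v v' r r' : ℝ → S} (hα : Lp K α) (hβ : Lp K β) (hv : Lp K v) (hv' : Lp K v')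
    (hr' : Lp K r') (e1 : α 1 = v' 0) (e2 : v' 1 = r' 0) (e3 : v 1 = β 0) (e4 : β 1 = r' 0)
    (h : W K (cat α v') (cat v β)) (h' : W K (cat β r') r) :
    W (K * 36) (cat α (cat v' r')) (cat v r) := by
  have a1 := (assoc hα hv' hr' e1 e2).symm
  have a2 := h.cat (refl hr') (by simpa using e2)
  have a3 := assoc hv hβ hr' e3 e4
  have a4 := (refl hv).cat h' (by simpa using e3)
  exact (((a1.trans a2).trans a3).trans a4).mono (by linarith)

/-- moving the base of a lasso -/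
theorem lasso {r r' r'' : ℝ → S} (hα : Lp K α) (hβ : Lp K β) (hr : Lp K r) (e1 : α 1 = β 0)
    (e2 : β 1 = r 0) (h : W K (cat α β) γ) (h' : W K (cat β r) r') (h'' : W K (cat α r') r'') :
    W (K * 21) (cat γ r) r'' := by
  have a1 := h.symm.cat (refl hr) (by rw [h.ends.2]; simpa using e2)
  have a2 := assoc hα hβ hr e1 e2
  have a3 := (refl hα).cat h' (by simpa using e1)
  exact (((a1.trans a2).trans a3).trans h'').mono (by linarith)

/-- going back along an edge -/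
theorem back {r r' : ℝ → S} (hα : Lp K α) (hr : Lp K r) (e : α 0 = r 0)
    (h : W K (cat (rv α) r) r') : W (K * 30) (cat α r') r := by
  have n := hα.nonneg
  have a1 := (refl hα).cat h.symm (by rw [h.ends.1]; simp)
  have a2 := (assoc hα hα.rv hr (by simp) (by simpa using e)).symm
  have a3 := (cancel hα).cat ((refl hr).mono (by linarith only [n] : K ≤ K * 4)) (by simpa using e)
  have a4 := unit_l hr e
  exact (((a1.trans a2).trans a3).trans a4).mono (by linarith)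

end W

/-- every Lipschitz path is deformed to a path of bounded length, with uniform control -/
def WShort (S : Type*) [MetricSpace S] (L : ℝ) : Prop :=
  ∀ ℓ : ℝ, ∃ K, ∀ α : ℝ → S, Lp ℓ α → ∃ β, Lp L β ∧ W K α β

theorem Shortenable.wshort (h : Shortenable S) : ∃ L, WShort S L := by
  obtain ⟨L, L', K, hL, h⟩ := h
  have hL' : (L' : ℝ) < L := hL
  have hL0 : (0 : ℝ) < L := L'.2.trans_lt hL'
  obtain ⟨η, hη, hη1, hη2⟩ : ∃ η : ℝ, 0 < η ∧ η < L ∧ (L' : ℝ) ≤ L - η :=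
    ⟨min (L - L') (L / 2), lt_min (by linarith) (by linarith only [hL]),
      (min_le_right _ _).trans_lt (by linarith only [hL]), by linarith only [min_le_left (L - L' : ℝ) (L / 2)]⟩
  have lipI : ∀ {M : ℝ≥0} {f : ℝ → S}, LipschitzOnWith M f (Icc 0 1) → ∀ σ ∈ Icc (0 : ℝ) 1,
      ∀ σ' ∈ Icc (0 : ℝ) 1, dist (f σ) (f σ') ≤ M * |σ - σ'| := fun hf σ hσ σ' hσ' =>
    hf.dist_le_mul σ hσ σ' hσ'
  have one : ∀ α : ℝ → S, Lp L α → ∃ β, Lp (L - η) β ∧ W K α β := by
    intro α hα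
    obtain ⟨G, g1, g2, g3, g4, g5⟩ := h α (LipschitzWith.lipschitzOnWith (by
      simpa using hα.lipschitzWith))
    refine ⟨fun σ => G 1 (cl σ), fun s t => (lipI g3 _ (cl_mem s) _ (cl_mem t)).trans
      (mul_le_mul hη2 (d_cl le_rfl) (abs_nonneg _) (by linarith)), W.mk' G (fun σ hσ => ?_)
      (fun s hs => lipI (g4 s hs).1) (fun σ hσ => ⟨g2 σ hσ, by rw [cl_of_mem hσ.1 hσ.2]⟩)
      (fun s hs => (g4 s hs).2) (fun σ hσ => by simpa using g5 σ hσ)⟩
    exact g1.comp (f := fun s : ℝ => (s, σ)) (by fun_prop) fun s hs => ⟨hs, hσ⟩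
  have ind : ∀ j : ℕ, ∃ K', ∀ α : ℝ → S, Lp (L + j * η) α → ∃ β, Lp L β ∧ W K' α β := by
    intro j
    induction j with
    | zero => exact ⟨L, fun α hα => ⟨α, by simpa using hα, W.refl (by simpa using hα)⟩⟩
    | succ j ih =>
      obtain ⟨K', ih⟩ := ih
      have hj : 0 ≤ (j : ℝ) * η := by positivity
      set ℓ : ℝ := L + j * η with hℓ
      have hℓ0 : 0 < ℓ := by linarith only [hη, hη1, hj]
      refine ⟨(ℓ + η) * 4 + max (K : ℝ) (ℓ + η) * 2 + ℓ * 4 + K', fun α hα => ?_⟩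
      rw [Nat.cast_succ, add_mul, one_mul, ← add_assoc, ← hℓ] at hα
      set θ := L / (ℓ + η) with hθ
      set θ' := (L - η) / ℓ with hθ'
      have t0 : 0 < θ := by positivity
      have t1 : θ ≤ 1 := (div_le_one (by linarith only [hη, hη1, hj])).2 (by linarith only [hη, hj])
      have t2 : 0 < θ' := div_pos (by linarith) hℓ0
      have t3 : θ' < 1 := (div_lt_one hℓ0).2 (by linarith only [hη, hj])
      have a1 : Lp L fun t => α (θ * t) :=
        (hα.comp fun s t => d_cmul θ t0.le le_rfl).mono (le_of_eq (by rw [hθ]; field_simp))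
      have a2 : Lp (ℓ + η - L) fun t => α (θ + (1 - θ) * t) :=
        (hα.comp (M := 1 - θ) fun s t => by
          rw [add_sub_add_left_eq_sub]; exact d_cmul _ (by linarith only [t1]) le_rfl).mono
          (le_of_eq (by rw [hθ]; field_simp))
      obtain ⟨β, b1, b2⟩ := one _ a1
      have e : β 1 = α (θ + (1 - θ) * 0) := by rw [b2.ends.2]; simp
      set γ : ℝ → S := fun t => if t ≤ θ' then β (θ'⁻¹ * t) else
        α (θ + (1 - θ) * ((1 - θ')⁻¹ * (t - θ'))) with hγ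
      have c1 : Lp ℓ γ := by
        refine Lp.ite ((b1.comp fun s t => d_cmul θ'⁻¹ (by positivity) le_rfl).mono (le_of_eq ?_))
          ((a2.comp (M := (1 - θ')⁻¹) (φ := fun t => (1 - θ')⁻¹ * (t - θ')) fun s t =>
            d_cmul _ (inv_nonneg.2 (by linarith only [t3])) (by simp)).mono (le_of_eq ?_)) ?_
        · have : (L : ℝ) - η ≠ 0 := by linarith only [hη1]
          rw [hθ']; field_simp
        · have : ℓ - (L - η) ≠ 0 := by linarith only [hη, hj]
          rw [hθ']; field_simp; ring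
        · rw [inv_mul_cancel₀ t2.ne', e]; simp
      obtain ⟨β', d1, d2⟩ := ih γ c1
      have w1 := W.split hα ⟨t0.le, t1⟩
      have w2 := (b2.mono (le_max_left (K : ℝ) (ℓ + η))).cat
        ((W.refl a2).mono (le_max_of_le_right (by linarith only [hη, hη1]))) (by simp)
      have w3 := (W.split c1 ⟨t2.le, t3.le⟩).symm.congr (α' := cat β fun t => α (θ + (1 - θ) * t))
        (W.cat_congr (fun σ hσ => ?_) (fun σ hσ => ?_)) (fun _ _ => rfl)
      · exact ⟨β', d1, ((w1.trans w2).trans w3).trans d2⟩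
      · simp only [hγ]
        rw [if_pos (mul_le_of_le_one_right t2.le hσ.2), inv_mul_cancel_left₀ t2.ne']
      · simp only [hγ]
        have : 1 - θ' ≠ 0 := by linarith only [t3]
        split_ifs with h'
        · have : σ = 0 := by nlinarith [hσ.1]
          rw [this, ← e]; simp [inv_mul_cancel₀ t2.ne']
        · rw [add_sub_cancel_left, inv_mul_cancel_left₀ this]
  refine ⟨L, fun ℓ => ?_⟩
  obtain ⟨j, hj⟩ := exists_nat_ge (ℓ / η)
  rw [div_le_iff₀ hη] at hj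
  obtain ⟨K', h'⟩ := ind j
  exact ⟨K', fun α hα => h' α (hα.mono (by linarith))⟩

end Pool.Agent.Work.MP_e25190_gt
end

-- merged part: Pool.Agent.Work.MP_e25190_gt.Local
section
/-! Local fillings, Lipschitz reparametrisation, close paths. -/

open Set Metric
open scoped ENNReal NNReal

namespace Pool.Agent.Work.MP_e25190_gt

variable {S : Type*} [MetricSpace S]

/-- uniform local Lipschitz contractibility -/
def ULC (S : Type*) [MetricSpace S] (δ K : ℝ) : Prop :=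
  ∀ p : S, ∃ (q : S) (H : ℝ → S → S),
    (∀ t ∈ Icc (0 : ℝ) 1, ∀ t' ∈ Icc (0 : ℝ) 1, ∀ x ∈ ball p δ, ∀ x' ∈ ball p δ,
      dist (H t x) (H t' x') ≤ K * (|t - t'| + dist x x')) ∧
    ∀ x ∈ ball p δ, H 0 x = x ∧ H 1 x = q

theorem exists_ulc [CompactSpace S] (h : LocLipContractible S) :
    ∃ δ, 0 < δ ∧ ∃ K, 0 ≤ K ∧ ULC S δ K := by
  choose U hU q K H hH using h
  obtain ⟨T, hT⟩ := isCompact_univ.elim_finite_subcover (fun p => interior (U p))
    (fun _ => isOpen_interior)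
    (fun p _ => mem_iUnion.2 ⟨p, mem_interior_iff_mem_nhds.2 (hU p)⟩)
  obtain ⟨δ, hδ, hL⟩ := lebesgue_number_lemma_of_metric (c := fun i : T => interior (U i))
    isCompact_univ (fun _ => isOpen_interior) (fun x hx => by
      obtain ⟨i, hi, hx'⟩ := mem_iUnion₂.1 (hT hx)
      exact mem_iUnion.2 ⟨⟨i, hi⟩, hx'⟩)
  refine ⟨δ, hδ, ∑ p ∈ T, (K p : ℝ), by positivity, fun p => ?_⟩
  obtain ⟨i, hi⟩ := hL p (mem_univ _)
  have hi' : ball p δ ⊆ U i := hi.trans interior_subset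
  refine ⟨q i, fun t x => H i (t, x), fun t ht t' ht' x hx x' hx' => ?_,
    fun x hx => (hH i).2 x (hi' hx)⟩
  refine ((hH i).1.dist_le_mul (t, x) ⟨ht, hi' hx⟩ (t', x') ⟨ht', hi' hx'⟩).trans ?_
  refine mul_le_mul (Finset.single_le_sum (f := fun p => (K p : ℝ)) (fun _ _ => by positivity) i.2)
    ?_ dist_nonneg (by positivity)
  rw [Prod.dist_eq, Real.dist_eq]
  exact max_le (le_add_of_nonneg_right dist_nonneg) (le_add_of_nonneg_left (abs_nonneg _))

/-- time function of the filling of a square -/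
noncomputable def Tf (s τ : ℝ) : ℝ := cl (3 * min s (1 - τ))

/-- position function of the filling of a square -/
noncomputable def Zf (s τ : ℝ) : ℝ :=
  cl ((s + τ) / 2 + min s (1 - τ) * (2 * cl (3 * ((s + τ) / 2) - 1) - 1))

theorem d_Tf {s τ s' τ' x : ℝ} (h1 : |s - s'| ≤ x) (h2 : |τ - τ'| ≤ x) :
    |Tf s τ - Tf s' τ'| ≤ 3 * x :=
  d_cl (d_cmul 3 (by norm_num) (d_min h1 (by simpa using d_sub (d_const (a := 1) le_rfl) h2)))

theorem d_Zf {s τ s' τ' x : ℝ} (hs : s ∈ Icc (0 : ℝ) 1) (hτ : τ ∈ Icc (0 : ℝ) 1)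
    (h1 : |s - s'| ≤ x) (h2 : |τ - τ'| ≤ x) : |Zf s τ - Zf s' τ'| ≤ 8 * x := by
  have a1 : |(s + τ) / 2 - (s' + τ') / 2| ≤ x := by
    rw [abs_le] at *; constructor <;> linarith only [h1, h2, h1.1, h1.2, h2.1, h2.2]
  have a2 : |min s (1 - τ) - min s' (1 - τ')| ≤ x :=
    d_min h1 (by simpa using d_sub (d_const (a := 1) le_rfl) h2)
  have a3 : |min s (1 - τ)| ≤ 1 := by
    rw [abs_of_nonneg (le_min hs.1 (by linarith [hτ.2]))]; exact (min_le_left _ _).trans hs.2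
  have a4 : |2 * cl (3 * ((s' + τ') / 2) - 1) - 1| ≤ 1 := by
    have := cl_mem (3 * ((s' + τ') / 2) - 1)
    rw [abs_le]; constructor <;> linarith only [this, this.1, this.2]
  refine (d_cl (d_add a1 (d_mul a3 a4 a2 (d_sub (d_cmul 2 zero_le_two (d_cl (d_sub
    (d_cmul 3 (by norm_num) a1) (d_const le_rfl)))) (d_const le_rfl))))).trans ?_
  linarith only []

theorem ULC.sq {δ K lam : ℝ} (h : ULC S δ K) (hK : 0 ≤ K) {l r b t : ℝ → S} (p : S)
    (hl : Lp lam l) (hr : Lp lam r) (hb : Lp lam b) (ht : Lp lam t)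
    (c1 : l 0 = b 0) (c2 : l 1 = t 0) (c3 : b 1 = r 0) (c4 : t 1 = r 1)
    (hm : ∀ τ ∈ Icc (0 : ℝ) 1, l τ ∈ ball p δ ∧ r τ ∈ ball p δ ∧ b τ ∈ ball p δ ∧ t τ ∈ ball p δ) :
    Sq (K * (3 + 16 * lam)) 1 l r b t := by
  obtain ⟨q, H, hH, hH'⟩ := h p
  have hlam := hl.nonneg
  let Φ : (ℝ → S) → ℝ → ℝ → S := fun a s τ => H (Tf (cl s) (cl τ)) (a (Zf (cl s) (cl τ)))
  have lip : ∀ a : ℝ → S, Lp (lam * 2) a → (∀ τ ∈ Icc (0 : ℝ) 1, a τ ∈ ball p δ) →
      ∀ s τ s' τ' x, |s - s'| ≤ x → |τ - τ'| ≤ x →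
        dist (Φ a s τ) (Φ a s' τ') ≤ K * (3 + 16 * lam) * x := by
    intro a ha ha' s τ s' τ' x h1 h2
    refine (hH _ (cl_mem _) _ (cl_mem _) _ (ha' _ (cl_mem _)) _ (ha' _ (cl_mem _))).trans ?_
    have a1 := d_Tf (d_cl h1) (d_cl h2)
    have a2 := ha.le (d_Zf (cl_mem s) (cl_mem τ) (d_cl h1) (d_cl h2))
    rw [mul_assoc]
    exact mul_le_mul_of_nonneg_left (by simp only [Tf, Zf] at a1 a2 ⊢; linarith only [a1, a2]) hK
  have ma : ∀ {α β : ℝ → S}, α 1 = β 0 → (∀ τ ∈ Icc (0 : ℝ) 1, α τ ∈ ball p δ) →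
      (∀ τ ∈ Icc (0 : ℝ) 1, β τ ∈ ball p δ) → ∀ τ ∈ Icc (0 : ℝ) 1, cat α β τ ∈ ball p δ := by
    intro α β e h1 h2 τ hτ
    rcases le_total τ (1 / 2) with h | h
    · rw [cat_left _ _ h]; exact h1 _ ⟨by linarith only [hτ, hτ.1], by linarith⟩
    · rw [cat_right e h]; exact h2 _ ⟨by linarith, by linarith only [hτ, hτ.2]⟩
  have mA := ma c2 (fun τ hτ => (hm τ hτ).1) (fun τ hτ => (hm τ hτ).2.2.2)
  have mB := ma c3 (fun τ hτ => (hm τ hτ).2.2.1) (fun τ hτ => (hm τ hτ).2.1)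
  have lA := lip _ (hl.cat ht c2) mA
  have lB := lip _ (hb.cat hr c3) mB
  have diag : ∀ z, Φ (cat l t) z z = Φ (cat b r) z z := by
    intro z
    have hz := cl_mem z
    simp only [Φ]
    generalize cl z = w at hz
    have e0 : (w + w) / 2 = w := by ring
    by_cases h1 : w ≤ 1 / 3
    · have : Zf w w = 0 := by
        rw [Zf, e0, cl_of_nonpos (x := 3 * w - 1) (by linarith only [h1]), min_eq_left (by linarith only [h1])]
        exact cl_of_nonpos (by linarith only [])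
      rw [this, cat_zero, cat_zero, c1]
    by_cases h2 : 2 / 3 ≤ w
    · have : Zf w w = 1 := by
        rw [Zf, e0, cl_of_one_le (x := 3 * w - 1) (by linarith only [h2]), min_eq_right (by linarith only [h1, h2])]
        exact cl_of_one_le (by linarith only [])
      rw [this, cat_one, cat_one, c4]
    have : Tf w w = 1 := cl_of_one_le (by
      have : 1 / 3 ≤ min w (1 - w) := le_min (by linarith only [h1]) (by linarith only [h2])
      linarith only [this])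
    rw [this, (hH' _ (mA (Zf w w) (cl_mem _))).2, (hH' _ (mB (Zf w w) (cl_mem _))).2]
  have bd1 : ∀ {α β : ℝ → S}, (∀ τ ∈ Icc (0 : ℝ) 1, α τ ∈ ball p δ) →
      ∀ τ ∈ Icc (0 : ℝ) 1, Φ (cat α β) 0 τ = α τ := by
    intro α β hα τ hτ
    have e : min 0 (1 - τ) = 0 := min_eq_left (by linarith [hτ.2])
    simp only [Φ, Tf, Zf, cl_zero, cl_of_mem hτ.1 hτ.2, e, mul_zero, zero_mul, add_zero, zero_add]
    rw [cl_of_mem (by linarith [hτ.1]) (by linarith [hτ.2]), cat_left _ _ (by linarith only [hτ, hτ.2]),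
      mul_div_cancel₀ _ two_ne_zero, (hH' _ (hα τ hτ)).1]
  have bd2 : ∀ {α β : ℝ → S}, α 1 = β 0 → (∀ τ ∈ Icc (0 : ℝ) 1, β τ ∈ ball p δ) →
      ∀ s ∈ Icc (0 : ℝ) 1, Φ (cat α β) s 1 = β s := by
    intro α β e' hβ s hs
    have e : min s 0 = 0 := min_eq_right hs.1
    simp only [Φ, Tf, Zf, cl_zero, cl_one, sub_self, cl_of_mem hs.1 hs.2, e, mul_zero, zero_mul,
      add_zero]
    rw [cl_of_mem (by linarith [hs.1]) (by linarith [hs.2]), cat_right e' (by linarith only [hs, hs.1]),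
      mul_div_cancel₀ _ two_ne_zero, add_sub_cancel_right, (hH' _ (hβ s hs)).1]
  have low : ∀ s τ, τ ≤ s →
      (if s ≤ τ then Φ (cat l t) s τ else Φ (cat b r) τ s) = Φ (cat b r) τ s := by
    intro s τ hs
    split_ifs with h'
    · rw [le_antisymm h' hs, diag]
    · rfl
  refine ⟨fun s τ => if s ≤ τ then Φ (cat l t) s τ else Φ (cat b r) τ s, fun s => ?_, fun τ => ?_,
    fun τ hτ => ⟨?_, ?_⟩, fun s hs => ⟨?_, ?_⟩⟩
  · exact Lp.ite' (fun a a' => lA _ _ _ _ _ (d_const (abs_nonneg _)) le_rfl)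
      (fun a a' => lB _ _ _ _ _ le_rfl (d_const (abs_nonneg _))) (diag s)
  · exact Lp.ite (fun a a' => lA _ _ _ _ _ le_rfl (d_const (abs_nonneg _)))
      (fun a a' => lB _ _ _ _ _ (d_const (abs_nonneg _)) le_rfl) (diag τ)
  · simp only [hτ.1, if_true]
    exact bd1 (fun τ hτ => (hm τ hτ).1) τ hτ
  · beta_reduce
    rw [low 1 τ hτ.2]
    exact bd2 c3 (fun τ hτ => (hm τ hτ).2.1) τ hτ
  · beta_reduce
    rw [low s 0 hs.1]
    exact bd1 (fun τ hτ => (hm τ hτ).2.2.1) s hs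
  · simp only [hs.2, if_true]
    exact bd2 c2 (fun τ hτ => (hm τ hτ).2.2.2) s hs

/-- Lipschitz reparametrisation of a rectifiable curve -/
theorem exists_reparam' {γ : ℝ → S} (hγ : Continuous γ) {V ε : ℝ} (hV : 0 ≤ V) (hε : 0 < ε)
    (h : eVariationOn γ (Icc 0 1) ≤ ENNReal.ofReal V) :
    ∃ ψ : ℝ → ℝ, Monotone ψ ∧ Lp (ε⁻¹ * (V + ε)) ψ ∧ ψ 0 = 0 ∧ ψ 1 = 1 ∧
      (∀ t, ψ t ∈ Icc (0 : ℝ) 1) ∧ Lp (V + ε) (fun t => γ (ψ t)) := by
  have fin : ∀ a b, 0 ≤ a → b ≤ 1 → eVariationOn γ (Icc a b) ≠ ⊤ := fun a b ha hb =>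
    ne_top_of_le_ne_top ENNReal.ofReal_ne_top
      ((eVariationOn.mono γ (Icc_subset_Icc ha hb)).trans h)
  let v : ℝ → ℝ := fun t => (eVariationOn γ (Icc 0 t)).toReal
  have v0 : v 0 = 0 := by simp [v]
  have v1 : v 1 ≤ V := ENNReal.toReal_le_of_le_ofReal hV h
  have vd : ∀ t t', 0 ≤ t → t ≤ t' → t' ≤ 1 → dist (γ t) (γ t') ≤ v t' - v t := by
    intro t t' h0 h1 h2
    have e := eVariationOn.Icc_add_Icc γ (s := univ) h0 h1 (mem_univ _)
    simp only [univ_inter] at e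
    have e2 : v t' = v t + (eVariationOn γ (Icc t t')).toReal := by
      simp only [v]
      rw [← e, ENNReal.toReal_add (fin 0 t le_rfl (h1.trans h2)) (fin t t' h0 h2)]
    have := BoundedVariationOn.dist_le (f := γ) (s := Icc t t') (fin t t' h0 h2)
      (left_mem_Icc.2 h1) (right_mem_Icc.2 h1)
    linarith only [e2, this]
  let A : ℝ → Set ℝ := fun s => {t | t ∈ Icc (0 : ℝ) 1 ∧ v t + ε * t ≤ s}
  have bd : ∀ s, BddAbove (A s) := fun s => ⟨1, fun t ht => ht.1.2⟩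
  have m0 : ∀ s, 0 ≤ s → 0 ∈ A s := fun s hs => ⟨⟨le_rfl, zero_le_one⟩, by simpa [v0] using hs⟩
  let ψ : ℝ → ℝ := fun s => sSup (A s)
  have ψm : ∀ s, 0 ≤ s → ψ s ∈ Icc (0 : ℝ) 1 := fun s hs =>
    ⟨le_csSup (bd s) (m0 s hs), csSup_le ⟨0, m0 s hs⟩ fun t ht => ht.1.2⟩
  have gt : ∀ s t, 0 ≤ s → ψ s < t → t ≤ 1 → s < v t + ε * t := by
    intro s t hs h1 h2
    by_contra hc
    exact absurd (le_csSup (bd s) ⟨⟨(ψm s hs).1.trans h1.le, h2⟩, not_lt.1 hc⟩) (not_le.2 h1)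
  have mono : ∀ s s', 0 ≤ s → s ≤ s' → ψ s ≤ ψ s' := fun s s' hs hss =>
    csSup_le_csSup (bd s') ⟨0, m0 s hs⟩ fun t ht => ⟨ht.1, ht.2.trans hss⟩
  have c1 : ∀ s s', 0 ≤ s → s ≤ s' → ψ s' ≤ ψ s + ε⁻¹ * (s' - s) := by
    intro s s' hs hss
    refine csSup_le ⟨0, m0 s' (hs.trans hss)⟩ fun t ht => ?_
    by_contra hc
    push Not at hc
    have hD : 0 ≤ ε⁻¹ * (s' - s) := mul_nonneg (inv_nonneg.2 hε.le) (by linarith only [hss])
    have a1 := gt s (t - ε⁻¹ * (s' - s)) hs (by linarith only [hc]) (by linarith only [hD, ht, ht.1.2])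
    have a2 := vd (t - ε⁻¹ * (s' - s)) t (by linarith only [hc, ψm, hs, (ψm s hs).1]) (by linarith only [hD]) ht.1.2
    have a3 : ε * (t - ε⁻¹ * (s' - s)) = ε * t - (s' - s) := by field_simp
    linarith only [a1, a2, a3, ht, ht.2, dist_nonneg (x := γ (t - ε⁻¹ * (s' - s))) (y := γ t)]
  have c2 : ∀ s s', 0 ≤ s → s ≤ s' → dist (γ (ψ s)) (γ (ψ s')) ≤ s' - s := by
    intro s s' hs hss
    rcases (mono s s' hs hss).eq_or_lt with e | hlt
    · rw [e, dist_self]; linarith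
    have cl1 : IsClosed {η : ℝ | dist (γ (ψ s + η * (ψ s' - ψ s))) (γ (ψ s' - η * (ψ s' - ψ s)))
        ≤ s' - s} := isClosed_le (by fun_prop) continuous_const
    have sub : Ioc (0 : ℝ) (1 / 2) ⊆ {η : ℝ | dist (γ (ψ s + η * (ψ s' - ψ s)))
        (γ (ψ s' - η * (ψ s' - ψ s))) ≤ s' - s} := by
      intro η hη
      have hp : 0 < η * (ψ s' - ψ s) := mul_pos hη.1 (by linarith)
      have hq : η * (ψ s' - ψ s) ≤ 1 / 2 * (ψ s' - ψ s) :=
        mul_le_mul_of_nonneg_right hη.2 (by linarith)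
      obtain ⟨t, ht, ht'⟩ := exists_lt_of_lt_csSup ⟨0, m0 s' (hs.trans hss)⟩
        (show ψ s' - η * (ψ s' - ψ s) < sSup (A s') by simp only [ψ] at hp ⊢; linarith only [hp])
      have b0 := (ψm s hs).1
      have b1 := (ψm s' (hs.trans hss)).2
      have a1 := gt s (ψ s + η * (ψ s' - ψ s)) hs (by linarith only [hp]) (by linarith only [hp, hq, b1])
      have a2 := vd (ψ s + η * (ψ s' - ψ s)) (ψ s' - η * (ψ s' - ψ s)) (by linarith only [hp, b0]) (by linarith only [hq])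
        (by linarith only [hp, b1])
      have a3 := vd (ψ s' - η * (ψ s' - ψ s)) t (by linarith only [hp, hq, b0]) ht'.le ht.1.2
      have a4 : ε * (ψ s + η * (ψ s' - ψ s)) ≤ ε * t := mul_le_mul_of_nonneg_left (by linarith only [hq, ht']) hε.le
      have a5 := ht.2
      have a6 := dist_nonneg (x := γ (ψ s' - η * (ψ s' - ψ s))) (y := γ t)
      simp only [mem_ofPred_eq]
      linarith only [a1, a2, a3, a4, a5, a6]
    have := cl1.closure_subset_iff.2 sub (show (0 : ℝ) ∈ closure (Ioc 0 (1 / 2)) by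
      rw [closure_Ioc (by norm_num)]; exact ⟨le_rfl, by norm_num⟩)
    simpa using this
  have hM : 0 ≤ V + ε := by linarith
  have nn : ∀ t, 0 ≤ (V + ε) * cl t := fun t => mul_nonneg hM (cl_nonneg t)
  refine ⟨fun t => ψ ((V + ε) * cl t), fun a b hab => mono _ _ (nn a)
    (mul_le_mul_of_nonneg_left (cl_mono hab) hM), ?_, ?_, ?_, fun t => ψm _ (nn t), ?_⟩
  · have : Lp (ε⁻¹ * (V + ε)) (fun t => ψ ((V + ε) * cl t)) := by
      have key : ∀ s s', 0 ≤ s → 0 ≤ s' → |ψ s - ψ s'| ≤ ε⁻¹ * |s - s'| := by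
        intro s s' hs hs'
        rcases le_total s s' with h | h
        · rw [abs_of_nonpos (sub_nonpos.2 (mono s s' hs h)), abs_of_nonpos (sub_nonpos.2 h)]
          linarith only [c1, hs, h, c1 s s' hs h]
        · rw [abs_of_nonneg (sub_nonneg.2 (mono s' s hs' h)), abs_of_nonneg (sub_nonneg.2 h)]
          linarith only [c1, hs', h, c1 s' s hs' h]
      intro a b
      rw [Real.dist_eq, mul_assoc]
      exact (key _ _ (nn a) (nn b)).trans (mul_le_mul_of_nonneg_left (d_cmul _ hM (d_cl le_rfl))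
        (inv_nonneg.2 hε.le))
    exact this
  · simp only [cl_zero, mul_zero]
    refine le_antisymm (csSup_le ⟨0, m0 0 le_rfl⟩ fun t ht => ?_) (ψm 0 le_rfl).1
    have : 0 ≤ v t := ENNReal.toReal_nonneg
    have := ht.2
    nlinarith
  · simp only [cl_one, mul_one]
    exact le_antisymm (ψm _ hM).2 (le_csSup (bd _) ⟨⟨zero_le_one, le_rfl⟩, by linarith⟩)
  · intro a b
    refine le_trans ?_ (d_cmul _ hM (d_cl (le_refl |a - b|)))
    rcases le_total ((V + ε) * cl a) ((V + ε) * cl b) with h | h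
    · rw [abs_of_nonpos (sub_nonpos.2 h), neg_sub]; exact c2 _ _ (nn a) h
    · rw [abs_of_nonneg (sub_nonneg.2 h), dist_comm]; exact c2 _ _ (nn b) h

theorem exists_reparam {γ : ℝ → S} (hγ : Continuous γ) {V ε : ℝ} (hV : 0 ≤ V) (hε : 0 < ε)
    (h : eVariationOn γ (Icc 0 1) ≤ ENNReal.ofReal V) :
    ∃ ψ : ℝ → ℝ, Continuous ψ ∧ ψ 0 = 0 ∧ ψ 1 = 1 ∧ (∀ t, ψ t ∈ Icc (0 : ℝ) 1) ∧
      Lp (V + ε) (fun t => γ (ψ t)) := by
  obtain ⟨ψ, -, h1, h2⟩ := exists_reparam' hγ hV hε h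
  exact ⟨ψ, h1.continuous, h2⟩

theorem var_extend {x y : S} (γ : Path x y) :
    eVariationOn γ.extend (Icc 0 1) ≤ eVariationOn γ univ :=
  eVariationOn.comp_le_of_monotoneOn γ (projIcc 0 1 zero_le_one)
    ((monotone_projIcc _).monotoneOn _) (mapsTo_univ _ _)

theorem IsLengthSpace.exists_lp (h : IsLengthSpace S) (x y : S) {ε : ℝ} (hε : 0 < ε) :
    ∃ σ : ℝ → S, Lp (dist x y + ε) σ ∧ σ 0 = x ∧ σ 1 = y := by
  obtain ⟨γ, hγ⟩ := h x y (ε / 2) (by linarith only [hε])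
  obtain ⟨ψ, -, h0, h1, -, h2⟩ := exists_reparam γ.continuous_extend (by positivity)
    (half_pos hε) ((var_extend γ).trans hγ)
  exact ⟨_, h2.mono (by linarith only []), by simp [h0], by simp [h1]⟩

/-- close Lipschitz curves bound a Lipschitz square -/
theorem close_sq (hL : IsLengthSpace S) {δ K : ℝ} (h : ULC S δ K) (hδ : 0 < δ) (hK : 0 ≤ K)
    (lam : ℝ) : ∃ K', ∀ α β b t : ℝ → S, Lp lam α → Lp lam β →
      (∀ τ ∈ Icc (0 : ℝ) 1, dist (α τ) (β τ) ≤ δ / 4) → Lp (δ / 2) b → Lp (δ / 2) t →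
      b 0 = α 0 → b 1 = β 0 → t 0 = α 1 → t 1 = β 1 → Sq K' 1 α β b t := by
  obtain ⟨N, hN⟩ := exists_nat_gt (max 1 (lam / (δ / 4)))
  have hN1 : (1 : ℝ) < N := (le_max_left _ _).trans_lt hN
  have hN0 : (0 : ℝ) < N := by linarith only [hN1]
  have hN2 : lam * (N : ℝ)⁻¹ ≤ δ / 4 := by
    have := (le_max_right _ _).trans_lt hN
    rw [div_lt_iff₀ (by linarith only [hδ])] at this
    rw [← div_eq_mul_inv, div_le_iff₀ hN0]
    linarith only [this]
  refine ⟨K * (3 + 16 * (δ / 2)) * N, fun α β b t hα hβ hc hb ht c1 c2 c3 c4 => ?_⟩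
  have hα' : Lp (δ / 4) (fun τ => α ((N : ℝ)⁻¹ * τ)) :=
    (hα.comp fun a b => d_cmul _ (inv_nonneg.2 hN0.le) le_rfl).mono hN2
  have hβ' : Lp (δ / 4) (fun τ => β ((N : ℝ)⁻¹ * τ)) :=
    (hβ.comp fun a b => d_cmul _ (inv_nonneg.2 hN0.le) le_rfl).mono hN2
  have hc' : ∀ τ : ℝ, 0 ≤ τ → τ ≤ N → dist (α ((N : ℝ)⁻¹ * τ)) (β ((N : ℝ)⁻¹ * τ)) ≤ δ / 4 :=
    fun τ h0 h1 => hc _ ⟨by positivity, by rw [inv_mul_le_iff₀ hN0]; linarith only [h1]⟩
  have rung : ∀ i : ℕ, ∃ σ : ℝ → S, (i ≤ N → Lp (δ / 2) σ ∧ σ 0 = α ((N : ℝ)⁻¹ * i) ∧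
      σ 1 = β ((N : ℝ)⁻¹ * i)) ∧ (i = N → σ = t) := by
    intro i
    by_cases hi : i = N
    · subst hi
      rw [inv_mul_cancel₀ hN0.ne']
      exact ⟨t, fun _ => ⟨ht, c3, c4⟩, fun _ => rfl⟩
    obtain ⟨σ, h1, h2⟩ := hL.exists_lp (α ((N : ℝ)⁻¹ * i)) (β ((N : ℝ)⁻¹ * i)) (ε := δ / 4)
      (by linarith only [hδ])
    refine ⟨σ, fun hi' => ⟨h1.mono ?_, h2⟩, fun h => absurd h hi⟩
    have := hc' i (by positivity) (by exact_mod_cast hi')
    linarith only [this]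
  choose σ hσ hσN using rung
  have step : ∀ (u : ℝ) (b t : ℝ → S), 0 ≤ u → u ≤ N → Lp (δ / 2) b → Lp (δ / 2) t →
      b 0 = α ((N : ℝ)⁻¹ * u) → b 1 = β ((N : ℝ)⁻¹ * u) →
      t 0 = α ((N : ℝ)⁻¹ * (u + 1)) → t 1 = β ((N : ℝ)⁻¹ * (u + 1)) →
      Sq (K * (3 + 16 * (δ / 2))) 1 (fun τ => α ((N : ℝ)⁻¹ * (u + τ)))
        (fun τ => β ((N : ℝ)⁻¹ * (u + τ))) b t := by
    intro u b t hu0 hu1 hb ht c1 c2 c3 c4
    refine h.sq hK (α ((N : ℝ)⁻¹ * u)) (fun a a' => ?_) (fun a a' => ?_) hb ht (by simp [c1])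
      c3.symm (by simp [c2]) c4 fun τ hτ => ?_
    · exact (hα'.mono (by linarith only [hδ])).le (by simp)
    · exact (hβ'.mono (by linarith only [hδ])).le (by simp)
    have hτ' : |τ| ≤ 1 := abs_le.2 ⟨by linarith only [hτ, hτ.1], hτ.2⟩
    have a1 := hα'.le (s := u + τ) (t := u) (x := 1) (by simpa using hτ')
    have a2 := hβ'.le (s := u + τ) (t := u) (x := 1) (by simpa using hτ')
    have a3 := hb.le (s := τ) (t := 0) (x := 1) (by simpa using hτ')
    have a4 := ht.le (s := τ) (t := 0) (x := 1) (by simpa using hτ')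
    have a5 := hα'.le (s := u + 1) (t := u) (x := 1) (by simp)
    have a6 := hc' u hu0 hu1
    rw [dist_comm] at a6
    rw [c1] at a3
    rw [c3] at a4
    have t1 := dist_triangle (β ((N : ℝ)⁻¹ * (u + τ))) (β ((N : ℝ)⁻¹ * u)) (α ((N : ℝ)⁻¹ * u))
    have t2 := dist_triangle (t τ) (α ((N : ℝ)⁻¹ * (u + 1))) (α ((N : ℝ)⁻¹ * u))
    simp only [mem_ball]
    refine ⟨?_, ?_, ?_, ?_⟩ <;> linarith only [hδ, a1, a2, a6, t1, a3, a4, a5, t2]
  have ind : ∀ n : ℕ, n + 1 ≤ N → Sq (K * (3 + 16 * (δ / 2))) (n + 1 : ℕ)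
      (fun τ => α ((N : ℝ)⁻¹ * τ)) (fun τ => β ((N : ℝ)⁻¹ * τ)) b (σ (n + 1)) := by
    intro n
    induction n with
    | zero =>
      intro hn
      obtain ⟨a1, a2, a3⟩ := hσ 1 hn
      simpa using step 0 b (σ 1) le_rfl hN0.le hb a1 (by simpa using c1) (by simpa using c2)
        (by simpa using a2) (by simpa using a3)
    | succ n ih =>
      intro hn
      obtain ⟨a1, a2, a3⟩ := hσ (n + 1) (by omega)
      obtain ⟨b1, b2, b3⟩ := hσ (n + 1 + 1) hn
      rw [Nat.cast_succ (n + 1)] at b2 b3 ⊢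
      exact (ih (by omega)).stack (by positivity) zero_le_one
        (step _ _ _ (by positivity) (by exact_mod_cast (by omega : n + 1 ≤ N)) a1 b1 a2 a3 b2 b3)
  obtain ⟨n, rfl⟩ : ∃ n, N = n + 1 := ⟨N - 1, by
    have : 1 < N := by exact_mod_cast hN1
    omega⟩
  have := (ind n le_rfl).scale hN1.le
  rw [hσN _ rfl] at this
  exact this.congr (fun τ _ => by rw [inv_mul_cancel_left₀ hN0.ne'])
    (fun τ _ => by rw [inv_mul_cancel_left₀ hN0.ne']) (fun _ _ => rfl) (fun _ _ => rfl)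

/-- finite nets in families of Lipschitz curves -/
theorem exists_net [CompactSpace S] {J : Type*} (c : J → ℝ → S) {lam ε : ℝ} (hε : 0 < ε)
    (hc : ∀ j, Lp lam (c j)) :
    ∃ T : Set J, T.Finite ∧ ∀ j, ∃ j' ∈ T, ∀ t ∈ Icc (0 : ℝ) 1, dist (c j t) (c j' t) ≤ ε := by
  obtain ⟨Y, -, hY, hY'⟩ := finite_cover_balls_of_compact (isCompact_univ (X := S))
    (e := ε / 4) (by linarith only [hε])
  have : ∀ x : S, ∃ y : Y, dist x y < ε / 4 := fun x => by
    simpa using hY' (mem_univ x)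
  choose near hnear using this
  have := hY.to_subtype
  obtain ⟨N, hN⟩ := exists_nat_gt (max 1 (lam / (ε / 4)))
  have hN0 : (0 : ℝ) < N := by linarith only [hN, le_max_left 1 (lam / (ε / 4))]
  have hN2 : lam * (N : ℝ)⁻¹ ≤ ε / 4 := by
    have := (le_max_right _ _).trans_lt hN
    rw [div_lt_iff₀ (by linarith only [hε])] at this
    rw [← div_eq_mul_inv, div_le_iff₀ hN0]
    linarith only [this]
  let code : J → (Fin (N + 1) → Y) := fun j i => near (c j ((i : ℕ) / N))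
  refine ⟨range (rangeSplitting code), finite_range _, fun j => ⟨rangeSplitting code
    ⟨code j, mem_range_self j⟩, mem_range_self _, fun t ht => ?_⟩⟩
  have e := apply_rangeSplitting code ⟨code j, mem_range_self j⟩
  set j' := rangeSplitting code ⟨code j, mem_range_self j⟩
  have h0 : 0 ≤ t * N := mul_nonneg ht.1 hN0.le
  have hi : ⌊t * N⌋₊ < N + 1 := by
    rw [Nat.lt_succ_iff]
    exact Nat.floor_le_of_le (by linarith only [ht, ht.2, mul_nonneg_of_nonpos_of_nonpos (Mathlib.Tactic.Linarith.sub_nonpos_of_le (Mathlib.Tactic.Linarith.natCast_nonneg ℝ N)) (Mathlib.Tactic.Linarith.sub_nonpos_of_le ht.right)])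
  have e' : near (c j' (⌊t * N⌋₊ / N)) = near (c j (⌊t * N⌋₊ / N)) := congrFun e ⟨_, hi⟩
  have hd : |t - ⌊t * N⌋₊ / N| ≤ (N : ℝ)⁻¹ := by
    have h1 := Nat.floor_le h0
    have h2 := Nat.lt_floor_add_one (t * N)
    have : t - ⌊t * N⌋₊ / N = (t * N - ⌊t * N⌋₊) * (N : ℝ)⁻¹ := by field_simp
    rw [this, abs_of_nonneg (mul_nonneg (by linarith only [h1]) (inv_nonneg.2 hN0.le))]
    exact mul_le_of_le_one_left (inv_nonneg.2 hN0.le) (by linarith only [h2])
  have a1 := (hc j).le hd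
  have a2 := (hc j').le hd
  have a3 := hnear (c j (⌊t * N⌋₊ / N))
  have a4 := hnear (c j' (⌊t * N⌋₊ / N))
  rw [e'] at a4
  have t1 := dist_triangle (c j t) (c j (⌊t * N⌋₊ / N)) (near (c j (⌊t * N⌋₊ / N)) : S)
  have t2 := dist_triangle (c j' t) (c j' (⌊t * N⌋₊ / N)) (near (c j (⌊t * N⌋₊ / N)) : S)
  have t3 := dist_triangle_right (c j t) (c j' t) (near (c j (⌊t * N⌋₊ / N)) : S)
  linarith only [hN2, a1, a2, a3, a4, t1, t2, t3]

end Pool.Agent.Work.MP_e25190_gt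
end
end

-- merged part: Pool.Agent.Work.MP_e25190_gt.HypGeo
section
/-! Elementary geometry of the upper half-space model. -/

open Set Real

namespace Pool.Agent.Work.MP_e25190_gt

namespace Hyp

variable {m : ℕ}

/-- the point with horizontal coordinate `x` and logarithmic height `h` -/
noncomputable def pt (x : EuclideanSpace ℝ (Fin m)) (h : ℝ) : Hyp m := ⟨x, exp h, exp_pos h⟩

/-- logarithmic height -/
noncomputable def ht (p : Hyp m) : ℝ := log p.y

@[simp] theorem pt_x (x : EuclideanSpace ℝ (Fin m)) (h : ℝ) : (pt x h).x = x := rfl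
@[simp] theorem pt_y (x : EuclideanSpace ℝ (Fin m)) (h : ℝ) : (pt x h).y = exp h := rfl
@[simp] theorem ht_pt (x : EuclideanSpace ℝ (Fin m)) (h : ℝ) : ht (pt x h) = h := log_exp h
@[simp] theorem pt_ht (p : Hyp m) : pt p.x (ht p) = p := Hyp.ext rfl (exp_log p.y_pos)

theorem dist_eq (p q : Hyp m) : dist p q =
    2 * arsinh (√(‖p.x - q.x‖ ^ 2 + (p.y - q.y) ^ 2) / (2 * √(p.y * q.y))) := rfl

theorem cosh_dist (p q : Hyp m) :
    cosh (dist p q) = (‖p.x - q.x‖ ^ 2 + p.y ^ 2 + q.y ^ 2) / (2 * p.y * q.y) := by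
  have hp := p.y_pos
  have hq := q.y_pos
  rw [dist_eq, cosh_two_mul, cosh_sq', sinh_arsinh, div_pow, mul_pow, sq_sqrt (by positivity),
    sq_sqrt (by positivity)]
  field_simp
  ring

theorem cosh_dist_pt (x x' : EuclideanSpace ℝ (Fin m)) (h h' : ℝ) :
    cosh (dist (pt x h) (pt x' h')) = cosh (h - h') + ‖x - x'‖ ^ 2 / (2 * exp (h + h')) := by
  rw [cosh_dist, cosh_eq, pt_x, pt_x, pt_y, pt_y, exp_add, neg_sub, exp_sub, exp_sub]
  have := exp_pos h
  have := exp_pos h'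
  field_simp
  ring

theorem le_of_cosh {a b : ℝ} (hb : 0 ≤ b) (h : cosh a ≤ cosh b) : |a| ≤ b := by
  rwa [cosh_le_cosh, abs_of_nonneg hb] at h

theorem abs_le_dist_pt (x x' : EuclideanSpace ℝ (Fin m)) (h h' : ℝ) :
    |h - h'| ≤ dist (pt x h) (pt x' h') := by
  refine le_of_cosh dist_nonneg ?_
  rw [cosh_dist_pt]
  have : 0 ≤ ‖x - x'‖ ^ 2 / (2 * exp (h + h')) := by positivity
  linarith only [this]

theorem abs_ht_le (p q : Hyp m) : |ht p - ht q| ≤ dist p q := by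
  simpa using abs_le_dist_pt p.x q.x (ht p) (ht q)

theorem dist_vert (x : EuclideanSpace ℝ (Fin m)) (h h' : ℝ) :
    dist (pt x h) (pt x h') = |h - h'| := by
  refine le_antisymm ?_ (abs_le_dist_pt _ _ _ _)
  rw [← abs_of_nonneg (dist_nonneg (x := pt x h) (y := pt x h'))]
  refine le_of_cosh (abs_nonneg _) ?_
  rw [cosh_dist_pt, cosh_abs]
  simp

theorem dist_horiz (x x' : EuclideanSpace ℝ (Fin m)) (h : ℝ) :
    dist (pt x h) (pt x' h) ≤ exp (-h) * ‖x - x'‖ := by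
  rw [dist_eq]
  simp only [pt_x, pt_y, sub_self]
  have he := exp_pos h
  rw [sqrt_mul_self he.le, zero_pow two_ne_zero, add_zero, sqrt_sq (norm_nonneg _), exp_neg]
  have h0 : 0 ≤ ‖x - x'‖ / (2 * exp h) := by positivity
  have h1 : arsinh (‖x - x'‖ / (2 * exp h)) ≤ ‖x - x'‖ / (2 * exp h) := by
    rw [← sinh_le_sinh, sinh_arsinh]
    exact self_le_sinh_iff.2 h0
  have h2 : 2 * (‖x - x'‖ / (2 * exp h)) = (exp h)⁻¹ * ‖x - x'‖ := by field_simp
  linarith only [h1, h2]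

theorem dist_shift {x x' z z' : EuclideanSpace ℝ (Fin m)} {h h' k k' : ℝ}
    (hz : ‖z - z'‖ ≤ ‖x - x'‖) (hk : h ≤ k) (hk' : h' ≤ k') (hkk : |k - k'| ≤ |h - h'|) :
    dist (pt z k) (pt z' k') ≤ dist (pt x h) (pt x' h') := by
  rw [← abs_of_nonneg (dist_nonneg (x := pt z k) (y := pt z' k'))]
  refine le_of_cosh dist_nonneg ?_
  rw [cosh_dist_pt, cosh_dist_pt]
  have h1 : cosh (k - k') ≤ cosh (h - h') := cosh_le_cosh.2 hkk
  have h2 : ‖z - z'‖ ^ 2 / (2 * exp (k + k')) ≤ ‖x - x'‖ ^ 2 / (2 * exp (h + h')) := by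
    gcongr
  linarith only [h1, h2]

theorem arsinh_le_dist (x x' : EuclideanSpace ℝ (Fin m)) (h h' : ℝ) :
    2 * arsinh (‖x - x'‖ * exp (-((h + h') / 2)) / 2) ≤ dist (pt x h) (pt x' h') := by
  rw [dist_eq]
  simp only [pt_x, pt_y]
  have e1 : √(exp h * exp h') = exp ((h + h') / 2) := by
    rw [← exp_add, ← sqrt_mul_self (exp_pos ((h + h') / 2)).le, ← exp_add]
    congr 2
    ring
  rw [e1, exp_neg]
  have he := exp_pos ((h + h') / 2)
  have e2 : ‖x - x'‖ * (exp ((h + h') / 2))⁻¹ / 2 = ‖x - x'‖ / (2 * exp ((h + h') / 2)) := by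
    field_simp
  rw [e2]
  refine mul_le_mul_of_nonneg_left (arsinh_le_arsinh.2 ?_) zero_le_two
  gcongr
  exact le_sqrt_of_sq_le (by linarith only [sq_nonneg (exp h - exp h'), sq_nonneg (rexp h - rexp h')])

theorem log_le_arsinh {u : ℝ} (hu : 0 < u) : log (2 * u) ≤ arsinh u := by
  rw [arsinh]
  refine log_le_log (by positivity) ?_
  have : u ≤ √(1 + u ^ 2) := le_sqrt_of_sq_le (by linarith)
  linarith

theorem half_le_arsinh {u : ℝ} (hu : 0 ≤ u) (hu1 : u ≤ 1 / 2) : u / 2 ≤ arsinh u := by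
  rw [arsinh]
  rw [le_log_iff_exp_le (by positivity)]
  have h1 : 1 ≤ √(1 + u ^ 2) := le_sqrt_of_sq_le (by linarith only [sq_nonneg u])
  have h2 : exp (u / 2) * (1 - u / 2) ≤ 1 := by
    have := add_one_le_exp (-(u / 2))
    have h3 : exp (u / 2) * exp (-(u / 2)) = 1 := by rw [← exp_add]; simp
    (refine le_of_not_gt fun h_nl => ?_; linarith only [h_nl, this, h3, hu, hu1, exp_pos (u / 2), Mathlib.Tactic.Linarith.mul_zero_eq (Mathlib.Tactic.Linarith.sub_nonpos_of_le hu) (sub_eq_zero_of_eq h3), mul_nonneg_of_nonpos_of_nonpos (Mathlib.Tactic.Linarith.sub_nonpos_of_le hu1) (le_of_lt (Mathlib.Tactic.Linarith.sub_neg_of_lt h_nl)), mul_nonneg_of_nonpos_of_nonpos (Mathlib.Tactic.Linarith.sub_nonpos_of_le this) (le_of_lt (Mathlib.Tactic.Linarith.sub_neg_of_lt h_nl))])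
  (refine le_of_not_gt fun h_nl => ?_; linarith only [h_nl, hu, h1, h2, hu1, exp_pos (u / 2), mul_nonneg_of_nonpos_of_nonpos (Mathlib.Tactic.Linarith.sub_nonpos_of_le hu) (Mathlib.Tactic.Linarith.sub_nonpos_of_le hu1), mul_nonneg_of_nonpos_of_nonpos (Mathlib.Tactic.Linarith.sub_nonpos_of_le hu1) (Mathlib.Tactic.Linarith.sub_nonpos_of_le h1), mul_nonneg_of_nonpos_of_nonpos (Mathlib.Tactic.Linarith.sub_nonpos_of_le hu1) (le_of_lt (Mathlib.Tactic.Linarith.sub_neg_of_lt h_nl))])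

/-- The point of the hyperboloid `α p + β q`. -/
noncomputable def comb (α β : ℝ) (p q : Hyp m) (h : 0 < α / p.y + β / q.y) : Hyp m :=
  ⟨(α / p.y + β / q.y)⁻¹ • ((α / p.y) • p.x + (β / q.y) • q.x), (α / p.y + β / q.y)⁻¹,
    inv_pos.2 h⟩

theorem cosh_comb {α β : ℝ} {p q : Hyp m} (h : 0 < α / p.y + β / q.y)
    (hn : α ^ 2 + β ^ 2 + 2 * α * β * cosh (dist p q) = 1) (w : Hyp m) :
    cosh (dist (comb α β p q h) w) = α * cosh (dist p w) + β * cosh (dist q w) := by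
  have hp := p.y_pos
  have hq := q.y_pos
  have hw := w.y_pos
  rw [cosh_dist] at hn
  rw [cosh_dist, cosh_dist, cosh_dist]
  simp only [comb]
  set a := α / p.y with ha
  set b := β / q.y with hb
  have hα : α = a * p.y := by rw [ha]; field_simp
  have hβ : β = b * q.y := by rw [hb]; field_simp
  clear_value a b
  subst hα hβ
  have e1 : (a + b)⁻¹ • (a • p.x + b • q.x) - w.x =
      (a + b)⁻¹ • (a • (p.x - w.x) + b • (q.x - w.x)) := by
    have : w.x = (a + b)⁻¹ • ((a + b) • w.x) := by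
      rw [smul_smul, inv_mul_cancel₀ h.ne', one_smul]
    conv_lhs => rw [this]
    module
  have e2 : p.x - q.x = (p.x - w.x) - (q.x - w.x) := by abel
  rw [e1, norm_smul, mul_pow, norm_add_sq_real, norm_smul, norm_smul, inner_smul_left,
    inner_smul_right]
  rw [e2, norm_sub_sq_real] at hn
  simp only [Real.norm_eq_abs, mul_pow, sq_abs, conj_trivial]
  set u := ‖p.x - w.x‖
  set v := ‖q.x - w.x‖
  set i := inner ℝ (p.x - w.x) (q.x - w.x)
  clear_value u v i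
  field_simp at hn
  field_simp
  linear_combination (-1) * hn

/-- The point at time `t` (clamped to `[0, d(p,q)]`) of the geodesic from `p` to `q`:
coefficients. -/
noncomputable def gt (p q : Hyp m) (t : ℝ) : ℝ := max 0 (min t (dist p q))

/-- second coefficient -/
noncomputable def gb (p q : Hyp m) (t : ℝ) : ℝ := sinh (gt p q t) / sinh (dist p q)

/-- first coefficient -/
noncomputable def ga (p q : Hyp m) (t : ℝ) : ℝ := cosh (gt p q t) - gb p q t * cosh (dist p q)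

theorem gt_nonneg (p q : Hyp m) (t : ℝ) : 0 ≤ gt p q t := le_max_left _ _

theorem gt_le (p q : Hyp m) (t : ℝ) : gt p q t ≤ dist p q :=
  max_le dist_nonneg (min_le_right _ _)

theorem gb_mul (p q : Hyp m) (t : ℝ) : gb p q t * sinh (dist p q) = sinh (gt p q t) := by
  rcases (dist_nonneg (x := p) (y := q)).eq_or_lt with h | h
  · have : gt p q t = 0 := le_antisymm (h ▸ gt_le p q t) (gt_nonneg _ _ _)
    simp [this, ← h]
  · have := sinh_pos_iff.2 h
    rw [gb]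
    field_simp

theorem gb_nonneg (p q : Hyp m) (t : ℝ) : 0 ≤ gb p q t :=
  div_nonneg (sinh_nonneg_iff.2 (gt_nonneg _ _ _)) (sinh_nonneg_iff.2 dist_nonneg)

theorem gb_le_one (p q : Hyp m) (t : ℝ) : gb p q t ≤ 1 :=
  div_le_one_of_le₀ (sinh_le_sinh.2 (gt_le _ _ _)) (sinh_nonneg_iff.2 dist_nonneg)

theorem ga_nonneg (p q : Hyp m) (t : ℝ) : 0 ≤ ga p q t := by
  rcases (dist_nonneg (x := p) (y := q)).eq_or_lt with h | h
  · have : gt p q t = 0 := le_antisymm (h ▸ gt_le p q t) (gt_nonneg _ _ _)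
    simp [ga, gb, this]
  · have h1 := sinh_pos_iff.2 h
    have h2 : ga p q t * sinh (dist p q) = sinh (dist p q - gt p q t) := by
      rw [sinh_sub, ga, ← gb_mul]
      ring
    have h3 : 0 ≤ sinh (dist p q - gt p q t) := sinh_nonneg_iff.2 (sub_nonneg.2 (gt_le _ _ _))
    exact nonneg_of_mul_nonneg_left (h2 ▸ h3) h1

theorem g_pos (p q : Hyp m) (t : ℝ) : 0 < ga p q t / p.y + gb p q t / q.y := by
  have hp := p.y_pos
  have hq := q.y_pos
  have h1 := ga_nonneg p q t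
  have h2 := gb_nonneg p q t
  rcases h2.eq_or_lt with h | h
  · have : 0 < ga p q t := by rw [ga, ← h]; simpa using cosh_pos _
    positivity
  · positivity

theorem g_norm (p q : Hyp m) (t : ℝ) :
    ga p q t ^ 2 + gb p q t ^ 2 + 2 * ga p q t * gb p q t * cosh (dist p q) = 1 := by
  have h1 := cosh_sq (gt p q t)
  have h2 := cosh_sq (dist p q)
  rw [← gb_mul] at h1
  rw [ga]
  linear_combination h1 - gb p q t ^ 2 * h2

/-- The geodesic from `p` to `q`. -/
noncomputable def geo (p q : Hyp m) (t : ℝ) : Hyp m := comb (ga p q t) (gb p q t) p q (g_pos p q t)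

theorem cosh_geo (p q : Hyp m) (t : ℝ) (w : Hyp m) :
    cosh (dist (geo p q t) w) = ga p q t * cosh (dist p w) + gb p q t * cosh (dist q w) :=
  cosh_comb _ (g_norm p q t) w

theorem cosh_geo_geo (o p q : Hyp m) (s t : ℝ) :
    cosh (dist (geo o p s) (geo o q t)) = cosh (gt o p s - gt o q t) +
      gb o p s * gb o q t * (cosh (dist p q) - cosh (dist o p - dist o q)) := by
  rw [cosh_geo, dist_comm o (geo o q t), dist_comm p (geo o q t), cosh_geo, cosh_geo, dist_self,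
    cosh_zero, dist_comm q o, dist_comm q p, cosh_sub, cosh_sub, ← gb_mul, ← gb_mul, ga, ga]
  ring

theorem dist_geo_geo (p q : Hyp m) (s t : ℝ) :
    dist (geo p q s) (geo p q t) = |gt p q s - gt p q t| := by
  have := cosh_geo_geo p q q s t
  simp only [dist_self, sub_self, mul_zero, add_zero] at this
  have h1 := cosh_le_cosh.1 this.le
  have h2 := cosh_le_cosh.1 this.ge
  rw [abs_of_nonneg dist_nonneg] at h1 h2
  linarith

theorem geo_zero (p q : Hyp m) : geo p q 0 = p := by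
  have h0 : gt p q 0 = 0 := by simp [gt]
  have := cosh_geo p q 0 p
  simp only [ga, gb, h0, sinh_zero, zero_div, cosh_zero, dist_self, zero_mul, sub_zero, add_zero,
    mul_one] at this
  have h1 := cosh_le_cosh.1 (this.trans cosh_zero.symm).le
  simpa using h1

theorem geo_of_le (p q : Hyp m) {t : ℝ} (ht : dist p q ≤ t) : geo p q t = q := by
  have h0 : gt p q t = dist p q := by simp [gt, ht]
  have := cosh_geo p q t q
  have h1 := gb_mul p q t
  have h2 := cosh_sq (dist p q)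
  simp only [ga, h0, dist_self, cosh_zero, mul_one] at this h1
  have h3 : cosh (dist (geo p q t) q) = cosh 0 := by
    rw [this, cosh_zero]
    linear_combination (1 - gb p q t) * h2 - sinh (dist p q) * h1
  have h1 := cosh_le_cosh.1 h3.le
  simpa using h1

theorem abs_gt_le (p q : Hyp m) (s t : ℝ) : |gt p q s - gt p q t| ≤ |s - t| :=
  (abs_max_sub_max_le_max _ _ _ _).trans (by
    simpa using (abs_min_sub_min_le_max s (dist p q) t (dist p q)))

theorem dist_geo_le (p q : Hyp m) (s t : ℝ) : dist (geo p q s) (geo p q t) ≤ |s - t| :=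
  (dist_geo_geo p q s t).trans_le (abs_gt_le p q s t)

theorem dist_geo_left (p q : Hyp m) {t : ℝ} (ht : 0 ≤ t) : dist p (geo p q t) ≤ t := by
  have := dist_geo_le p q 0 t
  rwa [geo_zero, zero_sub, abs_neg, abs_of_nonneg ht] at this

/-- the radial retraction onto a ball is `1`-Lipschitz -/
theorem dist_retr (o p q : Hyp m) (r : ℝ) : dist (geo o p r) (geo o q r) ≤ dist p q := by
  rw [← abs_of_nonneg (dist_nonneg (x := geo o p r) (y := geo o q r))]
  refine le_of_cosh dist_nonneg ?_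
  rw [cosh_geo_geo]
  have h1 : cosh (gt o p r - gt o q r) ≤ cosh (dist o p - dist o q) := by
    rw [cosh_le_cosh]
    exact (abs_max_sub_max_le_max _ _ _ _).trans (by
      simpa using (abs_min_sub_min_le_max r (dist o p) r (dist o q)))
  have h2 : cosh (dist o p - dist o q) ≤ cosh (dist p q) := by
    rw [cosh_le_cosh, abs_of_nonneg dist_nonneg, dist_comm o p, dist_comm o q]
    exact abs_dist_sub_le p q o
  have h3 : gb o p r * gb o q r ≤ 1 := mul_le_one₀ (gb_le_one _ _ _) (gb_nonneg _ _ _)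
    (gb_le_one _ _ _)
  linarith only [h1, h2, h3, mul_nonneg_of_nonpos_of_nonpos (Mathlib.Tactic.Linarith.sub_nonpos_of_le h2) (Mathlib.Tactic.Linarith.sub_nonpos_of_le h3)]

/-- between two points on both sides of a horosphere there is a point of the horosphere -/
theorem exists_mid (p q : Hyp m) {l : ℝ} (hp : ht p ≤ l) (hq : l ≤ ht q) :
    ∃ z : Hyp m, ht z = l ∧ dist p z + dist z q ≤ dist p q := by
  have hc : Continuous fun t => ht (geo p q t) := by
    refine (LipschitzWith.of_dist_le_mul (K := 1) fun s t => ?_).continuous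
    rw [NNReal.coe_one, one_mul, Real.dist_eq, Real.dist_eq]
    exact (abs_ht_le _ _).trans (dist_geo_le _ _ _ _)
  obtain ⟨t, ht1, ht2⟩ := intermediate_value_Icc (dist_nonneg (x := p) (y := q)) hc.continuousOn
    (show l ∈ Icc (ht (geo p q 0)) (ht (geo p q (dist p q))) by
      rw [geo_zero, geo_of_le p q le_rfl]; exact ⟨hp, hq⟩)
  refine ⟨geo p q t, ht2, ?_⟩
  have h1 := dist_geo_left p q ht1.1
  have h2 := dist_geo_le p q t (dist p q)
  rw [geo_of_le p q le_rfl, abs_of_nonpos (sub_nonpos.2 ht1.2)] at h2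
  linarith

/-- Gluing lemma: a map which is `1`-Lipschitz below a horosphere and slow above it is
`1`-Lipschitz. -/
theorem lip_glue {S : Type*} [PseudoMetricSpace S] (Φ : Hyp m → S) (l : ℝ)
    (h1 : ∀ p q, ht p ≤ l → ht q ≤ l → dist (Φ p) (Φ q) ≤ dist p q)
    (h2 : ∀ x h h', l ≤ h → l ≤ h' → dist (Φ (pt x h)) (Φ (pt x h')) ≤ |h - h'| / 2)
    (h3 : ∀ x x' h, l ≤ h → dist (Φ (pt x h)) (Φ (pt x' h)) ≤ exp (-h) * ‖x - x'‖ / 4)
    (p q : Hyp m) : dist (Φ p) (Φ q) ≤ dist p q := by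
  have up : ∀ x x' h h', l ≤ h' → h' ≤ h →
      dist (Φ (pt x h)) (Φ (pt x' h')) ≤ dist (pt x h) (pt x' h') := by
    intro x x' h h' hl hh
    have tri : ∀ H, h ≤ H → dist (Φ (pt x h)) (Φ (pt x' h')) ≤
        (H - h) / 2 + exp (-H) * ‖x - x'‖ / 4 + (H - h') / 2 := by
      intro H hH
      have a1 := h2 x h H (hl.trans hh) (hl.trans (hh.trans hH))
      have a2 := h3 x x' H (hl.trans (hh.trans hH))
      have a3 := h2 x' H h' (hl.trans (hh.trans hH)) hl
      rw [abs_of_nonpos (by linarith only [hH])] at a1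
      rw [abs_of_nonneg (by linarith only [hh, hH])] at a3
      have := dist_triangle4 (Φ (pt x h)) (Φ (pt x H)) (Φ (pt x' H)) (Φ (pt x' h'))
      linarith only [a1, a2, a3, this]
    have b1 := abs_le_dist_pt x x' h h'
    have b2 := arsinh_le_dist x x' h h'
    rw [abs_of_nonneg (by linarith)] at b1
    by_cases hδ : ‖x - x'‖ ≤ exp h
    · have t := tri h le_rfl
      have c0 : exp (-h) * ‖x - x'‖ ≤ 1 := by
        rw [exp_neg, inv_mul_le_iff₀ (exp_pos h)]; simpa using hδ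
      have c1 := half_le_arsinh (u := exp (-h) * ‖x - x'‖ / 2) (by positivity) (by linarith only [c0])
      have c2 : arsinh (exp (-h) * ‖x - x'‖ / 2) ≤
          arsinh (‖x - x'‖ * exp (-((h + h') / 2)) / 2) := by
        rw [arsinh_le_arsinh, mul_comm]
        gcongr
        linarith only [hh]
      linarith only [b1, b2, t, c1, c2]
    · push Not at hδ
      have hpos : 0 < ‖x - x'‖ := (exp_pos h).trans hδ
      have hH : h ≤ log ‖x - x'‖ := (le_log_iff_exp_le hpos).2 hδ.le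
      have t := tri _ hH
      rw [exp_neg, exp_log hpos, inv_mul_cancel₀ hpos.ne'] at t
      have c1 := log_le_arsinh (u := ‖x - x'‖ * exp (-((h + h') / 2)) / 2) (by positivity)
      rw [mul_div_cancel₀ _ two_ne_zero, log_mul hpos.ne' (exp_pos _).ne', log_exp] at c1
      have c2 := half_le_arsinh (u := 1 / 2) (by norm_num) le_rfl
      have c3 : arsinh (1 / 2) ≤ arsinh (‖x - x'‖ * exp (-((h + h') / 2)) / 2) := by
        rw [arsinh_le_arsinh]
        have : 1 ≤ exp h * exp (-((h + h') / 2)) := by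
          rw [← exp_add]; exact one_le_exp (by linarith only [hh])
        linarith only [this, hδ, exp_pos (-((h + h') / 2)), mul_pos_of_neg_of_neg (Mathlib.Tactic.Linarith.sub_neg_of_lt hδ) (Mathlib.Tactic.Linarith.sub_neg_of_lt (exp_pos (-((h + h') / (2 : ℝ)))))]
      linarith only [b2, t, c1, c2, c3]
  have up' : ∀ p q : Hyp m, l ≤ ht p → l ≤ ht q → dist (Φ p) (Φ q) ≤ dist p q := by
    intro p q hp hq
    rcases le_total (ht p) (ht q) with h | h
    · rw [dist_comm, dist_comm p]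
      simpa using up q.x p.x (ht q) (ht p) hp h
    · simpa using up p.x q.x (ht p) (ht q) hq h
  have mix : ∀ p q : Hyp m, ht p ≤ l → l ≤ ht q → dist (Φ p) (Φ q) ≤ dist p q := by
    intro p q hp hq
    obtain ⟨z, hz, hd⟩ := exists_mid p q hp hq
    have := dist_triangle (Φ p) (Φ z) (Φ q)
    have := h1 p z hp hz.le
    have := up' z q hz.ge hq
    linarith
  rcases le_total (ht p) l with hp | hp <;> rcases le_total (ht q) l with hq | hq
  · exact h1 p q hp hq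
  · exact mix p q hp hq
  · rw [dist_comm, dist_comm p]; exact mix q p hq hp
  · exact up' p q hp hq

theorem exists_bound (o : Hyp m) (R : ℝ) : ∃ ρ : ℝ, 0 ≤ ρ ∧ ∀ p : Hyp m, dist p o ≤ R → ‖p.x‖ ≤ ρ := by
  refine ⟨‖o.x‖ + √(cosh R * (2 * exp (ht o + R + ht o))), by positivity, fun p hp => ?_⟩
  have h1 := cosh_dist_pt p.x o.x (ht p) (ht o)
  rw [pt_ht, pt_ht] at h1
  have h2 : cosh (dist p o) ≤ cosh R := by
    rw [cosh_le_cosh, abs_of_nonneg dist_nonneg]; exact hp.trans (le_abs_self R)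
  have h3 := (abs_le.1 ((abs_ht_le p o).trans hp)).2
  have h4 : ‖p.x - o.x‖ ^ 2 / (2 * exp (ht p + ht o)) ≤ cosh R := by
    linarith only [h1, h2, cosh_pos (ht p - ht o)]
  rw [div_le_iff₀ (by positivity)] at h4
  have h5 : ‖p.x - o.x‖ ≤ √(cosh R * (2 * exp (ht o + R + ht o))) := by
    refine le_sqrt_of_sq_le (h4.trans ?_)
    have := cosh_pos R
    gcongr
    linarith only [h3]
  have := norm_le_insert' p.x o.x
  linarith only [h5, this]

end Hyp

end Pool.Agent.Work.MP_e25190_gt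
end

-- merged part: Pool.Agent.Work.MP_e25190_gt.Sweep
section
-- merged part: Pool.Agent.Work.MP_e25190_gt.Pi1
section
/-! Finiteness of the fundamental group and Lipschitz homotopies of paths. -/

open Set Metric
open scoped ENNReal NNReal

namespace Pool.Agent.Work.MP_e25190_gt

variable {S : Type*} [MetricSpace S] {x y z : S}

theorem extend_cl (γ : Path x y) (t : ℝ) : γ.extend (cl t) = γ.extend t := by
  rcases le_total t 0 with h | h
  · rw [cl_of_nonpos h, γ.extend_of_le_zero h, γ.extend_zero]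
  rcases le_total t 1 with h' | h'
  · rw [cl_of_mem h h']
  · rw [cl_of_one_le h', γ.extend_of_one_le h', γ.extend_one]

theorem exists_path' {f : ℝ → S} (hf : Continuous f) (h0 : f 0 = x) (h1 : f 1 = y) :
    ∃ γ : Path x y, ∀ t, γ.extend t = f (cl t) := by
  refine ⟨Path.ofLine hf.continuousOn h0 h1, fun t => ?_⟩
  rw [← extend_cl, Path.extend_apply _ (cl_mem t)]
  rfl

theorem exists_path {K : ℝ} {f : ℝ → S} (hf : Lp K f) (h0 : f 0 = x) (h1 : f 1 = y) :
    ∃ γ : Path x y, Lp K γ.extend ∧ ∀ t ∈ Icc (0 : ℝ) 1, γ.extend t = f t := by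
  obtain ⟨γ, hγ⟩ := exists_path' hf.continuous h0 h1
  refine ⟨γ, fun s t => ?_, fun t ht => by rw [hγ, cl_of_mem ht.1 ht.2]⟩
  rw [hγ, hγ]
  exact hf.comp_cl s t

theorem extend_trans (γ : Path x y) (γ' : Path y z) :
    ⇑(γ.trans γ').extend = cat γ.extend γ'.extend := by
  funext t
  rcases le_total t (1 / 2) with h | h
  · rw [Path.extend_trans_of_le_half _ _ h, cat_left _ _ h]
  · rw [Path.extend_trans_of_half_le _ _ h, cat_right (by simp) h]

theorem Lp.trans {K : ℝ} {γ : Path x y} {γ' : Path y z} (h : Lp K γ.extend)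
    (h' : Lp K γ'.extend) : Lp (K * 2) (γ.trans γ').extend := by
  rw [extend_trans]; exact h.cat h' (by simp)

theorem Lp.symm {K : ℝ} {γ : Path x y} (h : Lp K γ.extend) : Lp K γ.symm.extend := by
  rw [Path.extend_symm]; exact h.rev

theorem homotopic_of_fun {α β : Path x y} (G : ℝ → ℝ → S)
    (hG : Continuous fun z : ℝ × ℝ => G z.1 z.2)
    (h1 : ∀ τ ∈ Icc (0 : ℝ) 1, G 0 τ = α.extend τ ∧ G 1 τ = β.extend τ)
    (h2 : ∀ s ∈ Icc (0 : ℝ) 1, G s 0 = x ∧ G s 1 = y) : α.Homotopic β := by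
  refine ⟨⟨⟨⟨fun z => G z.1 z.2, hG.comp (f := fun z : unitInterval × unitInterval => ((z.1 : ℝ), (z.2 : ℝ)))
    (by fun_prop)⟩, fun τ => ?_, fun τ => ?_⟩, ?_⟩⟩
  · simpa using (h1 τ τ.2).1
  · simpa using (h1 τ τ.2).2
  · rintro s τ (rfl | rfl)
    · simpa using (h2 s s.2).1
    · simpa using (h2 s s.2).2

theorem fun_of_homotopic {α β : Path x y} (h : α.Homotopic β) : ∃ G : ℝ → ℝ → S,
    (Continuous fun z : ℝ × ℝ => G z.1 z.2) ∧
    (∀ τ ∈ Icc (0 : ℝ) 1, G 0 τ = α.extend τ ∧ G 1 τ = β.extend τ) ∧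
    ∀ s, G s 0 = x ∧ G s 1 = y := by
  obtain ⟨F⟩ := h
  refine ⟨fun s τ => F (projIcc 0 1 zero_le_one s, projIcc 0 1 zero_le_one τ),
    F.continuous.comp (by fun_prop), fun τ hτ => ?_, fun s => by simp⟩
  simp [projIcc_of_mem _ hτ, Path.extend_apply _ hτ]

theorem Sq.homotopic {K : ℝ} {α β : Path x y}
    (h : Sq K 1 α.extend β.extend (fun _ => x) (fun _ => y)) : α.Homotopic β := by
  obtain ⟨G, h1, h2, h3, h4⟩ := h
  exact homotopic_of_fun G (continuous_prod_of_continuous_lipschitzWith' _ K.toNNReal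
    (fun s => (h1 s).lipschitzWith) (fun τ => (h2 τ).continuous)) h3 h4

theorem homotopic_reparam {α β : Path x y} {ψ : ℝ → ℝ} (hψ : Continuous ψ) (h0 : ψ 0 = 0)
    (h1 : ψ 1 = 1) (h : ∀ t ∈ Icc (0 : ℝ) 1, β.extend t = α.extend (ψ t)) : α.Homotopic β :=
  homotopic_of_fun (fun s τ => α.extend ((1 - s) * τ + s * ψ τ)) (by fun_prop)
    (fun τ hτ => by simp [h τ hτ]) (fun s _ => by simp [h0, h1])

theorem exists_lp_of_var (γ : Path x y) {V ε : ℝ} (hV : 0 ≤ V) (hε : 0 < ε)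
    (h : eVariationOn γ.extend (Icc 0 1) ≤ ENNReal.ofReal V) :
    ∃ γ' : Path x y, Lp (V + ε) γ'.extend ∧ γ.Homotopic γ' := by
  obtain ⟨ψ, hψ, h0, h1, -, h2⟩ := exists_reparam γ.continuous_extend hV hε h
  obtain ⟨γ', h3, h4⟩ := exists_path h2 (x := x) (y := y) (by simp [h0]) (by simp [h1])
  exact ⟨γ', h3, homotopic_reparam hψ h0 h1 h4⟩

theorem exists_split (γ : Path x y) (u : ℝ) :
    ∃ (γ₁ : Path x (γ.extend u)) (γ₂ : Path (γ.extend u) y), γ.Homotopic (γ₁.trans γ₂) ∧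
      (∀ t, γ₁.extend t = γ.extend (u * cl t)) ∧ ∀ t, γ₂.extend t = γ.extend (u + (1 - u) * cl t) := by
  obtain ⟨γ₁, h1⟩ := exists_path' (f := fun t => γ.extend (u * t)) (x := x) (y := γ.extend u)
    (by fun_prop) (by simp) (by simp)
  obtain ⟨γ₂, h2⟩ := exists_path' (f := fun t => γ.extend (u + (1 - u) * t)) (x := γ.extend u)
    (y := y) (by fun_prop) (by simp) (by simp)
  refine ⟨γ₁, γ₂, homotopic_reparam (ψ := cat (fun t => u * cl t) (fun t => u + (1 - u) * cl t))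
    (continuous_cat (continuous_const.mul continuous_cl)
      (continuous_const.add (continuous_const.mul continuous_cl)) (by simp)) (by simp) (by simp)
    fun t _ => ?_, h1, h2⟩
  rw [extend_trans]
  unfold cat
  split_ifs
  · exact h1 _
  · exact h2 _

/-- Lipschitz approximation of a continuous curve -/
theorem exists_approx (hL : IsLengthSpace S) {γ : ℝ → S} (hγ : Continuous γ) {ε : ℝ}
    (hε : 0 < ε) : ∃ (α : ℝ → S) (K : ℝ), Lp K α ∧ α 0 = γ 0 ∧ α 1 = γ 1 ∧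
      ∀ t ∈ Icc (0 : ℝ) 1, dist (α t) (γ t) ≤ ε := by
  obtain ⟨η, hη, hU⟩ := Metric.uniformContinuousOn_iff_le.1
    (isCompact_Icc.uniformContinuousOn_of_continuous (hγ.continuousOn (s := Icc 0 1))) (ε / 4)
    (by linarith only [hε])
  obtain ⟨N, hN⟩ := exists_nat_gt η⁻¹
  have hN0 : (0 : ℝ) < N := (inv_pos.2 hη).trans hN
  have hN1 : (N : ℝ)⁻¹ ≤ η := (inv_lt_comm₀ hη hN0).1 hN |>.le
  have hU' : ∀ a b : ℝ, 0 ≤ a → a ≤ b → b ≤ a + 1 → b ≤ N →
      dist (γ ((N : ℝ)⁻¹ * a)) (γ ((N : ℝ)⁻¹ * b)) ≤ ε / 4 := by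
    clear * - N hN0 hU η hη hN1
    intro a b h0 h1 h2 h3
    have hi := inv_pos.2 hN0
    refine hU _ ⟨by positivity, ?_⟩ _ ⟨mul_nonneg hi.le (by linarith only [h0, h1]), ?_⟩ ?_
    · rw [inv_mul_le_iff₀ hN0]; linarith
    · rw [inv_mul_le_iff₀ hN0]; linarith
    · rw [Real.dist_eq, ← mul_sub, abs_mul, abs_of_pos hi, abs_of_nonpos (by linarith)]
      linarith only [hη, h2, hN1, h1, mul_nonneg_of_nonpos_of_nonpos (le_of_lt (Mathlib.Tactic.Linarith.sub_neg_of_lt hη)) (Mathlib.Tactic.Linarith.sub_nonpos_of_le h2), mul_nonneg_of_nonpos_of_nonpos (Mathlib.Tactic.Linarith.sub_nonpos_of_le hN1) (Mathlib.Tactic.Linarith.sub_nonpos_of_le h1)]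
  have ind : ∀ n : ℕ, n ≤ N → ∃ a : ℝ → S, Lp (ε / 2) a ∧ a 0 = γ 0 ∧ a n = γ ((N : ℝ)⁻¹ * n) ∧
      ∀ τ ∈ Icc (0 : ℝ) n, dist (a τ) (γ ((N : ℝ)⁻¹ * τ)) ≤ ε := by
    clear * - N S ε γ hε hL hU'
    intro n
    induction n with
    | zero =>
      refine fun _ => ⟨fun _ => γ 0, Lp.const (by linarith only [hε]) _, rfl, by simp, fun τ hτ => ?_⟩
      rw [le_antisymm hτ.2 (by simpa using hτ.1)]
      simp [hε.le]
    | succ n ih =>
      intro hn
      obtain ⟨a, h1, h2, h3, h4⟩ := ih (by omega)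
      have hn' : (n : ℝ) + 1 ≤ N := by exact_mod_cast hn
      have hn0 : (0 : ℝ) ≤ n := by positivity
      obtain ⟨σ, s1, s2, s3⟩ := hL.exists_lp (γ ((N : ℝ)⁻¹ * n)) (γ ((N : ℝ)⁻¹ * (n + 1)))
        (ε := ε / 4) (by linarith only [hε])
      have s1' : Lp (ε / 2) σ := s1.mono (by linarith only [hU', hn0, hn', hU' n (n + 1) hn0 (by linarith) le_rfl hn'])
      refine ⟨fun τ => if τ ≤ n then a τ else σ (τ - n),
        h1.ite (fun a b => s1'.le (by simp)) (by simp [h3, s2]), by simp [h2], ?_, fun τ hτ => ?_⟩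
      · simp [s3]
      · beta_reduce
        rw [Nat.cast_succ] at hτ
        split_ifs with h
        · exact h4 τ ⟨hτ.1, h⟩
        · push Not at h
          have b1 := s1'.le (s := τ - n) (t := 0) (x := 1) (by
            rw [sub_zero, abs_of_nonneg (by linarith only [h])]; linarith [hτ.2])
          have b2 := hU' n τ hn0 h.le hτ.2 (by linarith only [hn', hτ, hτ.2])
          rw [s2] at b1
          have := dist_triangle (σ (τ - n)) (γ ((N : ℝ)⁻¹ * n)) (γ ((N : ℝ)⁻¹ * τ))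
          linarith only [hε, b1, b2, this]
  obtain ⟨a, h1, h2, h3, h4⟩ := ind N le_rfl
  refine ⟨fun t => a (N * t), _, h1.comp fun a b => d_cmul _ hN0.le le_rfl, by simpa using h2,
    by simpa [hN0.ne'] using h3, fun t ht => ?_⟩
  have := h4 (N * t) ⟨mul_nonneg hN0.le ht.1, by linarith only [ht, ht.2, mul_nonneg_of_nonpos_of_nonpos (Mathlib.Tactic.Linarith.sub_nonpos_of_le (Mathlib.Tactic.Linarith.natCast_nonneg ℝ N)) (Mathlib.Tactic.Linarith.sub_nonpos_of_le ht.right)]⟩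
  rwa [inv_mul_cancel_left₀ hN0.ne'] at this

/-- homotopic Lipschitz paths are Lipschitz homotopic -/
theorem sq_of_homotopic (hL : IsLengthSpace S) {δ K : ℝ} (h : ULC S δ K) (hδ : 0 < δ)
    (hK : 0 ≤ K) {α β : Path x y} {l₁ l₂ : ℝ} (hα : Lp l₁ α.extend) (hβ : Lp l₂ β.extend)
    (H : α.Homotopic β) : ∃ K', Sq K' 1 α.extend β.extend (fun _ => x) (fun _ => y) := by
  obtain ⟨G, hG, h1, h2⟩ := fun_of_homotopic H
  have close : ∀ (a b : ℝ → S) (l l' : ℝ), Lp l a → Lp l' b → a 0 = x → a 1 = y → b 0 = x →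
      b 1 = y → (∀ τ ∈ Icc (0 : ℝ) 1, dist (a τ) (b τ) ≤ δ / 4) →
      ∃ K', Sq K' 1 a b (fun _ => x) (fun _ => y) := by
    intro a b l l' ha hb a0 a1 b0 b1 hab
    obtain ⟨K', hK'⟩ := close_sq hL h hδ hK (max l l')
    exact ⟨K', hK' a b _ _ (ha.mono (le_max_left _ _)) (hb.mono (le_max_right _ _)) hab
      (Lp.const (by linarith only [hδ]) _) (Lp.const (by linarith) _) a0.symm b0.symm a1.symm b1.symm⟩
  obtain ⟨η, hη, hU⟩ := Metric.uniformContinuousOn_iff_le.1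
    ((isCompact_Icc.prod isCompact_Icc).uniformContinuousOn_of_continuous
      (hG.continuousOn (s := Icc 0 1 ×ˢ Icc 0 1))) (δ / 12) (by linarith)
  obtain ⟨N, hN⟩ := exists_nat_gt η⁻¹
  have hN0 : (0 : ℝ) < N := (inv_pos.2 hη).trans hN
  have hN1 : (N : ℝ)⁻¹ ≤ η := (inv_lt_comm₀ hη hN0).1 hN |>.le
  have ind : ∀ n : ℕ, n ≤ N → ∀ (a : ℝ → S) (l : ℝ), Lp l a → a 0 = x → a 1 = y →
      (∀ τ ∈ Icc (0 : ℝ) 1, dist (a τ) (G ((N : ℝ)⁻¹ * n) τ) ≤ δ / 12) →
      ∃ K', Sq K' 1 α.extend a (fun _ => x) (fun _ => y) := by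
    clear * - N S x y G δ α close l₁ hα hδ β h1 hL hG h2 hN0 hU η hN1
    intro n
    induction n with
    | zero =>
      intro _ a l ha a0 a1 hd
      refine close _ a _ l hα ha (by simp) (by simp) a0 a1 fun τ hτ => ?_
      have := hd τ hτ
      rw [Nat.cast_zero, mul_zero, (h1 τ hτ).1, dist_comm] at this
      linarith only [hδ, this]
    | succ n ih =>
      intro hn a l ha a0 a1 hd
      have hn' : (n : ℝ) + 1 ≤ N := by exact_mod_cast hn
      obtain ⟨b, l', b1, b2, b3, b4⟩ := exists_approx hL (γ := G ((N : ℝ)⁻¹ * n))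
        (hG.comp (Continuous.prodMk_right _)) (ε := δ / 12) (by linarith only [hδ])
      rw [(h2 _).1] at b2
      rw [(h2 _).2] at b3
      obtain ⟨K₁, H₁⟩ := ih (by omega) b l' b1 b2 b3 b4
      obtain ⟨K₂, H₂⟩ := close b a l' l b1 ha b2 b3 a0 a1 fun τ hτ => by
        have hi := inv_pos.2 hN0
        have c1 := hU ((N : ℝ)⁻¹ * n, τ) ⟨⟨by positivity, by
            rw [inv_mul_le_iff₀ hN0]; linarith only [hn']⟩, hτ⟩ ((N : ℝ)⁻¹ * (n + 1), τ) ⟨⟨by positivity, by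
            rw [inv_mul_le_iff₀ hN0]; linarith only [hn']⟩, hτ⟩ (by
          rw [Prod.dist_eq, dist_self, Real.dist_eq, ← mul_sub]
          simp [abs_of_pos hi, hN1])
        have c2 := b4 τ hτ
        have c3 := hd τ hτ
        rw [Nat.cast_succ, dist_comm] at c3
        have := dist_triangle4 (b τ) (G ((N : ℝ)⁻¹ * n) τ) (G ((N : ℝ)⁻¹ * (n + 1)) τ) (a τ)
        simp only at c1
        linarith only [c1, c2, c3, this]
      have := (H₁.mono (le_max_left K₁ K₂)).trans (H₂.mono (le_max_right K₁ K₂))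
      rw [cat_const, cat_const] at this
      exact ⟨_, this⟩
  refine ind N le_rfl _ _ hβ (by simp) (by simp) fun τ hτ => ?_
  rw [inv_mul_cancel₀ hN0.ne', (h1 τ hτ).2, dist_self]
  linarith only [hδ]

theorem exists_short_of_finite [CompactSpace S] (hL : IsLengthSpace S) (s₀ : S)
    [Finite (FundamentalGroup S s₀)] : ∃ L, ∀ (x y : S) (γ : Path x y) (l : ℝ), Lp l γ.extend →
      ∃ p : Path x y, Lp L p.extend ∧ γ.Homotopic p := by
  have : Finite (Path.Homotopic.Quotient s₀ s₀) := inferInstanceAs (Finite (FundamentalGroup S s₀))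
  have rep : ∀ g : Path.Homotopic.Quotient s₀ s₀, ∃ (p : Path s₀ s₀) (l : ℝ), Lp l p.extend ∧
      ∀ (p' : Path s₀ s₀) (l' : ℝ), Lp l' p'.extend → Path.Homotopic.Quotient.mk p' = g →
        Path.Homotopic.Quotient.mk p = g := by
    intro g
    by_cases h : ∃ (p : Path s₀ s₀) (l : ℝ), Lp l p.extend ∧ Path.Homotopic.Quotient.mk p = g
    · obtain ⟨p, l, h1, h2⟩ := h
      exact ⟨p, l, h1, fun _ _ _ _ => h2⟩
    · exact ⟨Path.refl s₀, 0, Lp.const le_rfl _, fun p' l' h1 h2 => absurd ⟨p', l', h1, h2⟩ h⟩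
  choose p l hp hp' using rep
  obtain ⟨L, hL'⟩ := (finite_range l).bddAbove
  have join : ∀ x : S, ∃ σ : Path s₀ x, Lp (diam (univ : Set S) + 1) σ.extend := by
    intro x
    obtain ⟨σ, h1, h2, h3⟩ := hL.exists_lp s₀ x zero_lt_one
    obtain ⟨σ', h4, -⟩ := exists_path h1 h2 h3
    refine ⟨σ', h4.mono ?_⟩
    have := dist_le_diam_of_mem (isBounded_of_compactSpace (s := (univ : Set S))) (mem_univ s₀)
      (mem_univ x)
    linarith
  set D := diam (univ : Set S) + 1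
  refine ⟨max L D * 2 * 2, fun x y γ l' hγ => ?_⟩
  obtain ⟨σ, hσ⟩ := join x
  obtain ⟨τ, hτ⟩ := join y
  have h1 : Lp (max l' D * 2 * 2) (σ.trans (γ.trans τ.symm)).extend := by
    have := hσ.nonneg
    refine Lp.trans (hσ.mono ?_) ((hγ.mono (le_max_left _ _)).trans (hτ.symm.mono (le_max_right _ _)))
    linarith [le_max_right l' D]
  have h2 := hp' _ _ _ h1 rfl
  set g := Path.Homotopic.Quotient.mk (σ.trans (γ.trans τ.symm)) with hg
  refine ⟨σ.symm.trans ((p g).trans τ), ?_, ?_⟩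
  · have := hσ.nonneg
    refine Lp.trans (hσ.symm.mono ?_) (((hp g).mono ((hL' (mem_range_self g)).trans
      (le_max_left _ _))).trans (hτ.mono (le_max_right _ _)))
    linarith [le_max_right L D]
  · rw [← Path.Homotopic.Quotient.eq, Path.Homotopic.Quotient.mk_trans,
      Path.Homotopic.Quotient.mk_trans, h2, hg]
    simp only [Path.Homotopic.Quotient.mk_trans, Path.Homotopic.Quotient.mk_symm]
    rw [Path.Homotopic.Quotient.trans_assoc, Path.Homotopic.Quotient.trans_assoc,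
      Path.Homotopic.Quotient.symm_trans, Path.Homotopic.Quotient.trans_refl,
      ← Path.Homotopic.Quotient.trans_assoc, Path.Homotopic.Quotient.symm_trans,
      Path.Homotopic.Quotient.refl_trans]

theorem Sq.toHom {K L : ℝ} {l r b t : ℝ → S} (H : Sq K 1 l r b t) (hr : Lp L r) (hb : Lp L b)
    (ht : Lp L t) : ∃ p : ℝ → S, Lp (L * 2 * 2) p ∧
      Sq (K * 9) 1 l p (fun _ => l 0) (fun _ => l 1) := by
  have hK := H.nonneg
  have hL := hr.nonneg
  obtain ⟨G, h1, h2, h3, h4⟩ := H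
  have m0 : (0 : ℝ) ∈ Icc (0 : ℝ) 1 := ⟨le_rfl, zero_le_one⟩
  have m1 : (1 : ℝ) ∈ Icc (0 : ℝ) 1 := ⟨zero_le_one, le_rfl⟩
  have e1 : r 1 = t (1 - 0) := by rw [sub_zero, ← (h3 1 m1).2, (h4 1 m1).2]
  have e2 : b 1 = cat r (fun z => t (1 - z)) 0 := by rw [cat_zero, ← (h3 0 m0).2, (h4 1 m1).1]
  refine ⟨cat b (cat r fun z => t (1 - z)), (hb.mono (by linarith)).cat (hr.cat ht.rev e1) e2,
    fun s z => G (cl s * min (cl (2 * z)) (cl (4 - 4 * z))) ((1 - cl s) * cl z + cl s * cl (4 * z - 2)),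
    fun s z z' => ?_, fun z s s' => ?_, fun z hz => ⟨by simp [cl_of_mem hz.1 hz.2, (h3 z hz).1], ?_⟩,
    fun s hs => ⟨?_, ?_⟩⟩
  · have a0 := abs_nonneg (z - z')
    have a1 : |1 - cl s| ≤ 1 := by rw [← cl_one_sub]; exact abs_cl_le _
    refine (lp_comp2 h1 h2 (x := 4 * |z - z'|) (y := 5 * |z - z'|) ?_ ?_).trans (by linarith only [])
    · rw [← mul_sub, abs_mul]
      refine (mul_le_of_le_one_left (abs_nonneg _) (abs_cl_le _)).trans (d_min (d_cl ?_) (d_cl ?_))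
      · linarith only [a0, d_cmul 2 zero_le_two (le_refl |z - z'|)]
      · simpa using d_sub (d_const (a := 4) le_rfl) (d_cmul 4 (by norm_num) (le_refl |z - z'|))
    · refine (d_add (d_mul a1 (abs_cl_le _) (d_const le_rfl) (d_cl (le_refl |z - z'|)))
        (d_mul (abs_cl_le _) (abs_cl_le _) (d_const le_rfl) (d_cl (d_sub
          (d_cmul 4 (by norm_num) (le_refl |z - z'|)) (d_const le_rfl))))).trans ?_
      linarith
  · have a0 := abs_nonneg (s - s')
    have a1 : |1 - cl s| ≤ 1 := by rw [← cl_one_sub]; exact abs_cl_le _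
    have a2 : |min (cl (2 * z)) (cl (4 - 4 * z))| ≤ 1 := by
      rw [abs_of_nonneg (le_min (cl_nonneg _) (cl_nonneg _))]
      exact (min_le_left _ _).trans (cl_le_one _)
    refine (lp_comp2 h1 h2 (d_mul (abs_cl_le _) a2 (d_cl (le_refl |s - s'|)) (d_const le_rfl))
      (d_add (d_mul a1 (abs_cl_le _) (d_sub (d_const le_rfl) (d_cl (le_refl |s - s'|)))
        (d_const le_rfl)) (d_mul (abs_cl_le _) (abs_cl_le _) (d_cl (le_refl |s - s'|))
        (d_const le_rfl)))).trans (by linarith only [hK, a0, mul_nonneg_of_nonpos_of_nonpos (Mathlib.Tactic.Linarith.sub_nonpos_of_le hK) (Mathlib.Tactic.Linarith.sub_nonpos_of_le a0)])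
  · simp only [cl_one, one_mul, sub_self, zero_mul, zero_add]
    rcases le_total z (1 / 2) with h | h
    · rw [cat_left _ _ h, cl_of_nonpos (x := 4 * z - 2) (by linarith only [h]),
        cl_of_one_le (x := 4 - 4 * z) (by linarith only [h]), min_eq_left (cl_le_one _),
        cl_of_mem (by linarith [hz.1]) (by linarith), (h4 _ ⟨by linarith only [hz, hz.1], by linarith only [h]⟩).1]
    rw [cat_right e2 h, cl_of_one_le (x := 2 * z) (by linarith only [h]), min_eq_right (cl_le_one _)]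
    rcases le_total z (3 / 4) with h' | h'
    · rw [cat_left _ _ (by linarith only [h']), cl_of_one_le (x := 4 - 4 * z) (by linarith only [h']),
        cl_of_mem (by linarith only [h]) (by linarith only [h']), (h3 _ ⟨by linarith only [h], by linarith only [h']⟩).2]
      congr 1; ring
    · rw [cat_right e1 (by linarith only [h']), cl_of_one_le (x := 4 * z - 2) (by linarith only [h']),
        cl_of_mem (by linarith only [hz, hz.2]) (by linarith only [h']), (h4 _ ⟨by linarith only [hz, hz.2], by linarith only [h']⟩).2]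
      congr 1; ring
  · simp [cl_of_nonpos (x := -2) (by norm_num), cl_nonneg, (h3 0 m0).1]
  · norm_num [cl_of_one_le (x := 2) (by norm_num), (h3 1 m1).1]

/-- every Lipschitz path is homotopic to a path of bounded length, with uniform control -/
def Short (S : Type*) [MetricSpace S] (L : ℝ) : Prop :=
  ∀ lam : ℝ, ∃ K, ∀ γ : ℝ → S, Lp lam γ → ∃ p : ℝ → S, Lp L p ∧
    Sq K 1 γ p (fun _ => γ 0) (fun _ => γ 1)

theorem short_of_finite [CompactSpace S] (hL : IsLengthSpace S) (hC : LocLipContractible S)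
    (s₀ : S) [Finite (FundamentalGroup S s₀)] : ∃ L, Short S L := by
  obtain ⟨δ, hδ, K, hK, h⟩ := exists_ulc hC
  obtain ⟨L, hL'⟩ := exists_short_of_finite hL s₀
  refine ⟨max L δ * 2 * 2, fun lam => ?_⟩
  obtain ⟨T, hT, hT'⟩ := exists_net (J := {γ : ℝ → S // Lp lam γ}) (fun j => j.1)
    (ε := δ / 4) (by linarith only [hδ]) fun j => j.2
  have each : ∀ j : {γ : ℝ → S // Lp lam γ}, ∃ (K' : ℝ) (p : ℝ → S), Lp L p ∧
      Sq K' 1 j.1 p (fun _ => j.1 0) (fun _ => j.1 1) := by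
    intro j
    obtain ⟨γ, h1, h2⟩ := exists_path j.2 rfl rfl
    obtain ⟨p, h3, h4⟩ := hL' _ _ γ _ h1
    obtain ⟨K', h5⟩ := sq_of_homotopic hL h hδ hK h1 h3 h4
    exact ⟨K', p.extend, h3, h5.congr h2 (fun _ _ => rfl) (fun _ _ => rfl) (fun _ _ => rfl)⟩
  choose K' p hp hp' using each
  obtain ⟨K₁, hK₁⟩ := (hT.image K').bddAbove
  obtain ⟨K₂, hK₂⟩ := close_sq hL h hδ hK lam
  refine ⟨max K₁ K₂ * 2 * 9, fun γ hγ => ?_⟩
  obtain ⟨j, hj, hj'⟩ := hT' ⟨γ, hγ⟩
  obtain ⟨b, b1, b2, b3⟩ := hL.exists_lp (γ 0) (j.1 0) (ε := δ / 4) (by linarith)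
  obtain ⟨t, t1, t2, t3⟩ := hL.exists_lp (γ 1) (j.1 1) (ε := δ / 4) (by linarith)
  have b1' : Lp (δ / 2) b := b1.mono (by linarith only [hγ, hj', hj' 0 ⟨le_rfl, zero_le_one⟩])
  have t1' : Lp (δ / 2) t := t1.mono (by linarith only [hγ, hj', hj' 1 ⟨zero_le_one, le_rfl⟩])
  have A := ((hK₂ γ j.1 b t hγ j.2 hj' b1' t1' b2 b3 t2 t3).mono (le_max_right K₁ K₂)).trans
    ((hp' j).mono ((hK₁ (mem_image_of_mem _ hj)).trans (le_max_left K₁ K₂)))
  exact A.toHom ((hp j).mono (le_max_left _ _))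
    ((b1'.cat (Lp.const (by linarith) _) b3).mono (by linarith only [le_max_right L δ]))
    ((t1'.cat (Lp.const (by linarith) _) t3).mono (by linarith only [le_max_right L δ]))

/-- two paths in a small ball are homotopic -/
theorem ULC.homotopic {δ K : ℝ} (h : ULC S δ K) (hK : 0 ≤ K) (p : S) (α β : Path x y)
    (hα : ∀ t, α.extend t ∈ ball p δ) (hβ : ∀ t, β.extend t ∈ ball p δ) : α.Homotopic β := by
  obtain ⟨q, H, hH, hH'⟩ := h p
  have hc : ContinuousOn (fun z : ℝ × S => H z.1 z.2) (Icc 0 1 ×ˢ ball p δ) := by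
    refine (LipschitzOnWith.of_dist_le_mul (K := (K * 2).toNNReal) fun a ha b hb => ?_).continuousOn
    refine (hH _ ha.1 _ hb.1 _ ha.2 _ hb.2).trans ?_
    rw [Real.coe_toNNReal _ (by positivity), Prod.dist_eq, ← Real.dist_eq, mul_assoc]
    exact mul_le_mul_of_nonneg_left (by
      linarith only [le_max_left (dist a.1 b.1) (dist a.2 b.2), le_max_right (dist a.1 b.1) (dist a.2 b.2)])
      hK
  let G : Path x y → ℝ → ℝ → S := fun γ s τ =>
    H (cl (s * min (3 * τ) (3 - 3 * τ))) (γ.extend ((1 - s) * τ + s * (3 * τ - 1)))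
  have cG : ∀ γ : Path x y, (∀ t, γ.extend t ∈ ball p δ) →
      Continuous fun z : ℝ × ℝ => G γ z.1 z.2 := fun γ hγ =>
    hc.comp_continuous (f := fun z : ℝ × ℝ => (cl (z.1 * min (3 * z.2) (3 - 3 * z.2)),
      γ.extend ((1 - z.1) * z.2 + z.1 * (3 * z.2 - 1))))
      ((continuous_cl.comp (by fun_prop)).prodMk (by fun_prop)) fun z => ⟨cl_mem _, hγ _⟩
  have bG : ∀ γ : Path x y, (∀ t, γ.extend t ∈ ball p δ) →
      ∀ s ∈ Icc (0 : ℝ) 1, G γ s 0 = x ∧ G γ s 1 = y := by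
    clear * - S x y p δ G H q hH'
    intro γ hγ s hs
    have e1 : γ.extend (-s) = x := γ.extend_of_le_zero (by linarith [hs.1])
    have e2 : γ.extend (1 - s + s * 2) = y := γ.extend_of_one_le (by linarith [hs.1])
    constructor
    · norm_num [G, e1, (hH' _ (e1 ▸ hγ _)).1]
    · norm_num [G, e2, (hH' _ (e2 ▸ hγ _)).1]
  have e : ∀ τ, G α 1 τ = G β 1 τ := by
    clear * - S G α β H x y q hH' hα hβ
    intro τ
    simp only [G, sub_self, zero_mul, one_mul, zero_add]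
    by_cases h1 : τ ≤ 1 / 3
    · rw [α.extend_of_le_zero (by linarith only [h1]), β.extend_of_le_zero (by linarith)]
    by_cases h2 : 2 / 3 ≤ τ
    · rw [α.extend_of_one_le (by linarith only [h2]), β.extend_of_one_le (by linarith only [h2])]
    rw [cl_of_one_le (le_min (by linarith only [h1]) (by linarith only [h2])), (hH' _ (hα _)).2, (hH' _ (hβ _)).2]
  obtain ⟨P, hP⟩ := exists_path' (f := G α 1) ((cG α hα).comp (Continuous.prodMk_right 1))
    (bG α hα 1 ⟨zero_le_one, le_rfl⟩).1 (bG α hα 1 ⟨zero_le_one, le_rfl⟩).2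
  have A : α.Homotopic P := homotopic_of_fun (G α) (cG α hα) (fun τ hτ =>
    ⟨by clear * - S G α τ x y H q hH' hα bG hP hτ; simp [G, (hH' _ (hα _)).1], by rw [hP, cl_of_mem hτ.1 hτ.2]⟩) (bG α hα)
  have B : β.Homotopic P := homotopic_of_fun (G β) (cG β hβ) (fun τ hτ =>
    ⟨by clear * - S G β τ x y H q hH' hβ bG e hP hτ; simp [G, (hH' _ (hβ _)).1], by rw [hP, cl_of_mem hτ.1 hτ.2, e]⟩) (bG β hβ)
  exact A.trans B.symm

theorem exists_lp_homotopic (hL : IsLengthSpace S) {δ K : ℝ} (h : ULC S δ K) (hδ : 0 < δ)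
    (hK : 0 ≤ K) (γ : Path x y) : ∃ (p : Path x y) (l : ℝ), Lp l p.extend ∧ γ.Homotopic p := by
  have small : ∀ (x y : S) (γ : Path x y), (∀ t, dist (γ.extend t) x ≤ δ / 4) →
      ∃ (p : Path x y), Lp (δ / 2) p.extend ∧ γ.Homotopic p := by
    intro x y γ hγ
    obtain ⟨σ, h1, h2, h3⟩ := hL.exists_lp x y (ε := δ / 4) (by linarith only [hδ])
    obtain ⟨p, h4, -⟩ := exists_path h1 h2 h3
    have h5 := hγ 1
    rw [γ.extend_one, dist_comm] at h5
    have h6 : Lp (δ / 2) p.extend := h4.mono (by linarith only [h5])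
    refine ⟨p, h6, h.homotopic hK x γ p (fun t => ?_) fun t => ?_⟩
    · exact mem_ball.2 (by linarith only [hδ, hγ, hγ t])
    · have := h6.le (s := cl t) (t := 0) (x := 1) (by simpa using abs_cl_le t)
      rw [extend_cl, p.extend_zero] at this
      exact mem_ball.2 (by linarith only [hδ, this])
  have ind : ∀ (n : ℕ) (x y : S) (γ : Path x y), (∀ s ∈ Icc (0 : ℝ) 1, ∀ t ∈ Icc (0 : ℝ) 1,
      |s - t| ≤ ((n : ℝ) + 1)⁻¹ → dist (γ.extend s) (γ.extend t) ≤ δ / 4) →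
      ∃ (p : Path x y) (l : ℝ), Lp l p.extend ∧ γ.Homotopic p := by
    clear * - S δ small x y γ
    intro n
    induction n with
    | zero =>
      intro x y γ hγ
      obtain ⟨p, hp⟩ := small x y γ fun t => by
        simpa [extend_cl] using hγ _ (cl_mem t) 0 ⟨le_rfl, zero_le_one⟩ (by simpa using abs_cl_le t)
      exact ⟨p, _, hp⟩
    | succ n ih =>
      intro x y γ hγ
      rw [Nat.cast_succ] at hγ
      set u := ((n : ℝ) + 1 + 1)⁻¹ with hu
      have hu0 : 0 < u := by positivity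
      have hu1 : u ≤ 1 := inv_le_one_of_one_le₀ (by linarith [Nat.cast_nonneg (α := ℝ) n])
      obtain ⟨γ₁, γ₂, h1, h2, h3⟩ := exists_split γ u
      obtain ⟨p₁, a1, a2⟩ := small _ _ γ₁ fun t => by
        have hm := cl_mem t
        have := hγ (u * cl t) ⟨mul_nonneg hu0.le hm.1, by linarith only [hu1, hu0, hm, hm.1, hm.2, mul_nonneg_of_nonpos_of_nonpos (le_of_lt (Mathlib.Tactic.Linarith.sub_neg_of_lt hu0)) (Mathlib.Tactic.Linarith.sub_nonpos_of_le hm.right)]⟩ 0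
          ⟨le_rfl, zero_le_one⟩ (by
            rw [sub_zero, abs_of_nonneg (mul_nonneg hu0.le hm.1)]; nlinarith [hm.2])
        simpa [h2] using this
      obtain ⟨p₂, l, b1, b2⟩ := ih _ _ γ₂ fun s hs t ht hst => by
        rw [h3, h3, cl_of_mem hs.1 hs.2, cl_of_mem ht.1 ht.2]
        refine hγ _ ⟨by linarith only [hu0, hu1, hs, hs.1, mul_nonneg_of_nonpos_of_nonpos (Mathlib.Tactic.Linarith.sub_nonpos_of_le hu1) (Mathlib.Tactic.Linarith.sub_nonpos_of_le hs.left)], by linarith only [hu1, hs, hs.2, mul_nonneg_of_nonpos_of_nonpos (Mathlib.Tactic.Linarith.sub_nonpos_of_le hu1) (Mathlib.Tactic.Linarith.sub_nonpos_of_le hs.right)]⟩ _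
          ⟨by linarith only [hu0, hu1, ht, ht.1, mul_nonneg_of_nonpos_of_nonpos (Mathlib.Tactic.Linarith.sub_nonpos_of_le hu1) (Mathlib.Tactic.Linarith.sub_nonpos_of_le ht.left)], by linarith only [hu1, ht, ht.2, mul_nonneg_of_nonpos_of_nonpos (Mathlib.Tactic.Linarith.sub_nonpos_of_le hu1) (Mathlib.Tactic.Linarith.sub_nonpos_of_le ht.right)]⟩ ?_
        rw [add_sub_add_left_eq_sub]
        refine (d_cmul _ (by linarith only [hu1]) hst).trans (le_of_eq ?_)
        rw [hu]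
        field_simp
        ring
      exact ⟨p₁.trans p₂, _, (a1.mono (le_max_left _ l)).trans (b1.mono (le_max_right _ l)),
        h1.trans (a2.hcomp b2)⟩
  obtain ⟨η, hη, hU⟩ := Metric.uniformContinuousOn_iff_le.1
    (isCompact_Icc.uniformContinuousOn_of_continuous
      (γ.continuous_extend.continuousOn (s := Icc 0 1))) (δ / 4) (by linarith)
  obtain ⟨N, hN⟩ := exists_nat_gt η⁻¹
  refine ind N x y γ fun s hs t ht hst => hU s hs t ht (hst.trans ?_)
  exact ((inv_lt_comm₀ hη (by positivity)).1 (hN.trans (lt_add_one _))).le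

/-- If paths of length `ℓ` can be shortened, the fundamental group is finite. -/
theorem finite_of_shorten [CompactSpace S] (hL : IsLengthSpace S) (hC : LocLipContractible S)
    (s₀ : S) {ℓ η : ℝ} (hη : 0 < η) (hℓ : η ≤ ℓ)
    (H : ∀ (x y : S) (γ : Path x y), Lp ℓ γ.extend → ∃ γ' : Path x y,
      eVariationOn γ'.extend (Icc 0 1) ≤ ENNReal.ofReal (ℓ - η) ∧ γ.Homotopic γ') :
    Finite (FundamentalGroup S s₀) := by
  obtain ⟨δ, hδ, K, hK, h⟩ := exists_ulc hC
  have ind : ∀ (n : ℕ) (γ : Path s₀ s₀), Lp (ℓ + n * (η / 2)) γ.extend →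
      ∃ p : Path s₀ s₀, Lp ℓ p.extend ∧ γ.Homotopic p := by
    clear * - S s₀ ℓ η hη hℓ H
    intro n
    induction n with
    | zero => exact fun γ hγ => ⟨γ, by simpa using hγ, .refl γ⟩
    | succ n ih =>
      intro γ hγ
      rw [Nat.cast_succ] at hγ
      have hn : 0 ≤ n * (η / 2) := by positivity
      set M := ℓ + (n + 1) * (η / 2) with hM
      have hM0 : 0 < M := by rw [hM]; linarith only [hη, hℓ, hn]
      have hu0 : 0 ≤ ℓ / M := div_nonneg (by linarith only [hη, hℓ]) hM0.le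
      have hu1 : ℓ / M ≤ 1 := div_le_one_of_le₀ (by rw [hM]; linarith only [hη, hn]) hM0.le
      obtain ⟨γ₁, γ₂, h1, h2, h3⟩ := exists_split γ (ℓ / M)
      obtain ⟨γ₁', a1, a2⟩ := H _ _ γ₁ fun s t => by
        rw [h2, h2]
        refine (hγ.le (d_cmul _ hu0 (d_cl (le_refl |s - t|)))).trans (le_of_eq ?_)
        field_simp
      have a3 : Lp (M - ℓ) γ₂.extend := fun s t => by
        rw [h3, h3]
        refine (hγ.le (d_add (d_const le_rfl) (d_cmul _ (by linarith only [hu1])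
          (d_cl (le_refl |s - t|))))).trans (le_of_eq ?_)
        field_simp
        ring
      obtain ⟨γ', a4, a5⟩ := exists_lp_of_var (γ₁'.trans γ₂) (V := M - η) (ε := η / 2)
        (by rw [hM]; linarith only [hη, hℓ, hn]) (by linarith only [hη]) (by
          rw [extend_trans]
          refine (var_cat (by simp)).trans ((add_le_add a1 a3.var).trans ?_)
          rw [← ENNReal.ofReal_add (by linarith only [hℓ]) a3.nonneg]
          exact ENNReal.ofReal_le_ofReal (by linarith only []))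
      obtain ⟨p, a6, a7⟩ := ih γ' (a4.mono (by rw [hM]; linarith only []))
      exact ⟨p, a6, (h1.trans (a2.hcomp (.refl _))).trans (a5.trans a7)⟩
  obtain ⟨T, hT, hT'⟩ := exists_net (J := {p : Path s₀ s₀ // Lp ℓ p.extend}) (fun j => j.1.extend)
    (ε := δ / 4) (by linarith) fun j => j.2
  obtain ⟨K', hK'⟩ := close_sq hL h hδ hK ℓ
  have := hT.to_subtype
  refine Finite.of_surjective (α := T) (β := Path.Homotopic.Quotient s₀ s₀)
    (fun j => Path.Homotopic.Quotient.mk j.1.1) fun g => ?_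
  obtain ⟨γ, rfl⟩ := Path.Homotopic.Quotient.mk_surjective g
  obtain ⟨p, l, h1, h2⟩ := exists_lp_homotopic hL h hδ hK γ
  obtain ⟨n, hn⟩ := exists_nat_gt (l / (η / 2))
  rw [div_lt_iff₀ (by linarith only [hη])] at hn
  obtain ⟨p', h3, h4⟩ := ind n p (h1.mono (by linarith only [hη, hℓ, hn]))
  obtain ⟨j, hj, hj'⟩ := hT' ⟨p', h3⟩
  refine ⟨⟨j, hj⟩, Path.Homotopic.Quotient.eq.2 ((h2.trans h4).trans ?_).symm⟩
  exact (hK' _ _ _ _ h3 j.2 hj' (Lp.const (by linarith only [hδ]) _) (Lp.const (by linarith only [hδ]) _)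
    (by simp) (by simp) (by simp) (by simp)).homotopic

end Pool.Agent.Work.MP_e25190_gt
end

-- merged part: Pool.Agent.Work.MP_e25190_gt.StepA
section
/-! Contracting a long path with short tracks. -/

open Set Metric

namespace Pool.Agent.Work.MP_e25190_gt

variable {S : Type*} [MetricSpace S]

theorem Short.stepA {L : ℝ} (h : Short S L) : ∃ K, 0 ≤ K ∧ ∀ (n : ℕ) (c : ℝ → S) (q : S),
    Lp 1 c → (∀ τ ≤ 0, c τ = c 0) → (∀ τ, (n : ℝ) ≤ τ → c τ = q) →
    ∃ W : ℝ → ℝ → S, (∀ s, Lp K (W s)) ∧ (∀ τ, Lp K (fun s => W s τ)) ∧ (∀ τ, W 0 τ = c τ) ∧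
      (∀ s ∈ Icc (0 : ℝ) 1, ∀ τ ≤ 0, W s τ = c 0) ∧
      (∀ s ∈ Icc (0 : ℝ) 1, ∀ τ, (n : ℝ) + 1 ≤ τ → W s τ = q) ∧ ∀ τ ≤ (n : ℝ), W 1 τ = c 0 := by
  set L' := max L 1 with hL'
  have hL1 : 1 ≤ L' := le_max_right _ _
  obtain ⟨K, hK⟩ := h (L' * 2)
  refine ⟨max (K * 4) (L' * 2), le_max_of_le_right (by linarith only [hL1]), fun n c q hc h0 hn => ?_⟩
  have m0 : (0 : ℝ) ∈ Icc (0 : ℝ) 1 := ⟨le_rfl, zero_le_one⟩
  have m1 : (1 : ℝ) ∈ Icc (0 : ℝ) 1 := ⟨zero_le_one, le_rfl⟩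
  have c1 : cl (-1) = 0 := cl_of_nonpos (by norm_num)
  have c2 : cl 2 = 1 := cl_of_one_le (by norm_num)
  have ind : ∀ k : ℕ, ∃ p : ℝ → S, Lp L' p ∧ p 0 = c k ∧ p 1 = c 0 ∧
      Sq (max (K * 4) (L' * 2)) k c (fun _ => c 0) (fun _ => c 0) (fun s => p (cl (2 * s - 1))) := by
    clear * - S L' c K hL1 hc L hK m0 m1 c1 c2 h
    intro k
    induction k with
    | zero =>
      refine ⟨fun _ => c 0, Lp.const (by linarith) _, by simp, rfl, ?_⟩
      rw [Nat.cast_zero]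
      exact Sq.zero (Lp.const (le_max_of_le_right (by linarith)) _) rfl rfl
    | succ k ih =>
      obtain ⟨p, p1, p2, p3, p4⟩ := ih
      have e : (fun t => c (k + 1 - t)) 1 = p 0 := by simp [p2]
      have hδ : Lp (L' * 2) (cat (fun t => c (k + 1 - t)) p) :=
        Lp.cat (fun s t => (hc.mono hL1).le (by rw [abs_sub_comm]; apply le_of_eq; congr 1; ring))
          p1 e
      obtain ⟨p', q1, q2⟩ := hK _ hδ
      have hK0 := q2.nonneg
      obtain ⟨G, g1, g2, g3, g4⟩ := q2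
      simp only [cat_zero, cat_one, sub_zero, p3] at g4
      have q3 : p' 0 = c (k + 1) := by rw [← (g3 0 m0).2, (g4 1 m1).1]
      have q4 : p' 1 = c 0 := by rw [← (g3 1 m1).2, (g4 1 m1).2]
      rw [Nat.cast_succ]
      refine ⟨p', q1.mono (le_max_left _ _), q3, q4, p4.stack (by positivity) zero_le_one
        (Sq.mono ?_ (le_max_left _ _))⟩
      refine ⟨fun s τ => G (cl τ * cl (2 * s))
        ((1 - cl τ) / 2 + cl (2 * s - 1) * ((1 + cl τ) / 2)), fun s τ τ' => ?_, fun τ s s' => ?_,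
        fun τ hτ => ⟨?_, ?_⟩, fun s hs => ⟨?_, ?_⟩⟩
      · have a0 := abs_nonneg (τ - τ')
        have a1 := d_cl (le_refl |τ - τ'|)
        refine (lp_comp2 g1 g2 (d_mul (abs_cl_le _) (abs_cl_le _) a1 (d_const le_rfl))
          (y := |τ - τ'|) ?_).trans (by linarith only [hK0, a0, mul_nonneg_of_nonpos_of_nonpos (Mathlib.Tactic.Linarith.sub_nonpos_of_le hK0) (Mathlib.Tactic.Linarith.sub_nonpos_of_le a0)])
        have : (1 - cl τ) / 2 + cl (2 * s - 1) * ((1 + cl τ) / 2) -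
            ((1 - cl τ') / 2 + cl (2 * s - 1) * ((1 + cl τ') / 2)) =
            (cl (2 * s - 1) - 1) / 2 * (cl τ - cl τ') := by ring
        rw [this, abs_mul]
        refine (mul_le_of_le_one_left (abs_nonneg _) ?_).trans a1
        have := cl_mem (2 * s - 1)
        rw [abs_le]; constructor <;> linarith only [this, this.1, this.2]
      · have a0 := abs_nonneg (s - s')
        have a1 := d_cmul 2 zero_le_two (le_refl |s - s'|)
        have a2 : |(1 + cl τ) / 2| ≤ 1 := by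
          have := cl_mem τ
          rw [abs_le]; constructor <;> linarith only [this, this.1, this.2]
        refine (lp_comp2 g1 g2 (d_mul (abs_cl_le _) (abs_cl_le _) (d_const le_rfl) (d_cl a1))
          (d_add (d_const le_rfl) (d_mul (abs_cl_le _) a2 (d_cl (d_sub a1 (d_const le_rfl)))
            (d_const le_rfl)))).trans (by linarith only [])
      · simp only [mul_zero, cl_zero, zero_sub, c1, zero_mul, add_zero, cl_of_mem hτ.1 hτ.2]
        rw [(g3 _ ⟨by linarith only [hτ, hτ.2], by linarith only [hτ, hτ.1]⟩).1, cat_left _ _ (by linarith only [hτ, hτ.1])]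
        congr 1; ring
      · have : (1 - cl τ) / 2 + cl (2 * 1 - 1) * ((1 + cl τ) / 2) = 1 := by norm_num; ring
        beta_reduce
        rw [this, mul_one, c2, mul_one]
        exact (g4 _ (cl_mem τ)).2
      · have hm := cl_mem (2 * s - 1)
        simp only [cl_zero, zero_mul, sub_zero, add_zero]
        rw [(g3 _ ⟨by linarith only [hm, hm.1], by linarith only [hm, hm.2]⟩).1, cat_right e (by linarith only [hm, hm.1])]
        congr 1; ring
      · simp only [cl_one, one_mul, sub_self, zero_div, zero_add, add_self_div_two, mul_one]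
        rcases le_total s (1 / 2) with h | h
        · rw [cl_of_nonpos (x := 2 * s - 1) (by linarith only [h]), (g4 _ (cl_mem _)).1, q3]
        · rw [cl_of_one_le (x := 2 * s) (by linarith only [h]), (g3 _ (cl_mem _)).2]
  obtain ⟨p, p1, p2, p3, p4⟩ := ind n
  rw [hn n le_rfl] at p2
  have hp : Lp (L' * 2) (fun s => p (cl (2 * s - 1))) := p1.comp fun s t =>
    d_cl (by simpa using d_cmul 2 zero_le_two (le_refl |s - t|))
  have A : Sq (max (K * 4) (L' * 2)) n c (fun τ => if τ ≤ n then c 0 else p (cl (2 * (1 - (τ - n)) - 1)))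
      (fun _ => c 0) (fun s => p (cl (2 * s - 1))) :=
    p4.congr (fun _ _ => rfl) (fun τ hτ => by simp [hτ.2]) (fun _ _ => rfl) (fun _ _ => rfl)
  obtain ⟨G, g1, g2, g3, g4⟩ := A.stack (t' := fun _ => q) (by positivity) zero_le_one
    (Sq.mono ⟨fun s τ => p (cl (2 * (cl s * (1 - cl τ)) - 1)), fun s τ τ' => hp.le (by
        have a1 : |1 - cl τ'| ≤ 1 := by rw [← cl_one_sub]; exact abs_cl_le _
        simpa using d_mul (abs_cl_le s) a1 (d_const le_rfl)
          (d_sub (d_const (a := 1) le_rfl) (d_cl (le_refl |τ - τ'|)))),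
      fun τ s s' => hp.le (by
        have a1 : |1 - cl τ| ≤ 1 := by rw [← cl_one_sub]; exact abs_cl_le _
        simpa using d_mul (abs_cl_le s) a1 (d_cl (le_refl |s - s'|)) (d_const le_rfl)),
      fun τ hτ => ⟨by simp [c1, p2, hn (n + τ) (by linarith [hτ.1])], by
        simp only [cl_one, one_mul, cl_of_mem hτ.1 hτ.2, add_sub_cancel_left]
        split_ifs with h
        · have : τ = 0 := by linarith only [hτ, h, hτ.1]
          norm_num [this, p3]
        · rfl⟩,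
      fun s hs => by simp [cl_of_mem hs.1 hs.2, c1, p2]⟩ (le_max_right _ _))
  have hn0 : (0 : ℝ) ≤ n + 1 := by positivity
  have hm : ∀ τ : ℝ, max 0 (min τ (n + 1)) ∈ Icc (0 : ℝ) (n + 1) := fun τ =>
    ⟨le_max_left _ _, max_le hn0 (min_le_right _ _)⟩
  refine ⟨fun s τ => G s (max 0 (min τ (n + 1))), fun s τ τ' => (g1 s).le
    (d_max (d_const (abs_nonneg _)) (d_min le_rfl (d_const (abs_nonneg _)))), fun τ => g2 _,
    fun τ => ?_, fun s hs τ hτ => ?_, fun s hs τ hτ => ?_, fun τ hτ => ?_⟩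
  · beta_reduce
    rw [(g3 _ (hm τ)).1]
    rcases le_total τ 0 with h | h
    · rw [max_eq_left ((min_le_left _ _).trans h), h0 τ h]
    rcases le_total τ (n + 1) with h' | h'
    · rw [min_eq_left h', max_eq_right h]
    · rw [min_eq_right h', max_eq_right hn0, hn _ (by linarith), hn _ (by linarith)]
  · beta_reduce
    rw [max_eq_left ((min_le_left _ _).trans hτ), (g4 s hs).1]
  · beta_reduce
    rw [min_eq_right hτ, max_eq_right hn0, (g4 s hs).2]
  · beta_reduce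
    rw [(g3 _ (hm τ)).2]
    exact if_pos (max_le (by positivity) ((min_le_left _ _).trans hτ))

end Pool.Agent.Work.MP_e25190_gt
end

-- merged part: Pool.Agent.Work.MP_e25190_gt.Base
section
/-! Shortening a family of null-homotopy tracks parametrised by `ℝ^m`. -/

open Set Metric

namespace Pool.Agent.Work.MP_e25190_gt

/-- clamp to `[0, B+1]` -/
noncomputable def ch (B τ : ℝ) : ℝ := max 0 (min τ (B + 1))

/-- moving staircase, one period -/
noncomputable def Gf (β τ y : ℝ) : ℝ :=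
  (cl (3 * (2 * β * y - τ) - 1) - cl (3 * (-(2 * β * y) - τ) - 1)) / 2

/-- moving staircase -/
noncomputable def p0 (B x τ : ℝ) : ℝ := round x + Gf (B + 2) (ch B τ) (x - round x)

/-- time of the jump -/
noncomputable def tt (B x : ℝ) : ℝ := 2 * (B + 2) * |x - round x| - 1

/-- phase of the jump -/
noncomputable def ph (B x τ : ℝ) : ℝ := cl (ch B τ - tt B x)

theorem ch_nonneg (B τ : ℝ) : 0 ≤ ch B τ := le_max_left _ _
theorem ch_le {B : ℝ} (hB : 0 ≤ B) (τ : ℝ) : ch B τ ≤ B + 1 :=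
  max_le (by linarith) (min_le_right _ _)
theorem d_ch (B : ℝ) {τ τ' x : ℝ} (h : |τ - τ'| ≤ x) : |ch B τ - ch B τ'| ≤ x :=
  have h0 : 0 ≤ x := (abs_nonneg _).trans h
  d_max (d_const h0) (d_min h (d_const h0))
theorem ch_of_mem {B τ : ℝ} (h0 : 0 ≤ τ) (h1 : τ ≤ B + 1) : ch B τ = τ := by simp [ch, h0, h1]

theorem cl_three (w : ℝ) : cl (2 - 3 * cl (1 - w)) = cl (3 * w - 1) := by
  rcases le_total w 0 with h | h
  · rw [cl_of_one_le (x := 1 - w) (by linarith), cl_of_nonpos (by norm_num),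
      cl_of_nonpos (by linarith)]
  rcases le_total w 1 with h' | h'
  · rw [cl_of_mem (x := 1 - w) (by linarith) (by linarith)]; congr 1; ring
  · rw [cl_of_nonpos (x := 1 - w) (by linarith), cl_of_one_le (by norm_num),
      cl_of_one_le (by linarith)]

theorem Gf_eq {β τ : ℝ} (hβ : 0 ≤ β) (hτ : 0 ≤ τ) (y : ℝ) : Gf β τ y =
    (if 0 ≤ y then 1 else -1) * cl (2 - 3 * cl (τ - (2 * β * |y| - 1))) / 2 := by
  have e : τ - (2 * β * |y| - 1) = 1 - (2 * β * |y| - τ) := by ring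
  rw [e, cl_three, Gf]
  split_ifs with h
  · have : 0 ≤ β * y := mul_nonneg hβ h
    rw [abs_of_nonneg h, cl_of_nonpos (x := 3 * (-(2 * β * y) - τ) - 1) (by linarith only [hτ, this])]
    ring
  · push Not at h
    have : β * y ≤ 0 := mul_nonpos_of_nonneg_of_nonpos hβ h.le
    rw [abs_of_neg h, cl_of_nonpos (x := 3 * (2 * β * y - τ) - 1) (by linarith), mul_neg]
    ring

theorem p0_eq {B : ℝ} (hB : 0 ≤ B) (x τ : ℝ) : p0 B x τ =
    round x + (if 0 ≤ x - round x then 1 else -1) * cl (2 - 3 * ph B x τ) / 2 := by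
  rw [p0, Gf_eq (by linarith only [hB]) (ch_nonneg _ _)]; rfl

theorem d_Gf {β : ℝ} (hβ : 0 ≤ β) {τ τ' y y' a b : ℝ} (h1 : |y - y'| ≤ a) (h2 : |τ - τ'| ≤ b) :
    |Gf β τ y - Gf β τ' y'| ≤ 6 * β * a + 3 * b := by
  have a1 := d_cmul (2 * β) (by linarith only [hβ]) h1
  have a2 : |-(2 * β * y) - -(2 * β * y')| ≤ 2 * β * a := by
    rw [← abs_neg]; convert a1 using 2; ring
  have a3 := d_sub (d_cl (d_sub (d_cmul 3 (by norm_num) (d_sub a1 h2)) (d_const (a := 1) le_rfl)))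
    (d_cl (d_sub (d_cmul 3 (by norm_num) (d_sub a2 h2)) (d_const (a := 1) le_rfl)))
  rw [Gf, Gf, ← sub_div, abs_div, abs_two]
  linarith only [a3]

theorem d_p0 {B : ℝ} (hB : 0 ≤ B) {x x' τ τ' a b : ℝ} (h1 : |x - x'| ≤ a) (h2 : |τ - τ'| ≤ b) :
    |p0 B x τ - p0 B x' τ'| ≤ 6 * (B + 2) * a + 3 * b := by
  have hβ : 0 ≤ B + 2 := by linarith only [hB]
  have key : ∀ x x' : ℝ, round x < round x' → ∀ τ,
      |p0 B x τ - p0 B x' τ| ≤ 6 * (B + 2) * |x - x'| := by
    clear * - B hB hβ a x x' τ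
    intro x x' hlt τ
    have c0 := ch_nonneg B τ
    have c1 := ch_le hB τ
    have g1 : Gf (B + 2) (ch B τ) (1 / 2) = 1 / 2 := by
      rw [Gf, cl_of_one_le (by linarith only [c1]), cl_of_nonpos (by linarith only [hB, c0])]; norm_num
    have g2 : Gf (B + 2) (ch B τ) (-(1 / 2)) = -(1 / 2) := by
      rw [Gf, cl_of_nonpos (by linarith only [hB, c0]), cl_of_one_le (by linarith only [c1])]; norm_num
    have b1 := abs_le.1 (abs_sub_round x)
    have b2 := abs_le.1 (abs_sub_round x')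
    have b3 : (round x : ℝ) + 1 ≤ round x' := by exact_mod_cast hlt
    have a1 := abs_le.1 (d_Gf hβ (y := x - round x) (y' := 1 / 2) (a := 1 / 2 - (x - round x))
      (by rw [abs_of_nonpos (by linarith only [b1.2]), neg_sub]) (d_const (a := ch B τ) le_rfl))
    have a2 := abs_le.1 (d_Gf hβ (y := x' - round x') (y' := -(1 / 2)) (a := x' - round x' + 1 / 2)
      (by rw [abs_of_nonneg (by linarith only [b2.1]), sub_neg_eq_add])
      (d_const (a := ch B τ) le_rfl))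
    rw [g1] at a1
    rw [g2] at a2
    have b4 : (round x' - round x - 1 : ℝ) ≤ 6 * (B + 2) * (round x' - round x - 1) :=
      le_mul_of_one_le_left (by linarith only [b3]) (by linarith only [hB])
    rw [abs_of_nonpos (a := x - x') (by linarith only [b1.2, b2.1, b3]), p0, p0, abs_le]
    constructor <;> linarith only [a1.1, a1.2, a2.1, a2.2, b3, b4]
  have k2 : |p0 B x τ - p0 B x' τ| ≤ 6 * (B + 2) * |x - x'| := by
    rcases lt_trichotomy (round x) (round x') with h | h | h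
    · exact key x x' h τ
    · rw [p0, p0, h, add_sub_add_left_eq_sub]
      simpa using d_Gf hβ (y := x - round x') (y' := x' - round x') (a := |x - x'|) (by simp)
        (d_const (a := ch B τ) le_rfl)
    · rw [abs_sub_comm, abs_sub_comm x]; exact key x' x h τ
  have k3 : |p0 B x' τ - p0 B x' τ'| ≤ 3 * b := by
    rw [p0, p0, add_sub_add_left_eq_sub]
    simpa using d_Gf hβ (d_const (a := x' - round x') le_rfl) (d_ch B h2)
  have := abs_sub_le (p0 B x τ) (p0 B x' τ) (p0 B x' τ')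
  linarith only [this, k2, k3, mul_le_mul_of_nonneg_left h1 hβ]

theorem p0_near {B : ℝ} (x τ : ℝ) : |p0 B x τ - x| ≤ 1 := by
  have b1 := abs_le.1 (abs_sub_round x)
  have b2 := cl_mem (3 * (2 * (B + 2) * (x - round x) - ch B τ) - 1)
  have b3 := cl_mem (3 * (-(2 * (B + 2) * (x - round x)) - ch B τ) - 1)
  rw [p0, Gf, abs_le]
  constructor <;> linarith only [b1, b2, b3, b1.1, b1.2, b2.1, b2.2, b3.1, b3.2]

theorem p0_lat {B : ℝ} (hB : 0 ≤ B) {x τ : ℝ} (h : min (ph B x τ) (1 - ph B x τ) < 1 / 3) :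
    ∃ k : ℤ, p0 B x τ = k / 2 := by
  rw [p0_eq hB]
  rcases min_lt_iff.1 h with h | h
  · rw [cl_of_one_le (by linarith only [h])]
    split_ifs
    · exact ⟨2 * round x + 1, by push_cast; ring⟩
    · exact ⟨2 * round x - 1, by push_cast; ring⟩
  · rw [cl_of_nonpos (by linarith only [h])]
    exact ⟨2 * round x, by push_cast; ring⟩

theorem d_tt {B : ℝ} (hB : 0 ≤ B) {x x' a : ℝ} (h : |x - x'| ≤ a) :
    |tt B x - tt B x'| ≤ 2 * (B + 2) * a := by
  have k : ∀ x x' : ℝ, |x - round x| ≤ |x' - round x'| + |x - x'| := fun x x' =>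
    (round_le x (round x')).trans (by
      have := abs_sub_le x x' (round x' : ℝ); linarith only [this])
  have : |(|x - round x|) - (|x' - round x'|)| ≤ a := by
    have h1 := k x x'
    have h2 := k x' x
    rw [abs_sub_comm x' x] at h2
    rw [abs_le]; constructor <;> linarith only [h, h2, h1]
  simpa [tt] using d_cmul (2 * (B + 2)) (by linarith only [hB]) this

theorem le_tt {B : ℝ} (hB : 0 ≤ B) (x : ℝ) : -1 ≤ tt B x := by
  have : 0 ≤ 2 * (B + 2) * |x - round x| := by positivity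
  rw [tt]; linarith

theorem d_ph {B : ℝ} (hB : 0 ≤ B) {x x' τ τ' a b : ℝ} (h1 : |x - x'| ≤ a) (h2 : |τ - τ'| ≤ b) :
    |ph B x τ - ph B x' τ'| ≤ b + 2 * (B + 2) * a := d_cl (d_sub (d_ch B h2) (d_tt hB h1))

variable {m : ℕ}

/-- position -/
noncomputable def pos (B : ℝ) (x : Fin m → ℝ) (τ : ℝ) : Fin m → ℝ :=
  fun i => x i + cl (2 * τ + 2) * (p0 B (x i) τ - x i)

/-- weight -/
noncomputable def wt (B : ℝ) (x : Fin m → ℝ) (τ : ℝ) : ℝ :=
  min (cl (2 - 6 * ‖fun i => min (ph B (x i) τ) (1 - ph B (x i) τ)‖)) (cl (2 * τ + 1))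

/-- clock -/
noncomputable def clk (B : ℝ) (x : Fin m → ℝ) (τ : ℝ) : ℝ :=
  (B + 2)⁻¹ * τ + (∑ i, cl (τ - tt B (x i)) + cl (τ + 1) + cl (τ - B))

theorem d_coord {x x' : Fin m → ℝ} {a : ℝ} (h : dist x x' ≤ a) (i : Fin m) : |x i - x' i| ≤ a :=
  (dist_le_pi_dist x x' i).trans h

theorem d_pos {B : ℝ} (hB : 0 ≤ B) {x x' : Fin m → ℝ} {τ τ' a b : ℝ} (h1 : dist x x' ≤ a)
    (h2 : |τ - τ'| ≤ b) : dist (pos B x τ) (pos B x' τ') ≤ (6 * (B + 2) + 2) * a + 5 * b := by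
  have ha : 0 ≤ a := dist_nonneg.trans h1
  have hb : 0 ≤ b := (abs_nonneg _).trans h2
  refine (dist_pi_le_iff (by positivity)).2 fun i => ?_
  have h := d_coord h1 i
  refine (d_add h (d_mul (abs_cl_le _) (p0_near _ _) (d_cl (d_add (d_cmul 2 zero_le_two h2)
    (d_const le_rfl))) (d_sub (d_p0 hB h h2) h))).trans (le_of_eq ?_)
  ring

theorem pos_near (B : ℝ) (x : Fin m → ℝ) (τ : ℝ) (i : Fin m) : |pos B x τ i - x i| ≤ 1 := by
  rw [pos, add_sub_cancel_left, abs_mul]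
  exact mul_le_one₀ (abs_cl_le _) (abs_nonneg _) (p0_near _ _)

theorem pos_neg_one (B : ℝ) (x : Fin m → ℝ) : pos B x (-1) = x := by
  funext i; norm_num [pos]

theorem wt_mem (B : ℝ) (x : Fin m → ℝ) (τ : ℝ) : wt B x τ ∈ Icc (0 : ℝ) 1 :=
  ⟨le_min (cl_nonneg _) (cl_nonneg _), (min_le_left _ _).trans (cl_le_one _)⟩

theorem d_wt {B : ℝ} (hB : 0 ≤ B) {x x' : Fin m → ℝ} {τ τ' a b : ℝ} (h1 : dist x x' ≤ a)
    (h2 : |τ - τ'| ≤ b) : |wt B x τ - wt B x' τ'| ≤ 12 * (B + 2) * a + 6 * b := by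
  have ha : 0 ≤ a := dist_nonneg.trans h1
  have hb : 0 ≤ b := (abs_nonneg _).trans h2
  have hc : 0 ≤ (B + 2) * a := by positivity
  refine d_min (d_cl ?_) (d_cl ?_)
  · refine (d_sub (d_const le_rfl) (d_cmul 6 (by norm_num) (x := b + 2 * (B + 2) * a)
      ((abs_norm_sub_norm_le _ _).trans ?_))).trans (le_of_eq (by ring))
    refine (pi_norm_le_iff_of_nonneg (by positivity)).2 fun i => ?_
    have h := d_ph hB (d_coord h1 i) h2
    exact d_min h (by simpa using d_sub (d_const (a := 1) le_rfl) h)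
  · have := d_add (d_cmul 2 zero_le_two h2) (d_const (a := 1) le_rfl)
    linarith only [hb, hc, this]

theorem pos_lat {B : ℝ} (hB : 0 ≤ B) {x : Fin m → ℝ} {τ : ℝ} (h : 0 < wt B x τ) (i : Fin m) :
    ∃ k : ℤ, pos B x τ i = k / 2 := by
  obtain ⟨h1, h2⟩ := lt_min_iff.1 h
  have h3 : 0 < 2 * τ + 1 := by
    by_contra hc; rw [cl_of_nonpos (not_lt.1 hc)] at h2; exact lt_irrefl _ h2
  have h4 : 0 < 2 - 6 * ‖fun i => min (ph B (x i) τ) (1 - ph B (x i) τ)‖ := by
    by_contra hc; rw [cl_of_nonpos (not_lt.1 hc)] at h1; exact lt_irrefl _ h1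
  have h5 := (le_abs_self _).trans (norm_le_pi_norm (fun i => min (ph B (x i) τ) (1 - ph B (x i) τ)) i)
  rw [pos, cl_of_one_le (by linarith), one_mul, add_sub_cancel]
  exact p0_lat hB (by linarith only [h4, h5])

theorem clk_mono {B : ℝ} (x : Fin m → ℝ) {τ τ' : ℝ} (h : τ ≤ τ') :
    (B + 2)⁻¹ * (τ' - τ) ≤ clk B x τ' - clk B x τ := by
  have a1 : ∑ i, cl (τ - tt B (x i)) ≤ ∑ i, cl (τ' - tt B (x i)) :=
    Finset.sum_le_sum fun i _ => cl_mono (by linarith)
  have a2 : cl (τ + 1) ≤ cl (τ' + 1) := cl_mono (by linarith)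
  have a3 : cl (τ - B) ≤ cl (τ' - B) := cl_mono (by linarith)
  rw [clk, clk]; linarith only [a1, a2, a3]

theorem clk_inv {B : ℝ} (hB : 0 ≤ B) (x : Fin m → ℝ) (τ τ' : ℝ) :
    |τ - τ'| ≤ (B + 2) * |clk B x τ - clk B x τ'| := by
  have hβ : 0 < B + 2 := by linarith only [hB]
  have key : ∀ τ τ', τ ≤ τ' → |τ - τ'| ≤ (B + 2) * |clk B x τ - clk B x τ'| := by
    intro τ τ' h
    have h1 := (clk_mono (B := B) x h).trans (le_abs_self _)
    rw [inv_mul_le_iff₀ hβ, abs_sub_comm] at h1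
    rwa [abs_of_nonpos (by linarith), neg_sub]
  rcases le_total τ τ' with h | h
  · exact key τ τ' h
  · rw [abs_sub_comm, abs_sub_comm (clk B x τ)]; exact key τ' τ h

theorem d_clk {B : ℝ} (hB : 0 ≤ B) {x x' : Fin m → ℝ} {a : ℝ} (h : dist x x' ≤ a) (τ : ℝ) :
    |clk B x τ - clk B x' τ| ≤ m * (2 * (B + 2) * a) := by
  have : clk B x τ - clk B x' τ = ∑ i, (cl (τ - tt B (x i)) - cl (τ - tt B (x' i))) := by
    rw [clk, clk, Finset.sum_sub_distrib]; ring
  rw [this]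
  refine (Finset.abs_sum_le_sum_abs _ _).trans ((Finset.sum_le_sum fun i _ =>
    d_cl (d_sub (d_const (a := τ) le_rfl) (d_tt hB (d_coord h i)))).trans ?_)
  simp

theorem clk_neg_one {B : ℝ} (hB : 0 ≤ B) (x : Fin m → ℝ) : clk B x (-1) = -(B + 2)⁻¹ := by
  rw [clk, Finset.sum_eq_zero fun i _ => cl_of_nonpos (by linarith [le_tt hB (x i)]),
    cl_of_nonpos (x := -1 - B) (by linarith)]
  simp

theorem clk_le {B : ℝ} (hB : 0 ≤ B) (x : Fin m → ℝ) : clk B x (B + 1) ≤ -(B + 2)⁻¹ + (m + 4) := by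
  have a1 : ∑ i, cl (B + 1 - tt B (x i)) ≤ m :=
    (Finset.sum_le_sum fun i _ => cl_le_one _).trans (by simp)
  have a2 : (B + 2)⁻¹ * (B + 1) + (B + 2)⁻¹ = 1 := by field_simp; ring
  rw [clk]
  linarith only [a1, a2, cl_le_one (B + 1 + 1), cl_le_one (B + 1 - B)]

theorem clk_surj {B : ℝ} (hB : 0 ≤ B) (x : Fin m → ℝ) {α : ℝ} (hα : 0 ≤ α) :
    ∃ τ, -1 ≤ τ ∧ clk B x τ = -(B + 2)⁻¹ + α := by
  have hc : Continuous (clk B x) := by
    have := continuous_cl
    unfold clk; fun_prop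
  have hβ : 0 < B + 2 := by linarith only [hB]
  have h1 : -1 ≤ -1 + (B + 2) * α := by linarith only [hα, hB, mul_nonneg_of_nonpos_of_nonpos (Mathlib.Tactic.Linarith.sub_nonpos_of_le hB) (Mathlib.Tactic.Linarith.sub_nonpos_of_le hα)]
  have h2 := clk_mono (B := B) x h1
  rw [add_sub_cancel_left, inv_mul_cancel_left₀ hβ.ne', clk_neg_one hB] at h2
  obtain ⟨τ, h3, h4⟩ := intermediate_value_Icc h1 hc.continuousOn
    (show -(B + 2)⁻¹ + α ∈ Icc (clk B x (-1)) (clk B x (-1 + (B + 2) * α)) from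
      ⟨by rw [clk_neg_one hB]; linarith only [hα], by linarith only [h2]⟩)
  exact ⟨τ, h3.1, h4⟩

theorem clk_window {B : ℝ} (hB : 0 ≤ B) (x : Fin m → ℝ) {τ τ' t : ℝ} (h : τ ≤ τ') (h1 : t ≤ τ)
    (h2 : τ' ≤ t + 1) (ht : t = -1 ∨ t = B ∨ ∃ i, t = tt B (x i)) :
    τ' - τ ≤ clk B x τ' - clk B x τ := by
  have a0 : 0 ≤ (B + 2)⁻¹ * (τ' - τ) := mul_nonneg (by positivity) (by linarith)
  have a1 : ∑ i, cl (τ - tt B (x i)) ≤ ∑ i, cl (τ' - tt B (x i)) :=
    Finset.sum_le_sum fun i _ => cl_mono (by linarith only [h])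
  have a2 : cl (τ + 1) ≤ cl (τ' + 1) := cl_mono (by linarith)
  have a3 : cl (τ - B) ≤ cl (τ' - B) := cl_mono (by linarith)
  have e1 : cl (τ - t) = τ - t := cl_of_mem (by linarith) (by linarith)
  have e2 : cl (τ' - t) = τ' - t := cl_of_mem (by linarith) (by linarith)
  rw [clk, clk]
  rcases ht with rfl | rfl | ⟨i, rfl⟩
  · rw [sub_neg_eq_add] at e1 e2
    linarith only [a0, a1, a3, e1, e2]
  · linarith only [a2, e1, e2, a0, a1]
  · have := Finset.single_le_sum (f := fun i => cl (τ' - tt B (x i)) - cl (τ - tt B (x i)))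
      (fun j _ => sub_nonneg.2 (cl_mono (by linarith only [h]))) (Finset.mem_univ i)
    rw [Finset.sum_sub_distrib] at this
    simp only [e1, e2] at this
    linarith only [a0, a2, a3, this]

variable {S : Type*} [MetricSpace S]

/-- deformation of a family of curves ending at `q`, relative to the end points -/
def Def {P : Type*} [PseudoMetricSpace P] (C μ : ℝ) (q : S) (Γ₀ Γ₁ : P → ℝ → S) : Prop :=
  ∃ G : ℝ → P → ℝ → S, (∀ s s' x x' σ σ', dist (G s x σ) (G s' x' σ') ≤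
      C * (|s - s'| + μ * dist x x' + |σ - σ'|)) ∧
    (∀ x, ∀ σ ∈ Icc (0 : ℝ) 1, G 0 x σ = Γ₀ x σ ∧ G 1 x σ = Γ₁ x σ) ∧
    ∀ s ∈ Icc (0 : ℝ) 1, ∀ x, G s x 0 = Γ₀ x 0 ∧ G s x 1 = q

theorem Short.base {L : ℝ} (h : Short S L) (m : ℕ) : ∃ L₀ C₀ : ℝ, 1 ≤ L₀ ∧ 1 ≤ C₀ ∧
    ∀ (n : ℕ) (Γ : (Fin m → ℝ) → ℝ → S) (q : S), (∀ x, Lp 1 (Γ x)) →
    (∀ x x' τ, dist (Γ x τ) (Γ x' τ) ≤ dist x x') → (∀ x, ∀ τ ≤ 0, Γ x τ = Γ x 0) →
    (∀ x τ, (n : ℝ) ≤ τ → Γ x τ = q) →
    ∃ Γ₁ Γ₂ : (Fin m → ℝ) → ℝ → S, Def (C₀ * (n + 2) ^ 2) 1 q (fun x σ => Γ x (n * σ)) Γ₁ ∧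
      Def (C₀ * (n + 2) ^ 2) 1 q Γ₁ Γ₂ ∧ ∀ x, Lp L₀ (Γ₂ x) := by
  obtain ⟨K, hK, hA⟩ := h.stepA
  have hm : (0 : ℝ) ≤ m := Nat.cast_nonneg m
  refine ⟨(4 * K + 2) * 6 * (m + 4), (4 * K + 2) * (18 * m + 40), by linarith only [hK, mul_nonneg_of_nonpos_of_nonpos (Mathlib.Tactic.Linarith.sub_nonpos_of_le (Mathlib.Tactic.Linarith.natCast_nonneg ℝ m)) (Mathlib.Tactic.Linarith.sub_nonpos_of_le hK)], by linarith only [hK, mul_nonneg_of_nonpos_of_nonpos (Mathlib.Tactic.Linarith.sub_nonpos_of_le (Mathlib.Tactic.Linarith.natCast_nonneg ℝ m)) (Mathlib.Tactic.Linarith.sub_nonpos_of_le hK)],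
    fun n Γ q h1 h2 h3 h4 => ?_⟩
  choose W W1 W2 W3 W4 W5 W6 using fun x => hA n (Γ x) q (h1 x) (h3 x) (h4 x)
  have hB : 0 ≤ (n : ℝ) := Nat.cast_nonneg n
  generalize (n : ℝ) = B at *
  have dΓ : ∀ {x x' τ τ' a b}, dist x x' ≤ a → |τ - τ'| ≤ b → dist (Γ x τ) (Γ x' τ') ≤ a + b := by
    intro x x' τ τ' a b ha hb
    have := dist_triangle (Γ x τ) (Γ x' τ) (Γ x' τ')
    have := h2 x x' τ
    have := (h1 x').le hb
    linarith
  let M : (Fin m → ℝ) → ℝ → ℝ → S := fun x τ s => W (pos B x τ) (s * wt B x τ) τ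
  have Mlip : ∀ x x' τ τ' s s' a b c, s ∈ Icc (0 : ℝ) 1 → s' ∈ Icc (0 : ℝ) 1 → dist x x' ≤ a →
      |τ - τ'| ≤ b → |s - s'| ≤ c →
      dist (M x τ s) (M x' τ' s') ≤ (4 * K + 2) * (12 * (B + 2) * a + 6 * b + c) := by
    clear * - m B hB S M K W W1 W2 hK Γ dΓ W3
    intro x x' τ τ' s s' a b c hs hs' ha hb hc
    have ha0 : 0 ≤ a := dist_nonneg.trans ha
    have hb0 : 0 ≤ b := (abs_nonneg _).trans hb
    have hc0 : 0 ≤ c := (abs_nonneg _).trans hc
    have hBa : 0 ≤ B * a := by positivity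
    have u1 := wt_mem B x τ
    have u2 := wt_mem B x' τ'
    have du := d_wt hB ha hb
    have dp := d_pos hB ha hb
    obtain ⟨δ, hδ⟩ : ∃ δ, δ = 12 * (B + 2) * a + 6 * b + c := ⟨_, rfl⟩
    rw [← hδ]
    have hδ0 : 0 ≤ δ := by linarith only [hδ, ha0, hb0, hc0, hBa]
    have du' : |wt B x τ - wt B x' τ'| ≤ δ := by linarith only [hδ, du, hc0]
    have dp' : dist (pos B x τ) (pos B x' τ') ≤ δ := by
      linarith only [hδ, dp, ha0, hb0, hc0, hBa]
    have db : |τ - τ'| ≤ δ := by linarith only [hδ, hb, ha0, hb0, hc0, hBa]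
    simp only [M]
    by_cases hp : pos B x τ = pos B x' τ'
    · rw [hp]
      refine (lp_comp2 (W1 _) (W2 _) (d_mul (A := 1) (B := 1)
        (abs_le.2 ⟨by linarith only [hs.1], hs.2⟩) (abs_le.2 ⟨by linarith only [u2.1], u2.2⟩) hc du)
        hb).trans ?_
      have : K * (1 * (12 * (B + 2) * a + 6 * b) + 1 * c + b) ≤ K * (2 * δ) :=
        mul_le_mul_of_nonneg_left (by linarith only [hδ, ha0, hb0, hc0, hBa]) hK
      linarith only [this, hδ0, mul_nonneg hK hδ0]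
    have hu : wt B x τ ≤ 2 * δ ∧ wt B x' τ' ≤ 2 * δ := by
      rw [abs_le] at du'
      rcases u1.1.eq_or_lt with e | e
      · constructor <;> linarith only [du'.1, e, hδ0]
      rcases u2.1.eq_or_lt with e' | e'
      · constructor <;> linarith only [du'.2, e', hδ0]
      obtain ⟨i, hi⟩ := Function.ne_iff.1 hp
      obtain ⟨k, hk⟩ := pos_lat hB e i
      obtain ⟨k', hk'⟩ := pos_lat hB e' i
      have b1 := d_coord dp' i
      rw [hk, hk'] at hi b1
      have b2 : (1 : ℤ) ≤ |k - k'| := Int.one_le_abs (sub_ne_zero.2 fun e => hi (by rw [e]))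
      have b3 : (1 : ℝ) ≤ |(k : ℝ) - k'| := by exact_mod_cast b2
      rw [← sub_div, abs_div, abs_two] at b1
      constructor <;> linarith only [u1.2, u2.2, b1, b3]
    have b1 := (W2 (pos B x τ) τ).le (s := s * wt B x τ) (t := 0) (x := 2 * δ) (by
      rw [sub_zero, abs_of_nonneg (mul_nonneg hs.1 u1.1)]
      exact (mul_le_of_le_one_left u1.1 hs.2).trans hu.1)
    have b2 := (W2 (pos B x' τ') τ').le (s := 0) (t := s' * wt B x' τ') (x := 2 * δ) (by
      rw [zero_sub, abs_neg, abs_of_nonneg (mul_nonneg hs'.1 u2.1)]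
      exact (mul_le_of_le_one_left u2.1 hs'.2).trans hu.2)
    simp only [W3] at b1 b2
    have b3 := dΓ dp' db
    have := dist_triangle4 (W (pos B x τ) (s * wt B x τ) τ) (Γ (pos B x τ) τ) (Γ (pos B x' τ') τ')
      (W (pos B x' τ') (s' * wt B x' τ') τ')
    linarith only [this, b1, b2, b3]
  have m1 : (1 : ℝ) ∈ Icc (0 : ℝ) 1 := ⟨zero_le_one, le_rfl⟩
  have mw : ∀ s ∈ Icc (0 : ℝ) 1, ∀ (x : Fin m → ℝ) τ, s * wt B x τ ∈ Icc (0 : ℝ) 1 :=
    fun s hs x τ => ⟨mul_nonneg hs.1 (wt_mem B x τ).1, mul_le_one₀ hs.2 (wt_mem B x τ).1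
      (wt_mem B x τ).2⟩
  have Nlip : ∀ x, Lp ((4 * K + 2) * 6) (fun τ => M x τ 1) := fun x τ τ' => by
    have := Mlip x x τ τ' 1 1 0 _ 0 m1 m1 (by simp) le_rfl (by simp)
    linarith
  have key : ∀ x τ₀ τ₁, -1 ≤ τ₀ → τ₀ ≤ τ₁ →
      dist (M x τ₀ 1) (M x τ₁ 1) ≤ (4 * K + 2) * 6 * (clk B x τ₁ - clk B x τ₀) := by
    clear * - m B S M K Nlip hK hB W q W5 mw m1 Γ W6 h
    intro x τ₀ τ₁ h0 h01
    have hc : Continuous (clk B x) := by
      have := continuous_cl
      unfold clk; fun_prop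
    have hN := (Nlip x).continuous
    have hcl : IsClosed {τ | dist (M x τ₀ 1) (M x τ 1) ≤
        (4 * K + 2) * 6 * (clk B x τ - clk B x τ₀)} := isClosed_le (by fun_prop) (by fun_prop)
    refine (hcl.inter isClosed_Icc).Icc_subset_of_forall_exists_gt (by simp) ?_ ⟨h01, le_rfl⟩
    rintro τ ⟨hτ, hτ0, -⟩ y hy
    have hy' : τ < y := hy
    simp only [mem_ofPred_eq] at hτ
    have hτ1 : -1 ≤ τ := h0.trans hτ0
    suffices ∃ τ', τ < τ' ∧ τ' ≤ y ∧
        dist (M x τ 1) (M x τ' 1) ≤ (4 * K + 2) * 6 * (clk B x τ' - clk B x τ) by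
      obtain ⟨τ', a1, a2, a3⟩ := this
      refine ⟨τ', ?_, a1, a2⟩
      have := dist_triangle (M x τ₀ 1) (M x τ 1) (M x τ' 1)
      simp only [mem_ofPred_eq]
      linarith only [hτ, a3, this]
    have same : ∀ τ', τ ≤ τ' → M x τ 1 = M x τ' 1 →
        dist (M x τ 1) (M x τ' 1) ≤ (4 * K + 2) * 6 * (clk B x τ' - clk B x τ) := by
      intro τ' h e
      rw [e, dist_self]
      refine mul_nonneg (by positivity) (le_trans ?_ (clk_mono x h))
      exact mul_nonneg (by positivity) (by linarith)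
    by_cases hw : ∃ t, t ≤ τ ∧ τ < t + 1 ∧ (t = -1 ∨ t = B ∨ ∃ i, t = tt B (x i))
    · obtain ⟨t, t1, t2, t3⟩ := hw
      have a1 : τ < min y (t + 1) := lt_min hy' t2
      refine ⟨min y (t + 1), a1, min_le_left _ _, (Nlip x).le ?_⟩
      rw [abs_of_nonpos (by linarith only [a1]), neg_sub]
      exact clk_window hB x a1.le t1 (min_le_right _ _) t3
    push Not at hw
    have hτ2 : 0 ≤ τ := by
      by_contra hc'
      exact (hw (-1) hτ1 (by linarith)).1 rfl
    by_cases hτ3 : B + 1 ≤ τ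
    · refine ⟨y, hy', le_rfl, same y hy'.le ?_⟩
      simp only [M]
      rw [W5 _ _ (mw 1 m1 x τ) τ hτ3, W5 _ _ (mw 1 m1 x y) y (by linarith)]
    have hτ4 : τ < B := by
      by_contra hc'
      exact (hw B (not_lt.1 hc') (not_le.1 hτ3)).2.1 rfl
    have ev : ∀ᶠ τ' in nhdsWithin τ (Ioi τ), τ < τ' ∧ τ' < y ∧ τ' < B ∧
        ∀ i, τ < tt B (x i) → τ' < tt B (x i) := by
      refine Filter.Eventually.and self_mem_nhdsWithin (Filter.Eventually.filter_mono
        nhdsWithin_le_nhds ((eventually_lt_nhds hy').and ((eventually_lt_nhds hτ4).and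
          (Filter.eventually_all.2 fun i => ?_))))
      by_cases hi : τ < tt B (x i)
      · exact (eventually_lt_nhds hi).mono fun _ h _ => h
      · exact Filter.Eventually.of_forall fun _ h => absurd h hi
    obtain ⟨τ', b1, b2, b3, b4⟩ := ev.exists
    refine ⟨τ', b1, b2.le, same τ' b1.le ?_⟩
    have e1 : ∀ i, ph B (x i) τ = ph B (x i) τ' ∧ min (ph B (x i) τ') (1 - ph B (x i) τ') = 0 := by
      intro i
      rw [ph, ph, ch_of_mem hτ2 (by linarith only [b1, b3]), ch_of_mem (by linarith) (by linarith)]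
      by_cases hi : τ < tt B (x i)
      · rw [cl_of_nonpos (by linarith), cl_of_nonpos (by linarith [b4 i hi])]; simp
      · have : tt B (x i) + 1 ≤ τ := by
          by_contra hc'
          exact (hw _ (not_lt.1 hi) (not_le.1 hc')).2.2 i rfl
        rw [cl_of_one_le (by linarith), cl_of_one_le (by linarith)]; simp
    have e2 : pos B x τ = pos B x τ' := by
      funext i
      rw [pos, pos, p0_eq hB, p0_eq hB, (e1 i).1, cl_of_one_le (x := 2 * τ + 2) (by linarith only [hτ2]),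
        cl_of_one_le (x := 2 * τ' + 2) (by linarith only [hτ2, b1])]
    have e3 : wt B x τ = 1 ∧ wt B x τ' = 1 := by
      have : ‖fun _ : Fin m => (0 : ℝ)‖ = 0 := norm_zero
      simp only [wt, (e1 _).1, (e1 _).2, this]
      rw [cl_of_one_le (by norm_num), cl_of_one_le (by linarith only [hτ2]), cl_of_one_le (by linarith only [hτ2, b1])]
      simp
    simp only [M, e3.1, e3.2, e2, mul_one]
    rw [W6 _ τ hτ4.le, W6 _ τ' b3.le]
  choose r r1 r2 using fun (x : Fin m → ℝ) (σ : ℝ) => clk_surj hB x (α := (m + 4) * cl σ)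
    (mul_nonneg (by positivity) (cl_nonneg σ))
  have r0 : ∀ x, r x 0 = -1 := by
    intro x
    have := clk_inv hB x (r x 0) (-1)
    rw [r2, clk_neg_one hB] at this
    simpa [← sub_neg_eq_add, sub_eq_zero] using this
  have r3 : ∀ x, B + 1 ≤ r x 1 := by
    clear * - m B r hB r2
    intro x
    by_contra hc
    have a1 := clk_mono (B := B) x (not_le.1 hc).le
    have a2 := clk_le hB x
    have a3 : 0 < (B + 2)⁻¹ * (B + 1 - r x 1) := mul_pos (by positivity) (by linarith only [hc])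
    rw [r2, cl_one] at a1
    linarith only [a1, a2, a3]
  have dr : ∀ x x' σ σ' D, dist x x' ≤ D → |σ - σ'| ≤ D →
      |r x σ - r x' σ'| ≤ (3 * m + 4) * (B + 2) ^ 2 * D := by
    clear * - m B r hB r2
    intro x x' σ σ' D ha hb
    have hD : 0 ≤ D := dist_nonneg.trans ha
    have a1 := d_clk hB ha (r x' σ')
    have a2 : |clk B x (r x σ) - clk B x' (r x' σ')| ≤ (m + 4) * D := by
      rw [r2, r2, add_sub_add_left_eq_sub]
      exact d_cmul _ (by positivity) (d_cl hb)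
    have a3 := abs_sub_le (clk B x (r x σ)) (clk B x' (r x' σ')) (clk B x (r x' σ'))
    rw [abs_sub_comm (clk B x' (r x' σ'))] at a3
    refine (clk_inv hB x _ _).trans ?_
    have a4 : |clk B x (r x σ) - clk B x (r x' σ')| ≤ (3 * m + 4) * (B + 2) * D := by
      have : 0 ≤ (m + 4) * (B + 1) * D := by positivity
      linarith only [a1, a2, a3, this]
    calc _ ≤ (B + 2) * ((3 * m + 4) * (B + 2) * D) := by gcongr
      _ = _ := by ring
  have Γch : ∀ x τ, Γ x (ch B τ) = Γ x τ := by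
    clear * - m S Γ B h3 hB q h4 h
    intro x τ
    rcases le_total τ 0 with h | h
    · rw [ch, max_eq_left ((min_le_left _ _).trans h), h3 x τ h]
    rcases le_total τ (B + 1) with h' | h'
    · rw [ch_of_mem h h']
    · rw [ch, min_eq_right h', max_eq_right (by linarith), h4 _ _ (by linarith),
        h4 _ _ (by linarith)]
  refine ⟨fun x σ => Γ (pos B x (r x σ)) (r x σ), fun x σ => M x (r x σ) 1,
    ⟨fun s x σ => Γ (fun i => x i + cl s * (pos B x (r x σ) i - x i))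
      ((1 - cl s) * (B * cl σ) + cl s * ch B (r x σ)), fun s s' x x' σ σ' => ?_,
      fun x σ hσ => ?_, fun s hs x => ?_⟩,
    ⟨fun s x σ => M x (r x σ) (cl s), fun s s' x x' σ σ' => ?_, fun x σ hσ => ?_,
      fun s hs x => ?_⟩, fun x σ σ' => ?_⟩
  · obtain ⟨D, hD⟩ : ∃ D, D = |s - s'| + 1 * dist x x' + |σ - σ'| := ⟨_, rfl⟩
    rw [← hD]
    have d0 := abs_nonneg (s - s')
    have d1 := dist_nonneg (x := x) (y := x')
    have d2 := abs_nonneg (σ - σ')
    have d3 : dist x x' ≤ D := by linarith only [hD, d0, d2]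
    have d4 : |σ - σ'| ≤ D := by linarith only [hD, d0, d1]
    have d5 : |cl s - cl s'| ≤ D := d_cl (by linarith only [hD, d1, d2])
    have hD0 : 0 ≤ D := d1.trans d3
    have a1 := dr x x' σ σ' D d3 d4
    have a2 := d_pos hB d3 a1
    have a3 : |1 - cl s| ≤ 1 := by rw [← cl_one_sub]; exact abs_cl_le _
    have a4 : |B * cl σ'| ≤ B := by
      rw [abs_mul, abs_of_nonneg hB]; exact mul_le_of_le_one_right hB (abs_cl_le _)
    have a5 : |ch B (r x' σ')| ≤ B + 1 := by rw [abs_of_nonneg (ch_nonneg _ _)]; exact ch_le hB _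
    refine (dΓ ((dist_pi_le_iff (by clear * - hB hD0; positivity)).2 fun i => d_add (d_coord d3 i)
      (d_mul (abs_cl_le _) (pos_near _ _ _ _) d5 (d_sub (d_coord a2 i) (d_coord d3 i))))
      (d_add (d_mul a3 a4 (d_sub (d_const le_rfl) d5) (d_cmul B hB (d_cl d4)))
        (d_mul (abs_cl_le _) a5 d5 (d_ch B a1)))).trans ?_
    clear * - hB hD0 hK
    have b1 : 0 ≤ K * ((18 * m + 40) * (B + 2) ^ 2 * D) := by positivity
    have b2 : 0 ≤ m * (B + 2) ^ 2 * D := by positivity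
    have b3 : 0 ≤ B * D := by positivity
    have b4 : 0 ≤ B ^ 2 * D := by positivity
    have b5 : 0 ≤ B * (m * (B + 2) ^ 2 * D) := by positivity
    have b6 : 0 ≤ B ^ 3 * D := by positivity
    linarith only [b1, b2, b3, b4, b5, b6, hD0]
  · simp [cl_of_mem hσ.1 hσ.2, Γch]
  · have hs' := cl_of_mem hs.1 hs.2
    constructor
    · simp [r0, pos_neg_one, ch]
    · refine h4 _ _ ?_
      rw [hs', cl_one, ch, min_eq_right (r3 x), max_eq_right (by linarith only [hB])]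
      linarith only [hs.1]
  · obtain ⟨D, hD⟩ : ∃ D, D = |s - s'| + 1 * dist x x' + |σ - σ'| := ⟨_, rfl⟩
    rw [← hD]
    have d0 := abs_nonneg (s - s')
    have d1 := dist_nonneg (x := x) (y := x')
    have d2 := abs_nonneg (σ - σ')
    have d3 : dist x x' ≤ D := by linarith only [hD, d0, d2]
    have d4 : |σ - σ'| ≤ D := by linarith only [hD, d0, d1]
    have d5 : |cl s - cl s'| ≤ D := d_cl (by linarith only [hD, d1, d2])
    have hD0 : 0 ≤ D := d1.trans d3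
    refine (Mlip _ _ _ _ _ _ _ _ _ (cl_mem s) (cl_mem s') d3 (dr x x' σ σ' D d3 d4) d5).trans ?_
    rw [mul_assoc (4 * K + 2), mul_assoc (4 * K + 2)]
    clear * - hB hD0 hK
    refine mul_le_mul_of_nonneg_left ?_ (by positivity)
    have b3 : 0 ≤ B * D := by positivity
    have b4 : 0 ≤ B ^ 2 * D := by positivity
    linarith only [b3, b4, hD0]
  · simp [M, W3]
  · have hs' := cl_of_mem hs.1 hs.2
    simp only [M, hs', r0, pos_neg_one]
    exact ⟨by rw [W4 _ _ (mw s hs x _) _ (by norm_num), h3 x (-1) (by norm_num)],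
      W5 _ _ (mw s hs x _) _ (r3 x)⟩
  · have k2 : ∀ τ τ', -1 ≤ τ → -1 ≤ τ' →
        dist (M x τ 1) (M x τ' 1) ≤ (4 * K + 2) * 6 * |clk B x τ - clk B x τ'| := by
      clear * - S M x K m B key hK h
      intro τ τ' a1 a2
      rcases le_total τ τ' with h | h
      · rw [abs_sub_comm]
        exact (key x τ τ' a1 h).trans (mul_le_mul_of_nonneg_left (le_abs_self _) (by positivity))
      · rw [dist_comm]
        exact (key x τ' τ a2 h).trans (mul_le_mul_of_nonneg_left (le_abs_self _) (by positivity))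
    refine (k2 _ _ (r1 x σ) (r1 x σ')).trans ?_
    rw [r2, r2, add_sub_add_left_eq_sub, mul_assoc _ ((m : ℝ) + 4)]
    clear * - hK
    exact mul_le_mul_of_nonneg_left (d_cmul _ (by positivity) (d_cl le_rfl)) (by positivity)

end Pool.Agent.Work.MP_e25190_gt
end

-- merged part: Pool.Agent.Work.MP_e25190_gt.Sweep
section
/-! Sweeping hyperbolic space by horospheres. -/

open Set Metric Real

namespace Pool.Agent.Work.MP_e25190_gt

open Hyp

variable {S : Type*} [MetricSpace S] {m : ℕ}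

theorem Def.pull {P Q : Type*} [PseudoMetricSpace P] [PseudoMetricSpace Q] {C c μ : ℝ} {q : S}
    {Γ₀ Γ₁ : P → ℝ → S} (h : Def C 1 q Γ₀ Γ₁) (hC : 0 ≤ C) (hc : 1 ≤ c) (φ : Q → P)
    (hφ : ∀ x x', dist (φ x) (φ x') ≤ c * (μ * dist x x')) :
    Def (C * c) μ q (fun x => Γ₀ (φ x)) (fun x => Γ₁ (φ x)) := by
  obtain ⟨G, h1, h2, h3⟩ := h
  refine ⟨fun s x => G s (φ x), fun s s' x x' σ σ' => (h1 _ _ _ _ _ _).trans ?_,
    fun x => h2 _, fun s hs x => h3 s hs _⟩
  rw [mul_assoc]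
  refine mul_le_mul_of_nonneg_left ?_ hC
  have := hφ x x'
  linarith only [this, hc, abs_nonneg (s - s'), abs_nonneg (σ - σ'), mul_nonneg_of_nonpos_of_nonpos (Mathlib.Tactic.Linarith.sub_nonpos_of_le hc) (Mathlib.Tactic.Linarith.sub_nonpos_of_le (abs_nonneg (s - s'))), mul_nonneg_of_nonpos_of_nonpos (Mathlib.Tactic.Linarith.sub_nonpos_of_le hc) (Mathlib.Tactic.Linarith.sub_nonpos_of_le (abs_nonneg (σ - σ')))]

theorem norm_toLp_le (z : Fin m → ℝ) :
    ‖(WithLp.toLp 2 z : EuclideanSpace ℝ (Fin m))‖ ≤ (m + 1) * ‖z‖ := by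
  rw [EuclideanSpace.norm_eq]
  refine sqrt_le_iff.2 ⟨by positivity, ?_⟩
  refine (Finset.sum_le_sum (g := fun _ => ‖z‖ ^ 2) fun i _ => ?_).trans ?_
  · exact pow_le_pow_left₀ (norm_nonneg _) (norm_le_pi_norm z i) 2
  · simp only [Finset.sum_const, Finset.card_univ, Fintype.card_fin, nsmul_eq_mul, mul_pow]
    have : (0 : ℝ) ≤ m := Nat.cast_nonneg m
    gcongr
    linarith only [sq_nonneg (↑m + (1 : ℝ)), mul_nonneg_of_nonpos_of_nonpos (Mathlib.Tactic.Linarith.sub_nonpos_of_le (Mathlib.Tactic.Linarith.natCast_nonneg ℝ m)) (Mathlib.Tactic.Linarith.sub_nonpos_of_le (Mathlib.Tactic.Linarith.natCast_nonneg ℝ m))]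

theorem Short.base' {L : ℝ} (h : Short S L) (m : ℕ) : ∃ L₀ C₀ : ℝ, 1 ≤ L₀ ∧ 1 ≤ C₀ ∧
    ∀ (n : ℕ) (μ : ℝ) (Γ : EuclideanSpace ℝ (Fin m) → ℝ → S) (q : S), 0 < μ →
    (∀ x, Lp 1 (Γ x)) → (∀ x x' τ, dist (Γ x τ) (Γ x' τ) ≤ μ * ‖x - x'‖) →
    (∀ x, ∀ τ ≤ 0, Γ x τ = Γ x 0) → (∀ x τ, (n : ℝ) ≤ τ → Γ x τ = q) →
    ∃ Γ₁ Γ₂ : EuclideanSpace ℝ (Fin m) → ℝ → S,
      Def (C₀ * (n + 2) ^ 2) μ q (fun x σ => Γ x (n * σ)) Γ₁ ∧
      Def (C₀ * (n + 2) ^ 2) μ q Γ₁ Γ₂ ∧ ∀ x, Lp L₀ (Γ₂ x) := by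
  obtain ⟨L₀, C₀, h1, h2, h3⟩ := h.base m
  have hm : (0 : ℝ) ≤ m := Nat.cast_nonneg m
  refine ⟨L₀, C₀ * (m + 1), h1, by linarith only [h2, mul_nonneg_of_nonpos_of_nonpos (Mathlib.Tactic.Linarith.sub_nonpos_of_le (Mathlib.Tactic.Linarith.natCast_nonneg ℝ m)) (Mathlib.Tactic.Linarith.sub_nonpos_of_le h2)], fun n μ Γ q hμ a1 a2 a3 a4 => ?_⟩
  have hc : 0 < (m + 1) * μ := by positivity
  obtain ⟨Γ₁, Γ₂, b1, b2, b3⟩ := h3 n (fun z => Γ (((m + 1) * μ)⁻¹ • WithLp.toLp 2 z)) q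
    (fun z => a1 _) (fun z z' τ => (a2 _ _ _).trans (by
      clear * - μ m z z' hc hμ a3 a4
      rw [← smul_sub, norm_smul, ← WithLp.toLp_sub, Real.norm_eq_abs, abs_of_pos (inv_pos.2 hc),
        dist_eq_norm]
      calc _ ≤ μ * (((m + 1) * μ)⁻¹ * ((m + 1) * ‖z - z'‖)) := by
            gcongr; exact norm_toLp_le _
        _ = _ := by field_simp)) (fun z => a3 _) (fun z => a4 _)
  have hφ : ∀ x x' : EuclideanSpace ℝ (Fin m), dist (((m + 1) * μ) • x.ofLp)
      (((m + 1) * μ) • x'.ofLp) ≤ (m + 1) * (μ * dist x x') := by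
    clear * - m μ hc hμ
    intro x x'
    rw [dist_smul₀, Real.norm_eq_abs, abs_of_pos hc, ← mul_assoc]
    gcongr
    simpa using (PiLp.lipschitzWith_ofLp 2 (fun _ : Fin m => ℝ)).dist_le_mul x x'
  have e : C₀ * (m + 1) * (n + 2) ^ 2 = C₀ * (n + 2) ^ 2 * (m + 1) := by ring
  have c1 := b1.pull (by positivity) (by linarith) _ hφ
  have c2 := b2.pull (by positivity) (by linarith) _ hφ
  simp only [WithLp.toLp_smul, WithLp.toLp_ofLp, inv_smul_smul₀ hc.ne'] at c1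
  exact ⟨_, _, e ▸ c1, e ▸ c2, fun x => b3 _⟩

/-- the map which is `g` below the level `h`, `H` on the layer `[h, h+N]` -/
noncomputable def Lay (g : Hyp m → S) (h N : ℝ) (H : EuclideanSpace ℝ (Fin m) → ℝ → S)
    (p : Hyp m) : S := if ht p ≤ h then g p else H p.x (cl ((ht p - h) / N))

omit [MetricSpace S] in
theorem lay_low {g : Hyp m → S} {h N : ℝ} {H : EuclideanSpace ℝ (Fin m) → ℝ → S} {p : Hyp m}
    (hp : ht p ≤ h) : Lay g h N H p = g p := if_pos hp

omit [MetricSpace S] in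
theorem lay_up {g : Hyp m → S} {h N : ℝ} {H : EuclideanSpace ℝ (Fin m) → ℝ → S}
    (h0 : ∀ x, H x 0 = g (pt x h)) {p : Hyp m} (hp : h ≤ ht p) :
    Lay g h N H p = H p.x (cl ((ht p - h) / N)) := by
  unfold Lay
  split_ifs with h'
  · have e : ht p = h := le_antisymm h' hp
    rw [e, sub_self, zero_div, cl_zero, h0, ← e, pt_ht]
  · rfl

omit [MetricSpace S] in
theorem lay_top {g : Hyp m → S} {h N : ℝ} {H : EuclideanSpace ℝ (Fin m) → ℝ → S} {q : S}
    (hN : 0 < N) (h1 : ∀ x, H x 1 = q) {p : Hyp m} (hp : h + N ≤ ht p) : Lay g h N H p = q := by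
  rw [Lay, if_neg (by linarith), cl_of_one_le (by rw [le_div_iff₀ hN]; linarith), h1]

omit [MetricSpace S] in
theorem lay_congr {g : Hyp m → S} {h N : ℝ} {H H' : EuclideanSpace ℝ (Fin m) → ℝ → S}
    (e : ∀ x, ∀ σ ∈ Icc (0 : ℝ) 1, H x σ = H' x σ) : Lay g h N H = Lay g h N H' := by
  funext p
  rw [Lay, Lay, e _ _ (cl_mem _)]

theorem lay_lip {g : Hyp m → S} {h N μ : ℝ} {H : EuclideanSpace ℝ (Fin m) → ℝ → S} {q : S}
    (hg : ∀ p p', dist (g p) (g p') ≤ dist p p') (hN : 0 < N) (h0 : ∀ x, H x 0 = g (pt x h))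
    (h1 : ∀ x, H x 1 = q)
    (hv : ∀ x, ∀ σ ∈ Icc (0 : ℝ) 1, ∀ σ' ∈ Icc (0 : ℝ) 1,
      dist (H x σ) (H x σ') ≤ N / 2 * |σ - σ'|)
    (hh : ∀ x x', ∀ σ ∈ Icc (0 : ℝ) 1, dist (H x σ) (H x' σ) ≤ μ * ‖x - x'‖)
    (hμ0 : 0 ≤ μ) (hμ : μ * exp (h + N) ≤ 1 / 4) (p p' : Hyp m) :
    dist (Lay g h N H p) (Lay g h N H p') ≤ dist p p' := by
  refine lip_glue _ h (fun p q hp hq => ?_) (fun x k k' hk hk' => ?_) (fun x x' k hk => ?_) p p'
  · rw [lay_low hp, lay_low hq]; exact hg p q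
  · rw [lay_up h0 (by simpa using hk), lay_up h0 (by simpa using hk')]
    refine (hv x _ (cl_mem _) _ (cl_mem _)).trans ?_
    have : |cl ((ht (pt x k) - h) / N) - cl ((ht (pt x k') - h) / N)| ≤ |k - k'| / N := by
      refine d_cl ?_
      rw [← sub_div, abs_div, abs_of_pos hN]; simp
    calc _ ≤ N / 2 * (|k - k'| / N) := by gcongr
      _ = _ := by field_simp
  · by_cases hk' : h + N ≤ k
    · rw [lay_top hN h1 (by simpa using hk'), lay_top hN h1 (by simpa using hk'), dist_self]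
      positivity
    rw [lay_up h0 (by simpa using hk), lay_up h0 (by simpa using hk)]
    simp only [ht_pt, pt_x]
    refine (hh x x' _ (cl_mem _)).trans ?_
    have : μ ≤ exp (-k) / 4 := by
      have a1 : μ * exp k ≤ μ * exp (h + N) := by gcongr; linarith only [hk']
      rw [exp_neg, le_div_iff₀ (by norm_num), ← one_div, le_div_iff₀ (exp_pos k)]
      linarith only [hμ, a1]
    linarith only [this, norm_nonneg (x - x'), mul_nonneg_of_nonpos_of_nonpos (Mathlib.Tactic.Linarith.sub_nonpos_of_le this) (Mathlib.Tactic.Linarith.sub_nonpos_of_le (norm_nonneg (x - x')))]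

theorem lay_rel {g : Hyp m → S} {h N C μ : ℝ} {H H' : EuclideanSpace ℝ (Fin m) → ℝ → S} {q : S}
    (hg : ∀ p p', dist (g p) (g p') ≤ dist p p') (hN : 0 < N) (h0 : ∀ x, H x 0 = g (pt x h))
    (hD : Def C μ q H H') (hC0 : 0 ≤ C) (hC : C ≤ N / 2) (hμ0 : 0 ≤ μ)
    (hμ : C * μ * exp (h + N) ≤ 1 / 4) :
    Rel (Lay g h N H) (Lay g h N H') (fun p => if h ≤ ht p ∧ ht p ≤ h + N then C else 0) := by
  obtain ⟨G, g1, g2, g3⟩ := hD
  refine Rel.of_lip (fun s => Lay g h N (G s)) (fun p s hs t ht' => ?_) (fun s hs => ?_)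
    (lay_congr fun x σ hσ => (g2 x σ hσ).1) (lay_congr fun x σ hσ => (g2 x σ hσ).2)
  · split_ifs with hp
    · rw [lay_up (fun x => (g3 s hs x).1.trans (h0 x)) hp.1,
        lay_up (fun x => (g3 t ht' x).1.trans (h0 x)) hp.1]
      simpa using g1 s t p.x p.x (cl ((ht p - h) / N)) (cl ((ht p - h) / N))
    rcases not_and_or.1 hp with hp | hp
    · rw [lay_low (not_le.1 hp).le, lay_low (not_le.1 hp).le]; simp
    · rw [lay_top hN (fun x => (g3 s hs x).2) (not_le.1 hp).le,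
        lay_top hN (fun x => (g3 t ht' x).2) (not_le.1 hp).le]; simp
  · refine lay_lip hg hN (fun x => (g3 s hs x).1.trans (h0 x)) (fun x => (g3 s hs x).2)
      (fun x σ _ σ' _ => (g1 s s x x σ σ').trans ?_) (fun x x' σ _ => ?_) (by positivity) hμ
    · simpa using mul_le_mul_of_nonneg_right hC (abs_nonneg _)
    · simpa [dist_eq_norm, mul_assoc] using g1 s s x x' σ σ

theorem Def.ends {P : Type*} [PseudoMetricSpace P] {C μ : ℝ} {q : S} {H H' : P → ℝ → S}
    (hD : Def C μ q H H') : (∀ x, H' x 0 = H x 0) ∧ (∀ x, H' x 1 = q) ∧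
      ∀ x x', ∀ σ ∈ Icc (0 : ℝ) 1, dist (H' x σ) (H' x' σ) ≤ C * μ * dist x x' := by
  obtain ⟨G, g1, g2, g3⟩ := hD
  have m0 : (0 : ℝ) ∈ Icc (0 : ℝ) 1 := ⟨le_rfl, zero_le_one⟩
  have m1 : (1 : ℝ) ∈ Icc (0 : ℝ) 1 := ⟨zero_le_one, le_rfl⟩
  refine ⟨fun x => by rw [← (g2 x 0 m0).2, (g3 1 m1 x).1], fun x => by
    rw [← (g2 x 1 m1).2, (g3 1 m1 x).2], fun x x' σ hσ => ?_⟩
  rw [← (g2 x σ hσ).2, ← (g2 x' σ hσ).2]
  simpa [mul_assoc] using g1 1 1 x x' σ σ

theorem relayout {g : Hyp m → S} {h N A L B μ : ℝ} {H : EuclideanSpace ℝ (Fin m) → ℝ → S} {q : S}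
    (hg : ∀ p p', dist (g p) (g p') ≤ dist p p') (hA : 0 ≤ A) (hL : 0 < L) (hB : A + L = B)
    (hN : B ≤ N / 2) (h0 : ∀ x, H x 0 = g (pt x h)) (h1 : ∀ x, H x 1 = q) (hv : ∀ x, Lp L (H x))
    (hh : ∀ x x', ∀ σ ∈ Icc (0 : ℝ) 1, dist (H x σ) (H x' σ) ≤ μ * ‖x - x'‖)
    (hh' : ∀ x x' k, h - A ≤ k → dist (g (pt x k)) (g (pt x' k)) ≤ μ * ‖x - x'‖)
    (hμ0 : 0 ≤ μ) (hμ : μ * exp (h + N) ≤ 1 / 4) :
    ∃ Γ : EuclideanSpace ℝ (Fin m) → ℝ → S, (∀ x, Lp 1 (Γ x)) ∧
      (∀ x x' τ, dist (Γ x τ) (Γ x' τ) ≤ μ * ‖x - x'‖) ∧ (∀ x, ∀ τ ≤ 0, Γ x τ = Γ x 0) ∧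
      (∀ x τ, B ≤ τ → Γ x τ = q) ∧ (∀ x, Γ x 0 = g (pt x (h - A))) ∧
      Rel (Lay g h N H) (Lay g (h - A) N fun x σ => Γ x (B * σ))
        (fun p => if h - A ≤ ht p ∧ ht p ≤ h + N then 3 * A else 0) := by
  have hN0 : 0 < N := by linarith only [hA, hL, hB, hN]
  set Γ : EuclideanSpace ℝ (Fin m) → ℝ → S := fun x τ =>
    if τ ≤ A then g (pt x (h - A + max τ 0)) else H x (cl ((τ - A) / L)) with hΓ
  have lo : ∀ x τ, 0 ≤ τ → τ ≤ A → Γ x τ = g (pt x (h - A + τ)) := fun x τ h1 h2 => by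
    simp only [hΓ, h2, if_true, max_eq_left h1]
  have a1 : ∀ x, Lp 1 (Γ x) := fun x => by
    refine Lp.ite (fun s t => (hg _ _).trans ?_) (fun s t => ((hv x).le (x := |s - t| / L)
      (d_cl ?_)).trans (le_of_eq (by field_simp))) ?_
    · rw [dist_vert, one_mul, add_sub_add_left_eq_sub]
      exact d_max le_rfl (d_const (abs_nonneg _))
    · rw [← sub_div, abs_div, abs_of_pos hL]; simp
    · simp [hA, h0]
  have a2 : ∀ x x' τ, dist (Γ x τ) (Γ x' τ) ≤ μ * ‖x - x'‖ := fun x x' τ => by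
    simp only [hΓ]
    split_ifs
    · exact hh' _ _ _ (by linarith only [le_max_right τ 0])
    · exact hh _ _ _ (cl_mem _)
  have a4 : ∀ x τ, B ≤ τ → Γ x τ = q := fun x τ hτ => by
    simp only [hΓ]
    rw [if_neg (by linarith only [hL, hB, hτ]), cl_of_one_le (by rw [le_div_iff₀ hL]; linarith only [hB, hτ]), h1]
  refine ⟨Γ, a1, a2, fun x τ hτ => by simp [hΓ, hτ.trans hA, hA, hτ], a4,
    fun x => by rw [lo x 0 le_rfl hA, add_zero], ?_⟩
  have b0 : ∀ t ∈ Icc (0 : ℝ) 1, 0 ≤ (1 - t) * A ∧ (1 - t) * A ≤ A := fun t ht =>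
    ⟨mul_nonneg (by linarith only [ht, ht.2]) hA, by linarith only [hA, ht, ht.1, mul_nonneg_of_nonpos_of_nonpos (Mathlib.Tactic.Linarith.sub_nonpos_of_le hA) (Mathlib.Tactic.Linarith.sub_nonpos_of_le ht.left)]⟩
  have b1 : ∀ t ∈ Icc (0 : ℝ) 1, ∀ x, Γ x ((1 - t) * A + 0 * (B - (1 - t) * A)) =
      g (pt x (h - t * A)) := fun t ht x => by
    rw [zero_mul, add_zero, lo x _ (b0 t ht).1 (b0 t ht).2]
    congr 2; ring
  have b2 : ∀ t x, Γ x ((1 - t) * A + 1 * (B - (1 - t) * A)) = q := fun t x =>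
    a4 x _ (by linarith only [])
  refine Rel.of_lip (fun t => Lay g (h - t * A) N fun x σ =>
    Γ x ((1 - t) * A + σ * (B - (1 - t) * A))) (fun p s hs t ht' => ?_) (fun t ht' => ?_) ?_ ?_
  · have form : ∀ t ∈ Icc (0 : ℝ) 1, h - A ≤ ht p → Lay g (h - t * A) N (fun x σ =>
        Γ x ((1 - t) * A + σ * (B - (1 - t) * A))) p = Γ p.x (min (ht p - (h - A)) ((1 - t) * A) +
          cl ((ht p - (h - A) - (1 - t) * A) / N) * (B - (1 - t) * A)) := by
      clear * - h A m p S g N Γ B hN0 lo b0 b1 ht' t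
      intro t ht' hp
      rcases le_total (ht p) (h - t * A) with hp' | hp'
      · rw [lay_low hp', min_eq_left (by linarith), cl_of_nonpos (div_nonpos_of_nonpos_of_nonneg
          (by linarith) hN0.le), zero_mul, add_zero, lo _ _ (by linarith)
          (by linarith [(b0 t ht').2]), add_sub_cancel, pt_ht]
      · rw [lay_up (b1 t ht') hp', min_eq_right (by linarith)]
        congr 4; ring
    split_ifs with hp
    · rw [form s hs hp.1, form t ht' hp.1]
      have c0 := abs_nonneg (s - t)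
      have c1 : |(1 - s) * A - (1 - t) * A| ≤ A * |s - t| := by
        rw [show (1 - s) * A - (1 - t) * A = A * (t - s) by ring, abs_mul, abs_of_nonneg hA,
          abs_sub_comm]
      have c2 : |B - (1 - t) * A| ≤ N := by
        rw [abs_le]; constructor <;> linarith only [hA, hL, hB, hN, b0, ht', (b0 t ht').1, (b0 t ht').2]
      have c3 : |(ht p - (h - A) - (1 - s) * A) / N - (ht p - (h - A) - (1 - t) * A) / N| ≤
          A * |s - t| / N := by
        rw [← sub_div, abs_div, abs_of_pos hN0]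
        gcongr
        simpa using d_sub (d_const (a := ht p - (h - A)) le_rfl) c1
      refine ((a1 _).le (d_add (d_min (d_const (by positivity)) c1) (d_mul (abs_cl_le _) c2
        (d_cl c3) (d_sub (d_const le_rfl) c1)))).trans (le_of_eq ?_)
      field_simp
      ring
    rcases not_and_or.1 hp with hp | hp
    · rw [lay_low (by linarith only [hp, b0, hs, (b0 s hs).1]), lay_low (by linarith only [hp, b0, ht', (b0 t ht').1])]; simp
    · rw [lay_top hN0 (b2 s) (by linarith only [hp, b0, hs, (b0 s hs).2]),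
        lay_top hN0 (b2 t) (by linarith only [hp, b0, ht', (b0 t ht').2])]; simp
  · refine lay_lip hg hN0 (b1 t ht') (b2 t) (fun x σ _ σ' _ => (a1 x _ _).trans ?_)
      (fun x x' σ _ => a2 _ _ _) hμ0 (le_trans ?_ hμ)
    · rw [one_mul, add_sub_add_left_eq_sub, ← sub_mul, abs_mul, mul_comm]
      gcongr
      rw [abs_le]; constructor <;> linarith only [hA, hL, hB, hN, b0, ht', (b0 t ht').1, (b0 t ht').2]
    · gcongr
      linarith only [b0, ht', (b0 t ht').2]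
  · simp only [zero_mul, sub_zero, one_mul]
    refine lay_congr fun x σ hσ => ?_
    simp only [hΓ]
    have e : B - A = L := by linarith only [hB]
    rw [e]
    split_ifs with h'
    · have : σ = 0 := by clear * - σ hσ A L h' hL h0 hA; nlinarith [hσ.1]
      simp [this, hA, h0]
    · rw [add_sub_cancel_left, mul_div_cancel_right₀ _ hL.ne', cl_of_mem hσ.1 hσ.2]
  · simp [mul_comm]

/-- coordinatewise clamp -/
noncomputable def box (ρ : ℝ) (x : EuclideanSpace ℝ (Fin m)) : EuclideanSpace ℝ (Fin m) :=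
  WithLp.toLp 2 fun i => max (-ρ) (min (x i) ρ)

theorem box_lip (ρ : ℝ) (x x' : EuclideanSpace ℝ (Fin m)) : ‖box ρ x - box ρ x'‖ ≤ ‖x - x'‖ := by
  rw [EuclideanSpace.norm_eq, EuclideanSpace.norm_eq]
  refine sqrt_le_sqrt (Finset.sum_le_sum fun i _ => pow_le_pow_left₀ (norm_nonneg _) ?_ 2)
  exact d_max (d_const (abs_nonneg _)) (d_min le_rfl (d_const (abs_nonneg _)))

theorem box_eq {ρ : ℝ} {x : EuclideanSpace ℝ (Fin m)} (h : ‖x‖ ≤ ρ) : box ρ x = x := by
  ext i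
  have := abs_le.1 ((PiLp.norm_apply_le x i).trans h)
  simp [box, this.1, this.2]

theorem norm_box {ρ : ℝ} (h : 0 ≤ ρ) (x : EuclideanSpace ℝ (Fin m)) : ‖box ρ x‖ ≤ (m + 1) * ρ := by
  refine (norm_toLp_le _).trans (mul_le_mul_of_nonneg_left ?_ (by positivity))
  refine (pi_norm_le_iff_of_nonneg h).2 fun i => abs_le.2 ⟨le_max_left _ _, ?_⟩
  exact max_le (by linarith) (min_le_right _ _)

/-- extension of a map from a ball by the radial retraction -/
noncomputable def ext (o : Hyp m) {R : ℝ} (hR : 0 ≤ R) (f : closedBall o R → S) (p : Hyp m) : S :=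
  f ⟨geo o p R, mem_closedBall'.2 (dist_geo_left o p hR)⟩

theorem ext_lip (o : Hyp m) {R : ℝ} (hR : 0 ≤ R) {f : closedBall o R → S} (hf : LipschitzWith 1 f)
    (p p' : Hyp m) : dist (ext o hR f p) (ext o hR f p') ≤ dist p p' := by
  refine (hf.dist_le_mul _ _).trans ?_
  rw [NNReal.coe_one, one_mul, Subtype.dist_eq]
  exact dist_retr o p p' R

theorem Short.sweep {L : ℝ} (h : Short S L) (m : ℕ) : ∃ C : ℝ, ∀ (o : Hyp m) (R : ℝ), 0 ≤ R →
    ∀ f : closedBall o R → S, LipschitzWith 1 f → ∃ q, Rel f (fun _ => q) (fun _ => C) := by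
  obtain ⟨L₀, C₀, hL₀, hC₀, hb⟩ := h.base' m
  obtain ⟨n, hn⟩ := exists_nat_gt (max L₀ (6 * C₀ * exp (L₀ + 2)))
  have hn1 : L₀ < n := (le_max_left _ _).trans_lt hn
  have hn2 : 6 * C₀ * exp (L₀ + 2) < n := (le_max_right _ _).trans_lt hn
  obtain ⟨C, A, N, s, hC, hC1, hA0, hCA, hN0, hs0, hsm, hAL, hnN, hCN, hN1⟩ : ∃ C A N s : ℝ,
      C₀ * (n + 2) ^ 2 = C ∧ 1 ≤ C ∧ 0 < A ∧ C ≤ exp A ∧ 0 < N ∧ 0 ≤ s ∧
      exp (-s) * exp (A + N) ≤ 1 / 4 ∧ A + L₀ = n ∧ n ≤ N / 2 ∧ C ≤ N / 2 ∧ 1 ≤ N / 2 := by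
    clear * - hL₀ hC₀ hn1 hn2
    obtain ⟨C, hC⟩ : ∃ C, C = C₀ * (n + 2) ^ 2 := ⟨_, rfl⟩
    have hC1 : 1 ≤ C := hC ▸ one_le_mul_of_one_le_of_one_le hC₀ (one_le_pow₀ (by linarith only [hL₀, hn1]))
    obtain ⟨A, hA⟩ : ∃ A, A = n - L₀ := ⟨_, rfl⟩
    have hA0 : 0 < A := by linarith only [hA, hn1]
    have hCA : C ≤ exp A := by
      have a1 := pow_div_factorial_le_exp (n + 2 : ℝ) (by positivity) 3
      have a2 : exp (n + 2 : ℝ) = exp A * exp (L₀ + 2) := by rw [← exp_add, hA]; congr 1; ring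
      have a3 := exp_pos (L₀ + 2)
      norm_num [Nat.factorial] at a1
      rw [a2] at a1
      refine le_of_mul_le_mul_right (le_trans ?_ a1) a3
      have : C₀ * exp (L₀ + 2) ≤ (n + 2) / 6 := by linarith only [hn2]
      calc C * exp (L₀ + 2) = (C₀ * exp (L₀ + 2)) * (n + 2) ^ 2 := by rw [hC]; ring
        _ ≤ (n + 2) / 6 * (n + 2) ^ 2 := mul_le_mul_of_nonneg_right this (sq_nonneg _)
        _ = _ := by ring
    refine ⟨C, A, 2 * (C + n), A + 2 * (C + n) + 2, hC.symm, hC1, hA0, hCA,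
      by linarith only [hC1, hn1, hL₀], by linarith only [hC1, hn1, hL₀, hA0], ?_,
      by linarith only [hA], by linarith only [hC1], by linarith only [hn1, hL₀],
      by linarith only [hC1, hn1, hL₀]⟩
    rw [← exp_add, show -(A + 2 * (C + n) + 2) + (A + 2 * (C + n)) = -(1 + 1) by ring, exp_neg,
      exp_add, ← one_div]
    have := add_one_le_exp 1
    gcongr
    nlinarith only [this]
  have hC0 : 0 ≤ C := zero_le_one.trans hC1
  replace hb := hb n
  rw [hC] at hb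
  clear hC hn hn1 hn2 hC₀ h
  refine ⟨s + (3 * A + C + C) * (N / A + 2), fun o R hR f hf => ?_⟩
  obtain ⟨ρ, hρ, hρ'⟩ := exists_bound o R
  have g1 : ∀ p p', dist (ext o hR f p) (ext o hR f p') ≤ dist p p' := ext_lip o hR hf
  have g2 : ∀ t, 0 ≤ t → ∀ p p' : Hyp m, dist (ext o hR f (pt (box ρ p.x) (ht p + t)))
      (ext o hR f (pt (box ρ p'.x) (ht p' + t))) ≤ dist p p' := fun t ht' p p' =>
    (g1 _ _).trans (by
      conv_rhs => rw [← pt_ht p, ← pt_ht p']
      exact dist_shift (box_lip _ _ _) (by linarith only [ht']) (by linarith only [ht']) (by simp))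
  set g : Hyp m → S := fun p => ext o hR f (pt (box ρ p.x) (ht p + s)) with hg
  have g4 : ∀ p p', dist (g p) (g p') ≤ dist p p' := g2 s hs0
  have R1 : Rel (fun p : Hyp m => ext o hR f (pt (box ρ p.x) (ht p))) g (fun _ => s) := by
    refine Rel.of_lip (fun t p => ext o hR f (pt (box ρ p.x) (ht p + s * t)))
      (fun p a _ b _ => (g1 _ _).trans ?_) (fun t ht' => g2 _ (mul_nonneg hs0 ht'.1)) (by simp)
      (by simp [hg])
    rw [dist_vert, add_sub_add_left_eq_sub]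
    exact d_cmul s hs0 le_rfl
  have g3 : ∀ x x' k, dist (g (pt x k)) (g (pt x' k)) ≤ exp (-s) * exp (-k) * ‖x - x'‖ := by
    intro x x' k
    refine (g1 _ _).trans ?_
    simp only [pt_x, ht_pt]
    refine (dist_horiz _ _ _).trans ?_
    rw [← exp_add, show -s + -k = -(k + s) by ring]
    gcongr
    exact box_lip _ _ _
  set h₀ := max (ht o + R) ((m + 1) * ρ) with hh₀
  set q := ext o hR f (pt 0 (h₀ + s))
  let H₀ : EuclideanSpace ℝ (Fin m) → ℝ → S := fun x σ =>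
    ext o hR f (pt ((1 - cl σ) • box ρ x) (h₀ + s))
  have ind : ∀ k : ℕ, ∃ H : EuclideanSpace ℝ (Fin m) → ℝ → S,
      (∀ x, H x 0 = g (pt x (h₀ - k * A))) ∧ (∀ x, H x 1 = q) ∧ (∀ x, Lp L₀ (H x)) ∧
      (∀ x x', ∀ σ ∈ Icc (0 : ℝ) 1, dist (H x σ) (H x' σ) ≤
        C * (exp (-s) * exp (-(h₀ - k * A))) * ‖x - x'‖) ∧
      Rel (Lay g h₀ N H₀) (Lay g (h₀ - k * A) N H) (fun p => (3 * A + C + C) *
        min (max ((ht p - (h₀ - k * A)) / A + 1) 0) (N / A + 2)) := by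
    intro k
    induction k with
    | zero =>
      have a1 : ∀ x, H₀ x 0 = g (pt x h₀) := fun x => by simp [H₀, hg]
      have a2 : ∀ x, H₀ x 1 = q := fun x => by simp [H₀, q]
      have a3 : ∀ x, Lp 1 (H₀ x) := fun x σ σ' => (g1 _ _).trans ((dist_horiz _ _ _).trans (by
        rw [← sub_smul, norm_smul, Real.norm_eq_abs, ← mul_assoc, mul_right_comm]
        refine mul_le_mul ?_ (by simpa using d_sub (d_const (a := 1) le_rfl) (d_cl le_rfl))
          (abs_nonneg _) zero_le_one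
        rw [exp_neg, inv_mul_le_iff₀ (exp_pos _), mul_one]
        have e : (m + 1) * ρ ≤ h₀ := le_max_right _ _
        linarith only [norm_box hρ x, add_one_le_exp (h₀ + s), e, hs0]))
      have a4 : ∀ x x', ∀ σ ∈ Icc (0 : ℝ) 1, dist (H₀ x σ) (H₀ x' σ) ≤
          exp (-s) * exp (-h₀) * ‖x - x'‖ := fun x x' σ _ =>
        (g1 _ _).trans ((dist_horiz _ _ _).trans (by
          rw [← exp_add, show -s + -h₀ = -(h₀ + s) by ring, ← smul_sub, norm_smul, ← cl_one_sub]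
          gcongr
          exact (mul_le_of_le_one_left (norm_nonneg _) (abs_cl_le _)).trans (box_lip _ _ _)))
      simp only [Nat.cast_zero, zero_mul, sub_zero]
      refine ⟨H₀, a1, a2, fun x => (a3 x).mono hL₀, fun x x' σ hσ => (a4 x x' σ hσ).trans ?_, ?_⟩
      · exact mul_le_mul_of_nonneg_right (le_mul_of_one_le_left (by positivity) hC1)
          (norm_nonneg _)
      · refine Rel.of_lip (fun _ => Lay g h₀ N H₀) (fun p a _ b _ => ?_) (fun _ _ => ?_) rfl rfl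
        · rw [dist_self]
          have : 0 ≤ min (max ((ht p - h₀) / A + 1) 0) (N / A + 2) :=
            le_min (le_max_right _ _) (by positivity)
          positivity
        · refine lay_lip g4 hN0 a1 a2 (fun x σ _ σ' _ => ((a3 x).mono hN1) σ σ')
            a4 (by positivity) (le_trans ?_ hsm)
          rw [mul_assoc, ← exp_add (-h₀)]
          exact mul_le_mul_of_nonneg_left (exp_le_exp.2 (by
            linarith only [hA0])) (exp_pos _).le
    | succ k ih =>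
      obtain ⟨H, a1, a2, a3, a4, a5⟩ := ih
      rw [Nat.cast_succ, show h₀ - (k + 1) * A = h₀ - k * A - A by ring]
      generalize h₀ - k * A = h at a1 a4 a5 ⊢
      set μ := exp (-s) * exp (-(h - A)) with hμ
      have hμ0 : 0 < μ := by positivity
      have e1 : μ = exp A * (exp (-s) * exp (-h)) := by
        rw [hμ, show -(h - A) = A + -h by ring, exp_add]; ring
      have e2 : μ * exp (h + N) ≤ 1 / 4 := by
        rwa [hμ, mul_assoc, ← exp_add, show -(h - A) + (h + N) = A + N by ring]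
      obtain ⟨Γ, b1, b2, b3, b4, b5, b6⟩ := relayout g4 hA0.le (zero_lt_one.trans_le hL₀)
        (B := n) (N := N) (μ := μ) hAL hnN a1 a2 a3
        (fun x x' σ hσ => (a4 x x' σ hσ).trans (by rw [e1]; gcongr))
        (fun x x' k hk => (g3 x x' k).trans (by rw [hμ]; gcongr)) hμ0.le e2
      obtain ⟨Γ₁, Γ₂, c1, c2, c3⟩ := hb μ Γ q hμ0 b1 b2 b3 b4
      have e3 : C * μ * exp (h - A + N) ≤ 1 / 4 := by
        refine le_trans ?_ e2
        rw [show h + N = A + (h - A + N) by ring, exp_add A, ← mul_assoc μ, mul_comm μ]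
        gcongr
      have d1 : ∀ x, (fun σ => Γ x (n * σ)) 0 = g (pt x (h - A)) := fun x => by
        simpa using b5 x
      have d2 : ∀ x, Γ₁ x 0 = g (pt x (h - A)) := fun x => (c1.ends.1 x).trans (d1 x)
      have R2 := lay_rel g4 hN0 d1 c1 hC0 hCN hμ0.le e3
      have R3 := lay_rel g4 hN0 d2 c2 hC0 hCN hμ0.le e3
      refine ⟨Γ₂, fun x => (c2.ends.1 x).trans (d2 x), c2.ends.2.1, c3,
        fun x x' σ hσ => by simpa [dist_eq_norm] using c2.ends.2.2 x x' σ hσ,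
        (a5.trans ((b6.trans R2).trans R3)).mono fun p => ?_⟩
      have e4 : (ht p - (h - A)) / A + 1 = (ht p - h) / A + 1 + 1 := by field_simp; ring
      rw [e4]
      clear * - hA0 hC0
      by_cases hp : h - A ≤ ht p ∧ ht p ≤ h + N
      · have f1 : 0 ≤ (ht p - h) / A + 1 := by
          rw [div_add_one hA0.ne']; exact div_nonneg (by linarith [hp.1]) hA0.le
        have f2 : (ht p - h) / A ≤ N / A := by gcongr; linarith [hp.2]
        rw [max_eq_left f1, max_eq_left (by linarith only [f1]), min_eq_left (by linarith only [f2]),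
          min_eq_left (by linarith only [f2]), if_pos hp]
        split_ifs <;> linarith only [hC0]
      · rw [if_neg hp, if_neg (fun h' => hp ⟨h'.1, by linarith [h'.2]⟩), add_zero, add_zero, add_zero]
        gcongr
        linarith only []
  obtain ⟨k, hk⟩ := exists_nat_gt ((h₀ + N + R - ht o) / A)
  rw [div_lt_iff₀ hA0] at hk
  obtain ⟨H, a1, a2, a3, a4, a5⟩ := ind k
  have hb' : ∀ p : closedBall o R, ht o - R ≤ ht p.1 ∧ ht p.1 ≤ ht o + R := fun p => by
    have := abs_le.1 ((abs_ht_le p.1 o).trans p.2)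
    constructor <;> linarith only [this.1, this.2]
  have R4 := R1.comp (fun p : closedBall o R => p.1) fun _ _ => le_rfl
  have R5 := (a5.mono (ℓ' := fun _ => (3 * A + C + C) * (N / A + 2)) fun p => by
    gcongr; exact min_le_right _ _).comp (fun p : closedBall o R => p.1) fun _ _ => le_rfl
  have e1 : (fun p : closedBall o R => ext o hR f (pt (box ρ p.1.x) (ht p.1))) = f := by
    funext p
    rw [box_eq (hρ' _ p.2), pt_ht, ext]
    congr 1
    exact Subtype.ext (geo_of_le o p.1 (mem_closedBall'.1 p.2))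
  have e2 : (fun p : closedBall o R => Lay g h₀ N H₀ p.1) = fun p => g p.1 :=
    funext fun p => lay_low ((hb' p).2.trans (le_max_left _ _))
  have e3 : (fun p : closedBall o R => Lay g (h₀ - k * A) N H p.1) = fun _ => q :=
    funext fun p => lay_top hN0 a2 (by linarith only [(hb' p).1, hk])
  rw [e1] at R4
  rw [e2, e3] at R5
  exact ⟨q, R4.trans R5⟩

end Pool.Agent.Work.MP_e25190_gt
end
end
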